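import Mathlib

set_option autoImplicit false

/-!
# Growing gain: definitions

Completely split polynomials of every large degree with many equal values (paper 221).
-/

namespace Pool.Agent.Lib.MP_176ace_nt.Gr

open Finset

/-- The subset sum `k(W)`. -/
def ssum {m : ℕ} (k : Fin m → ℕ) (W : Finset (Fin m)) : ℕ := ∑ a ∈ W, k a

/-- The sign of a subset. -/
def sg {m : ℕ} (W : Finset (Fin m)) : ℤ := (-1) ^ W.card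

/-- The alternating product `∏_W (n + k(W))^{(-1)^|W|}`. -/
noncomputable def uval {m : ℕ} (n : ℕ) (k : Fin m → ℕ) : ℚ :=
  ∏ W : Finset (Fin m), ((n + ssum k W : ℕ) : ℚ) ^ sg W

/-- Good shapes. -/
structure Shape (m M : ℕ) (k : Fin m → ℕ) : Prop where
  pos : ∀ a, 1 ≤ k a
  le : ∀ a, k a ≤ M
  dvd : ∀ a, m.factorial ∣ k a
  inj : Function.Injective (ssum k)

/-- The number of an index (`inl n`: small type, `inr p`: prime type). -/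
def nOf : ℕ ⊕ ℕ → ℕ := Sum.elim id id

/-- The shape of an index. -/
def kOf {m : ℕ} (kap : Fin m → ℕ) (kp : ℕ → Fin m → ℕ) : ℕ ⊕ ℕ → Fin m → ℕ :=
  Sum.elim (fun _ => kap) kp

/-- The functional `c` of Section 2, with its properties. -/
structure CFun (m : ℕ) where
  M1 : ℕ
  Q0 : ℕ
  N0 : ℕ
  C1 : ℕ
  kap : Fin m → ℕ
  kp : ℕ → Fin m → ℕ
  c : ℕ → (ℕ ⊕ ℕ) →₀ ℤ
  M1_pos : 1 ≤ M1
  Q0_ge : m * M1 ≤ Q0
  shape_kap : Shape m M1 kap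
  shape_kp : ∀ p, p.Prime → Q0 < p → Shape m M1 (kp p)
  comp : ∀ p, p.Prime → Q0 < p → ∀ W : Finset (Fin m), W.Nonempty →
    ¬ (p + ssum (kp p) W).Prime
  c_mul : ∀ a b, 1 ≤ a → 1 ≤ b → c (a * b) = c a + c b
  c_prod : ∀ n : ℕ, 1 ≤ n → (n : ℚ) = (c n).prod fun i z => uval (nOf i) (kOf kap kp i) ^ z
  c_supp : ∀ n i, c n i ≠ 0 →
    (∃ l, i = Sum.inl l ∧ 1 ≤ l ∧ l ≤ N0) ∨ (∃ p, i = Sum.inr p ∧ p.Prime ∧ Q0 < p)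
  growth : ∀ n, 1 ≤ n → (∑ i ∈ (c n).support, (c n i).natAbs) ^ 100 ≤ C1 * n
  near : ∀ p, p.Prime → Q0 < p → ∀ n, 1 ≤ n → c n (Sum.inr p) ≠ 0 →
    ∃ S : ℕ, 1 ≤ S ∧ |(n : ℤ) - S * p| ≤ (m * M1 : ℕ) * ((S : ℤ) - 1)
  one : ∀ p, p.Prime → Q0 < p → c p (Sum.inr p) = 1

/-- The sieve bound 3.3 with `e0 = 1 / K`. -/
def SieveOK (m K D0 : ℕ) : Prop :=
  ∀ (n δ lo : ℤ) (N : ℕ), 1 ≤ |δ| → |δ| ≤ m →
    K * #{y ∈ Ioc lo (lo + N) | (n + δ * y).toNat.Prime ∧ (D0 : ℤ) < n + δ * y} ≤ N + K * D0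

/-- The linear form `L_j(x, y) = x + j y`. -/
def L (j : ℕ) (v : ℤ × ℤ) : ℤ := v.1 + j * v.2

/-- All parameters (Section 4). -/
structure Par (m : ℕ) where
  hm : 2 ≤ m
  D : CFun m
  D0 : ℕ
  hsieve : SieveOK m (8 * m ^ 2 * (8 * (2 + 4 ^ m * (m * D.M1 + 1)))) D0
  b : ℕ
  hb : 10 ^ 6 * m ^ 3 * 4 ^ m * (8 * (2 + 4 ^ m * (m * D.M1 + 1))) * (D.M1 + 1) * (D0 + 1) *
    (D.N0 + 1) * (D.Q0 + 1) ≤ b
  hdiv : ∀ n : ℕ, 1 ≤ n → n ≤ 2 * b ^ 90 → #n.divisors ≤ b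
  hgr : ∀ n : ℕ, 1 ≤ n → n ≤ 2 * b ^ 90 → ∑ i ∈ (D.c n).support, (D.c n i).natAbs ≤ b

namespace Par

variable {m : ℕ} (P : Par m)

def M2 : ℕ := m * P.D.M1
def K6 : ℕ := 8 * (2 + 4 ^ m * (m * P.D.M1 + 1))
def X : ℕ := P.b ^ 90
def Y : ℕ := P.b ^ 30
def B0 : ℕ := P.b ^ 25
def B1 : ℕ := P.b ^ 3
def h0 : ℕ := P.b ^ 22
def h1 : ℕ := P.B1 / P.K6
def Ptop : ℕ := P.X - 2 * m * P.Y
/-- the first row below the special rows -/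
def Y1 : ℕ := P.Y - m * P.B1
/-- the addition row -/
def ya : ℕ := P.Y - P.b ^ 26 + 1

/-- the excluded points (only used in special rows) -/
def Exc (v : ℤ × ℤ) : Prop := ∃ i ≤ m, (L i v).natAbs.Prime ∧ P.Ptop < (L i v).natAbs

/-- the set of all points -/
noncomputable def V : Finset (ℤ × ℤ) :=
  {v ∈ Icc (-(P.X : ℤ)) P.X ×ˢ Ioc ((P.Y : ℤ) - P.b ^ 26) P.Y | Int.gcd v.1 v.2 < P.b ^ 3}

/-- the profile -/
noncomputable def psi (t : ℤ) : ℝ := min 1 (max 0 (7 - 8 * |(t : ℝ)| / P.X))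

open Classical in
/-- the weights -/
noncomputable def w (r : ℕ) (θ : ℝ) (v : ℤ × ℤ) : ℝ :=
  if (P.Y1 : ℤ) < v.2 then (if P.Exc v then 0 else 1 / 2)
  else if (P.Y1 : ℤ) - r < v.2 then P.psi v.1 / 2
  else if v.2 = (P.Y1 : ℤ) - r then θ * P.psi v.1 / 2 else 0

/-- the fractional imbalance `E_j(F)` -/
noncomputable def E (r : ℕ) (θ : ℝ) (j : ℕ) (F : ℕ → ℝ) : ℝ :=
  ∑ v ∈ P.V, P.w r θ v * (F (L j v).natAbs - F (L 0 v).natAbs)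

/-- the shape of an index -/
def kx (i : ℕ ⊕ ℕ) : Fin m → ℕ := kOf P.D.kap P.D.kp i

end Par

/-- The step of the row coordinate in direction `a`. -/
def tt {m : ℕ} (j : Fin (m + 1)) (s : ℕ) (k : Fin m → ℕ) (a : Fin m) : ℤ :=
  ((s * k a : ℕ) : ℤ) / (((j : ℕ) : ℤ) - ((j.succAbove a : ℕ) : ℤ))

/-- The row of a vertex. -/
def yv {m : ℕ} (j : Fin (m + 1)) (s : ℕ) (k : Fin m → ℕ) (y : ℤ) (W : Finset (Fin m)) : ℤ :=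
  y + ∑ a ∈ W, tt j s k a

/-- The value of `L_j` at a vertex. -/
def Nv {m : ℕ} (s n : ℕ) (k : Fin m → ℕ) (W : Finset (Fin m)) : ℕ := s * (n + ssum k W)

/-- The vertices of a cell. -/
def vtx {m : ℕ} (j : Fin (m + 1)) (n : ℕ) (k : Fin m → ℕ) (s : ℕ) (y : ℤ)
    (W : Finset (Fin m)) : ℤ × ℤ :=
  ((Nv s n k W : ℤ) - (j : ℕ) * yv j s k y W, yv j s k y W)

/-- A request: label, index, scale. -/
abbrev Req (m : ℕ) : Type := Fin (m + 1) × (ℕ ⊕ ℕ) × ℕ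

namespace Par

variable {m : ℕ} (P : Par m)

/-- the relevant indices -/
def idx : Finset (ℕ ⊕ ℕ) :=
  (Icc 1 P.D.N0).image Sum.inl ∪ ({p ∈ Icc 1 P.Ptop | p.Prime ∧ P.D.Q0 < p}).image Sum.inr

/-- the largest scale used for an index -/
def smax (i : ℕ ⊕ ℕ) : ℕ := if nOf i ≤ P.b ^ 74 then P.b ^ 14 else 1

/-- all requests -/
def R : Finset (Req m) :=
  {ρ ∈ (univ : Finset (Fin (m + 1))) ×ˢ P.idx ×ˢ Icc 1 (P.b ^ 14) |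
    ρ.1 ≠ 0 ∧ ρ.2.2 ≤ P.smax ρ.2.1}

/-- half of the number of cells of a request -/
def hq (i : ℕ ⊕ ℕ) : ℕ := if 3 * nOf i ≤ 2 * P.X then P.h0 else P.h1

/-- the lower end of the block of rows -/
def lo (j : Fin (m + 1)) (i : ℕ ⊕ ℕ) : ℤ :=
  if 3 * nOf i ≤ 2 * P.X then (P.Y1 : ℤ) - (j : ℕ) * P.B0 else (P.Y : ℤ) - (j : ℕ) * P.B1

/-- the length of the block of rows -/
def len (i : ℕ ⊕ ℕ) : ℕ := if 3 * nOf i ≤ 2 * P.X then P.B0 else P.B1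

/-- the vertices of the cell of the request `ρ` at the row `y` -/
def vx (ρ : Req m) (y : ℤ) (W : Finset (Fin m)) : ℤ × ℤ :=
  vtx ρ.1 (nOf ρ.2.1) (P.kx ρ.2.1) ρ.2.2 y W

/-- the value `N_W` -/
def NW (ρ : Req m) (W : Finset (Fin m)) : ℕ := Nv ρ.2.2 (nOf ρ.2.1) (P.kx ρ.2.1) W

open Classical in
/-- the candidates of a request -/
noncomputable def Cand (ρ : Req m) : Finset ℤ :=
  {y ∈ Ioc (P.lo ρ.1 ρ.2.1) (P.lo ρ.1 ρ.2.1 + P.len ρ.2.1) |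
    ∀ W, (P.vx ρ y W).2 ∈ Ioc (P.lo ρ.1 ρ.2.1) (P.lo ρ.1 ρ.2.1 + P.len ρ.2.1) ∧
      Int.gcd (P.vx ρ y W).1 (P.vx ρ y W).2 < P.b ^ 3 ∧
      (2 * P.X < 3 * nOf ρ.2.1 → ¬ P.Exc (P.vx ρ y W))}

end Par

end Pool.Agent.Lib.MP_176ace_nt.Gr
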