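import Mathlib
import Pool.Agent.Lib.MP_176ace_nt.Gr.Defs

section

section

set_option autoImplicit false

/-!
# Growing gain: more definitions (paper 221, Sections 5-9)
-/

namespace Pool.Agent.Lib.MP_176ace_nt.Gr

open Finset

namespace Par

variable {m : ℕ} (P : Par m)

/-- the relative value of the functional `c` -/
noncomputable def cr (j : ℕ) (i : ℕ ⊕ ℕ) (v : ℤ × ℤ) : ℤ :=
  P.D.c (L j v).natAbs i - P.D.c (L 0 v).natAbs i

/-- the functional `c_i` as a real function -/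
noncomputable def cF (i : ℕ ⊕ ℕ) (n : ℕ) : ℝ := (P.D.c n i : ℝ)

/-- `β = 2 m b + 1` -/
def beta : ℕ := 2 * m * P.b + 1

/-- the weights before the exclusion -/
noncomputable def w0 (r : ℕ) (θ : ℝ) (v : ℤ × ℤ) : ℝ :=
  if (P.Y1 : ℤ) < v.2 then 1 / 2
  else if (P.Y1 : ℤ) - r < v.2 then P.psi v.1 / 2
  else if v.2 = (P.Y1 : ℤ) - r then θ * P.psi v.1 / 2 else 0

open Classical in
/-- the excluded points of the special rows -/
noncomputable def ExcV : Finset (ℤ × ℤ) := {v ∈ P.V | (P.Y1 : ℤ) < v.2 ∧ P.Exc v}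

/-- the even (`ε = 1`) or odd (`ε = -1`) vertices of a cell -/
def half (ρ : Req m) (y ε : ℤ) : Finset (ℤ × ℤ) :=
  image (P.vx ρ y) {W : Finset (Fin m) | sg W = ε}

/-- the chosen halves of the chosen cells -/
def T3 (Ch Mi : Req m → Finset ℤ) : Finset (ℤ × ℤ) :=
  P.R.biUnion fun ρ => (Ch ρ).biUnion fun y => P.half ρ y (if y ∈ Mi ρ then -1 else 1)

/-- all vertices of the chosen cells -/
def Vres (Ch : Req m → Finset ℤ) : Finset (ℤ × ℤ) :=
  P.R.biUnion fun ρ => (Ch ρ).biUnion fun y => univ.image (P.vx ρ y)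

/-- A choice of cells for all requests. -/
structure Sel where
  Ch : Req m → Finset ℤ
  sub : ∀ ρ ∈ P.R, Ch ρ ⊆ P.Cand ρ
  card : ∀ ρ ∈ P.R, #(Ch ρ) = 2 * P.hq ρ.2.1
  disj : ∀ ρ ∈ P.R, ∀ ρ' ∈ P.R, ρ ≠ ρ' → ∀ y ∈ Ch ρ, ∀ y' ∈ Ch ρ', ∀ W W',
    P.vx ρ y W ≠ P.vx ρ' y' W'

/-- Everything except the choice of the states of the cells. -/
structure Cfg (d : ℕ) where
  S : P.Sel
  r : ℕ
  θ : ℝ
  hr : m * P.B0 ≤ r
  hr' : r < 100 * m * P.B0
  hθ : 0 ≤ θ
  hθ' : θ ≤ 1
  size : ∑ v ∈ P.V, P.w r θ v = (d : ℝ) - (m + 2) - P.beta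
  T1 : Finset (ℤ × ℤ)
  T1_sub : T1 ⊆ P.V \ P.Vres S.Ch
  T1_w : ∀ v ∈ T1, P.w r θ v ≠ 0
  T1_cr : ∀ j ∈ Icc 1 m, ∀ i ∈ P.idx, |∑ v ∈ T1, (P.cr j i v : ℝ) -
    ∑ v ∈ P.V \ P.Vres S.Ch, P.w r θ v * P.cr j i v| ≤ P.beta
  T2 : Finset (ℤ × ℤ)
  T2_V : T2 ⊆ P.V
  T2_ya : ∀ v ∈ T2, v.2 = P.ya
  T2_L : ∀ v ∈ T2, ∀ j ≤ m, 2 * (L j v).natAbs ≤ P.X
  T2_card : #T1 + #T2 + #(P.T3 S.Ch fun _ => ∅) = d
  T2_le : #T2 ≤ m + 2 + 2 * P.beta
  T2_sign : ∀ j ∈ Icc 1 m, 0 < (∏ v ∈ T1, L j v) * (∏ v ∈ T2, L j v) *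
    ∏ v ∈ P.T3 S.Ch fun _ => ∅, L j v
  T2_big : ∃ v ∈ T2, (m : ℤ) * v.2 < -v.1

variable {P} in
/-- the final set, for given states `Mi` -/
def Cfg.T {d : ℕ} (C : P.Cfg d) (Mi : Req m → Finset ℤ) : Finset (ℤ × ℤ) :=
  C.T1 ∪ C.T2 ∪ P.T3 C.S.Ch Mi

end Par

end Pool.Agent.Lib.MP_176ace_nt.Gr
end

section

set_option autoImplicit false

/-!
# Ineq: inequalities between the parameters

Everything follows from `P.hb` (and `P.hm : 2 ≤ m`): the constant on the left of `P.hb` is a product of positive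
factors, so every factor and every product of some of them is `≤ b`. Scheme: first show `cst ≤ b` for the constant `cst`
that is needed, then multiply: `c * b ^ i ≤ b ^ (i + 1)`.
-/

namespace Pool.Agent.Lib.MP_176ace_nt.Gr

open Finset

namespace Par

variable {m : ℕ} (P : Par m)

theorem cst3_le : 10 ^ 6 * m ^ 3 * 4 ^ m * P.K6 * (P.D.M1 + 1) * (P.D0 + 1) * (P.D.N0 + 1) *
    (P.D.Q0 + 1) ≤ P.b := P.hb

/-- the constant of `hb` with `K6`, `M2` -/
theorem cst_le : 10 ^ 6 * m ^ 2 * 4 ^ m * P.K6 * (P.M2 + 1) * (P.D0 + 1) * (P.D.N0 + 1) *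
    (P.D.Q0 + 1) ≤ P.b := by
  refine le_trans ?_ P.cst3_le
  have hm := P.hm
  have h1 : P.M2 + 1 ≤ m * (P.D.M1 + 1) := by
    unfold M2
    nlinarith
  calc 10 ^ 6 * m ^ 2 * 4 ^ m * P.K6 * (P.M2 + 1) * (P.D0 + 1) * (P.D.N0 + 1) * (P.D.Q0 + 1)
      ≤ 10 ^ 6 * m ^ 2 * 4 ^ m * P.K6 * (m * (P.D.M1 + 1)) * (P.D0 + 1) * (P.D.N0 + 1) *
        (P.D.Q0 + 1) := by gcongr
    _ = _ := by ring

include P in
theorem m_pos : 1 ≤ m := le_trans (by norm_num) P.hm

theorem K6_pos : 1 ≤ P.K6 := by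
  unfold K6
  have : 1 ≤ 2 + 4 ^ m * (m * P.D.M1 + 1) := by omega
  omega

theorem M2_pos : 1 ≤ P.M2 := Nat.mul_pos P.m_pos P.D.M1_pos

theorem prod_aux {A B : ℕ} (hA : 1 ≤ A) (h : A * B ≤ P.b) : B ≤ P.b :=
  le_trans (Nat.le_mul_of_pos_left _ hA) h

theorem M2_le : 10 ^ 6 * (m ^ 2 * (P.M2 + 1)) ≤ P.b := by
  have h := P.cst_le
  have hK := P.K6_pos
  refine P.prod_aux (A := 4 ^ m * P.K6 * (P.D0 + 1) * (P.D.N0 + 1) * (P.D.Q0 + 1)) ?_ ?_
  · have : 0 < 4 ^ m := by positivity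
    have h2 : 0 < P.K6 := hK
    have h3 : 0 < 4 ^ m * P.K6 * (P.D0 + 1) * (P.D.N0 + 1) * (P.D.Q0 + 1) := by positivity
    exact h3
  · calc _ = 10 ^ 6 * m ^ 2 * 4 ^ m * P.K6 * (P.M2 + 1) * (P.D0 + 1) * (P.D.N0 + 1) *
        (P.D.Q0 + 1) := by ring
      _ ≤ _ := h

theorem K6_le : 10 ^ 6 * (m ^ 2 * P.K6 * (P.D0 + 1)) ≤ P.b := by
  have h := P.cst_le
  refine P.prod_aux (A := 4 ^ m * (P.M2 + 1) * (P.D.N0 + 1) * (P.D.Q0 + 1)) ?_ ?_
  · have h3 : 0 < 4 ^ m * (P.M2 + 1) * (P.D.N0 + 1) * (P.D.Q0 + 1) := by positivity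
    exact h3
  · calc _ = 10 ^ 6 * m ^ 2 * 4 ^ m * P.K6 * (P.M2 + 1) * (P.D0 + 1) * (P.D.N0 + 1) *
        (P.D.Q0 + 1) := by ring
      _ ≤ _ := h

theorem four_pow_le : 10 ^ 6 * (4 ^ m * (P.M2 + 1)) ≤ P.b := by
  have h := P.cst_le
  have hm : 0 < m := P.m_pos
  have hK : 0 < P.K6 := P.K6_pos
  refine P.prod_aux (A := m ^ 2 * P.K6 * (P.D0 + 1) * (P.D.N0 + 1) * (P.D.Q0 + 1)) ?_ ?_
  · have h3 : 0 < m ^ 2 * P.K6 * (P.D0 + 1) * (P.D.N0 + 1) * (P.D.Q0 + 1) := by positivity
    exact h3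
  · calc _ = 10 ^ 6 * m ^ 2 * 4 ^ m * P.K6 * (P.M2 + 1) * (P.D0 + 1) * (P.D.N0 + 1) *
        (P.D.Q0 + 1) := by ring
      _ ≤ _ := h

theorem N0_le : P.D.N0 + 1 ≤ P.b := by
  have h := P.cst_le
  have hm : 0 < m := P.m_pos
  have hK : 0 < P.K6 := P.K6_pos
  refine P.prod_aux (A := 10 ^ 6 * m ^ 2 * 4 ^ m * P.K6 * (P.M2 + 1) * (P.D0 + 1) *
    (P.D.Q0 + 1)) ?_ ?_
  · have h3 : 0 < 10 ^ 6 * m ^ 2 * 4 ^ m * P.K6 * (P.M2 + 1) * (P.D0 + 1) *
      (P.D.Q0 + 1) := by positivity
    exact h3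
  · calc _ = 10 ^ 6 * m ^ 2 * 4 ^ m * P.K6 * (P.M2 + 1) * (P.D0 + 1) * (P.D.N0 + 1) *
        (P.D.Q0 + 1) := by ring
      _ ≤ _ := h

theorem Q0_lt : P.D.Q0 + 1 ≤ P.b := by
  have h := P.cst_le
  have hm : 0 < m := P.m_pos
  have hK : 0 < P.K6 := P.K6_pos
  refine P.prod_aux (A := 10 ^ 6 * m ^ 2 * 4 ^ m * P.K6 * (P.M2 + 1) * (P.D0 + 1) *
    (P.D.N0 + 1)) ?_ h
  have h3 : 0 < 10 ^ 6 * m ^ 2 * 4 ^ m * P.K6 * (P.M2 + 1) * (P.D0 + 1) *
    (P.D.N0 + 1) := by positivity
  exact h3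

theorem m_le : 10 ^ 6 * m ^ 2 ≤ P.b := by
  refine le_trans ?_ P.M2_le
  gcongr
  exact Nat.le_mul_of_pos_right _ (by omega)

theorem b_big : 10 ^ 6 ≤ P.b := by
  refine le_trans ?_ P.m_le
  have hm : 0 < m := P.m_pos
  exact Nat.le_mul_of_pos_right _ (by positivity)

/-- absorbing a constant -/
theorem absorb {c : ℕ} (hc : c ≤ P.b) (i : ℕ) : c * P.b ^ i ≤ P.b ^ (i + 1) := by
  rw [pow_succ']
  exact Nat.mul_le_mul_right _ hc

theorem b_pos : 0 < P.b := lt_of_lt_of_le (by norm_num) P.b_big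

theorem X_pos : 0 < P.X := pow_pos P.b_pos _

theorem Y_pos : 0 < P.Y := pow_pos P.b_pos _

theorem mY_le : 1000 * (m * P.Y) ≤ P.X := by
  have h1 : 1000 * m ≤ P.b := by
    refine le_trans ?_ P.m_le
    have hm := P.m_pos
    nlinarith
  calc 1000 * (m * P.Y) = 1000 * m * P.b ^ 30 := by rw [Y, mul_assoc]
    _ ≤ P.b ^ 31 := P.absorb h1 30
    _ ≤ P.b ^ 90 := Nat.pow_le_pow_right P.b_pos (by norm_num)
    _ = P.X := rfl

/-- `Ptop` is not truncated -/
theorem Ptop_eq : P.Ptop + 2 * m * P.Y = P.X := by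
  unfold Ptop
  have := P.mY_le
  have h2 : 2 * m * P.Y = 2 * (m * P.Y) := by ring
  omega

theorem XmY_le : P.X + m * P.Y ≤ 2 * P.X := by
  have := P.mY_le
  omega

theorem mB1_le : m * P.B1 ≤ P.b ^ 4 := by
  have h1 : m ≤ P.b := by
    refine le_trans ?_ P.m_le
    have hm := P.m_pos
    nlinarith
  exact P.absorb h1 3

/-- `Y1` is not truncated, and the rows used lie in the window -/
theorem Y1_eq : P.Y1 + m * P.B1 = P.Y := by
  unfold Y1
  have h1 := P.mB1_le
  have h2 : P.b ^ 4 ≤ P.Y := Nat.pow_le_pow_right P.b_pos (by norm_num)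
  omega

theorem rows_le : 100 * m * P.B0 + m * P.B1 + 1 < P.b ^ 26 := by
  have hm := P.m_pos
  have h1 : 100 * m + m + 1 < P.b := by
    refine lt_of_lt_of_le ?_ P.m_le
    nlinarith
  have h2 : P.B1 ≤ P.b ^ 25 := Nat.pow_le_pow_right P.b_pos (by norm_num)
  have h3 : 1 ≤ P.b ^ 25 := Nat.one_le_pow _ _ P.b_pos
  calc 100 * m * P.B0 + m * P.B1 + 1 ≤ 100 * m * P.b ^ 25 + m * P.b ^ 25 + P.b ^ 25 := by
        unfold B0
        gcongr
    _ = (100 * m + m + 1) * P.b ^ 25 := by ring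
    _ < P.b * P.b ^ 25 := Nat.mul_lt_mul_of_pos_right h1 (by omega)
    _ = P.b ^ 26 := by ring

/-- `2 b^26 b^3 ≤ Y` -/
theorem window_le : 2 * P.b ^ 29 ≤ P.Y := by
  have := P.b_big
  exact P.absorb (by omega) 29

theorem b26_le : P.b ^ 26 ≤ P.Y := Nat.pow_le_pow_right P.b_pos (by norm_num)

theorem ya_eq : P.ya + P.b ^ 26 = P.Y + 1 := by
  unfold ya
  have := P.b26_le
  omega

theorem ya_lt : (P.ya : ℤ) < (P.Y1 : ℤ) - (100 * m * P.B0 : ℕ) := by
  have h1 := P.ya_eq
  have h2 := P.Y1_eq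
  have h3 := P.rows_le
  have h4 : P.ya + 100 * m * P.B0 < P.Y1 := by omega
  have h5 : ((P.ya + 100 * m * P.B0 : ℕ) : ℤ) < (P.Y1 : ℤ) := by exact_mod_cast h4
  rw [Nat.cast_add] at h5
  linarith

theorem h1_le : P.K6 * P.h1 ≤ P.B1 := Nat.mul_div_le _ _

theorem lt_h1 : P.B1 < P.K6 * (P.h1 + 1) := by
  unfold h1
  exact Nat.lt_mul_div_succ _ P.K6_pos

theorem h1_pos : 1 ≤ P.h1 := by
  unfold h1
  refine (Nat.one_le_div_iff P.K6_pos).2 ?_
  have h1 : P.K6 ≤ P.b := by
    refine le_trans ?_ P.K6_le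
    have hm := P.m_pos
    have h2 : 1 ≤ m ^ 2 := Nat.one_le_pow _ _ hm
    calc P.K6 = 1 * (1 * P.K6 * 1) := by ring
      _ ≤ 10 ^ 6 * (m ^ 2 * P.K6 * (P.D0 + 1)) := by
        gcongr
        · norm_num
        · omega
  refine le_trans h1 ?_
  unfold B1
  exact Nat.le_self_pow (by norm_num) _

theorem beta_le : 4 * P.beta + 2 * P.b ≤ P.b ^ 2 := by
  unfold beta
  have hm := P.m_pos
  have h1 : 8 * m + 6 ≤ P.b := by
    refine le_trans ?_ P.m_le
    nlinarith
  have h2 := P.b_big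
  calc 4 * (2 * m * P.b + 1) + 2 * P.b = (8 * m + 2) * P.b + 4 := by ring
    _ ≤ (8 * m + 2) * P.b + 4 * P.b := by omega
    _ = (8 * m + 6) * P.b := by ring
    _ ≤ P.b * P.b := Nat.mul_le_mul_right _ h1
    _ = P.b ^ 2 := by ring

end Par

end Pool.Agent.Lib.MP_176ace_nt.Gr
end
end

section

section

set_option autoImplicit false

/-!
# Gen1: completely additive polynomial maps vanish

`f : ℕ → A` with `f (a b) = f a + f b` (for `a, b ≥ 1`) and `D_1^m f = 0` on `n ≥ 1`, where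
`(D_a F)(n) = F n - F (n + a)`, `m ≥ 1`. Then `f n = 0` for all `n ≥ 1`.

Proof (paper 221, Lemma 2.1, second half), induction on `m`. `m = 1`: `f n = f (n+1)` for all `n ≥ 1`,
so `f n = f 1 = 0`. `m = m' + 1` with `m' ≥ 1`: `D_1^{m'} f n =: c` does not depend on `n ≥ 1`. For `a ≥ 1`:
`D_a = (1 + S + ... + S^{a-1}) D_1` (`S` = shift by one), so `D_a^{m'} f n = a^{m'} • c` for `n ≥ 1`; and
`D_a^{m'} f (a n) = D_1^{m'} f n = c`, since `f (a (n+i)) = f a + f (n+i)` and the constant `f a` cancels (`m' ≥ 1`).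
So `(a^{m'} - 1) • c = 0` for all `a ≥ 1`. With `a = 2`: `N := 2^{m'} - 1 ≥ 1` satisfies `N • c = 0`, so
`N^{m'} • c = 0`; with `a = N`: `(N^{m'} - 1) • c = 0`; so `c = 0`. Induction hypothesis.

Hint: use an operator `D (a : ℕ) (F : ℕ → A) : ℕ → A := fun n => F n - F (n + a)` and `(D a)^[m]`.
-/

namespace Pool.Agent.Lib.MP_176ace_nt.Gr

/-- the difference operator -/
def Dop {A : Type*} [AddCommGroup A] (a : ℕ) (F : ℕ → A) : ℕ → A := fun n => F n - F (n + a)

private theorem gen1_comm {A : Type*} [AddCommGroup A] (a b : ℕ) (F : ℕ → A) :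
    Dop a (Dop b F) = Dop b (Dop a F) := by
  funext n
  simp only [Dop]
  rw [show n + b + a = n + a + b by ring]
  abel

private theorem gen1_comm_iter {A : Type*} [AddCommGroup A] (a b : ℕ) (m : ℕ) (F : ℕ → A) :
    (Dop a)^[m] (Dop b F) = Dop b ((Dop a)^[m] F) := by
  induction m generalizing F with
  | zero => rfl
  | succ m ih => rw [Function.iterate_succ_apply, Function.iterate_succ_apply, gen1_comm, ih]

private theorem gen1_sum {A : Type*} [AddCommGroup A] (G : ℕ → A) (c : A)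
    (hG : ∀ n, 1 ≤ n → G n - G (n + 1) = c) (a : ℕ) : ∀ n, 1 ≤ n → G n - G (n + a) = a • c := by
  induction a with
  | zero => intro n _; simp
  | succ a ih =>
    intro n hn
    have h1 := ih n hn
    have h2 := hG (n + a) (by omega)
    rw [succ_nsmul, ← h1, ← h2, show n + (a + 1) = n + a + 1 by ring]
    abel

private theorem gen1_pow {A : Type*} [AddCommGroup A] (a m : ℕ) :
    ∀ (F : ℕ → A) (c : A), (∀ n, 1 ≤ n → (Dop 1)^[m] F n = c) →
      ∀ n, 1 ≤ n → (Dop a)^[m] F n = (a ^ m) • c := by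
  induction m with
  | zero => intro F c h n hn; simpa using h n hn
  | succ m ih =>
    intro F c h n hn
    rw [Function.iterate_succ_apply, pow_succ, mul_nsmul']
    refine ih (Dop a F) (a • c) ?_ n hn
    intro n hn
    rw [gen1_comm_iter]
    refine gen1_sum _ c ?_ a n hn
    intro n hn
    have h1 := h n hn
    rw [Function.iterate_succ_apply'] at h1
    exact h1

private theorem gen1_scale {A : Type*} [AddCommGroup A] (a m : ℕ) :
    ∀ (F F' : ℕ → A), (∀ n, 1 ≤ n → F (a * n) = F' n) →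
      ∀ n, 1 ≤ n → (Dop a)^[m] F (a * n) = (Dop 1)^[m] F' n := by
  induction m with
  | zero => intro F F' h n hn; exact h n hn
  | succ m ih =>
    intro F F' h n hn
    rw [Function.iterate_succ_apply, Function.iterate_succ_apply]
    refine ih (Dop a F) (Dop 1 F') ?_ n hn
    intro n hn
    simp only [Dop]
    rw [h n hn, ← h (n + 1) (by omega), show a * (n + 1) = a * n + a by ring]

theorem additive_poly_zero {A : Type*} [AddCommGroup A] (f : ℕ → A)
    (hf : ∀ a b, 1 ≤ a → 1 ≤ b → f (a * b) = f a + f b) (m : ℕ) (hm : 1 ≤ m)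
    (h : ∀ n, 1 ≤ n → (Dop 1)^[m] f n = 0) : ∀ n, 1 ≤ n → f n = 0 := by
  have hf1 : f 1 = 0 := by
    have := hf 1 1 le_rfl le_rfl
    rw [mul_one] at this
    exact left_eq_add.1 this
  induction m, hm using Nat.le_induction with
  | base =>
    intro n hn
    induction n, hn using Nat.le_induction with
    | base => exact hf1
    | succ n hn ih =>
      have h1 := h n hn
      simp only [Function.iterate_one, Dop] at h1
      rw [← ih]
      exact (sub_eq_zero.1 h1).symm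
  | succ m hm ih =>
    refine ih ?_
    -- the constant
    set c : A := (Dop 1)^[m] f 1 with hc
    have hconst : ∀ n, 1 ≤ n → (Dop 1)^[m] f n = c := by
      intro n hn
      induction n, hn using Nat.le_induction with
      | base => rfl
      | succ n hn ihn =>
        have h1 := h n hn
        rw [Function.iterate_succ_apply'] at h1
        rw [← ihn]
        exact (sub_eq_zero.1 h1).symm
    have key : ∀ a, 1 ≤ a → (a ^ m) • c = c := by
      intro a ha
      have h1 := gen1_pow a m f c hconst (a * 1) (by omega)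
      have h2 := gen1_scale a m f (fun n => f a + f n) (fun n hn => hf a n ha hn) 1 le_rfl
      rw [← h1, h2, ← hconst 1 le_rfl]
      obtain ⟨k, rfl⟩ : ∃ k, m = k + 1 := ⟨m - 1, by omega⟩
      rw [Function.iterate_succ_apply, Function.iterate_succ_apply]
      have : Dop 1 (fun n => f a + f n) = Dop 1 f := by
        funext n
        simp only [Dop]
        abel
      rw [this]
    have hc0 : c = 0 := by
      have h2m : 2 ≤ 2 ^ m := by
        calc 2 = 2 ^ 1 := by norm_num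
          _ ≤ 2 ^ m := Nat.pow_le_pow_right (by norm_num) hm
      obtain ⟨N, hN⟩ : ∃ N, 2 ^ m = N + 1 := ⟨2 ^ m - 1, by omega⟩
      have h1 := key 2 (by norm_num)
      rw [hN, succ_nsmul] at h1
      have h3 : N • c = 0 := by simpa using h1
      have h4 := key N (by omega)
      obtain ⟨k, rfl⟩ : ∃ k, m = k + 1 := ⟨m - 1, by omega⟩
      rw [← h4, pow_succ, mul_nsmul', h3, nsmul_zero]
    intro n hn
    rw [hconst n hn, hc0]

end Pool.Agent.Lib.MP_176ace_nt.Gr
end

section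

set_option autoImplicit false

/-!
# Shp: shapes (paper 221, Lemma 2.2)

Proof of `exists_shape`. `k a = m! * k' a`, where `k' a` is in `[1, 2^m ∏ l_W]` and satisfies the congruences
`k' a ≡ 2^a mod 2^m` (`a : Fin m`, as a natural number `0 ≤ a < m`) and, for every nonempty `W`, mod `l W`:
`k' a * m! ≡ -p` if `a` is the least element of `W`, and `k' a ≡ 0` otherwise (Chinese remainder theorem: the
numbers `l W` are distinct odd primes, and `m!` is invertible mod `l W` because `l W > m`). Then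
* the subset sums of `k'` are distinct mod `2^m` (they are the numbers with the given binary digits), so the
  subset sums of `k = m! k'` are distinct;
* for `W` nonempty only the least element of `W` contributes to `k(W)` mod `l W`, and it contributes `-p`.

`exists_primes`: infinitely many primes.

`shape_kap`: `κ_a = m! * 2^a` is a good shape for every `M ≥ m! 2^m`.
-/

namespace Pool.Agent.Lib.MP_176ace_nt.Gr

open Finset

theorem exists_primes (m B : ℕ) : ∃ l : Finset (Fin m) → ℕ, Function.Injective l ∧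
    ∀ W, (l W).Prime ∧ B < l W := by
  have hmono : StrictMono (Nat.nth Nat.Prime) := Nat.nth_strictMono Nat.infinite_setOfPred_prime
  let e := Fintype.equivFin (Finset (Fin m))
  refine ⟨fun W => Nat.nth Nat.Prime (B + 1 + (e W : ℕ)), ?_, ?_⟩
  · intro W W' h
    have h1 := hmono.injective h
    apply e.injective
    apply Fin.ext
    omega
  · intro W
    refine ⟨Nat.prime_nth_prime _, ?_⟩
    have h1 : B + 1 + (e W : ℕ) ≤ Nat.nth Nat.Prime (B + 1 + (e W : ℕ)) := hmono.le_apply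
    change B < Nat.nth Nat.Prime (B + 1 + (e W : ℕ))
    omega

private theorem shp_two_lt {m : ℕ} (W : Finset (Fin m)) : ∑ a ∈ W, 2 ^ (a : ℕ) < 2 ^ m := by
  have h1 : ∑ a ∈ W, 2 ^ (a : ℕ) = ∑ i ∈ W.map Fin.valEmbedding, 2 ^ i := by
    rw [Finset.sum_map]
    rfl
  rw [h1]
  apply Nat.geomSum_lt (le_refl 2)
  intro k hk
  obtain ⟨a, -, rfl⟩ := Finset.mem_map.1 hk
  exact a.2

private theorem shp_two_inj {m : ℕ} {W W' : Finset (Fin m)}
    (h : ∑ a ∈ W, 2 ^ (a : ℕ) = ∑ a ∈ W', 2 ^ (a : ℕ)) : W = W' := by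
  have h1 : ∀ W : Finset (Fin m), ∑ a ∈ W, 2 ^ (a : ℕ) = ∑ i ∈ W.map Fin.valEmbedding, 2 ^ i := by
    intro W
    rw [Finset.sum_map]
    rfl
  rw [h1, h1] at h
  have h2 := Finset.geomSum_injective (le_refl 2) h
  exact Finset.map_injective _ h2

private theorem shp_res {q m : ℕ} (hq : q.Prime) (hmq : m < q) (p : ℕ) :
    ∃ r : ℕ, q ∣ p + m.factorial * r := by
  have := Fact.mk hq
  have hne : ((m.factorial : ℕ) : ZMod q) ≠ 0 := by
    rw [Ne, ZMod.natCast_eq_zero_iff, hq.dvd_factorial]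
    omega
  refine ⟨(-(p : ZMod q) * ((m.factorial : ℕ) : ZMod q)⁻¹).val, ?_⟩
  rw [← ZMod.natCast_eq_zero_iff]
  push_cast
  rw [ZMod.natCast_val, ZMod.cast_id]
  field_simp
  ring

theorem exists_shape {m : ℕ} (hm : 1 ≤ m) (l : Finset (Fin m) → ℕ) (hinj : Function.Injective l)
    (hl : ∀ W, (l W).Prime ∧ m + 2 < l W) (p : ℕ) :
    ∃ k : Fin m → ℕ, Shape m (m.factorial * (2 ^ m * ∏ W : Finset (Fin m), l W)) k ∧
      ∀ W : Finset (Fin m), W.Nonempty → l W ∣ p + ssum k W := by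
  have hr : ∀ W, ∃ r : ℕ, l W ∣ p + m.factorial * r := fun W =>
    shp_res (hl W).1 (by have := (hl W).2; omega) p
  choose r hr using hr
  -- the moduli
  let s : Option (Finset (Fin m)) → ℕ := fun o => o.elim (2 ^ m) l
  let ra : Fin m → Option (Finset (Fin m)) → ℕ := fun a o =>
    o.elim (2 ^ (a : ℕ)) (fun W => if ∃ h : W.Nonempty, W.min' h = a then r W else 0)
  have hs : ∀ i ∈ (univ : Finset (Option (Finset (Fin m)))), s i ≠ 0 := by
    rintro (_ | W) -
    · exact (pow_pos (by norm_num) m).ne'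
    · exact (hl W).1.ne_zero
  have hodd : ∀ W, Nat.Coprime 2 (l W) := by
    intro W
    rw [Nat.coprime_primes Nat.prime_two (hl W).1]
    have := (hl W).2
    omega
  have pp : Set.Pairwise (↑(univ : Finset (Option (Finset (Fin m)))) : Set (Option (Finset (Fin m))))
      (Function.onFun Nat.Coprime s) := by
    rintro (_ | W) - (_ | W') - hne
    · exact absurd rfl hne
    · exact Nat.Coprime.pow_left m (hodd W')
    · exact (Nat.Coprime.pow_left m (hodd W)).symm
    · refine (Nat.coprime_primes (hl W).1 (hl W').1).2 fun h => hne ?_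
      rw [hinj h]
  let k' : Fin m → ℕ := fun a => (Nat.chineseRemainderOfFinset (ra a) s univ hs pp : ℕ)
  have hk'mod : ∀ a i, k' a ≡ ra a i [MOD s i] := fun a i =>
    (Nat.chineseRemainderOfFinset (ra a) s univ hs pp).2 i (Finset.mem_univ i)
  have hk'lt : ∀ a, k' a < 2 ^ m * ∏ W : Finset (Fin m), l W := by
    intro a
    have h1 := Nat.chineseRemainderOfFinset_lt_prod (ra a) s hs pp
    rw [Fintype.prod_option] at h1
    exact h1
  have hk'2 : ∀ a, k' a ≡ 2 ^ (a : ℕ) [MOD 2 ^ m] := fun a => hk'mod a none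
  have hk'pos : ∀ a, 1 ≤ k' a := by
    intro a
    by_contra hcon
    have h0 : k' a = 0 := by omega
    have h1 := hk'2 a
    rw [h0] at h1
    have h2 := (Nat.modEq_zero_iff_dvd.1 h1.symm)
    have h3 := Nat.le_of_dvd (pow_pos (by norm_num) _) h2
    have h4 : 2 ^ (a : ℕ) < 2 ^ m := Nat.pow_lt_pow_right (by norm_num) a.2
    omega
  have hfac : 0 < m.factorial := Nat.factorial_pos m
  refine ⟨fun a => m.factorial * k' a, ⟨?_, ?_, ?_, ?_⟩, ?_⟩
  · intro a
    exact Nat.mul_pos hfac (hk'pos a)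
  · intro a
    exact Nat.mul_le_mul_left _ (hk'lt a).le
  · intro a
    exact Dvd.intro _ rfl
  · intro W W' h
    have h1 : ∑ a ∈ W, k' a = ∑ a ∈ W', k' a := by
      have h2 : m.factorial * ∑ a ∈ W, k' a = m.factorial * ∑ a ∈ W', k' a := by
        rw [Finset.mul_sum, Finset.mul_sum]
        exact h
      exact Nat.eq_of_mul_eq_mul_left hfac h2
    have h2 : ∀ W : Finset (Fin m), ∑ a ∈ W, k' a ≡ ∑ a ∈ W, 2 ^ (a : ℕ) [MOD 2 ^ m] := by
      intro W
      induction W using Finset.induction_on with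
      | empty => simp; rfl
      | insert a W ha ih =>
        rw [Finset.sum_insert ha, Finset.sum_insert ha]
        exact (hk'2 a).add ih
    have h3 : ∑ a ∈ W, 2 ^ (a : ℕ) ≡ ∑ a ∈ W', 2 ^ (a : ℕ) [MOD 2 ^ m] :=
      ((h2 W).symm.trans (by rw [h1])).trans (h2 W')
    exact shp_two_inj (Nat.ModEq.eq_of_lt_of_lt h3 (shp_two_lt W) (shp_two_lt W'))
  · intro W hW
    set a₀ := W.min' hW with ha₀
    have ha₀W : a₀ ∈ W := Finset.min'_mem W hW
    have h1 : k' a₀ ≡ r W [MOD l W] := by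
      have h2 := hk'mod a₀ (some W)
      have h3 : ra a₀ (some W) = r W := by
        change (if ∃ h : W.Nonempty, W.min' h = a₀ then r W else 0) = r W
        rw [if_pos ⟨hW, rfl⟩]
      rw [h3] at h2
      exact h2
    have h2 : ∀ a ∈ W.erase a₀, l W ∣ k' a := by
      intro a ha
      have h3 := hk'mod a (some W)
      have h4 : ra a (some W) = 0 := by
        change (if ∃ h : W.Nonempty, W.min' h = a then r W else 0) = 0
        rw [if_neg]
        rintro ⟨h6, h5⟩
        exact (Finset.ne_of_mem_erase ha) h5.symm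
      rw [h4] at h3
      exact Nat.modEq_zero_iff_dvd.1 h3
    have h3 : p + ssum (fun a => m.factorial * k' a) W =
        (p + m.factorial * k' a₀) + ∑ a ∈ W.erase a₀, m.factorial * k' a := by
      unfold ssum
      rw [← Finset.add_sum_erase W _ ha₀W, add_assoc]
    rw [h3]
    apply dvd_add
    · have h4 : p + m.factorial * k' a₀ ≡ p + m.factorial * r W [MOD l W] :=
        Nat.ModEq.add_left _ (Nat.ModEq.mul_left _ h1)
      exact (h4.dvd_iff dvd_rfl).2 (hr W)
    · exact Finset.dvd_sum fun a ha => Dvd.dvd.mul_left (h2 a ha) _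

theorem shape_kap {m M : ℕ} (hM : m.factorial * 2 ^ m ≤ M) :
    Shape m M (fun a : Fin m => m.factorial * 2 ^ (a : ℕ)) := by
  have hfac : 0 < m.factorial := Nat.factorial_pos m
  refine ⟨?_, ?_, ?_, ?_⟩
  · intro a
    exact Nat.mul_pos hfac (pow_pos (by norm_num) _)
  · intro a
    exact (Nat.mul_le_mul_left _ (Nat.pow_le_pow_right (by norm_num) a.2.le)).trans hM
  · intro a
    exact Dvd.intro _ rfl
  · intro W W' h
    apply shp_two_inj
    have h2 : m.factorial * ∑ a ∈ W, 2 ^ (a : ℕ) = m.factorial * ∑ a ∈ W', 2 ^ (a : ℕ) := by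
      rw [Finset.mul_sum, Finset.mul_sum]
      exact h
    exact Nat.eq_of_mul_eq_mul_left hfac h2

end Pool.Agent.Lib.MP_176ace_nt.Gr
end

section

set_option autoImplicit false

/-!
# Gen2: the alternating products generate all positive rationals

`gen_additive`: `f : ℕ → A` completely additive on `n ≥ 1` with `∑_W (-1)^|W| f (n + κ(W)) = 0` for all
`n ≥ 1`, where `κ_a ≥ 1`, `m ≥ 1`. Then `f = 0` on `n ≥ 1`.

Proof. The hypothesis says `D_{κ_1} ... D_{κ_m} f = 0` on `n ≥ 1` (`Dop`, induction on `m` /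
`Finset.prod`-like expansion over subsets). Let `N1 = ∏ κ_a`. `D_{N1} = (∑_{i < N1/κ_a} S^{i κ_a}) D_{κ_a}`
for every `a`, all these operators commute, so `D_{N1}^m f = 0` on `n ≥ 1`. Since `f (N1 n) = f N1 + f n`
and `m ≥ 1`: `(D_1^m f) n = (D_{N1}^m f) (N1 n) = 0`. Now `additive_poly_zero`.

`gen`: apply this to `A = Additive (ℚˣ ⧸ H)` (or to `Additive (ℚˣ)` modulo the subgroup), where `H` is the
subgroup generated by the units `uval n κ`, `n ≥ 1` (nonzero rationals), and `f n` = the class of `n`. The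
hypothesis holds because the product `∏_W (n + κ(W))^{(-1)^|W|} = uval n κ` lies in `H`. So every `q ≥ 1`
lies in `H`, i.e. it is a finite product of integer powers of the `uval n κ` (`Subgroup.mem_closure_range_iff`
or `Subgroup.closure_induction`, collecting exponents in a finitely supported function).
-/

namespace Pool.Agent.Lib.MP_176ace_nt.Gr

open Finset Polynomial

/-- the shift operator -/
def gen2S (A : Type*) [AddCommGroup A] : Module.End ℤ (ℕ → A) where
  toFun F n := F (n + 1)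
  map_add' _ _ := rfl
  map_smul' _ _ := rfl

theorem gen2S_apply {A : Type*} [AddCommGroup A] (F : ℕ → A) (n : ℕ) :
    gen2S A F n = F (n + 1) := rfl

theorem gen2S_pow {A : Type*} [AddCommGroup A] (k : ℕ) : ∀ (F : ℕ → A) (n : ℕ),
    ((gen2S A) ^ k) F n = F (n + k) := by
  induction k with
  | zero => intro F n; simp
  | succ k ih =>
    intro F n
    rw [pow_succ, Module.End.mul_apply, ih, gen2S_apply]
    congr 1

/-- polynomials in the shift preserve vanishing on `n ≥ 1` -/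
theorem gen2_vanish {A : Type*} [AddCommGroup A] (Q : ℤ[X]) (g : ℕ → A)
    (hg : ∀ n, 1 ≤ n → g n = 0) : ∀ n, 1 ≤ n → (aeval (gen2S A) Q) g n = 0 := by
  induction Q using Polynomial.induction_on' with
  | add p q hp hq =>
    intro n hn
    rw [map_add, LinearMap.add_apply, Pi.add_apply, hp n hn, hq n hn, add_zero]
  | monomial k a =>
    intro n hn
    rw [← C_mul_X_pow_eq_monomial, map_mul, map_pow, aeval_X, aeval_C, Module.End.mul_apply,
      Module.algebraMap_end_apply, Pi.smul_apply, gen2S_pow, hg _ (by omega), smul_zero]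

theorem gen2_prod {m : ℕ} (κ : Fin m → ℕ) :
    ∏ a, (1 - X ^ κ a : ℤ[X]) = ∑ W : Finset (Fin m), C (sg W) * X ^ ssum κ W := by
  have h : ∀ a, (1 - X ^ κ a : ℤ[X]) = (-X ^ κ a) + 1 := fun a => by ring
  simp_rw [h]
  rw [Finset.prod_add]
  rw [Finset.powerset_univ]
  apply Finset.sum_congr rfl
  intro W _
  rw [Finset.prod_const_one, mul_one, Finset.prod_neg, Finset.prod_pow_eq_pow_sum]
  simp [sg, ssum]

theorem gen2_dvd {m : ℕ} (κ : Fin m → ℕ) :
    ∏ a, (1 - X ^ κ a : ℤ[X]) ∣ (1 - X ^ (∏ a, κ a)) ^ m := by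
  have : ((1 - X ^ (∏ a, κ a)) ^ m : ℤ[X]) = ∏ _a : Fin m, (1 - X ^ (∏ a, κ a)) := by
    simp
  rw [this]
  apply Finset.prod_dvd_prod_of_dvd
  intro a _
  obtain ⟨c, hc⟩ := Finset.dvd_prod_of_mem κ (Finset.mem_univ a)
  rw [hc, pow_mul]
  have := sub_dvd_pow_sub_pow (1 : ℤ[X]) (X ^ κ a) c
  simpa using this

theorem gen_additive {A : Type*} [AddCommGroup A] (f : ℕ → A)
    (hf : ∀ a b, 1 ≤ a → 1 ≤ b → f (a * b) = f a + f b) {m : ℕ} (hm : 1 ≤ m) (κ : Fin m → ℕ)
    (hκ : ∀ a, 1 ≤ κ a)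
    (h : ∀ n, 1 ≤ n → ∑ W : Finset (Fin m), sg W • f (n + ssum κ W) = 0) :
    ∀ n, 1 ≤ n → f n = 0 := by
  classical
  set N := ∏ a, κ a with hN
  have hN1 : 1 ≤ N := Finset.one_le_prod' fun a _ => hκ a
  -- the product operator kills `f`
  have h1 : ∀ n, 1 ≤ n → (aeval (gen2S A) (∏ a, (1 - X ^ κ a : ℤ[X]))) f n = 0 := by
    intro n hn
    rw [gen2_prod, map_sum, LinearMap.sum_apply, Finset.sum_apply, ← h n hn]
    apply Finset.sum_congr rfl
    intro W _
    rw [map_mul, map_pow, aeval_X, aeval_C, Module.End.mul_apply,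
      Module.algebraMap_end_apply, Pi.smul_apply, gen2S_pow]
  obtain ⟨Q, hQ⟩ := gen2_dvd κ
  have h2 : ∀ n, 1 ≤ n → ((1 - (gen2S A) ^ N) ^ m) f n = 0 := by
    intro n hn
    have e : ((1 - (gen2S A) ^ N) ^ m) =
        aeval (gen2S A) Q * aeval (gen2S A) (∏ a, (1 - X ^ κ a : ℤ[X])) := by
      rw [← map_mul, mul_comm Q, ← hQ, map_pow, map_sub, map_one, map_pow, aeval_X]
    rw [e, Module.End.mul_apply]
    exact gen2_vanish Q _ h1 n hn
  -- the dilation
  have h3 : ∀ (k : ℕ) (F : ℕ → A) (n : ℕ), ((1 - gen2S A) ^ k) (fun n => F (N * n)) n =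
      ((1 - (gen2S A) ^ N) ^ k) F (N * n) := by
    intro k
    induction k with
    | zero => intro F n; simp
    | succ k ih =>
      intro F n
      rw [pow_succ, pow_succ, Module.End.mul_apply, Module.End.mul_apply]
      have : (1 - gen2S A) (fun n => F (N * n)) =
          fun n => ((1 - (gen2S A) ^ N) F) (N * n) := by
        funext i
        simp only [LinearMap.sub_apply, Module.End.one_apply, Pi.sub_apply, gen2S_apply, gen2S_pow]
        rw [Nat.mul_succ]
      rw [this, ih]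
  -- vanishing of (1 - S)^m on constants and on functions supported at 0
  have h4 : ∀ (c : A) (n : ℕ), ((1 - gen2S A) ^ m) (fun _ => c) n = 0 := by
    intro c n
    obtain ⟨k, rfl⟩ : ∃ k, m = k + 1 := ⟨m - 1, by omega⟩
    rw [pow_succ, Module.End.mul_apply]
    have : (1 - gen2S A) (fun _ => c) = 0 := by
      funext i
      simp [LinearMap.sub_apply, gen2S_apply]
    rw [this]; simp
  have h5 : ∀ n, 1 ≤ n → ((1 - gen2S A) ^ m) f n = 0 := by
    intro n hn
    have e : f = (fun n => f (N * n)) - (fun _ => f N) - (fun n => f (N * n) - f N - f n) := by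
      funext i; simp
    have v : ((1 - gen2S A) ^ m) (fun n => f (N * n) - f N - f n) n = 0 := by
      have e2 : ((1 - gen2S A) ^ m) = aeval (gen2S A) ((1 - X) ^ m : ℤ[X]) := by
        rw [map_pow, map_sub, map_one, aeval_X]
      rw [e2]
      apply gen2_vanish _ _ _ n hn
      intro i hi
      rw [hf N i hN1 hi]; abel
    rw [e, map_sub, map_sub, Pi.sub_apply, Pi.sub_apply, v, h4, h3, h2 _ (by nlinarith)]
    simp
  apply additive_poly_zero f hf m hm
  intro n hn
  have h6 : ∀ (k : ℕ) (F : ℕ → A), (Dop 1)^[k] F = ((1 - gen2S A) ^ k) F := by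
    intro k
    induction k with
    | zero => intro F; simp
    | succ k ih =>
      intro F
      rw [Function.iterate_succ_apply, ih, pow_succ, Module.End.mul_apply]
      rfl
  rw [h6]
  exact h5 n hn

private theorem gen2_uval_pos {m : ℕ} (κ : Fin m → ℕ) (n : ℕ) (hn : 1 ≤ n) : 0 < uval n κ := by
  unfold uval
  apply Finset.prod_pos
  intro W _
  apply zpow_pos
  have : 0 < n + ssum κ W := by omega
  exact_mod_cast this

theorem gen {m : ℕ} (hm : 1 ≤ m) (κ : Fin m → ℕ) (hκ : ∀ a, 1 ≤ κ a) (q : ℕ) (hq : 1 ≤ q) :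
    ∃ z : ℕ →₀ ℤ, (∀ n ∈ z.support, 1 ≤ n) ∧ (q : ℚ) = z.prod fun n e => uval n κ ^ e := by
  classical
  let u : {n : ℕ // 1 ≤ n} → ℚˣ := fun n => Units.mk0 (uval n.1 κ) (gen2_uval_pos κ n.1 n.2).ne'
  let H : Subgroup ℚˣ := Subgroup.closure (Set.range u)
  let g : ℕ → ℚˣ := fun n => if h : (n : ℚ) = 0 then 1 else Units.mk0 (n : ℚ) h
  have hg : ∀ n, 1 ≤ n → ((g n : ℚˣ) : ℚ) = n := by
    intro n hn
    have : (n : ℚ) ≠ 0 := by positivity
    simp only [g, dif_neg this, Units.val_mk0]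
  let f : ℕ → Additive (ℚˣ ⧸ H) := fun n => Additive.ofMul ((g n : ℚˣ) : ℚˣ ⧸ H)
  have key := gen_additive f (m := m) (κ := κ) ?_ hm hκ ?_ q hq
  · have hqH : g q ∈ H := by
      have : ((g q : ℚˣ) : ℚˣ ⧸ H) = 1 := by
        have := congrArg Additive.toMul key
        simpa [f] using this
      exact (QuotientGroup.eq_one_iff _).1 this
    rw [Subgroup.mem_closure_range_iff] at hqH
    obtain ⟨a, ha⟩ := hqH
    refine ⟨a.embDomain (Function.Embedding.subtype _), ?_, ?_⟩
    · intro n hn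
      rw [Finsupp.support_embDomain] at hn
      simp only [Finset.mem_map] at hn
      obtain ⟨x, _, rfl⟩ := hn
      exact x.2
    · rw [Finsupp.prod_embDomain, ← hg q hq, ha, Finsupp.prod, Finsupp.prod, Units.coe_prod]
      apply Finset.prod_congr rfl
      intro x _
      rw [Units.val_zpow_eq_zpow_val]
      rfl
  · intro a b ha hb
    have e : g (a * b) = g a * g b := by
      apply Units.ext
      rw [Units.val_mul, hg a ha, hg b hb, hg (a * b) (Nat.mul_pos ha hb)]
      push_cast; ring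
    show Additive.ofMul ((g (a * b) : ℚˣ) : ℚˣ ⧸ H) = _
    rw [e]; rfl
  · intro n hn
    have e : ∑ W : Finset (Fin m), sg W • f (n + ssum κ W) =
        Additive.ofMul (((∏ W : Finset (Fin m), (g (n + ssum κ W)) ^ sg W : ℚˣ)) : ℚˣ ⧸ H) := by
      rw [QuotientGroup.mk_prod, ofMul_prod]
      apply Finset.sum_congr rfl
      intro W _
      rw [QuotientGroup.mk_zpow, ofMul_zpow]
    rw [e]
    have e2 : (∏ W : Finset (Fin m), (g (n + ssum κ W)) ^ sg W : ℚˣ) = u ⟨n, hn⟩ := by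
      apply Units.ext
      rw [Units.coe_prod]
      show _ = uval n κ
      unfold uval
      apply Finset.prod_congr rfl
      intro W _
      rw [Units.val_zpow_eq_zpow_val, hg _ (by omega)]
    rw [e2]
    have : ((u ⟨n, hn⟩ : ℚˣ) : ℚˣ ⧸ H) = 1 := by
      rw [QuotientGroup.eq_one_iff]
      exact Subgroup.subset_closure ⟨_, rfl⟩
    rw [this]; rfl

end Pool.Agent.Lib.MP_176ace_nt.Gr
end

section

set_option autoImplicit false

/-!
# CDef: pre-data and the recursive definition of the functional c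

`Pre m`: the data of Section 2 before `c`. `exists_pre`: choose `A0 = 2 * 2^(100 m) + m + 2`, primes `l W > A0`
(`exists_primes`), `M1 = m! (2^m ∏ l W)`, `Q0 = max (sup of l W) (m M1)` (e.g. `∑ l W + m M1`), `kap a = m! 2^a`,
`kp p` from `exists_shape` and `base q` from `gen` for `1 ≤ q ≤ Q0` (0 otherwise), `N0` = a bound for the
supports of the finitely many `base q`.

`exists_cp`: strong recursion (`Nat.strongRecOn` or `WellFounded.fix`): the right-hand side only uses values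
`cp q` with `q < p`: for `q ∣ p + k(W)`, `W` nonempty, `q` prime: `l W` divides `p + k(W)`, so `q = l W ≤ Q0 < p` or `q`
divides `(p + k(W)) / l W ≤ 2 p / 3 < p` (`k(W) ≤ m M1 ≤ Q0 < p`). In the recursion insert the
condition `q < p` in the sum and remove it afterwards.
-/

namespace Pool.Agent.Lib.MP_176ace_nt.Gr

open Finset

/-- The data before the functional. -/
structure Pre (m : ℕ) where
  l : Finset (Fin m) → ℕ
  M1 : ℕ
  Q0 : ℕ
  N0 : ℕ
  kap : Fin m → ℕ
  kp : ℕ → Fin m → ℕ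
  base : ℕ → ℕ →₀ ℤ
  l_prime : ∀ W, (l W).Prime
  l_big : ∀ W, 2 * 2 ^ (100 * m) + m + 2 ≤ l W
  l_le : ∀ W, l W ≤ Q0
  M1_pos : 1 ≤ M1
  Q0_ge : m * M1 ≤ Q0
  shape_kap : Shape m M1 kap
  shape_kp : ∀ p, Shape m M1 (kp p)
  dvd : ∀ p (W : Finset (Fin m)), W.Nonempty → l W ∣ p + ssum (kp p) W
  base_supp : ∀ q n, base q n ≠ 0 → 1 ≤ n ∧ n ≤ N0
  base_prod : ∀ q : ℕ, 1 ≤ q → q ≤ Q0 → (q : ℚ) = (base q).prod fun n e => uval n kap ^ e

theorem exists_pre {m : ℕ} (hm : 2 ≤ m) : Nonempty (Pre m) := by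
  classical
  obtain ⟨l, hinj, hl⟩ := exists_primes m (2 * 2 ^ (100 * m) + m + 2)
  set M1 := m.factorial * (2 ^ m * ∏ W : Finset (Fin m), l W) with hM1
  set Q0 := ∑ W, l W + m * M1 with hQ0
  have hprod : 1 ≤ ∏ W : Finset (Fin m), l W := Finset.one_le_prod' fun W _ => (hl W).1.one_le
  have hkap : Shape m M1 (fun a : Fin m => m.factorial * 2 ^ (a : ℕ)) := by
    apply shape_kap
    rw [hM1]
    apply Nat.mul_le_mul_left
    calc 2 ^ m = 2 ^ m * 1 := by ring
      _ ≤ _ := Nat.mul_le_mul_left _ hprod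
  have hbig : ∀ W, m + 2 < l W := fun W => by
    have := (hl W).2
    omega
  choose kp hkp hkpd using fun p => exists_shape (by omega : 1 ≤ m) l hinj
    (fun W => ⟨(hl W).1, hbig W⟩) p
  choose z hz1 hz2 using fun q : {q : ℕ // 1 ≤ q} => gen (by omega : 1 ≤ m)
    (fun a : Fin m => m.factorial * 2 ^ (a : ℕ)) hkap.pos q.1 q.2
  let base : ℕ → ℕ →₀ ℤ := fun q => if h : 1 ≤ q ∧ q ≤ Q0 then z ⟨q, h.1⟩ else 0
  refine ⟨{
    l := l
    M1 := M1
    Q0 := Q0
    N0 := (Finset.range (Q0 + 1)).sup fun q => (base q).support.sup id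
    kap := fun a : Fin m => m.factorial * 2 ^ (a : ℕ)
    kp := kp
    base := base
    l_prime := fun W => (hl W).1
    l_big := fun W => (hl W).2.le
    l_le := fun W => ?_
    M1_pos := ?_
    Q0_ge := by omega
    shape_kap := hkap
    shape_kp := hkp
    dvd := hkpd
    base_supp := ?_
    base_prod := ?_ }⟩
  · have := Finset.single_le_sum (f := l) (fun i _ => Nat.zero_le _) (Finset.mem_univ W)
    omega
  · rw [hM1]
    have h1 := Nat.factorial_pos m
    have h2 : 0 < 2 ^ m := by positivity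
    exact Nat.mul_pos h1 (Nat.mul_pos h2 hprod)
  · intro q n hqn
    have hq : 1 ≤ q ∧ q ≤ Q0 := by
      by_contra h
      simp only [base, dif_neg h] at hqn
      exact hqn rfl
    have hmem : n ∈ (base q).support := Finsupp.mem_support_iff.2 hqn
    refine ⟨?_, ?_⟩
    · have : n ∈ (z ⟨q, hq.1⟩).support := by
        simpa only [base, dif_pos hq] using hmem
      exact hz1 _ n this
    · calc n = id n := rfl
        _ ≤ (base q).support.sup id := Finset.le_sup (f := id) hmem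
        _ ≤ _ := Finset.le_sup (f := fun q => (base q).support.sup id)
          (Finset.mem_range.2 (by omega))
  · intro q h1 h2
    have : base q = z ⟨q, h1⟩ := by simp only [base, dif_pos (And.intro h1 h2)]
    rw [this]
    exact hz2 ⟨q, h1⟩

/-- the additive extension of a function on primes -/
noncomputable def ext (cp : ℕ → (ℕ ⊕ ℕ) →₀ ℤ) (n : ℕ) : (ℕ ⊕ ℕ) →₀ ℤ :=
  ∑ q ∈ n.primeFactors, (n.factorization q : ℤ) • cp q

/-- The recursion for the values of `c` at primes. -/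
structure IsCp {m : ℕ} (D : Pre m) (cp : ℕ → (ℕ ⊕ ℕ) →₀ ℤ) : Prop where
  small : ∀ q, q ≤ D.Q0 → cp q = (D.base q).mapDomain Sum.inl
  large : ∀ p, p.Prime → D.Q0 < p → cp p = Finsupp.single (Sum.inr p) 1 -
    ∑ W ∈ (univ : Finset (Finset (Fin m))) with W.Nonempty, sg W • ext cp (p + ssum (D.kp p) W)

/-- the prime factors of `p + k(W)` are smaller than `p` -/
theorem Pre.factor_lt {m : ℕ} (D : Pre m) {p : ℕ} (hp : p.Prime) (hpQ : D.Q0 < p)
    {W : Finset (Fin m)} (hW : W.Nonempty) {q : ℕ} (hq : q.Prime) (hqd : q ∣ p + ssum (D.kp p) W) :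
    q < p := by
  have hs : ssum (D.kp p) W ≤ m * D.M1 := by
    unfold ssum
    calc ∑ a ∈ W, D.kp p a ≤ ∑ _a ∈ W, D.M1 := Finset.sum_le_sum fun a _ => (D.shape_kp p).le a
      _ = W.card * D.M1 := by simp
      _ ≤ m * D.M1 := Nat.mul_le_mul_right _ (by simpa using Finset.card_le_univ W)
  have hQ := D.Q0_ge
  have hd := D.dvd p W hW
  have hl := D.l_prime W
  by_cases e : q = D.l W
  · have := D.l_le W
    omega
  · have hc : Nat.Coprime q (D.l W) := (Nat.coprime_primes hq hl).2 e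
    have := Nat.le_of_dvd (by have := hp.pos; omega) (hc.mul_dvd_of_dvd_of_dvd hqd hd)
    have h2 := hl.two_le
    have h3 := hq.pos
    nlinarith

/-- the recursion defining `c` at primes -/
noncomputable def cdefFun {m : ℕ} (D : Pre m) (p : ℕ) : (ℕ ⊕ ℕ) →₀ ℤ :=
  if p ≤ D.Q0 then (D.base p).mapDomain Sum.inl
  else Finsupp.single (Sum.inr p) 1 -
    ∑ W ∈ (univ : Finset (Finset (Fin m))) with W.Nonempty, sg W •
      ∑ q ∈ (p + ssum (D.kp p) W).primeFactors,
        if _h : q < p then ((p + ssum (D.kp p) W).factorization q : ℤ) • cdefFun D q else 0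
termination_by p

theorem exists_cp {m : ℕ} (D : Pre m) : ∃ cp, IsCp D cp := by
  refine ⟨cdefFun D, ?_, ?_⟩
  · intro q hq
    rw [cdefFun, if_pos hq]
  · intro p hp hpQ
    rw [cdefFun, if_neg (by omega)]
    congr 1
    apply Finset.sum_congr rfl
    intro W hW
    congr 1
    unfold ext
    apply Finset.sum_congr rfl
    intro q hq
    have hq' := Nat.mem_primeFactors.1 hq
    rw [dif_pos (D.factor_lt hp hpQ (Finset.mem_filter.1 hW).2 hq'.1 hq'.2.1)]

end Pool.Agent.Lib.MP_176ace_nt.Gr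
end

section

set_option autoImplicit false

/-!
# CBasic: first properties of the functional

* `ext_mul`: from `Nat.factorization_mul` (sum over the union of the prime factors, or write `ext cp n` as
  `n.factorization.sum fun q e => (e : ℤ) • cp q`).
* `ext_prime`: `ext cp q = cp q` for `q` prime.
* `ext_supp`: by strong induction on primes: `cp q` for `q ≤ Q0` is supported on `inl n`, `1 ≤ n ≤ N0`; for a prime
  `p > Q0` use the recursion and the prime factors `< p` (`factor_lt`).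
* `ext_prod`: the map `F ↦ F.prod fun i z => uval (nOf i) (kOf kap kp i) ^ z` is multiplicative for `+` (all
  values `uval` are nonzero because `n + k(W) ≥ 1` on the supports in question: note `nOf i ≥ 1`; if `uval` were 0 the
  formula would be wrong, so first prove `uval n k ≠ 0` for `n ≥ 1`). Strong induction: for `p > Q0` prime
  `p = uval p (kp p) * ∏_{W nonempty} (p + k(W))^{-(-1)^|W|}`.
  Here `W = ∅` gives the factor `p`.
-/

namespace Pool.Agent.Lib.MP_176ace_nt.Gr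

open Finset

theorem uval_pos {m : ℕ} {n : ℕ} (hn : 1 ≤ n) (k : Fin m → ℕ) : 0 < uval n k := by
  unfold uval
  refine Finset.prod_pos fun W _ => zpow_pos ?_ _
  have : 0 < n + ssum k W := by omega
  exact_mod_cast this

variable {m : ℕ} (D : Pre m) {cp : ℕ → (ℕ ⊕ ℕ) →₀ ℤ} (h : IsCp D cp)

private theorem ext_eq_sum (cp : ℕ → (ℕ ⊕ ℕ) →₀ ℤ) (n : ℕ) :
    ext cp n = n.factorization.sum fun q e => (e : ℤ) • cp q := rfl

theorem ext_mul (cp : ℕ → (ℕ ⊕ ℕ) →₀ ℤ) (a b : ℕ) (ha : 1 ≤ a) (hb : 1 ≤ b) :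
    ext cp (a * b) = ext cp a + ext cp b := by
  rw [ext_eq_sum, ext_eq_sum, ext_eq_sum, Nat.factorization_mul (by omega) (by omega)]
  refine Finsupp.sum_add_index' ?_ ?_
  · intro q
    simp
  · intro q e e'
    push_cast
    rw [add_smul]

theorem ext_prime (cp : ℕ → (ℕ ⊕ ℕ) →₀ ℤ) {q : ℕ} (hq : q.Prime) : ext cp q = cp q := by
  rw [ext_eq_sum, hq.factorization, Finsupp.sum_single_index]
  · simp
  · simp

/-- a nonzero coordinate of `ext` comes from a prime factor -/
private theorem ext_ne {cp : ℕ → (ℕ ⊕ ℕ) →₀ ℤ} {n : ℕ} {i : ℕ ⊕ ℕ} (hi : ext cp n i ≠ 0) :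
    ∃ q, q.Prime ∧ q ∣ n ∧ cp q i ≠ 0 := by
  unfold ext at hi
  rw [Finsupp.finsetSum_apply] at hi
  obtain ⟨q, hq, hqi⟩ := Finset.exists_ne_zero_of_sum_ne_zero hi
  refine ⟨q, Nat.prime_of_mem_primeFactors hq, Nat.dvd_of_mem_primeFactors hq, ?_⟩
  intro h0
  apply hqi
  rw [Finsupp.smul_apply, h0, smul_zero]

include h in
private theorem cp_supp : ∀ q : ℕ, q.Prime → ∀ i : ℕ ⊕ ℕ, cp q i ≠ 0 →
    (∃ l, i = Sum.inl l ∧ 1 ≤ l ∧ l ≤ D.N0) ∨ (∃ p, i = Sum.inr p ∧ p.Prime ∧ D.Q0 < p) := by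
  intro q
  induction q using Nat.strong_induction_on with
  | _ q ih =>
    intro hq i hi
    rcases Nat.lt_or_ge D.Q0 q with hlt | hle
    · rw [h.large q hq hlt] at hi
      by_cases hiq : i = Sum.inr q
      · exact Or.inr ⟨q, hiq, hq, hlt⟩
      · rw [Finsupp.sub_apply, Finsupp.single_eq_of_ne hiq, zero_sub, neg_ne_zero,
          Finsupp.finsetSum_apply] at hi
        obtain ⟨W, hW, hWi⟩ := Finset.exists_ne_zero_of_sum_ne_zero hi
        rw [Finset.mem_filter] at hW
        have h1 : ext cp (q + ssum (D.kp q) W) i ≠ 0 := by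
          intro h0
          apply hWi
          rw [Finsupp.smul_apply, h0, smul_zero]
        obtain ⟨q', hq', hdvd, hq'i⟩ := ext_ne h1
        exact ih q' (D.factor_lt hq hlt hW.2 hq' hdvd) hq' i hq'i
    · rw [h.small q hle] at hi
      left
      rcases i with l | p
      · rw [Finsupp.mapDomain_apply Sum.inl_injective] at hi
        exact ⟨l, rfl, D.base_supp q l hi⟩
      · exfalso
        apply hi
        apply Finsupp.mapDomain_of_notMem_range
        rintro ⟨l, hl⟩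
        cases hl

include h in
theorem ext_supp (n : ℕ) (i : ℕ ⊕ ℕ) (hi : ext cp n i ≠ 0) :
    (∃ l, i = Sum.inl l ∧ 1 ≤ l ∧ l ≤ D.N0) ∨ (∃ p, i = Sum.inr p ∧ p.Prime ∧ D.Q0 < p) := by
  obtain ⟨q, hq, -, hqi⟩ := ext_ne hi
  exact cp_supp D h q hq i hqi

/-- the value of an index as a unit -/
private noncomputable def uu (i : ℕ ⊕ ℕ) : ℚˣ :=
  if hi : 1 ≤ nOf i then Units.mk0 (uval (nOf i) (kOf D.kap D.kp i)) (uval_pos hi _).ne' else 1

private theorem uu_coe {i : ℕ ⊕ ℕ} (hi : 1 ≤ nOf i) :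
    ((uu D i : ℚˣ) : ℚ) = uval (nOf i) (kOf D.kap D.kp i) := by
  unfold uu
  rw [dif_pos hi, Units.val_mk0]

/-- the multiplicative functional -/
private noncomputable def AA : ((ℕ ⊕ ℕ) →₀ ℤ) →+ Additive ℚˣ :=
  Finsupp.liftAddHom fun i => zmultiplesHom (Additive ℚˣ) (Additive.ofMul (uu D i))

private theorem AA_single (i : ℕ ⊕ ℕ) : AA D (Finsupp.single i 1) = Additive.ofMul (uu D i) := by
  unfold AA
  rw [Finsupp.liftAddHom_apply_single]
  simp

private theorem AA_coe (F : (ℕ ⊕ ℕ) →₀ ℤ) (hF : ∀ i, F i ≠ 0 → 1 ≤ nOf i) :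
    (((AA D F).toMul : ℚˣ) : ℚ) = F.prod fun i z => uval (nOf i) (kOf D.kap D.kp i) ^ z := by
  unfold AA
  rw [Finsupp.liftAddHom_apply, Finsupp.sum, Finsupp.prod, toMul_sum, Units.coe_prod]
  refine Finset.prod_congr rfl fun i hi => ?_
  rw [← uu_coe D (hF i (Finsupp.mem_support_iff.1 hi))]
  simp

include h in
private theorem AA_cp : ∀ q : ℕ, q.Prime → (((AA D (cp q)).toMul : ℚˣ) : ℚ) = q := by
  intro q
  induction q using Nat.strong_induction_on with
  | _ q ih =>
    intro hq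
    rcases Nat.lt_or_ge D.Q0 q with hlt | hle
    · have hext : ∀ n : ℕ, 1 ≤ n → (∀ q', q'.Prime → q' ∣ n → q' < q) →
          (((AA D (ext cp n)).toMul : ℚˣ) : ℚ) = n := by
        intro n hn hn'
        unfold ext
        rw [map_sum, toMul_sum, Units.coe_prod]
        have h1 : ∀ q' ∈ n.primeFactors,
            (((AA D ((n.factorization q' : ℤ) • cp q')).toMul : ℚˣ) : ℚ) =
            (q' : ℚ) ^ n.factorization q' := by
          intro q' hq'
          have hq'p := Nat.prime_of_mem_primeFactors hq'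
          rw [map_zsmul, toMul_zsmul, Units.val_zpow_eq_zpow_val,
            ih q' (hn' q' hq'p (Nat.dvd_of_mem_primeFactors hq')) hq'p, zpow_natCast]
        rw [Finset.prod_congr rfl h1]
        have h2 := Nat.prod_factorization_pow_eq_self (n := n) (by omega)
        conv_rhs => rw [← h2]
        rw [Finsupp.prod, Nat.support_factorization]
        push_cast
        rfl
      rw [h.large q hq hlt, map_sub, map_sum, toMul_sub, toMul_sum, AA_single, toMul_ofMul,
        Units.val_div_eq_div_val, Units.coe_prod, uu_coe D (by exact hq.one_le)]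
      have h1 : ∀ W ∈ (univ : Finset (Finset (Fin m))).filter (fun W => W.Nonempty),
          (((AA D (sg W • ext cp (q + ssum (D.kp q) W))).toMul : ℚˣ) : ℚ) =
            ((q + ssum (D.kp q) W : ℕ) : ℚ) ^ sg W := by
        intro W hW
        rw [map_zsmul, toMul_zsmul, Units.val_zpow_eq_zpow_val,
          hext _ (by have := hq.one_le; omega)
            (fun q' hq' hd => D.factor_lt hq hlt (Finset.mem_filter.1 hW).2 hq' hd)]
      rw [Finset.prod_congr rfl h1]
      have h2 : uval (nOf (Sum.inr q)) (kOf D.kap D.kp (Sum.inr q)) =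
          q * ∏ W ∈ (univ : Finset (Finset (Fin m))).filter (fun W => W.Nonempty),
            ((q + ssum (D.kp q) W : ℕ) : ℚ) ^ sg W := by
        change uval q (D.kp q) = _
        unfold uval
        rw [← Finset.mul_prod_erase univ _ (Finset.mem_univ (∅ : Finset (Fin m)))]
        congr 1
        · simp [ssum, sg]
        · apply Finset.prod_congr _ fun _ _ => rfl
          ext W
          simp [Finset.nonempty_iff_ne_empty]
      rw [h2]
      have h3 : ∏ W ∈ (univ : Finset (Finset (Fin m))).filter (fun W => W.Nonempty),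
            ((q + ssum (D.kp q) W : ℕ) : ℚ) ^ sg W ≠ 0 := by
        refine Finset.prod_ne_zero_iff.2 fun W _ => zpow_ne_zero _ ?_
        have := hq.one_le
        have h4 : q + ssum (D.kp q) W ≠ 0 := by omega
        exact_mod_cast h4
      rw [mul_div_assoc, div_self h3, mul_one]
    · rw [h.small q hle, AA_coe]
      · rw [Finsupp.prod_mapDomain_index_inj Sum.inl_injective]
        exact (D.base_prod q hq.one_le hle).symm
      · intro i hi
        rcases i with l | p
        · rw [Finsupp.mapDomain_apply Sum.inl_injective] at hi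
          exact (D.base_supp q l hi).1
        · exfalso
          apply hi
          apply Finsupp.mapDomain_of_notMem_range
          rintro ⟨l, hl⟩
          cases hl

include h in
theorem ext_prod (n : ℕ) (hn : 1 ≤ n) :
    (n : ℚ) = (ext cp n).prod fun i z => uval (nOf i) (kOf D.kap D.kp i) ^ z := by
  rw [← AA_coe D (ext cp n)]
  · unfold ext
    rw [map_sum, toMul_sum, Units.coe_prod]
    have h1 : ∀ q' ∈ n.primeFactors,
        (((AA D ((n.factorization q' : ℤ) • cp q')).toMul : ℚˣ) : ℚ) =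
        (q' : ℚ) ^ n.factorization q' := by
      intro q' hq'
      have hq'p := Nat.prime_of_mem_primeFactors hq'
      rw [map_zsmul, toMul_zsmul, Units.val_zpow_eq_zpow_val, AA_cp D h q' hq'p, zpow_natCast]
    rw [Finset.prod_congr rfl h1]
    have h2 := Nat.prod_factorization_pow_eq_self (n := n) (by omega)
    conv_lhs => rw [← h2]
    rw [Finsupp.prod, Nat.support_factorization]
    push_cast
    rfl
  · intro i hi
    rcases ext_supp D h n i hi with ⟨l, rfl, h1, -⟩ | ⟨p, rfl, hp, -⟩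
    · exact h1
    · exact hp.one_le

end Pool.Agent.Lib.MP_176ace_nt.Gr
end
end
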