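import Mathlib
import Pool.Agent.Lib.MP_176ace_nt.Gr.CBasic

set_option autoImplicit false

/-!
# VFacts: facts on the set of points `V` and the weights

`V_L_ne`: `L_j v = 0` means `x = - j y`, so `gcd (x, y) = y ≥ Y - b^26 ≥ b^3`.
`V_inj` (Lemma 4.1): proportional vectors `(x,y) ≠ (x',y')` of `V` are `c (x0,y0)`, `c' (x0,y0)` with `(x0,y0)`
primitive and `c ≠ c'` (`c = gcd (x,y)`, `c' = gcd (x',y')`); `y0 ≤ |y - y'| < b^26`, so `c = y / y0 ≥ (Y - b^26)/b^26 ≥ b^3`,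
a contradiction.
`psi`: even, values in `[0,1]`, Lipschitz with constant `8/X`, `= 1` for `4|t| ≤ 3X`, `= 0` for `8|t| ≥ 7X`.
-/

namespace Pool.Agent.Lib.MP_176ace_nt.Gr

open Finset

namespace Par

variable {m : ℕ} (P : Par m)

theorem mem_V {v : ℤ × ℤ} : v ∈ P.V ↔ (|v.1| ≤ P.X) ∧ ((P.Y : ℤ) - P.b ^ 26 < v.2 ∧ v.2 ≤ P.Y) ∧
    Int.gcd v.1 v.2 < P.b ^ 3 := by
  unfold V
  rw [mem_filter, mem_product, mem_Icc, mem_Ioc, abs_le, and_assoc]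

/-- the window is high -/
theorem b29_lt : (P.b : ℤ) ^ 29 + (P.b : ℤ) ^ 26 ≤ P.Y := by
  have h1 := P.window_le
  have h2 : P.b ^ 26 ≤ P.b ^ 29 := Nat.pow_le_pow_right P.b_pos (by norm_num)
  have h3 : P.b ^ 29 + P.b ^ 26 ≤ P.Y := by omega
  exact_mod_cast h3

theorem V_y29 {v : ℤ × ℤ} (hv : v ∈ P.V) : (P.b : ℤ) ^ 29 < v.2 := by
  have h := P.b29_lt
  have h2 := (P.mem_V.1 hv).2.1.1
  linarith

theorem V_y {v : ℤ × ℤ} (hv : v ∈ P.V) : (P.b : ℤ) ^ 3 ≤ v.2 ∧ 0 < v.2 ∧ v.2 ≤ P.Y := by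
  have h1 := P.V_y29 hv
  have h2 : (P.b : ℤ) ^ 3 ≤ (P.b : ℤ) ^ 29 := by
    have : P.b ^ 3 ≤ P.b ^ 29 := Nat.pow_le_pow_right P.b_pos (by norm_num)
    exact_mod_cast this
  have h3 : (0 : ℤ) < (P.b : ℤ) ^ 3 := by
    have : 0 < P.b ^ 3 := pow_pos P.b_pos _
    exact_mod_cast this
  exact ⟨by linarith, by linarith, (P.mem_V.1 hv).2.1.2⟩

theorem V_L_ne {v : ℤ × ℤ} (hv : v ∈ P.V) (j : ℕ) : L j v ≠ 0 := by
  intro h
  unfold L at h
  have h1 : v.1 = v.2 * (-(j : ℤ)) := by linarith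
  obtain ⟨h3, h2, -⟩ := P.V_y hv
  have h4 := (P.mem_V.1 hv).2.2
  have h6 : ((Int.gcd v.1 v.2 : ℕ) : ℤ) = v.2 := by
    rw [h1, Int.gcd_comm]
    exact (Int.gcd_eq_left_iff_dvd h2.le).2 (Dvd.intro _ rfl)
  have h5 : ((Int.gcd v.1 v.2 : ℕ) : ℤ) < ((P.b ^ 3 : ℕ) : ℤ) := by exact_mod_cast h4
  rw [h6] at h5
  push_cast at h5
  linarith

theorem V_L_le {v : ℤ × ℤ} (hv : v ∈ P.V) {j : ℕ} (hj : j ≤ m) :
    (L j v).natAbs ≤ P.X + m * P.Y := by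
  obtain ⟨-, h2, h3⟩ := P.V_y hv
  have h1 := (P.mem_V.1 hv).1
  have h4 : |L j v| ≤ (P.X : ℤ) + m * P.Y := by
    unfold L
    have h5 : (0 : ℤ) ≤ (j : ℤ) * v.2 := by positivity
    have h6 : (j : ℤ) * v.2 ≤ m * P.Y := by
      have : (j : ℤ) ≤ m := by exact_mod_cast hj
      gcongr
    calc |v.1 + j * v.2| ≤ |v.1| + |(j : ℤ) * v.2| := abs_add_le _ _
      _ ≤ P.X + m * P.Y := by
        rw [abs_of_nonneg h5]
        gcongr
  have h7 : ((L j v).natAbs : ℤ) ≤ ((P.X + m * P.Y : ℕ) : ℤ) := by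
    rw [Int.natCast_natAbs]
    push_cast
    exact h4
  exact_mod_cast h7

theorem V_L_le2 {v : ℤ × ℤ} (hv : v ∈ P.V) {j : ℕ} (hj : j ≤ m) :
    1 ≤ (L j v).natAbs ∧ (L j v).natAbs ≤ 2 * P.X :=
  ⟨Nat.one_le_iff_ne_zero.2 (Int.natAbs_ne_zero.2 (P.V_L_ne hv j)),
    (P.V_L_le hv hj).trans P.XmY_le⟩

theorem V_inj {v v' : ℤ × ℤ} (hv : v ∈ P.V) (hv' : v' ∈ P.V) (h : v.1 * v'.2 = v'.1 * v.2) :
    v = v' := by
  obtain ⟨-, hy, -⟩ := P.V_y hv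
  obtain ⟨-, hy', -⟩ := P.V_y hv'
  have hg := (P.mem_V.1 hv).2.2
  have hg' := (P.mem_V.1 hv').2.2
  have hw := (P.mem_V.1 hv).2.1
  have hw' := (P.mem_V.1 hv').2.1
  have h29 := P.V_y29 hv
  have hgp : 0 < Int.gcd v.1 v.2 := Int.gcd_pos_of_ne_zero_right _ hy.ne'
  have hgp' : 0 < Int.gcd v'.1 v'.2 := Int.gcd_pos_of_ne_zero_right _ hy'.ne'
  obtain ⟨x0, y0, hc, hx, hyy⟩ := Int.exists_gcd_one hgp
  obtain ⟨x1, y1, hc', hx', hyy'⟩ := Int.exists_gcd_one hgp'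
  set g := Int.gcd v.1 v.2 with hgdef
  set g' := Int.gcd v'.1 v'.2 with hgdef'
  have hgZ : (0 : ℤ) < g := by exact_mod_cast hgp
  have hgZ' : (0 : ℤ) < g' := by exact_mod_cast hgp'
  have hy0 : 0 < y0 := by
    by_contra hcon
    push Not at hcon
    have : v.2 ≤ 0 := by rw [hyy]; exact mul_nonpos_of_nonpos_of_nonneg hcon hgZ.le
    linarith
  have hy1 : 0 < y1 := by
    by_contra hcon
    push Not at hcon
    have : v'.2 ≤ 0 := by rw [hyy']; exact mul_nonpos_of_nonpos_of_nonneg hcon hgZ'.le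
    linarith
  have hk : x0 * y1 = x1 * y0 := by
    have h1 : (x0 * y1) * ((g : ℤ) * g') = (x1 * y0) * ((g : ℤ) * g') := by
      rw [hx, hyy', hx', hyy] at h
      linarith
    exact mul_right_cancel₀ (by positivity) h1
  have hco : IsCoprime x0 y0 := Int.isCoprime_iff_gcd_eq_one.2 hc
  have hco' : IsCoprime x1 y1 := Int.isCoprime_iff_gcd_eq_one.2 hc'
  have d1 : y0 ∣ y1 := by
    have : y0 ∣ x0 * y1 := ⟨x1, by rw [hk]; ring⟩
    exact hco.symm.dvd_of_dvd_mul_left this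
  have d2 : y1 ∣ y0 := by
    have : y1 ∣ x1 * y0 := ⟨x0, by rw [← hk]; ring⟩
    exact hco'.symm.dvd_of_dvd_mul_left this
  have e1 : y0 = y1 := Int.dvd_antisymm hy0.le hy1.le d1 d2
  have e2 : x0 = x1 := by
    rw [← e1] at hk
    exact mul_right_cancel₀ hy0.ne' hk
  have e3 : g = g' := by
    by_contra hne
    have hne' : (g : ℤ) ≠ g' := by exact_mod_cast hne
    have h1 : y0 ≤ |v.2 - v'.2| := by
      rw [hyy, hyy', ← e1, ← mul_sub, abs_mul, abs_of_pos hy0]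
      have h2 : 1 ≤ |(g : ℤ) - g'| := Int.one_le_abs (sub_ne_zero.2 hne')
      nlinarith
    have h2 : |v.2 - v'.2| < (P.b : ℤ) ^ 26 := by
      rw [abs_lt]
      constructor <;> linarith [hw.1, hw.2, hw'.1, hw'.2]
    have h3 : (g : ℤ) < (P.b : ℤ) ^ 3 := by exact_mod_cast hg
    have h4 : v.2 < (P.b : ℤ) ^ 29 := by
      calc v.2 = y0 * g := hyy
        _ < (P.b : ℤ) ^ 26 * (P.b : ℤ) ^ 3 := by
          have : y0 < (P.b : ℤ) ^ 26 := lt_of_le_of_lt h1 h2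
          exact mul_lt_mul'' this h3 hy0.le hgZ.le
        _ = _ := by ring
    linarith
  refine Prod.ext ?_ ?_
  · rw [hx, hx', e2, e3]
  · rw [hyy, hyy', e1, e3]

theorem psi_nonneg (t : ℤ) : 0 ≤ P.psi t := le_min zero_le_one (le_max_left _ _)

theorem psi_le_one (t : ℤ) : P.psi t ≤ 1 := min_le_left _ _

theorem psi_even (t : ℤ) : P.psi (-t) = P.psi t := by
  unfold psi
  rw [Int.cast_neg, abs_neg]

theorem X_posR : (0 : ℝ) < P.X := by exact_mod_cast P.X_pos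

theorem psi_lip (s t : ℤ) : |P.psi s - P.psi t| ≤ 8 * |(s : ℝ) - t| / P.X := by
  have hX := P.X_posR
  unfold psi
  set a := 7 - 8 * |(s : ℝ)| / P.X
  set b := 7 - 8 * |(t : ℝ)| / P.X
  have h1 : |min 1 (max 0 a) - min 1 (max 0 b)| ≤ |a - b| := by
    refine le_trans (abs_min_sub_min_le_max 1 (max 0 a) 1 (max 0 b)) ?_
    rw [sub_self, abs_zero]
    refine max_le (abs_nonneg _) ?_
    refine le_trans (abs_max_sub_max_le_max 0 a 0 b) ?_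
    rw [sub_self, abs_zero]
    exact max_le (abs_nonneg _) le_rfl
  refine h1.trans ?_
  have h2 : a - b = 8 * (|(t : ℝ)| - |(s : ℝ)|) / P.X := by
    simp only [a, b]
    ring
  rw [h2, abs_div, abs_mul, abs_of_pos hX, abs_of_pos (by norm_num : (0 : ℝ) < 8)]
  have h3 : |(|(t : ℝ)| - |(s : ℝ)|)| ≤ |(s : ℝ) - t| := by
    rw [abs_sub_comm (s : ℝ)]
    exact abs_abs_sub_abs_le_abs_sub _ _
  exact div_le_div_of_nonneg_right (mul_le_mul_of_nonneg_left h3 (by norm_num)) hX.le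

theorem psi_one {t : ℤ} (h : 4 * |t| ≤ 3 * (P.X : ℤ)) : P.psi t = 1 := by
  have hX := P.X_posR
  have h1 : 4 * |(t : ℝ)| ≤ 3 * P.X := by exact_mod_cast h
  unfold psi
  apply min_eq_left
  refine le_trans ?_ (le_max_right _ _)
  have : 8 * |(t : ℝ)| / P.X ≤ 6 := by
    rw [div_le_iff₀ hX]
    linarith
  linarith

theorem psi_zero {t : ℤ} (h : 7 * (P.X : ℤ) ≤ 8 * |t|) : P.psi t = 0 := by
  have hX := P.X_posR
  have h1 : 7 * (P.X : ℝ) ≤ 8 * |(t : ℝ)| := by exact_mod_cast h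
  unfold psi
  have h2 : 7 - 8 * |(t : ℝ)| / P.X ≤ 0 := by
    have : 7 ≤ 8 * |(t : ℝ)| / P.X := by
      rw [le_div_iff₀ hX]
      linarith
    linarith
  rw [max_eq_left h2]
  exact min_eq_right zero_le_one

theorem w_nonneg {r : ℕ} {θ : ℝ} (h0 : 0 ≤ θ) (v : ℤ × ℤ) : 0 ≤ P.w r θ v := by
  have := P.psi_nonneg v.1
  unfold w
  split_ifs <;> positivity

theorem w_le_one {r : ℕ} {θ : ℝ} (h1 : θ ≤ 1) (h0 : 0 ≤ θ) (v : ℤ × ℤ) : P.w r θ v ≤ 1 := by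
  have h2 := P.psi_nonneg v.1
  have h3 := P.psi_le_one v.1
  unfold w
  split_ifs
  · norm_num
  · norm_num
  · linarith
  · nlinarith
  · norm_num

/-- no weight in the addition row -/
theorem w_ya {r : ℕ} (hr : r < 100 * m * P.B0) (θ : ℝ) {v : ℤ × ℤ} (hv : v.2 = P.ya) :
    P.w r θ v = 0 := by
  have h1 := P.ya_lt
  have h2 : (r : ℤ) < ((100 * m * P.B0 : ℕ) : ℤ) := by exact_mod_cast hr
  have h3 : (0 : ℤ) ≤ r := by positivity
  unfold w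
  rw [if_neg (by rw [hv]; linarith), if_neg (by rw [hv]; linarith), if_neg (by rw [hv]; linarith)]

/-- `w = w0` outside of `ExcV` on `V`, and on `ExcV`: `w0 = 1/2`, `w = 0` -/
theorem w_eq_w0 (r : ℕ) (θ : ℝ) {v : ℤ × ℤ} (hv : v ∈ P.V) :
    P.w r θ v = P.w0 r θ v - if v ∈ P.ExcV then 1 / 2 else 0 := by
  classical
  unfold w w0 ExcV
  by_cases h1 : (P.Y1 : ℤ) < v.2
  · by_cases h2 : P.Exc v
    · have h3 : v ∈ ({v ∈ P.V | (P.Y1 : ℤ) < v.2 ∧ P.Exc v} : Finset (ℤ × ℤ)) :=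
        mem_filter.2 ⟨hv, h1, h2⟩
      rw [if_pos h1, if_pos h1, if_pos h2, if_pos (by convert h3)]
      norm_num
    · have h3 : v ∉ ({v ∈ P.V | (P.Y1 : ℤ) < v.2 ∧ P.Exc v} : Finset (ℤ × ℤ)) :=
        fun h => h2 (mem_filter.1 h).2.2
      rw [if_pos h1, if_pos h1, if_neg h2, if_neg (by convert h3), sub_zero]
  · have h3 : v ∉ ({v ∈ P.V | (P.Y1 : ℤ) < v.2 ∧ P.Exc v} : Finset (ℤ × ℤ)) :=
      fun h => h1 (mem_filter.1 h).2.1
    rw [if_neg h1, if_neg h1, if_neg (c := v ∈ _) (by convert h3), sub_zero]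

end Par

end Pool.Agent.Lib.MP_176ace_nt.Gr
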