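import Mathlib
import Pool.Agent.Lib.MP_176ace_nt.Gr.Defs
import Pool.Agent.Lib.MP_176ace_nt.Gr.VFacts

section

set_option autoImplicit false

/-!
# Row: the sum over one row (paper 221, Section 5)

`row_sum`: substitute `x = n' - j y` (`n' : ℤ`). `gcd (x, y) = gcd (n', y)` and `|x + j y| = |n'|`. The value `n' = 0` has
`gcd = y ≥ c`, so it does not occur. For `n' = n ≥ 1` the summand is `W (n - j y) F n`, for `n' = -n` it is
`W (-n - j y) F n = W (n + j y) F n`. All `n'` with `W (n' - j y) ≠ 0` satisfy `|n'| ≤ X + j y ≤ N`.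
`row_diff`: subtract the case `j = 0`.
-/

namespace Pool.Agent.Lib.MP_176ace_nt.Gr

open Finset

private lemma row_fold (G : ℤ → ℝ) (N : ℕ) :
    ∑ x ∈ Icc (-(N : ℤ)) N, G x = G 0 + ∑ n ∈ Icc 1 N, (G (n : ℤ) + G (-(n : ℤ))) := by
  induction N with
  | zero => simp
  | succ N ih =>
    have h1 : Icc (-((N + 1 : ℕ) : ℤ)) ((N + 1 : ℕ) : ℤ) =
        insert ((N + 1 : ℕ) : ℤ) (insert (-((N + 1 : ℕ) : ℤ)) (Icc (-(N : ℤ)) N)) := by
      ext x
      simp only [Finset.mem_Icc, Finset.mem_insert]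
      push_cast
      omega
    rw [h1, Finset.sum_insert, Finset.sum_insert, ih, Finset.sum_Icc_succ_top (by omega)]
    · push_cast
      ring
    · simp only [Finset.mem_Icc]
      push_cast
      omega
    · simp only [Finset.mem_Icc, Finset.mem_insert]
      push_cast
      omega

theorem row_sum (c X N j : ℕ) (y : ℤ) (hc : 0 < c) (hy : (c : ℤ) ≤ y) (W : ℤ → ℝ)
    (hev : ∀ x, W (-x) = W x) (hsupp : ∀ x, (X : ℤ) < |x| → W x = 0) (F : ℕ → ℝ)
    (hN : (X : ℤ) + j * y ≤ N) :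
    ∑ x ∈ Icc (-(X : ℤ)) X with Int.gcd x y < c, W x * F (L j (x, y)).natAbs =
      ∑ n ∈ (Icc 1 N).filter fun n : ℕ => Int.gcd (n : ℤ) y < c, (W ((n : ℤ) - j * y) + W ((n : ℤ) + j * y)) * F n := by
  set G : ℤ → ℝ := fun z => if Int.gcd z y < c then W (z - j * y) * F z.natAbs else 0 with hG
  have hy0 : 0 < y := by omega
  have hjy : 0 ≤ (j : ℤ) * y := by positivity
  have h1 : ∑ x ∈ Icc (-(X : ℤ)) X with Int.gcd x y < c, W x * F (L j (x, y)).natAbs =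
      ∑ x ∈ Icc (-(X : ℤ)) X, G (x + j * y) := by
    rw [Finset.sum_filter]
    refine Finset.sum_congr rfl fun x _ => ?_
    simp only [hG, L]
    rw [show x + (j : ℤ) * y - j * y = x by ring, Int.gcd_add_mul_right_left]
  have h2 : ∑ x ∈ Icc (-(X : ℤ)) X, G (x + j * y) =
      ∑ z ∈ Icc (-(X : ℤ) + j * y) (X + j * y), G z := by
    refine Finset.sum_bij' (fun x _ => x + j * y) (fun z _ => z - j * y) ?_ ?_ ?_ ?_ ?_
    · intro x hx
      rw [Finset.mem_Icc] at hx ⊢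
      constructor <;> linarith [hx.1, hx.2]
    · intro x hx
      rw [Finset.mem_Icc] at hx ⊢
      constructor <;> linarith [hx.1, hx.2]
    · intro x _; ring
    · intro x _; ring
    · intro x _; rfl
  have h3 : ∑ z ∈ Icc (-(X : ℤ) + j * y) (X + j * y), G z = ∑ z ∈ Icc (-(N : ℤ)) N, G z := by
    refine Finset.sum_subset ?_ ?_
    · intro z hz
      rw [Finset.mem_Icc] at hz ⊢
      constructor <;> linarith [hz.1, hz.2]
    · intro z _ hz
      simp only [hG]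
      split_ifs
      · rw [hsupp, zero_mul]
        by_contra hc'
        apply hz
        rw [not_lt, abs_le] at hc'
        rw [Finset.mem_Icc]
        constructor <;> linarith [hc'.1, hc'.2]
      · rfl
  have h0 : G 0 = 0 := by
    simp only [hG]
    rw [if_neg]
    rw [Int.gcd_zero_left]
    omega
  rw [h1, h2, h3, row_fold, h0, zero_add, Finset.sum_filter]
  refine Finset.sum_congr rfl fun n _ => ?_
  simp only [hG]
  rw [Int.neg_gcd]
  split_ifs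
  · rw [show (-(n : ℤ) - j * y) = -((n : ℤ) + j * y) by ring, hev, Int.natAbs_neg, Int.natAbs_natCast]
    ring
  · ring

theorem row_diff (c X N j : ℕ) (y : ℤ) (hc : 0 < c) (hy : (c : ℤ) ≤ y) (W : ℤ → ℝ)
    (hev : ∀ x, W (-x) = W x) (hsupp : ∀ x, (X : ℤ) < |x| → W x = 0) (F : ℕ → ℝ)
    (hN : (X : ℤ) + j * y ≤ N) :
    ∑ x ∈ Icc (-(X : ℤ)) X with Int.gcd x y < c,
        W x * (F (L j (x, y)).natAbs - F (L 0 (x, y)).natAbs) =
      ∑ n ∈ (Icc 1 N).filter fun n : ℕ => Int.gcd (n : ℤ) y < c,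
        (W ((n : ℤ) - j * y) + W ((n : ℤ) + j * y) - 2 * W n) * F n := by
  have hy0 : 0 < y := by omega
  have hjy : 0 ≤ (j : ℤ) * y := by positivity
  have h1 := row_sum c X N j y hc hy W hev hsupp F hN
  have h2 := row_sum c X N 0 y hc hy W hev hsupp F (by push_cast; linarith)
  have h3 : ∑ x ∈ Icc (-(X : ℤ)) X with Int.gcd x y < c,
        W x * (F (L j (x, y)).natAbs - F (L 0 (x, y)).natAbs) =
      ∑ x ∈ Icc (-(X : ℤ)) X with Int.gcd x y < c, W x * F (L j (x, y)).natAbs -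
      ∑ x ∈ Icc (-(X : ℤ)) X with Int.gcd x y < c, W x * F (L 0 (x, y)).natAbs := by
    rw [← Finset.sum_sub_distrib]
    exact Finset.sum_congr rfl fun x _ => by ring
  rw [h3, h1, h2, ← Finset.sum_sub_distrib]
  refine Finset.sum_congr rfl fun n _ => ?_
  push_cast
  rw [zero_mul, sub_zero, add_zero]
  ring

end Pool.Agent.Lib.MP_176ace_nt.Gr
end

section

set_option autoImplicit false

/-!
# RowB: bounds for one row (paper 221, Section 5)

`row_normal`: by `row_diff` with `W = psi / 2`, `c = b^3`, `N = X + m Y`. `Δ n = W (n - j y) + W (n + j y) - 2 W n`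
satisfies `|Δ n| ≤ 8 j y / X` (Lipschitz), and `Δ n = 0` unless `|4 n - 3 X| < 4 j y` or `|8 n - 7 X| < 8 j y`: otherwise
`n - j y, n, n + j y` lie in one of the intervals `[-3X/4, 3X/4]`, `[3X/4, 7X/8]`, `[7X/8, ∞)`, on each of which `psi` is affine
(`n ≥ 1`, so `n - j y > - m Y ≥ -3X/4`). The number of exceptional `n` is `≤ 2 (2 j y + 1) ≤ 6 m Y`. So the sum is
`≤ 6 m Y * (8 m Y / X) * M = 48 m^2 b^{-30} M ≤ M / b^29`.
`row_special`: by `row_diff` with `W x = 1/2` for `|x| ≤ X`, `0` otherwise. For `n ≥ 1`: `n - j y ≥ -X`, so `Δ n = 0` for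
`n ≤ X - j y`, `Δ n = -1/2` for `X - j y < n ≤ X`, `Δ n = 1/2` for `X < n ≤ X + j y`, and `Δ n = 0` for `n > X + j y`.
-/

namespace Pool.Agent.Lib.MP_176ace_nt.Gr

open Finset

namespace Par

variable {m : ℕ} (P : Par m)

private lemma psi_mid {t : ℤ} (h1 : 3 * (P.X : ℤ) ≤ 4 * t) (h2 : 8 * t ≤ 7 * (P.X : ℤ)) :
    P.psi t = 7 - 8 * (t : ℝ) / P.X := by
  have hX : (0 : ℝ) < P.X := by exact_mod_cast P.X_pos
  have hX' : (0 : ℤ) < P.X := by exact_mod_cast P.X_pos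
  have h1' : 3 * (P.X : ℝ) ≤ 4 * t := by exact_mod_cast h1
  have h2' : 8 * (t : ℝ) ≤ 7 * P.X := by exact_mod_cast h2
  have ht : (0 : ℝ) ≤ t := by linarith
  have e1 : 6 ≤ 8 * (t : ℝ) / P.X := by
    rw [le_div_iff₀ hX]; linarith
  have e2 : 8 * (t : ℝ) / P.X ≤ 7 := by
    rw [div_le_iff₀ hX]; linarith
  rw [psi, abs_of_nonneg ht, max_eq_right (by linarith), min_eq_right (by linarith)]

private lemma jy_le {j : ℕ} (hj : j ≤ m) {y : ℤ} (hy0 : 0 ≤ y) (hy' : y ≤ P.Y) :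
    (j : ℤ) * y ≤ ((m * P.Y : ℕ) : ℤ) := by
  push_cast
  exact mul_le_mul (by exact_mod_cast hj) hy' hy0 (by positivity)

private lemma delta_bound {j : ℕ} (hj : j ≤ m) {y : ℤ} (hy0 : 0 ≤ y) (hy' : y ≤ P.Y) (n : ℤ) :
    |P.psi (n - j * y) / 2 + P.psi (n + j * y) / 2 - 2 * (P.psi n / 2)| ≤
      8 * ((m * P.Y : ℕ) : ℝ) / P.X := by
  have hX : (0 : ℝ) < P.X := by exact_mod_cast P.X_pos
  have hjy : (0 : ℤ) ≤ (j : ℤ) * y := by positivity
  have hA : (((j : ℤ) * y : ℤ) : ℝ) ≤ ((m * P.Y : ℕ) : ℝ) := by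
    exact_mod_cast P.jy_le hj hy0 hy'
  have hjy' : (0 : ℝ) ≤ (((j : ℤ) * y : ℤ) : ℝ) := by exact_mod_cast hjy
  have h1 := P.psi_lip (n - j * y) n
  have h2 := P.psi_lip (n + j * y) n
  have e1 : |((n - j * y : ℤ) : ℝ) - (n : ℝ)| = (((j : ℤ) * y : ℤ) : ℝ) := by
    rw [show ((n - j * y : ℤ) : ℝ) - (n : ℝ) = -(((j : ℤ) * y : ℤ) : ℝ) by push_cast; ring, abs_neg,
      abs_of_nonneg hjy']
  have e2 : |((n + j * y : ℤ) : ℝ) - (n : ℝ)| = (((j : ℤ) * y : ℤ) : ℝ) := by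
    rw [show ((n + j * y : ℤ) : ℝ) - (n : ℝ) = (((j : ℤ) * y : ℤ) : ℝ) by push_cast; ring,
      abs_of_nonneg hjy']
  rw [e1] at h1
  rw [e2] at h2
  have h3 : 8 * (((j : ℤ) * y : ℤ) : ℝ) / P.X ≤ 8 * ((m * P.Y : ℕ) : ℝ) / P.X := by
    apply div_le_div_of_nonneg_right _ hX.le
    linarith
  rw [abs_le] at h1 h2 ⊢
  constructor <;> linarith [h1.1, h1.2, h2.1, h2.2]

private lemma delta_zero {j : ℕ} (hj : j ≤ m) {y : ℤ} (hy0 : 0 ≤ y) (hy' : y ≤ P.Y) {n : ℤ}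
    (hn : 1 ≤ n)
    (h1 : ¬ (3 * (P.X : ℤ) < 4 * n + 4 * (m * P.Y : ℕ) ∧ 4 * n < 3 * (P.X : ℤ) + 4 * (m * P.Y : ℕ)))
    (h2 : ¬ (7 * (P.X : ℤ) < 8 * n + 8 * (m * P.Y : ℕ) ∧
      8 * n < 7 * (P.X : ℤ) + 8 * (m * P.Y : ℕ))) :
    P.psi (n - j * y) / 2 + P.psi (n + j * y) / 2 - 2 * (P.psi n / 2) = 0 := by
  have hX : (0 : ℤ) < P.X := by exact_mod_cast P.X_pos
  have hjy : (0 : ℤ) ≤ (j : ℤ) * y := by positivity
  have hA := P.jy_le hj hy0 hy'
  have hmY : 1000 * ((m * P.Y : ℕ) : ℤ) ≤ P.X := by exact_mod_cast P.mY_le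
  obtain ⟨s, hs⟩ : ∃ s : ℤ, s = (j : ℤ) * y := ⟨_, rfl⟩
  obtain ⟨A, hAe⟩ : ∃ A : ℤ, A = ((m * P.Y : ℕ) : ℤ) := ⟨_, rfl⟩
  rw [← hs] at hA hjy ⊢
  rw [← hAe] at hA hmY h1 h2
  rcases le_or_gt (4 * n + 4 * A) (3 * (P.X : ℤ)) with h3 | h3
  · rw [P.psi_one (t := n - s), P.psi_one (t := n + s), P.psi_one (t := n)]
    · norm_num
    · rw [abs_of_nonneg (by linarith)]; linarith
    · rw [abs_of_nonneg (by linarith)]; linarith
    · have : |n - s| ≤ n + s := by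
        rw [abs_le]; constructor <;> linarith
      linarith
  rcases le_or_gt (7 * (P.X : ℤ) + 8 * A) (8 * n) with h4 | h4
  · rw [P.psi_zero (t := n - s), P.psi_zero (t := n + s), P.psi_zero (t := n)]
    · norm_num
    · rw [abs_of_nonneg (by linarith)]; linarith
    · rw [abs_of_nonneg (by linarith)]; linarith
    · rw [abs_of_nonneg (by linarith)]; linarith
  have h5 : 3 * (P.X : ℤ) + 4 * A ≤ 4 * n := by
    by_contra hc
    exact h1 ⟨h3, not_le.mp hc⟩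
  have h6 : 8 * n + 8 * A ≤ 7 * (P.X : ℤ) := by
    by_contra hc
    exact h2 ⟨not_le.mp hc, h4⟩
  rw [P.psi_mid (t := n - s) (by linarith) (by linarith),
    P.psi_mid (t := n + s) (by linarith) (by linarith),
    P.psi_mid (t := n) (by linarith) (by linarith)]
  push_cast
  ring

theorem row_normal {j : ℕ} (hj : j ≤ m) {y : ℤ} (hy : (P.b : ℤ) ^ 3 ≤ y) (hy' : y ≤ P.Y)
    (F : ℕ → ℝ) (M : ℝ) (hM : ∀ n, 1 ≤ n → n ≤ 2 * P.X → |F n| ≤ M) :
    |∑ x ∈ Icc (-(P.X : ℤ)) P.X with Int.gcd x y < P.b ^ 3,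
      P.psi x / 2 * (F (L j (x, y)).natAbs - F (L 0 (x, y)).natAbs)| ≤ M / (P.b : ℝ) ^ 29 := by
  have hb0 : 0 < P.b := by have := P.b_big; omega
  have hb3 : 0 < P.b ^ 3 := by positivity
  have hX := P.X_pos
  have hXr : (0 : ℝ) < P.X := by exact_mod_cast hX
  have hXi : (0 : ℤ) < P.X := by exact_mod_cast hX
  have hy3 : ((P.b ^ 3 : ℕ) : ℤ) ≤ y := by exact_mod_cast hy
  have hy0 : 0 ≤ y := le_trans (by positivity) hy3
  have hA := P.jy_le hj hy0 hy'
  have hM0 : 0 ≤ M := (abs_nonneg _).trans (hM 1 le_rfl (by omega))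
  have hD : ∑ x ∈ Icc (-(P.X : ℤ)) P.X with Int.gcd x y < P.b ^ 3,
      P.psi x / 2 * (F (L j (x, y)).natAbs - F (L 0 (x, y)).natAbs) =
      ∑ n ∈ (Icc 1 (P.X + m * P.Y)).filter fun n : ℕ => Int.gcd (n : ℤ) y < P.b ^ 3,
        (P.psi ((n : ℤ) - j * y) / 2 + P.psi ((n : ℤ) + j * y) / 2 - 2 * (P.psi n / 2)) * F n :=
    row_diff (P.b ^ 3) P.X (P.X + m * P.Y) j y hb3 hy3 (fun x => P.psi x / 2)
      (fun x => by simp only [P.psi_even]) (fun x hx => by
        rw [P.psi_zero (by linarith), zero_div]) F (by push_cast at hA ⊢; linarith)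
  rw [hD]
  set A := m * P.Y with hAe
  set E1 : Finset ℕ := Ioc (3 * P.X / 4 - A) (3 * P.X / 4 + A) with hE1
  set E2 : Finset ℕ := Ioc (7 * P.X / 8 - A) (7 * P.X / 8 + A) with hE2
  have hc1 : #E1 ≤ 2 * A := by
    rw [hE1, Nat.card_Ioc]; omega
  have hc2 : #E2 ≤ 2 * A := by
    rw [hE2, Nat.card_Ioc]; omega
  have hcE : #(E1 ∪ E2) ≤ 4 * A := (Finset.card_union_le _ _).trans (by omega)
  set S := (Icc 1 (P.X + A)).filter fun n : ℕ => Int.gcd (n : ℤ) y < P.b ^ 3 with hS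
  -- the summand bound
  have hbd : ∀ n ∈ S, |(P.psi ((n : ℤ) - j * y) / 2 + P.psi ((n : ℤ) + j * y) / 2 -
      2 * (P.psi n / 2)) * F n| ≤ if n ∈ E1 ∪ E2 then 8 * (A : ℝ) / P.X * M else 0 := by
    intro n hn
    rw [hS, Finset.mem_filter, Finset.mem_Icc] at hn
    obtain ⟨⟨hn1, hn2⟩, -⟩ := hn
    rw [abs_mul]
    split_ifs with hmem
    · refine mul_le_mul (P.delta_bound hj hy0 hy' n) (hM n hn1 ?_) (abs_nonneg _) (by positivity)
      exact hn2.trans P.XmY_le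
    · rw [Finset.mem_union, not_or, hE1, hE2, Finset.mem_Ioc, Finset.mem_Ioc] at hmem
      rw [P.delta_zero hj hy0 hy' (n := (n : ℤ)) (by exact_mod_cast hn1), abs_zero, zero_mul]
      · rw [← hAe]
        rintro ⟨h1, h2⟩
        apply hmem.1
        omega
      · rw [← hAe]
        rintro ⟨h1, h2⟩
        apply hmem.2
        omega
  calc |∑ n ∈ S, (P.psi ((n : ℤ) - j * y) / 2 + P.psi ((n : ℤ) + j * y) / 2 -
        2 * (P.psi n / 2)) * F n|
      ≤ ∑ n ∈ S, |(P.psi ((n : ℤ) - j * y) / 2 + P.psi ((n : ℤ) + j * y) / 2 -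
        2 * (P.psi n / 2)) * F n| := Finset.abs_sum_le_sum_abs _ _
    _ ≤ ∑ n ∈ S, if n ∈ E1 ∪ E2 then 8 * (A : ℝ) / P.X * M else 0 := Finset.sum_le_sum hbd
    _ = #(S.filter fun n => n ∈ E1 ∪ E2) * (8 * (A : ℝ) / P.X * M) := by
        rw [← Finset.sum_filter, Finset.sum_const, nsmul_eq_mul]
    _ ≤ ((4 * A : ℕ) : ℝ) * (8 * (A : ℝ) / P.X * M) := by
        apply mul_le_mul_of_nonneg_right _ (by positivity)
        have h1 : #(S.filter fun n => n ∈ E1 ∪ E2) ≤ #(E1 ∪ E2) := by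
          apply Finset.card_le_card
          intro n hn
          exact (Finset.mem_filter.mp hn).2
        exact_mod_cast h1.trans hcE
    _ ≤ M / (P.b : ℝ) ^ 29 := by
        have hbr : (0 : ℝ) < P.b := by exact_mod_cast hb0
        have hXe : (P.X : ℝ) = (P.b : ℝ) ^ 90 := by rw [Par.X]; push_cast; rfl
        have hAr : (A : ℝ) = m * (P.b : ℝ) ^ 30 := by rw [hAe, Par.Y]; push_cast; rfl
        have hm2 : 32 * (m : ℝ) ^ 2 ≤ P.b := by
          have h1 := P.m_le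
          have h2 : 32 * m ^ 2 ≤ P.b := by
            refine le_trans ?_ h1
            exact Nat.mul_le_mul_right _ (by norm_num)
          exact_mod_cast h2
        push_cast
        rw [hXe, hAr, le_div_iff₀ (by positivity)]
        have h3 : 4 * ((m : ℝ) * (P.b : ℝ) ^ 30) * (8 * ((m : ℝ) * (P.b : ℝ) ^ 30) /
            (P.b : ℝ) ^ 90 * M) * (P.b : ℝ) ^ 29 = 32 * (m : ℝ) ^ 2 / P.b * M := by
          field_simp
          ring
        rw [h3]
        have h4 : 32 * (m : ℝ) ^ 2 / P.b ≤ 1 := by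
          rw [div_le_one hbr]; exact hm2
        calc 32 * (m : ℝ) ^ 2 / P.b * M ≤ 1 * M := mul_le_mul_of_nonneg_right h4 hM0
          _ = M := one_mul _

theorem row_special {j : ℕ} (hj : j ≤ m) {y : ℤ} (hy : (P.b : ℤ) ^ 3 ≤ y) (hy' : y ≤ P.Y)
    (F : ℕ → ℝ) :
    |∑ x ∈ Icc (-(P.X : ℤ)) P.X with Int.gcd x y < P.b ^ 3,
      1 / 2 * (F (L j (x, y)).natAbs - F (L 0 (x, y)).natAbs)| ≤
      1 / 2 * ∑ n ∈ Ioc (P.X - m * P.Y) (P.X + m * P.Y), |F n| := by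
  have hb0 : 0 < P.b := by have := P.b_big; omega
  have hb3 : 0 < P.b ^ 3 := by positivity
  have hX := P.X_pos
  have hy3 : ((P.b ^ 3 : ℕ) : ℤ) ≤ y := by exact_mod_cast hy
  have hy0 : 0 ≤ y := le_trans (by positivity) hy3
  have hjy : (0 : ℤ) ≤ (j : ℤ) * y := by positivity
  have hA := P.jy_le hj hy0 hy'
  have hmY : 1000 * ((m * P.Y : ℕ) : ℤ) ≤ P.X := by exact_mod_cast P.mY_le
  set W : ℤ → ℝ := fun x => if |x| ≤ (P.X : ℤ) then 1 / 2 else 0 with hW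
  have hL : ∑ x ∈ Icc (-(P.X : ℤ)) P.X with Int.gcd x y < P.b ^ 3,
      1 / 2 * (F (L j (x, y)).natAbs - F (L 0 (x, y)).natAbs) =
      ∑ x ∈ Icc (-(P.X : ℤ)) P.X with Int.gcd x y < P.b ^ 3,
      W x * (F (L j (x, y)).natAbs - F (L 0 (x, y)).natAbs) := by
    refine Finset.sum_congr rfl fun x hx => ?_
    rw [Finset.mem_filter, Finset.mem_Icc] at hx
    simp only [hW]
    rw [if_pos (abs_le.mpr hx.1)]
  have hD := row_diff (P.b ^ 3) P.X (P.X + m * P.Y) j y hb3 hy3 W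
      (fun x => by simp only [hW, abs_neg]) (fun x hx => by
        simp only [hW]; rw [if_neg (not_le.mpr hx)]) F (by push_cast at hA ⊢; linarith)
  rw [hL, hD, Finset.mul_sum]
  obtain ⟨A, hAe⟩ : ∃ A : ℕ, A = m * P.Y := ⟨_, rfl⟩
  rw [← hAe] at hA hmY ⊢
  obtain ⟨s, hs⟩ : ∃ s : ℤ, s = (j : ℤ) * y := ⟨_, rfl⟩
  rw [← hs] at hA hjy ⊢
  set S := (Icc 1 (P.X + A)).filter fun n : ℕ => Int.gcd (n : ℤ) y < P.b ^ 3 with hS
  have hbd : ∀ n ∈ S, |(W ((n : ℤ) - s) + W ((n : ℤ) + s) - 2 * W n) * F n| ≤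
      if n ∈ Ioc (P.X - A) (P.X + A) then 1 / 2 * |F n| else 0 := by
    intro n hn
    rw [hS, Finset.mem_filter, Finset.mem_Icc] at hn
    obtain ⟨⟨hn1, hn2⟩, -⟩ := hn
    rw [abs_mul]
    have hn1' : (1 : ℤ) ≤ n := by exact_mod_cast hn1
    have hn2' : (n : ℤ) ≤ P.X + A := by exact_mod_cast hn2
    have hXA : A ≤ P.X := by
      have : (A : ℤ) ≤ P.X := by linarith [(Nat.cast_nonneg A : (0 : ℤ) ≤ A)]
      exact_mod_cast this
    split_ifs with hmem
    · refine mul_le_mul_of_nonneg_right ?_ (abs_nonneg _)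
      rcases le_or_gt (n : ℤ) P.X with h1 | h1
      · have w1 : W ((n : ℤ) - s) = 1 / 2 := by
          simp only [hW]; rw [if_pos]; rw [abs_le]; constructor <;> linarith
        have w2 : W (n : ℤ) = 1 / 2 := by
          simp only [hW]; rw [if_pos]; rw [abs_le]; constructor <;> linarith
        rw [w1, w2]
        rcases le_or_gt |(n : ℤ) + s| (P.X : ℤ) with h2 | h2
        · have w3 : W ((n : ℤ) + s) = 1 / 2 := by
            simp only [hW]; rw [if_pos h2]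
          rw [w3]; norm_num
        · have w3 : W ((n : ℤ) + s) = 0 := by
            simp only [hW]; rw [if_neg (not_le.mpr h2)]
          rw [w3]; norm_num [abs_of_neg, abs_of_pos]
      · have w2 : W (n : ℤ) = 0 := by
          simp only [hW]; rw [if_neg]; rw [abs_of_nonneg (by linarith)]; linarith
        have w3 : W ((n : ℤ) + s) = 0 := by
          simp only [hW]; rw [if_neg]; rw [abs_of_nonneg (by linarith)]; linarith
        rw [w2, w3]
        rcases le_or_gt |(n : ℤ) - s| (P.X : ℤ) with h2 | h2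
        · have w1 : W ((n : ℤ) - s) = 1 / 2 := by
            simp only [hW]; rw [if_pos h2]
          rw [w1]; norm_num
        · have w1 : W ((n : ℤ) - s) = 0 := by
            simp only [hW]; rw [if_neg (not_le.mpr h2)]
          rw [w1]; norm_num
    · rw [Finset.mem_Ioc, not_and_or, not_lt, not_le] at hmem
      have h3 : (n : ℤ) + A ≤ P.X := by
        rcases hmem with h | h
        · have : n + A ≤ P.X := by omega
          exact_mod_cast this
        · omega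
      have w1 : W ((n : ℤ) - s) = 1 / 2 := by
        simp only [hW]; rw [if_pos]; rw [abs_le]; constructor <;> linarith
      have w2 : W (n : ℤ) = 1 / 2 := by
        simp only [hW]; rw [if_pos]; rw [abs_le]; constructor <;> linarith
      have w3 : W ((n : ℤ) + s) = 1 / 2 := by
        simp only [hW]; rw [if_pos]; rw [abs_le]; constructor <;> linarith
      rw [w1, w2, w3]
      norm_num
  calc |∑ n ∈ S, (W ((n : ℤ) - s) + W ((n : ℤ) + s) - 2 * W n) * F n|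
      ≤ ∑ n ∈ S, |(W ((n : ℤ) - s) + W ((n : ℤ) + s) - 2 * W n) * F n| :=
        Finset.abs_sum_le_sum_abs _ _
    _ ≤ ∑ n ∈ S, (if n ∈ Ioc (P.X - A) (P.X + A) then 1 / 2 * |F n| else 0) :=
        Finset.sum_le_sum hbd
    _ = ∑ n ∈ S.filter (fun n => n ∈ Ioc (P.X - A) (P.X + A)), 1 / 2 * |F n| := by
        rw [← Finset.sum_filter]
    _ ≤ ∑ n ∈ Ioc (P.X - A) (P.X + A), 1 / 2 * |F n| := by
        apply Finset.sum_le_sum_of_subset_of_nonneg
        · intro n hn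
          exact (Finset.mem_filter.mp hn).2
        · intro n _ _
          positivity

end Par

end Pool.Agent.Lib.MP_176ace_nt.Gr
end

section

set_option autoImplicit false

/-!
# EZero: the imbalance before the exclusion

`V = ⋃_y {(x, y) : |x| ≤ X, gcd (x, y) < b^3}`, `y ∈ (Y - b^26, Y]` (`Finset.sum_product'`-type rewriting, the filter
moves inside). At most `b^26` rows are normal or tuning rows, each contributes at most `M / b^29` (`row_normal`; for the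
tuning row times `θ ∈ [0,1]`); the rows `Y1 < y ≤ Y` are `m B1` many and contribute `≤ 1/2 ∑ |F|` each (`row_special`); the
other rows have `w0 = 0`.
-/

namespace Pool.Agent.Lib.MP_176ace_nt.Gr

open Finset

namespace Par

variable {m : ℕ} (P : Par m)

theorem sum_V {A : Type*} [AddCommMonoid A] (G : ℤ × ℤ → A) :
    ∑ v ∈ P.V, G v = ∑ y ∈ Ioc ((P.Y : ℤ) - P.b ^ 26) P.Y,
      ∑ x ∈ Icc (-(P.X : ℤ)) P.X with Int.gcd x y < P.b ^ 3, G (x, y) := by
  unfold V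
  rw [sum_filter, sum_product_right]
  refine sum_congr rfl fun y _ => ?_
  rw [sum_filter]

/-- the bound for one row -/
theorem E_zero_row (r : ℕ) {θ : ℝ} (h0 : 0 ≤ θ) (h1 : θ ≤ 1) {j : ℕ} (hj : j ≤ m) (F : ℕ → ℝ)
    (M : ℝ) (hM : ∀ n, 1 ≤ n → n ≤ 2 * P.X → |F n| ≤ M) (hM0 : 0 ≤ M) {y : ℤ}
    (hy : (P.b : ℤ) ^ 3 ≤ y) (hy' : y ≤ P.Y) :
    |∑ x ∈ Icc (-(P.X : ℤ)) P.X with Int.gcd x y < P.b ^ 3,
      P.w0 r θ (x, y) * (F (L j (x, y)).natAbs - F (L 0 (x, y)).natAbs)| ≤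
      M / (P.b : ℝ) ^ 29 + if (P.Y1 : ℤ) < y then
        1 / 2 * ∑ n ∈ Ioc (P.X - m * P.Y) (P.X + m * P.Y), |F n| else 0 := by
  have hMb : 0 ≤ M / (P.b : ℝ) ^ 29 := div_nonneg hM0 (pow_nonneg (Nat.cast_nonneg _) _)
  by_cases c1 : (P.Y1 : ℤ) < y
  · rw [if_pos c1]
    have e : ∑ x ∈ Icc (-(P.X : ℤ)) P.X with Int.gcd x y < P.b ^ 3,
        P.w0 r θ (x, y) * (F (L j (x, y)).natAbs - F (L 0 (x, y)).natAbs) =
        ∑ x ∈ Icc (-(P.X : ℤ)) P.X with Int.gcd x y < P.b ^ 3,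
        1 / 2 * (F (L j (x, y)).natAbs - F (L 0 (x, y)).natAbs) :=
      sum_congr rfl fun x _ => by
        have : P.w0 r θ (x, y) = 1 / 2 := by unfold w0; exact if_pos c1
        rw [this]
    rw [e]
    exact (P.row_special hj hy hy' F).trans (le_add_of_nonneg_left hMb)
  · rw [if_neg c1, add_zero]
    by_cases c2 : (P.Y1 : ℤ) - r < y
    · have e : ∑ x ∈ Icc (-(P.X : ℤ)) P.X with Int.gcd x y < P.b ^ 3,
          P.w0 r θ (x, y) * (F (L j (x, y)).natAbs - F (L 0 (x, y)).natAbs) =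
          ∑ x ∈ Icc (-(P.X : ℤ)) P.X with Int.gcd x y < P.b ^ 3,
          P.psi x / 2 * (F (L j (x, y)).natAbs - F (L 0 (x, y)).natAbs) :=
        sum_congr rfl fun x _ => by
          have : P.w0 r θ (x, y) = P.psi x / 2 := by
            unfold w0
            rw [if_neg c1, if_pos c2]
          rw [this]
      rw [e]
      exact P.row_normal hj hy hy' F M hM
    · by_cases c3 : y = (P.Y1 : ℤ) - r
      · have e : ∑ x ∈ Icc (-(P.X : ℤ)) P.X with Int.gcd x y < P.b ^ 3,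
            P.w0 r θ (x, y) * (F (L j (x, y)).natAbs - F (L 0 (x, y)).natAbs) =
            θ * ∑ x ∈ Icc (-(P.X : ℤ)) P.X with Int.gcd x y < P.b ^ 3,
            P.psi x / 2 * (F (L j (x, y)).natAbs - F (L 0 (x, y)).natAbs) := by
          rw [mul_sum]
          refine sum_congr rfl fun x _ => ?_
          have : P.w0 r θ (x, y) = θ * P.psi x / 2 := by
            unfold w0
            rw [if_neg c1, if_neg c2, if_pos c3]
          rw [this]
          ring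
        rw [e, abs_mul, abs_of_nonneg h0]
        refine (mul_le_of_le_one_left (abs_nonneg _) h1).trans ?_
        exact P.row_normal hj hy hy' F M hM
      · have e : ∑ x ∈ Icc (-(P.X : ℤ)) P.X with Int.gcd x y < P.b ^ 3,
            P.w0 r θ (x, y) * (F (L j (x, y)).natAbs - F (L 0 (x, y)).natAbs) = 0 := by
          refine sum_eq_zero fun x _ => ?_
          have : P.w0 r θ (x, y) = 0 := by
            unfold w0
            rw [if_neg c1, if_neg c2, if_neg c3]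
          rw [this, zero_mul]
        rw [e, abs_zero]
        exact hMb

theorem E_zero (r : ℕ) {θ : ℝ} (h0 : 0 ≤ θ) (h1 : θ ≤ 1) {j : ℕ} (hj : j ≤ m) (F : ℕ → ℝ) (M : ℝ)
    (hM : ∀ n, 1 ≤ n → n ≤ 2 * P.X → |F n| ≤ M) :
    |∑ v ∈ P.V, P.w0 r θ v * (F (L j v).natAbs - F (L 0 v).natAbs)| ≤
      M / (P.b : ℝ) ^ 3 +
        (m * P.B1 : ℕ) / 2 * ∑ n ∈ Ioc (P.X - m * P.Y) (P.X + m * P.Y), |F n| := by
  have hX := P.X_pos
  have hM0 : 0 ≤ M := (abs_nonneg _).trans (hM 1 le_rfl (by omega))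
  have hb0 : (0 : ℝ) < P.b := Nat.cast_pos.2 P.b_pos
  have hb3 : P.b ^ 26 + P.b ^ 3 ≤ P.Y := by
    have h1 := P.window_le
    have h2 : P.b ^ 26 ≤ P.b ^ 29 := Nat.pow_le_pow_right P.b_pos (by norm_num)
    have h3 : P.b ^ 3 ≤ P.b ^ 29 := Nat.pow_le_pow_right P.b_pos (by norm_num)
    omega
  set T := ∑ n ∈ Ioc (P.X - m * P.Y) (P.X + m * P.Y), |F n| with hT
  have hT0 : 0 ≤ T := sum_nonneg fun n _ => abs_nonneg _
  rw [P.sum_V]
  have hrow : ∀ y ∈ Ioc ((P.Y : ℤ) - P.b ^ 26) P.Y,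
      |∑ x ∈ Icc (-(P.X : ℤ)) P.X with Int.gcd x y < P.b ^ 3,
        P.w0 r θ (x, y) * (F (L j (x, y)).natAbs - F (L 0 (x, y)).natAbs)| ≤
      M / (P.b : ℝ) ^ 29 + if (P.Y1 : ℤ) < y then 1 / 2 * T else 0 := by
    intro y hy
    rw [mem_Ioc] at hy
    refine P.E_zero_row r h0 h1 hj F M hM hM0 ?_ hy.2
    have h3 : ((P.b : ℤ) ^ 26 + (P.b : ℤ) ^ 3) ≤ P.Y := by exact_mod_cast hb3
    linarith [hy.1]
  refine (abs_sum_le_sum_abs _ _).trans ((sum_le_sum hrow).trans ?_)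
  rw [sum_add_distrib, sum_const, Int.card_Ioc, ← sum_filter, sum_const, nsmul_eq_mul, nsmul_eq_mul]
  have hc1 : ((P.Y : ℤ) - ((P.Y : ℤ) - P.b ^ 26)).toNat = P.b ^ 26 := by
    rw [sub_sub_cancel]
    have : ((P.b : ℤ) ^ 26) = ((P.b ^ 26 : ℕ) : ℤ) := by push_cast; rfl
    rw [this, Int.toNat_natCast]
  have hc2 : #{y ∈ Ioc ((P.Y : ℤ) - P.b ^ 26) P.Y | (P.Y1 : ℤ) < y} ≤ m * P.B1 := by
    have hsub : {y ∈ Ioc ((P.Y : ℤ) - P.b ^ 26) P.Y | (P.Y1 : ℤ) < y} ⊆ Ioc (P.Y1 : ℤ) P.Y := by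
      intro y hy
      rw [mem_filter, mem_Ioc] at hy
      exact mem_Ioc.2 ⟨hy.2, hy.1.2⟩
    refine (card_le_card hsub).trans ?_
    rw [Int.card_Ioc]
    have h2 := P.Y1_eq
    have h3 : ((P.Y : ℤ) - P.Y1) = ((m * P.B1 : ℕ) : ℤ) := by
      have : (P.Y1 : ℤ) + ((m * P.B1 : ℕ) : ℤ) = P.Y := by exact_mod_cast h2
      linarith
    rw [h3, Int.toNat_natCast]
  rw [hc1]
  refine add_le_add (le_of_eq ?_) ?_
  · push_cast
    field_simp
  · calc (#{y ∈ Ioc ((P.Y : ℤ) - P.b ^ 26) P.Y | (P.Y1 : ℤ) < y} : ℝ) * (1 / 2 * T)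
        ≤ ((m * P.B1 : ℕ) : ℝ) * (1 / 2 * T) :=
          mul_le_mul_of_nonneg_right (Nat.cast_le.2 hc2) (by positivity)
      _ = (m * P.B1 : ℕ) / 2 * T := by ring

end Par

end Pool.Agent.Lib.MP_176ace_nt.Gr
end
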