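import Mathlib
import Pool.Agent.Lib.MP_176ace_nt.Gr.VFacts
import Pool.Agent.Lib.MP_176ace_nt.Gr.EZero

section

set_option autoImplicit false

/-!
# CTop: the coordinates of large primes

`cF_bound`: from `P.hgr`.
`c_top`: if `c n (inr p) ≠ 0` take `S` from `P.D.near`. `S = 1` gives `n = p` (then use `P.D.one`); `S ≥ 2` gives
`n ≥ S p - M2 (S - 1) ≥ 2 p - M2 > X + m Y` (`3 p > 2 X`, `p > M2`), a contradiction.
`c_zero_of_lt`: `c n (inr p) ≠ 0` implies `n ≥ S p - M2 (S-1) ≥ p`.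
`c_Ptop` (D4): let `n = |L_i v| ≥ 1`, `n ≤ X + m Y`. If `c n (inr p) ≠ 0` then `n = p` by `c_top` (`3 Ptop ≥ 2 X`). Rows
`y ≤ Y1`: `w ≠ 0` forces `psi v.1 ≠ 0`, so `8 |v.1| < 7 X` and `n ≤ 7X/8 + m Y < Ptop`, contradiction. Rows `y > Y1`:
`w ≠ 0` forces `¬ Exc v`, but `|L_i v| = p` is a prime `> Ptop`, contradiction.
-/

namespace Pool.Agent.Lib.MP_176ace_nt.Gr

open Finset

namespace Par

variable {m : ℕ} (P : Par m)

theorem cF_bound (i : ℕ ⊕ ℕ) {n : ℕ} (h1 : 1 ≤ n) (h2 : n ≤ 2 * P.X) : |P.cF i n| ≤ P.b := by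
  have h := P.hgr n h1 h2
  have h3 : (P.D.c n i).natAbs ≤ P.b := by
    by_cases hi : i ∈ (P.D.c n).support
    · exact (Finset.single_le_sum (f := fun i => (P.D.c n i).natAbs) (fun _ _ => Nat.zero_le _)
        hi).trans h
    · rw [Finsupp.notMem_support_iff.1 hi]
      simp
  unfold cF
  have h4 : (|P.D.c n i| : ℤ) ≤ P.b := by
    rw [Int.abs_eq_natAbs]
    exact_mod_cast h3
  exact_mod_cast h4

private theorem M2_small : 1000 * P.M2 ≤ P.X := by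
  have h1 := P.M2_le
  have hm := P.m_pos
  have h2 : P.M2 ≤ m ^ 2 * (P.M2 + 1) := by
    have : 1 ≤ m ^ 2 := Nat.one_le_pow _ _ hm
    nlinarith
  have h3 : P.b ≤ P.X := by
    unfold X
    exact Nat.le_self_pow (by norm_num) _
  omega

private theorem Q0_small : P.D.Q0 < P.b := by
  have := P.Q0_lt
  omega

private theorem b_small : 1000 * P.b ≤ P.X := by
  have h1 := P.b_big
  calc 1000 * P.b ≤ P.b * P.b := Nat.mul_le_mul_right _ (by omega)
    _ = P.b ^ 2 := by ring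
    _ ≤ P.b ^ 90 := Nat.pow_le_pow_right P.b_pos (by norm_num)
    _ = P.X := rfl

private theorem near_bound {p : ℕ} (hp : p.Prime) (hpQ : P.D.Q0 < p) {n : ℕ} (h1 : 1 ≤ n)
    (hc : P.D.c n (Sum.inr p) ≠ 0) : n = p ∨ 2 * p ≤ n + P.M2 := by
  obtain ⟨S, hS, hSn⟩ := P.D.near p hp hpQ n h1 hc
  have hQ := P.D.Q0_ge
  have hM : P.M2 < p := lt_of_le_of_lt hQ hpQ
  have hSn' : |(n : ℤ) - S * p| ≤ (P.M2 : ℤ) * ((S : ℤ) - 1) := hSn
  rcases Nat.lt_or_ge 1 S with h | h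
  · right
    have h2 := (abs_le.1 hSn').1
    have h3 : (2 : ℤ) ≤ S := by exact_mod_cast h
    have h4 : (P.M2 : ℤ) < p := by exact_mod_cast hM
    have h5 : (0 : ℤ) ≤ ((S : ℤ) - 2) * ((p : ℤ) - P.M2) :=
      mul_nonneg (by linarith) (by linarith)
    have h6 : (2 * p : ℤ) ≤ n + P.M2 := by nlinarith
    exact_mod_cast h6
  · left
    have h3 : S = 1 := le_antisymm h hS
    subst h3
    have h4 : |(n : ℤ) - p| ≤ 0 := by simpa using hSn'
    have h5 : (n : ℤ) - p = 0 := abs_eq_zero.1 (le_antisymm h4 (abs_nonneg _))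
    have h6 : (n : ℤ) = p := by linarith
    exact_mod_cast h6

theorem c_top {p : ℕ} (hp : p.Prime) (h2 : 2 * P.X < 3 * p) {n : ℕ} (h1 : 1 ≤ n)
    (hn : n ≤ P.X + m * P.Y) : P.D.c n (Sum.inr p) = if n = p then 1 else 0 := by
  have hb := P.b_small
  have hQ := P.Q0_small
  have hpQ : P.D.Q0 < p := by omega
  split_ifs with h
  · subst h
    exact P.D.one n hp hpQ
  · by_contra hc
    have h3 := P.mY_le
    have h4 := P.M2_small
    have hX := P.X_pos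
    rcases P.near_bound hp hpQ h1 hc with h5 | h5
    · exact h h5
    · omega

theorem c_zero_of_lt {p : ℕ} (hp : p.Prime) (hpQ : P.D.Q0 < p) {n : ℕ} (h1 : 1 ≤ n) (hn : n < p) :
    P.D.c n (Sum.inr p) = 0 := by
  by_contra hc
  have hM : P.M2 < p := lt_of_le_of_lt P.D.Q0_ge hpQ
  rcases P.near_bound hp hpQ h1 hc with h5 | h5
  · omega
  · omega

theorem c_Ptop {r : ℕ} {θ : ℝ} {v : ℤ × ℤ} (hv : v ∈ P.V) (hw : P.w r θ v ≠ 0) {p : ℕ}
    (hp : p.Prime) (hP : P.Ptop < p) {i : ℕ} (hi : i ≤ m) :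
    P.D.c (L i v).natAbs (Sum.inr p) = 0 := by
  have h1 := (P.V_L_le2 hv hi).1
  have h2 := P.V_L_le hv hi
  have h3 := P.Ptop_eq
  have h4 := P.mY_le
  have hX := P.X_pos
  have h5 : 2 * m * P.Y = 2 * (m * P.Y) := by ring
  have h6 : 2 * P.X < 3 * p := by omega
  rw [P.c_top hp h6 h1 h2]
  rw [if_neg]
  intro h7
  by_cases h8 : (P.Y1 : ℤ) < v.2
  · apply hw
    unfold w
    rw [if_pos h8, if_pos]
    exact ⟨i, hi, by rw [h7]; exact hp, by rw [h7]; exact hP⟩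
  · have h9 : P.psi v.1 ≠ 0 := by
      intro h
      apply hw
      unfold w
      rw [if_neg h8, h]
      simp
    have h10 : 8 * |v.1| < 7 * (P.X : ℤ) := by
      by_contra h
      exact h9 (P.psi_zero (not_lt.1 h))
    have h11 := P.V_y hv
    have h12 : |L i v| ≤ |v.1| + m * P.Y := by
      unfold L
      refine (abs_add_le _ _).trans ?_
      rw [abs_mul, Nat.abs_cast, abs_of_pos h11.2.1]
      have h13 : (i : ℤ) ≤ m := by exact_mod_cast hi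
      have h14 : (0 : ℤ) ≤ m := Int.natCast_nonneg m
      have h15 : (i : ℤ) * v.2 ≤ m * P.Y :=
        mul_le_mul h13 h11.2.2 h11.2.1.le h14
      linarith
    have h16 : ((L i v).natAbs : ℤ) = |L i v| := (Int.abs_eq_natAbs _).symm
    have h17 : (p : ℤ) ≤ |v.1| + m * P.Y := by
      rw [← h7, h16]
      exact h12
    have h18 : ((m * P.Y : ℕ) : ℤ) = m * P.Y := by push_cast; ring
    have h19 : (8 * p : ℤ) < 7 * P.X + 8 * (m * P.Y : ℕ) := by
      rw [h18]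
      linarith
    have h20 : 8 * p < 7 * P.X + 8 * (m * P.Y) := by exact_mod_cast h19
    omega

/-- an index outside of `idx` is a prime above `Ptop` -/
theorem not_mem_idx {n : ℕ} {i : ℕ ⊕ ℕ} (hi : i ∉ P.idx) (hn : P.D.c n i ≠ 0) :
    ∃ p, i = Sum.inr p ∧ p.Prime ∧ P.Ptop < p := by
  rcases P.D.c_supp n i hn with ⟨l, rfl, hl, hl'⟩ | ⟨p, rfl, hp, hpQ⟩
  · exfalso
    apply hi
    unfold idx
    rw [mem_union]
    left
    exact mem_image_of_mem _ (mem_Icc.2 ⟨hl, hl'⟩)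
  · refine ⟨p, rfl, hp, ?_⟩
    by_contra h
    apply hi
    unfold idx
    rw [mem_union]
    right
    refine mem_image_of_mem _ ?_
    rw [mem_filter, mem_Icc]
    exact ⟨⟨hp.one_lt.le, not_lt.1 h⟩, hp, hpQ⟩

end Par

end Pool.Agent.Lib.MP_176ace_nt.Gr
end

section

section

set_option autoImplicit false

/-!
# EOne: the bound (E1)

`exc_sum`: `v ∈ ExcV` has some `|L_i' v| > Ptop = X - 2 m Y` (`i' ≤ m`), so `|v.1| > X - 3 m Y` and `|L_i v| > X - 4 m Y` for every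
`i ≤ m`; also `|L_i v| ≤ X + m Y`. For a given row `y` (there are at most `m B1` rows `Y1 < y ≤ Y`) and `i`, every `n` is
`|x + i y|` for at most two `x`.
`E_one`: `E_j F = ∑ w0 (...) - 1/2 ∑_{v ∈ ExcV} (F |L_j v| - F |L_0 v|)` by `w_eq_w0`; use `E_zero` (the interval `Ioc (X - m Y)
(X + m Y)` is contained in `Icc (X - 4 m Y) (X + m Y)`) and `exc_sum` twice: `m B1 / 2 + 1/2 (2 + 2) m B1 ≤ 3 m B1`, `M/b^3 ≤ M/b`
(`M ≥ 0` because `M ≥ |F 1|`).
-/

namespace Pool.Agent.Lib.MP_176ace_nt.Gr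

open Finset

namespace Par

variable {m : ℕ} (P : Par m)

theorem ExcV_range {v : ℤ × ℤ} (hv : v ∈ P.ExcV) {i : ℕ} (hi : i ≤ m) :
    (L i v).natAbs ∈ Icc (P.X - 4 * m * P.Y) (P.X + m * P.Y) := by
  classical
  unfold ExcV at hv
  rw [mem_filter] at hv
  obtain ⟨hV, -, i', hi', -, hlt⟩ := hv
  rw [mem_Icc]
  refine ⟨?_, P.V_L_le hV hi⟩
  have hP := P.Ptop_eq
  have h4 : 4 * m * P.Y = 4 * (m * P.Y) := by ring
  have h2 : 2 * m * P.Y = 2 * (m * P.Y) := by ring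
  have hy := P.V_y hV
  have hbound : ∀ k : ℕ, k ≤ m → (k : ℤ) * v.2 ≤ (m : ℤ) * P.Y := by
    intro k hk
    have h1 : (k : ℤ) ≤ m := by exact_mod_cast hk
    exact mul_le_mul h1 hy.2.2 hy.2.1.le (by positivity)
  have hb1 := hbound i hi
  have hb2 := hbound i' hi'
  have hn1 : 0 ≤ (i : ℤ) * v.2 := mul_nonneg (by positivity) hy.2.1.le
  have hn2 : 0 ≤ (i' : ℤ) * v.2 := mul_nonneg (by positivity) hy.2.1.le
  have hcast : (((m * P.Y : ℕ)) : ℤ) = (m : ℤ) * P.Y := by push_cast; ring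
  rw [← hcast] at hb1 hb2
  rw [h4]
  rw [h2] at hP
  unfold L at hlt ⊢
  omega

theorem exc_sum {i : ℕ} (hi : i ≤ m) (F : ℕ → ℝ) :
    ∑ v ∈ P.ExcV, |F (L i v).natAbs| ≤
      2 * (m * P.B1 : ℕ) * ∑ n ∈ Icc (P.X - 4 * m * P.Y) (P.X + m * P.Y), |F n| := by
  classical
  have hmaps : ∀ v ∈ P.ExcV, (v.2, (L i v).natAbs) ∈
      Ioc (P.Y1 : ℤ) P.Y ×ˢ Icc (P.X - 4 * m * P.Y) (P.X + m * P.Y) := by
    intro v hv
    rw [mem_product]
    refine ⟨?_, P.ExcV_range hv hi⟩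
    unfold ExcV at hv
    rw [mem_filter] at hv
    rw [mem_Ioc]
    exact ⟨hv.2.1, (P.V_y hv.1).2.2⟩
  rw [← sum_fiberwise_of_maps_to hmaps]
  have hcard : #(Ioc (P.Y1 : ℤ) P.Y) = m * P.B1 := by
    rw [Int.card_Ioc]
    have := P.Y1_eq
    omega
  have hsum : ∑ q ∈ Ioc (P.Y1 : ℤ) P.Y ×ˢ Icc (P.X - 4 * m * P.Y) (P.X + m * P.Y), 2 * |F q.2| =
      2 * (m * P.B1 : ℕ) * ∑ n ∈ Icc (P.X - 4 * m * P.Y) (P.X + m * P.Y), |F n| := by
    rw [sum_product]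
    simp only [sum_const, hcard, nsmul_eq_mul, ← mul_sum]
    ring
  rw [← hsum]
  refine sum_le_sum fun q _ => ?_
  have h1 : ∀ v ∈ {v ∈ P.ExcV | (v.2, (L i v).natAbs) = q}, |F (L i v).natAbs| = |F q.2| := by
    intro v hv
    rw [mem_filter] at hv
    rw [← hv.2]
  rw [sum_congr rfl h1, sum_const, nsmul_eq_mul]
  refine mul_le_mul_of_nonneg_right ?_ (abs_nonneg _)
  have hsub : {v ∈ P.ExcV | (v.2, (L i v).natAbs) = q} ⊆
      {((q.2 : ℤ) - i * q.1, q.1), (-(q.2 : ℤ) - i * q.1, q.1)} := by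
    intro v hv
    rw [mem_filter] at hv
    have h2 := hv.2
    rw [mem_insert, mem_singleton]
    rcases Int.natAbs_eq (L i v) with h | h
    · left
      rw [← h2]
      unfold L at h ⊢
      ext <;> simp only
      rw [← h]
      ring
    · right
      rw [← h2]
      unfold L at h ⊢
      ext <;> simp only
      have h3 : v.1 = -((v.1 + (i : ℤ) * v.2).natAbs : ℤ) - i * v.2 := by
        rw [← h]; ring
      exact h3
  have h3 : #{v ∈ P.ExcV | (v.2, (L i v).natAbs) = q} ≤ 2 :=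
    (card_le_card hsub).trans (card_insert_le _ _)
  exact_mod_cast h3

theorem E_eq (r : ℕ) (θ : ℝ) (j : ℕ) (F : ℕ → ℝ) :
    P.E r θ j F = ∑ v ∈ P.V, P.w0 r θ v * (F (L j v).natAbs - F (L 0 v).natAbs) -
      1 / 2 * ∑ v ∈ P.ExcV, (F (L j v).natAbs - F (L 0 v).natAbs) := by
  classical
  unfold E
  have h1 : ∑ v ∈ P.ExcV, (F (L j v).natAbs - F (L 0 v).natAbs) =
      ∑ v ∈ P.V, if v ∈ P.ExcV then (F (L j v).natAbs - F (L 0 v).natAbs) else 0 := by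
    rw [← sum_filter]
    refine sum_congr ?_ fun _ _ => rfl
    ext v
    rw [mem_filter]
    refine ⟨fun h => ⟨?_, h⟩, fun h => h.2⟩
    unfold ExcV at h
    exact (mem_filter.1 h).1
  rw [h1, mul_sum, ← sum_sub_distrib]
  refine sum_congr rfl fun v hv => ?_
  rw [P.w_eq_w0 r θ hv]
  split_ifs
  · ring
  · ring

theorem E_one (r : ℕ) {θ : ℝ} (h0 : 0 ≤ θ) (h1 : θ ≤ 1) {j : ℕ} (hj : j ≤ m) (F : ℕ → ℝ) (M : ℝ)
    (hM : ∀ n, 1 ≤ n → n ≤ 2 * P.X → |F n| ≤ M) :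
    |P.E r θ j F| ≤ M / P.b +
      3 * (m * P.B1 : ℕ) * ∑ n ∈ Icc (P.X - 4 * m * P.Y) (P.X + m * P.Y), |F n| := by
  classical
  have hE := P.E_zero r h0 h1 hj F M hM
  have he1 := P.exc_sum hj F
  have he2 := P.exc_sum (Nat.zero_le m) F
  have hX := P.X_pos
  have hM0 : 0 ≤ M := (abs_nonneg _).trans (hM 1 le_rfl (by omega))
  set S : ℝ := ∑ n ∈ Icc (P.X - 4 * m * P.Y) (P.X + m * P.Y), |F n| with hS
  have hS0 : 0 ≤ S := sum_nonneg fun _ _ => abs_nonneg _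
  have hsub : ∑ n ∈ Ioc (P.X - m * P.Y) (P.X + m * P.Y), |F n| ≤ S := by
    refine sum_le_sum_of_subset_of_nonneg ?_ fun _ _ _ => abs_nonneg _
    intro n hn
    rw [mem_Ioc] at hn
    rw [mem_Icc]
    refine ⟨?_, hn.2⟩
    have h4 : 4 * m * P.Y = 4 * (m * P.Y) := by ring
    rw [h4]
    omega
  have hb : (1 : ℝ) ≤ P.b := by exact_mod_cast P.b_pos
  have hMb : M / (P.b : ℝ) ^ 3 ≤ M / P.b := by
    refine div_le_div_of_nonneg_left hM0 (by positivity) ?_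
    calc (P.b : ℝ) = P.b ^ 1 := (pow_one _).symm
      _ ≤ P.b ^ 3 := pow_le_pow_right₀ hb (by norm_num)
  have hexc : |∑ v ∈ P.ExcV, (F (L j v).natAbs - F (L 0 v).natAbs)| ≤
      4 * (m * P.B1 : ℕ) * S := by
    calc |∑ v ∈ P.ExcV, (F (L j v).natAbs - F (L 0 v).natAbs)|
        ≤ ∑ v ∈ P.ExcV, |F (L j v).natAbs - F (L 0 v).natAbs| := abs_sum_le_sum_abs _ _
      _ ≤ ∑ v ∈ P.ExcV, (|F (L j v).natAbs| + |F (L 0 v).natAbs|) :=
        sum_le_sum fun _ _ => abs_sub _ _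
      _ = ∑ v ∈ P.ExcV, |F (L j v).natAbs| + ∑ v ∈ P.ExcV, |F (L 0 v).natAbs| :=
        sum_add_distrib
      _ ≤ _ := by linarith
  rw [P.E_eq]
  set mb : ℝ := ((m * P.B1 : ℕ) : ℝ) with hmb
  have hmb0 : 0 ≤ mb := Nat.cast_nonneg _
  have hE2 : |∑ v ∈ P.V, P.w0 r θ v * (F (L j v).natAbs - F (L 0 v).natAbs)| ≤
      M / P.b + mb / 2 * S := by
    refine hE.trans (add_le_add hMb ?_)
    exact mul_le_mul_of_nonneg_left hsub (by positivity)
  have hab : ∀ a c : ℝ, |a - 1 / 2 * c| ≤ |a| + 1 / 2 * |c| := by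
    intro a c
    refine (abs_sub _ _).trans ?_
    rw [abs_mul, abs_of_pos (by norm_num : (0 : ℝ) < 1 / 2)]
  refine (hab _ _).trans ?_
  have hms : 0 ≤ mb * S := mul_nonneg hmb0 hS0
  linarith

end Par

end Pool.Agent.Lib.MP_176ace_nt.Gr
end

section

set_option autoImplicit false

/-!
# ETwo: the bound (E2)

`exc_count`: `v = (x, y) ∈ ExcV` with `|L_i v| = p`: so `x = ε p - i y`, `ε = ±1`, and some `i' ≤ m` has `|L_i' v|` prime `> Ptop`;
`i' ≠ i` since `p ≤ Ptop`. `|L_i' v| = |ε p + (i' - i) y| = p + δ y` with `δ = ε (i' - i)` (positive, since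
`p > 2X/3 ≥ m Y`). For each of the two signs and each of the `m` values of `i'` the number of rows `Y1 < y ≤ Y`
(`m B1` rows) with `p + δ y` prime and `> Ptop ≥ D0` is at most `(m B1 + K D0) / K` by `P.hsieve`, `K = 8 m^2 K6`. And `v` is
determined by `y` and `ε`.
`E_two`: `F = 1_{n = p}`, `M = 1`, in `E_zero` the second sum vanishes because `p ≤ Ptop ≤ X - m Y`. The
exclusion part is `1/2 |#{v ∈ ExcV : |L_j v| = p} - #{v ∈ ExcV : |L_0 v| = p}|`, at most `1/2` times the maximum of the two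
counts.
-/

namespace Pool.Agent.Lib.MP_176ace_nt.Gr

open Finset

namespace Par

variable {m : ℕ} (P : Par m)

private lemma D0_lt_Ptop : P.D0 < P.Ptop := by
  have h1 := P.K6_le
  have h2 := P.mY_le
  have h3 := P.Ptop_eq
  have h4 := P.K6_pos
  have h5 := P.hm
  have h6 : P.D0 + 1 ≤ P.b := by
    refine le_trans ?_ h1
    have h7 : 1 ≤ m ^ 2 * P.K6 := Nat.mul_pos (by positivity) (by omega)
    nlinarith
  have hb : 10 ^ 6 ≤ P.b := P.b_big
  have h8 : P.b ^ 1 ≤ P.b ^ 30 := Nat.pow_le_pow_right (by omega) (by norm_num)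
  have h9 : P.b ≤ m * P.Y := by
    rw [Par.Y]
    calc P.b = P.b ^ 1 := (pow_one _).symm
      _ ≤ P.b ^ 30 := h8
      _ ≤ m * P.b ^ 30 := Nat.le_mul_of_pos_left _ (by omega)
  have h10 : 2 * m * P.Y = 2 * (m * P.Y) := by ring
  omega

theorem exc_count {p : ℕ} (hp : p.Prime) (h2 : 2 * P.X < 3 * p) (hp' : p ≤ P.Ptop) {i : ℕ}
    (hi : i ≤ m) : (8 * m ^ 2 * P.K6) * #{v ∈ P.ExcV | (L i v).natAbs = p} ≤
      2 * m * (m * P.B1 + 8 * m ^ 2 * P.K6 * P.D0) := by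
  classical
  have hmY : 1000 * ((m * P.Y : ℕ) : ℤ) ≤ P.X := by exact_mod_cast P.mY_le
  have hY1 : (P.Y1 : ℤ) + (m * P.B1 : ℕ) = P.Y := by exact_mod_cast P.Y1_eq
  have hD0 : (P.D0 : ℤ) < P.Ptop := by exact_mod_cast P.D0_lt_Ptop
  have hp3 : 2 * (P.X : ℤ) < 3 * p := by exact_mod_cast h2
  set A : ℤ × ℕ → Finset ℤ := fun t =>
    {y ∈ Ioc (P.Y1 : ℤ) (P.Y1 + (m * P.B1 : ℕ)) |
      ((p : ℤ) + (t.1 * ((t.2 : ℤ) - i)) * y).toNat.Prime ∧
        (P.D0 : ℤ) < (p : ℤ) + (t.1 * ((t.2 : ℤ) - i)) * y} with hA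
  set I : Finset (ℤ × ℕ) := ({1, -1} : Finset ℤ) ×ˢ (range (m + 1)).erase i with hI
  have hsub : {v ∈ P.ExcV | (L i v).natAbs = p} ⊆
      I.biUnion fun t => (A t).image fun y => (t.1 * p - i * y, y) := by
    intro v hv
    rw [Finset.mem_filter] at hv
    obtain ⟨hv1, hv2⟩ := hv
    have hvE := hv1
    rw [Par.ExcV, Finset.mem_filter] at hvE
    obtain ⟨hV, hY, i', hi', hpr, htop⟩ := hvE
    have hy := P.V_y hV
    -- the sign
    obtain ⟨e, he, hLe⟩ : ∃ e : ℤ, (e = 1 ∨ e = -1) ∧ L i v = e * p := by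
      rcases Int.natAbs_eq (L i v) with h | h
      · exact ⟨1, Or.inl rfl, by rw [h, hv2, one_mul]⟩
      · exact ⟨-1, Or.inr rfl, by rw [h, hv2]; ring⟩
    have hne : i' ≠ i := by
      rintro rfl
      rw [hv2] at htop
      omega
    have hee : e * e = 1 := by rcases he with h | h <;> rw [h] <;> norm_num
    have hL' : L i' v = e * (p + e * ((i' : ℤ) - i) * v.2) := by
      have h3 : L i' v = L i v + ((i' : ℤ) - i) * v.2 := by simp only [L]; ring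
      rw [h3, hLe]
      linear_combination -((i' : ℤ) - i) * v.2 * hee
    have hpos : 0 < (p : ℤ) + e * ((i' : ℤ) - i) * v.2 := by
      have h4 : |e * ((i' : ℤ) - i) * v.2| ≤ ((m * P.Y : ℕ) : ℤ) := by
        rw [abs_mul, abs_mul]
        have h5 : |e| = 1 := by rcases he with h | h <;> rw [h] <;> norm_num
        rw [h5, one_mul, abs_of_pos hy.2.1]
        push_cast
        refine mul_le_mul ?_ hy.2.2 hy.2.1.le (by positivity)
        rw [abs_le]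
        constructor <;> omega
      have := (abs_le.mp h4).1
      linarith
    have habs : (L i' v).natAbs = ((p : ℤ) + e * ((i' : ℤ) - i) * v.2).toNat := by
      have h5 : ((L i' v).natAbs : ℤ) = (p : ℤ) + e * ((i' : ℤ) - i) * v.2 := by
        rw [Int.natCast_natAbs, hL', abs_mul, abs_of_pos hpos]
        rcases he with h | h <;> rw [h] <;> norm_num
      omega
    rw [Finset.mem_biUnion]
    refine ⟨(e, i'), ?_, ?_⟩
    · rw [hI, Finset.mem_product, Finset.mem_insert, Finset.mem_singleton, Finset.mem_erase,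
        Finset.mem_range]
      exact ⟨he, hne, by omega⟩
    · rw [Finset.mem_image]
      refine ⟨v.2, ?_, ?_⟩
      · rw [hA, Finset.mem_filter, Finset.mem_Ioc]
        refine ⟨⟨hY, ?_⟩, ?_, ?_⟩
        · rw [hY1]; exact hy.2.2
        · rw [← habs]; exact hpr
        · have h6 : (((L i' v).natAbs : ℕ) : ℤ) = (p : ℤ) + e * ((i' : ℤ) - i) * v.2 := by
            rw [habs]; exact Int.toNat_of_nonneg hpos.le
          rw [← h6]
          have h7 : (P.Ptop : ℤ) < ((L i' v).natAbs : ℤ) := by exact_mod_cast htop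
          exact hD0.trans h7
      · ext
        · have h8 : v.1 + (i : ℤ) * v.2 = e * p := hLe
          simp only
          linarith
        · rfl
  have hcardI : #I ≤ 2 * m := by
    rw [hI, Finset.card_product, Finset.card_erase_of_mem (Finset.mem_range.mpr (by omega)),
      Finset.card_range]
    have : #({1, -1} : Finset ℤ) ≤ 2 := Finset.card_le_two
    calc #({1, -1} : Finset ℤ) * (m + 1 - 1) ≤ 2 * (m + 1 - 1) := Nat.mul_le_mul_right _ this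
      _ = 2 * m := by rw [Nat.add_sub_cancel]
  have hAt : ∀ t ∈ I, (8 * m ^ 2 * P.K6) * #((A t).image fun y => (t.1 * (p : ℤ) - i * y, y)) ≤
      m * P.B1 + 8 * m ^ 2 * P.K6 * P.D0 := by
    rintro ⟨e, i'⟩ ht
    rw [hI, Finset.mem_product, Finset.mem_insert, Finset.mem_singleton, Finset.mem_erase,
      Finset.mem_range] at ht
    obtain ⟨he, hne, hi'⟩ := ht
    simp only at he hne hi'
    have habs : |e * ((i' : ℤ) - i)| = |(i' : ℤ) - i| := by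
      rw [abs_mul]
      have h5 : |e| = 1 := by rcases he with h | h <;> rw [h] <;> norm_num
      rw [h5, one_mul]
    have hs := P.hsieve (p : ℤ) (e * ((i' : ℤ) - i)) (P.Y1 : ℤ) (m * P.B1)
      (by rw [habs]; have : (i' : ℤ) - i ≠ 0 := by omega
          exact Int.one_le_abs this)
      (by rw [habs, abs_le]; constructor <;> omega)
    refine le_trans (Nat.mul_le_mul_left _ Finset.card_image_le) ?_
    exact hs
  calc (8 * m ^ 2 * P.K6) * #{v ∈ P.ExcV | (L i v).natAbs = p}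
      ≤ (8 * m ^ 2 * P.K6) * ∑ t ∈ I, #((A t).image fun y => (t.1 * (p : ℤ) - i * y, y)) :=
        Nat.mul_le_mul_left _ ((Finset.card_le_card hsub).trans Finset.card_biUnion_le)
    _ = ∑ t ∈ I, (8 * m ^ 2 * P.K6) * #((A t).image fun y => (t.1 * (p : ℤ) - i * y, y)) := by
        rw [Finset.mul_sum]
    _ ≤ ∑ t ∈ I, (m * P.B1 + 8 * m ^ 2 * P.K6 * P.D0) := Finset.sum_le_sum hAt
    _ = #I * (m * P.B1 + 8 * m ^ 2 * P.K6 * P.D0) := by rw [Finset.sum_const, smul_eq_mul]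
    _ ≤ 2 * m * (m * P.B1 + 8 * m ^ 2 * P.K6 * P.D0) := Nat.mul_le_mul_right _ hcardI

theorem E_two (r : ℕ) {θ : ℝ} (h0 : 0 ≤ θ) (h1 : θ ≤ 1) {j : ℕ} (hj : j ≤ m) {p : ℕ}
    (hp : p.Prime) (h2 : 2 * P.X < 3 * p) (hp' : p ≤ P.Ptop) :
    |P.E r θ j fun n => if n = p then 1 else 0| ≤ 1 / P.b +
      2 * m * ((m * P.B1 : ℕ) / (8 * m ^ 2 * P.K6 : ℕ) + P.D0) := by
  classical
  set F : ℕ → ℝ := fun n => if n = p then 1 else 0 with hF
  have hbig := P.b_big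
  have hb1 : (1 : ℝ) ≤ P.b := by
    have : 1 ≤ P.b := by omega
    exact_mod_cast this
  have hF1 : ∀ n, |F n| ≤ 1 := by
    intro n
    simp only [hF]
    split_ifs <;> norm_num
  have hE0 := P.E_zero r h0 h1 hj F 1 (fun n _ _ => hF1 n)
  have hsum0 : ∑ n ∈ Ioc (P.X - m * P.Y) (P.X + m * P.Y), |F n| = 0 := by
    refine Finset.sum_eq_zero fun n hn => ?_
    rw [Finset.mem_Ioc] at hn
    have h3 := P.Ptop_eq
    have h4 : 2 * m * P.Y = 2 * (m * P.Y) := by ring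
    simp only [hF]
    rw [if_neg (by omega), abs_zero]
  rw [hsum0, mul_zero, add_zero] at hE0
  have hpow : (1 : ℝ) / (P.b : ℝ) ^ 3 ≤ 1 / P.b := by
    apply div_le_div_of_nonneg_left (by norm_num) (by linarith)
    exact le_self_pow₀ hb1 (by norm_num)
  -- the counts
  have hK : (0 : ℝ) < (8 * m ^ 2 * P.K6 : ℕ) := by
    have h3 := P.K6_pos
    have h4 := P.hm
    have : 0 < 8 * m ^ 2 * P.K6 := by positivity
    exact_mod_cast this
  have hcount : ∀ i ≤ m, ∑ v ∈ P.ExcV, F (L i v).natAbs ≤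
      2 * m * ((m * P.B1 : ℕ) / (8 * m ^ 2 * P.K6 : ℕ) + P.D0) := by
    intro i hi
    have h3 : ∑ v ∈ P.ExcV, F (L i v).natAbs = #{v ∈ P.ExcV | (L i v).natAbs = p} := by
      simp only [hF]
      rw [← Finset.sum_filter, Finset.sum_const, nsmul_eq_mul, mul_one]
    have h4 := P.exc_count hp h2 hp' hi
    have h5 : ((8 * m ^ 2 * P.K6 : ℕ) : ℝ) * (#{v ∈ P.ExcV | (L i v).natAbs = p} : ℝ) ≤
        2 * m * ((m * P.B1 : ℕ) + (8 * m ^ 2 * P.K6 : ℕ) * P.D0) := by exact_mod_cast h4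
    rw [h3]
    have h6 : (2 : ℝ) * m * ((m * P.B1 : ℕ) / (8 * m ^ 2 * P.K6 : ℕ) + P.D0) =
        (2 * m * ((m * P.B1 : ℕ) + (8 * m ^ 2 * P.K6 : ℕ) * P.D0)) / (8 * m ^ 2 * P.K6 : ℕ) := by
      field_simp
    rw [h6, le_div_iff₀ hK, mul_comm]
    exact h5
  have hnn : ∀ i, 0 ≤ ∑ v ∈ P.ExcV, F (L i v).natAbs := by
    intro i
    refine Finset.sum_nonneg fun v _ => ?_
    simp only [hF]
    split_ifs <;> norm_num
  have h3 := hcount j hj
  have h4 := hcount 0 (Nat.zero_le _)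
  have h5 := hnn j
  have h6 := hnn 0
  rw [P.E_eq r θ j F, Finset.sum_sub_distrib]
  set c1 := ∑ v ∈ P.ExcV, F (L j v).natAbs with hc1
  set c2 := ∑ v ∈ P.ExcV, F (L 0 v).natAbs with hc2
  set B := (2 : ℝ) * m * ((m * P.B1 : ℕ) / (8 * m ^ 2 * P.K6 : ℕ) + P.D0) with hB
  rw [abs_le] at hE0 ⊢
  constructor <;> linarith [hE0.1, hE0.2]

end Par

end Pool.Agent.Lib.MP_176ace_nt.Gr
end

section

set_option autoImplicit false

/-!
# DBnd: the imbalances of the indices, (D1)-(D3)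

`E_D1`: `E_one` with `M = b` (`cF_bound`): `1 + 3 m b^3 (5 m b^30 + 1) b ≤ b^35`.
`E_D2`: as `E_D1`, but the number of `n ∈ Z = Icc (X - 4 m Y) (X + m Y)` with `c n (inr p) ≠ 0` is at most `8 M2 b^16 + 1`:
by `P.D.near` there is `S ≥ 1` with `|n - S p| ≤ M2 (S - 1)`; `S (p - M2) ≤ n`, so `S ≤ 2 b^90 / (b^74 - M2) ≤ 4 b^16` and
`|n - S p| ≤ 4 M2 b^16`; the multiples `S p` of `p` that occur lie in an interval of length `5 m Y + 8 M2 b^16 < p`, so only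
one `S` occurs. The bound is `1 + 3 m b^3 (8 M2 b^16 + 1) b ≤ b^21`.
`E_D3`: for `1 ≤ n ≤ X + m Y` `c n (inr p) = 1_{n = p}` (`c_top`), and only such `n` matter in `E` (`V_L_le`). So `E_two` gives
`≤ 1/b + B1/(4 K6) + 2 m D0`, which is `≤ h1/2` because `h1 + 1 > B1/K6` and `B1 = b^3 ≥ 4 K6 (2 m D0 + 1) + ...`.
-/

namespace Pool.Agent.Lib.MP_176ace_nt.Gr

open Finset

namespace Par

variable {m : ℕ} (P : Par m)

theorem Z_range {n : ℕ} (hn : n ∈ Icc (P.X - 4 * m * P.Y) (P.X + m * P.Y)) :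
    1 ≤ n ∧ n ≤ 2 * P.X ∧ P.X ≤ n + 4 * m * P.Y ∧ n ≤ P.X + m * P.Y := by
  rw [mem_Icc] at hn
  have h1 := P.mY_le
  have h2 := P.X_pos
  have h3 := P.XmY_le
  have h4 : 4 * m * P.Y = 4 * (m * P.Y) := by ring
  omega

theorem Z_card : #(Icc (P.X - 4 * m * P.Y) (P.X + m * P.Y)) = 5 * (m * P.Y) + 1 := by
  rw [Nat.card_Icc]
  have h1 := P.mY_le
  have h4 : 4 * m * P.Y = 4 * (m * P.Y) := by ring
  omega

/-- the common estimate -/
theorem E_sum_bound (r : ℕ) {θ : ℝ} (h0 : 0 ≤ θ) (h1 : θ ≤ 1) {j : ℕ} (hj : j ≤ m) (i : ℕ ⊕ ℕ)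
    (C : ℕ) (hC : #{n ∈ Icc (P.X - 4 * m * P.Y) (P.X + m * P.Y) | P.D.c n i ≠ 0} ≤ C) :
    |P.E r θ j (P.cF i)| ≤ 1 + 3 * (m * (P.b : ℝ) ^ 3) * (C * P.b) := by
  have hb : (0 : ℝ) < P.b := by exact_mod_cast P.b_pos
  have h2 := P.E_one r h0 h1 hj (P.cF i) P.b fun n hn hn' => P.cF_bound i hn hn'
  have h3 : ∑ n ∈ Icc (P.X - 4 * m * P.Y) (P.X + m * P.Y), |P.cF i n| ≤ C * P.b := by
    have h4 : ∑ n ∈ Icc (P.X - 4 * m * P.Y) (P.X + m * P.Y), |P.cF i n| =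
        ∑ n ∈ Icc (P.X - 4 * m * P.Y) (P.X + m * P.Y) with P.D.c n i ≠ 0, |P.cF i n| := by
      refine (sum_filter_of_ne fun n _ hn => ?_).symm
      intro h
      apply hn
      unfold cF
      rw [h, Int.cast_zero, abs_zero]
    rw [h4]
    calc ∑ n ∈ Icc (P.X - 4 * m * P.Y) (P.X + m * P.Y) with P.D.c n i ≠ 0, |P.cF i n|
        ≤ ∑ n ∈ Icc (P.X - 4 * m * P.Y) (P.X + m * P.Y) with P.D.c n i ≠ 0, (P.b : ℝ) := by
          refine sum_le_sum fun n hn => ?_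
          obtain ⟨a1, a2, -, -⟩ := P.Z_range (mem_filter.1 hn).1
          exact P.cF_bound i a1 a2
      _ = #{n ∈ Icc (P.X - 4 * m * P.Y) (P.X + m * P.Y) | P.D.c n i ≠ 0} * (P.b : ℝ) := by
          rw [sum_const, nsmul_eq_mul]
      _ ≤ C * P.b := by
          have : ((#{n ∈ Icc (P.X - 4 * m * P.Y) (P.X + m * P.Y) | P.D.c n i ≠ 0} : ℕ) : ℝ) ≤ C := by
            exact_mod_cast hC
          gcongr
  refine h2.trans ?_
  rw [div_self hb.ne']
  have h5 : ((m * P.B1 : ℕ) : ℝ) = m * (P.b : ℝ) ^ 3 := by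
    unfold B1
    push_cast
    ring
  rw [h5]
  gcongr

theorem E_D1 (r : ℕ) {θ : ℝ} (h0 : 0 ≤ θ) (h1 : θ ≤ 1) {j : ℕ} (hj : j ≤ m) (i : ℕ ⊕ ℕ) :
    |P.E r θ j (P.cF i)| ≤ (P.b : ℝ) ^ 35 := by
  have hb := P.b_pos
  have hm := P.m_pos
  have h2 := P.E_sum_bound r h0 h1 hj i (5 * (m * P.Y) + 1)
    ((card_filter_le _ _).trans P.Z_card.le)
  refine h2.trans ?_
  have h3 : 1 + 3 * (m * P.b ^ 3) * ((5 * (m * P.Y) + 1) * P.b) ≤ P.b ^ 35 := by
    have hY : 1 ≤ m * P.Y := Nat.mul_pos hm P.Y_pos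
    have h4 : 1 ≤ P.b ^ 34 := Nat.one_le_pow _ _ hb
    have h5 : 19 * m ^ 2 ≤ P.b := le_trans (by gcongr; norm_num) P.m_le
    calc 1 + 3 * (m * P.b ^ 3) * ((5 * (m * P.Y) + 1) * P.b)
        ≤ 1 + 3 * (m * P.b ^ 3) * ((5 * (m * P.Y) + m * P.Y) * P.b) := by gcongr
      _ = 1 + 18 * m ^ 2 * P.b ^ 34 := by
        unfold Y
        ring
      _ ≤ m ^ 2 * P.b ^ 34 + 18 * m ^ 2 * P.b ^ 34 := by
        have : 1 ≤ m ^ 2 := Nat.one_le_pow _ _ hm
        have := Nat.mul_le_mul this h4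
        omega
      _ = (19 * m ^ 2) * P.b ^ 34 := by ring
      _ ≤ P.b ^ 35 := P.absorb h5 34
  exact_mod_cast h3

theorem E_D2 (r : ℕ) {θ : ℝ} (h0 : 0 ≤ θ) (h1 : θ ≤ 1) {j : ℕ} (hj : j ≤ m) {p : ℕ}
    (hp : p.Prime) (hpb : P.b ^ 74 < p) :
    |P.E r θ j (P.cF (Sum.inr p))| ≤ (P.b : ℝ) ^ 21 := by
  have hb := P.b_pos
  have hm := P.m_pos
  have hM2 := P.M2_pos
  have hbig := P.b_big
  have hMb : P.M2 ≤ P.b := by
    refine le_trans ?_ P.M2_le
    have : 1 ≤ m ^ 2 := Nat.one_le_pow _ _ hm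
    nlinarith
  have hMb2 : 20 * P.M2 ≤ P.b := by
    refine le_trans ?_ P.M2_le
    have : 1 ≤ m ^ 2 := Nat.one_le_pow _ _ hm
    nlinarith
  have hQ : P.D.Q0 < p := by
    have h2 := P.Q0_lt
    have h3 : P.b ≤ P.b ^ 74 := Nat.le_self_pow (by norm_num) _
    omega
  -- the basic estimate for one `n`
  have key : ∀ n ∈ Icc (P.X - 4 * m * P.Y) (P.X + m * P.Y), P.D.c n (Sum.inr p) ≠ 0 →
      ∃ S : ℕ, |(n : ℤ) - S * p| ≤ 4 * P.M2 * P.b ^ 16 := by
    intro n hn hc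
    obtain ⟨a1, a2, -, -⟩ := P.Z_range hn
    obtain ⟨S, hS, h⟩ := P.D.near p hp hQ n a1 hc
    refine ⟨S, h.trans ?_⟩
    change (P.M2 : ℤ) * ((S : ℤ) - 1) ≤ _
    replace h : |(n : ℤ) - S * p| ≤ (P.M2 : ℤ) * ((S : ℤ) - 1) := h
    have hS4 : S ≤ 4 * P.b ^ 16 := by
      by_contra hcon
      push Not at hcon
      have e1 : (S : ℤ) * p - n ≤ (P.M2 : ℤ) * ((S : ℤ) - 1) := by
        have := (abs_le.1 h).1
        linarith
      have e2 : (S : ℤ) * ((p : ℤ) - P.M2) ≤ n := by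
        have : (0 : ℤ) ≤ P.M2 := by positivity
        linarith [mul_sub (S : ℤ) p P.M2, mul_sub (P.M2 : ℤ) S 1, mul_comm (S : ℤ) P.M2]
      have e3 : (n : ℤ) ≤ 2 * (P.b : ℤ) ^ 90 := by
        have : n ≤ 2 * P.b ^ 90 := a2
        exact_mod_cast this
      have e4 : 2 * ((p : ℤ) - P.M2) ≥ (P.b : ℤ) ^ 74 := by
        have f1 : (P.b : ℤ) ^ 74 < p := by exact_mod_cast hpb
        have f2 : (P.M2 : ℤ) ≤ P.b := by exact_mod_cast hMb
        have f3 : 2 * P.b ≤ P.b ^ 74 := by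
          calc 2 * P.b ≤ P.b * P.b := Nat.mul_le_mul_right _ (by omega)
            _ = P.b ^ 2 := by ring
            _ ≤ P.b ^ 74 := Nat.pow_le_pow_right hb (by norm_num)
        have f4 : 2 * (P.b : ℤ) ≤ (P.b : ℤ) ^ 74 := by exact_mod_cast f3
        linarith
      have e5 : (4 * (P.b : ℤ) ^ 16) < S := by exact_mod_cast hcon
      have hb' : (0 : ℤ) < P.b := by exact_mod_cast hb
      have e6 : 4 * (P.b : ℤ) ^ 16 * (P.b : ℤ) ^ 74 < S * (2 * ((p : ℤ) - P.M2)) := by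
        calc 4 * (P.b : ℤ) ^ 16 * (P.b : ℤ) ^ 74 < S * (P.b : ℤ) ^ 74 := by
              have : (0 : ℤ) < (P.b : ℤ) ^ 74 := by positivity
              gcongr
          _ ≤ _ := by gcongr
      have e7 : (4 : ℤ) * (P.b : ℤ) ^ 16 * (P.b : ℤ) ^ 74 = 4 * (P.b : ℤ) ^ 90 := by ring
      linarith
    have hS4' : (S : ℤ) ≤ 4 * (P.b : ℤ) ^ 16 := by exact_mod_cast hS4
    have : (0 : ℤ) ≤ P.M2 := by positivity
    nlinarith
  -- all `n` come from one `S`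
  have hcard : #{n ∈ Icc (P.X - 4 * m * P.Y) (P.X + m * P.Y) | P.D.c n (Sum.inr p) ≠ 0} ≤
      8 * P.M2 * P.b ^ 16 + 1 := by
    rcases ({n ∈ Icc (P.X - 4 * m * P.Y) (P.X + m * P.Y) |
      P.D.c n (Sum.inr p) ≠ 0} : Finset ℕ).eq_empty_or_nonempty with he | ⟨n0, hn0⟩
    · rw [he, card_empty]
      omega
    obtain ⟨hn0Z, hn0c⟩ := mem_filter.1 hn0
    obtain ⟨S, hS⟩ := key n0 hn0Z hn0c
    have hsub : ∀ n ∈ ({n ∈ Icc (P.X - 4 * m * P.Y) (P.X + m * P.Y) |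
        P.D.c n (Sum.inr p) ≠ 0} : Finset ℕ),
        (n : ℤ) ∈ Icc ((S : ℤ) * p - 4 * P.M2 * P.b ^ 16) ((S : ℤ) * p + 4 * P.M2 * P.b ^ 16) := by
      intro n hn
      obtain ⟨hnZ, hnc⟩ := mem_filter.1 hn
      obtain ⟨S', hS'⟩ := key n hnZ hnc
      have e1 : S' = S := by
        by_contra hne
        have f1 : (p : ℤ) ≤ |(S' : ℤ) * p - S * p| := by
          rw [← sub_mul, abs_mul, abs_of_nonneg (by positivity : (0 : ℤ) ≤ p)]
          have : 1 ≤ |(S' : ℤ) - S| := Int.one_le_abs (sub_ne_zero.2 (by exact_mod_cast hne))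
          have hp0 : (0 : ℤ) ≤ p := by positivity
          nlinarith
        have f2 : |(n : ℤ) - n0| ≤ 5 * (m * P.Y : ℕ) := by
          obtain ⟨-, -, b1, b2⟩ := P.Z_range hnZ
          obtain ⟨-, -, b3, b4⟩ := P.Z_range hn0Z
          have h4 : 4 * m * P.Y = 4 * (m * P.Y) := by ring
          rw [abs_le]
          constructor <;> omega
        have f3 : |(S' : ℤ) * p - S * p| ≤ 5 * (m * P.Y : ℕ) + 8 * P.M2 * P.b ^ 16 := by
          calc |(S' : ℤ) * p - S * p| = |(-((n : ℤ) - S' * p)) + ((n : ℤ) - n0) +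
                ((n0 : ℤ) - S * p)| := by ring_nf
            _ ≤ |(-((n : ℤ) - S' * p))| + |(n : ℤ) - n0| + |(n0 : ℤ) - S * p| := abs_add_three _ _ _
            _ ≤ 4 * P.M2 * P.b ^ 16 + 5 * (m * P.Y : ℕ) + 4 * P.M2 * P.b ^ 16 := by
              rw [abs_neg]
              gcongr
            _ = _ := by ring
        have f4 : 5 * (m * P.Y) + 8 * P.M2 * P.b ^ 16 < P.b ^ 74 := by
          have g1 : 1000 * (m * P.Y) ≤ P.b ^ 34 := by
            have : 1000 * m ≤ P.b := by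
              refine le_trans ?_ P.m_le
              nlinarith
            calc 1000 * (m * P.Y) = 1000 * m * P.b ^ 30 := by unfold Y; ring
              _ ≤ P.b ^ 31 := P.absorb this 30
              _ ≤ P.b ^ 34 := Nat.pow_le_pow_right hb (by norm_num)
          have g2 : 20 * P.M2 * P.b ^ 16 ≤ P.b ^ 34 := by
            refine (P.absorb hMb2 16).trans ?_
            exact Nat.pow_le_pow_right hb (by norm_num)
          have g3 : P.b ^ 34 ≤ P.b ^ 74 := Nat.pow_le_pow_right hb (by norm_num)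
          have g4 : 1 ≤ P.b ^ 34 := Nat.one_le_pow _ _ hb
          have g5 : 20 * P.M2 * P.b ^ 16 = 20 * (P.M2 * P.b ^ 16) := by ring
          have g6 : 8 * P.M2 * P.b ^ 16 = 8 * (P.M2 * P.b ^ 16) := by ring
          omega
        have f5 : (5 * (m * P.Y : ℕ) + 8 * P.M2 * P.b ^ 16 : ℤ) < (P.b : ℤ) ^ 74 := by
          exact_mod_cast f4
        have f6 : (P.b : ℤ) ^ 74 < p := by exact_mod_cast hpb
        linarith
      rw [e1, abs_le] at hS'
      rw [mem_Icc]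
      constructor <;> linarith [hS'.1, hS'.2]
    have h5 : #{n ∈ Icc (P.X - 4 * m * P.Y) (P.X + m * P.Y) | P.D.c n (Sum.inr p) ≠ 0} ≤
        #(Icc ((S : ℤ) * p - 4 * P.M2 * P.b ^ 16) ((S : ℤ) * p + 4 * P.M2 * P.b ^ 16)) :=
      card_le_card_of_injOn (fun n : ℕ => (n : ℤ)) hsub fun a _ b _ h => Int.ofNat_inj.1 h
    refine h5.trans ?_
    rw [Int.card_Icc]
    have h6 : (S : ℤ) * p + 4 * P.M2 * P.b ^ 16 + 1 - ((S : ℤ) * p - 4 * P.M2 * P.b ^ 16) =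
        ((8 * P.M2 * P.b ^ 16 + 1 : ℕ) : ℤ) := by
      push_cast
      ring
    rw [h6, Int.toNat_natCast]
  have h2 := P.E_sum_bound r h0 h1 hj (Sum.inr p) _ hcard
  refine h2.trans ?_
  have h3 : 1 + 3 * (m * P.b ^ 3) * ((8 * P.M2 * P.b ^ 16 + 1) * P.b) ≤ P.b ^ 21 := by
    have h4 : 1 ≤ P.b ^ 20 := Nat.one_le_pow _ _ hb
    have h5 : 28 * (m * P.M2) ≤ P.b := by
      refine le_trans ?_ P.M2_le
      have : m ≤ m ^ 2 := Nat.le_self_pow (by norm_num) _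
      nlinarith
    have h6 : 1 ≤ P.M2 * P.b ^ 16 := Nat.mul_pos hM2 (pow_pos hb _)
    have h7 : 1 ≤ m * P.M2 * P.b ^ 20 := Nat.mul_pos (Nat.mul_pos hm hM2) (pow_pos hb _)
    calc 1 + 3 * (m * P.b ^ 3) * ((8 * P.M2 * P.b ^ 16 + 1) * P.b)
        ≤ m * P.M2 * P.b ^ 20 +
          3 * (m * P.b ^ 3) * ((8 * P.M2 * P.b ^ 16 + P.M2 * P.b ^ 16) * P.b) := by gcongr
      _ = 28 * (m * P.M2) * P.b ^ 20 := by ring
      _ ≤ P.b ^ 21 := P.absorb h5 20
  exact_mod_cast h3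

theorem E_D3 (r : ℕ) {θ : ℝ} (h0 : 0 ≤ θ) (h1 : θ ≤ 1) {j : ℕ} (hj : j ≤ m) {p : ℕ}
    (hp : p.Prime) (h2 : 2 * P.X < 3 * p) (hp' : p ≤ P.Ptop) :
    |P.E r θ j (P.cF (Sum.inr p))| ≤ (P.h1 : ℝ) / 2 := by
  have hb := P.b_pos
  have hm := P.m_pos
  have hK := P.K6_pos
  have e1 : P.E r θ j (P.cF (Sum.inr p)) = P.E r θ j fun n => if n = p then 1 else 0 := by
    unfold E
    refine sum_congr rfl fun v hv => ?_
    have f : ∀ i ≤ m, P.cF (Sum.inr p) (L i v).natAbs =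
        if (L i v).natAbs = p then (1 : ℝ) else 0 := by
      intro i hi
      unfold cF
      rw [P.c_top hp h2 (P.V_L_le2 hv hi).1 (P.V_L_le hv hi)]
      split_ifs <;> norm_num
    rw [f j hj, f 0 (Nat.zero_le _)]
  rw [e1]
  refine (P.E_two r h0 h1 hj hp h2 hp').trans ?_
  have hbR : (0 : ℝ) < P.b := by exact_mod_cast hb
  have hmR : (0 : ℝ) < m := by exact_mod_cast hm
  have hKR : (0 : ℝ) < P.K6 := by exact_mod_cast hK
  have e2 : 2 * (m : ℝ) * (((m * P.B1 : ℕ) : ℝ) / ((8 * m ^ 2 * P.K6 : ℕ) : ℝ) + P.D0) =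
      (P.B1 : ℝ) / (4 * P.K6) + 2 * m * P.D0 := by
    push_cast
    field_simp
    ring
  rw [e2]
  have e3 : (P.B1 : ℝ) / P.K6 < P.h1 + 1 := by
    rw [div_lt_iff₀ hKR]
    have := P.lt_h1
    have h3 : (P.B1 : ℝ) < ((P.K6 * (P.h1 + 1) : ℕ) : ℝ) := by exact_mod_cast this
    push_cast at h3
    linarith
  have e4 : (P.B1 : ℝ) / (4 * P.K6) = (P.B1 : ℝ) / P.K6 / 4 := by
    field_simp
  have e5 : 8 * m * P.K6 * (P.D0 + 1) ≤ P.B1 := by
    calc 8 * m * P.K6 * (P.D0 + 1) ≤ 10 ^ 6 * m ^ 2 * P.K6 * (P.D0 + 1) := by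
          have : m ≤ m ^ 2 := Nat.le_self_pow (by norm_num) _
          gcongr
          · nlinarith
      _ = 10 ^ 6 * (m ^ 2 * P.K6 * (P.D0 + 1)) := by ring
      _ ≤ P.b := P.K6_le
      _ ≤ P.b ^ 3 := Nat.le_self_pow (by norm_num) _
  have e6 : (2 * m * (P.D0 + 1) : ℝ) ≤ (P.B1 : ℝ) / P.K6 / 4 := by
    rw [div_div, le_div_iff₀ (by positivity)]
    have h3 : ((8 * m * P.K6 * (P.D0 + 1) : ℕ) : ℝ) ≤ (P.B1 : ℝ) := by exact_mod_cast e5
    push_cast at h3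
    linarith
  have e7 : 1 / (P.b : ℝ) ≤ 1 := by
    rw [div_le_one hbR]
    exact_mod_cast hb
  have e8 : (2 : ℝ) ≤ m := by exact_mod_cast P.hm
  rw [e4]
  nlinarith

end Par

end Pool.Agent.Lib.MP_176ace_nt.Gr
end
end
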