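import Mathlib
import Pool.Agent.Lib.MP_176ace_nt.Gr.Defs
import Pool.Agent.Lib.MP_176ace_nt.Gr.CBasic

section

section

set_option autoImplicit false

/-!
# Siev: the sieve bound (paper 221, 3.3)

Proof. `∑ 1/l` over the primes diverges (`Nat.Primes.not_summable_one_div` or
`not_summable_one_div_on_primes`), so `∏_{m < l ≤ z} (1 - 1/l) ≤ exp(-∑ 1/l) → 0`: choose a finite set `T` of primes
`> m` with `K ∏_{l ∈ T} (1 - 1/l) ≤ 1`. `D0 = ∏_{l ∈ T} l`, `φ(D0)/D0 = ∏ (1 - 1/l)`, so `K φ(D0) ≤ D0`. For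
`1 ≤ |δ| ≤ m` the number `δ` is coprime to `D0`. A prime `n + δ y > D0` is coprime to `D0`. In every interval of `D0`
consecutive integers exactly `φ(D0)` integers `y` have `gcd(n + δ y, D0) = 1` (the map `y ↦ n + δ y mod D0` is a
bijection on residues). Cover `(lo, lo + N]` by `⌊N/D0⌋ + 1` such intervals: the count is
`≤ (N/D0 + 1) φ(D0)`, and `K (N/D0 + 1) φ(D0) ≤ N + D0 ≤ N + K D0`.
(Mathlib: `Nat.filter_coprime_Ico_eq_totient`, `Nat.Ico_filter_coprime_le` for the case `δ = 1`; for general `δ`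
count residues in `ZMod D0`.)
-/

namespace Pool.Agent.Lib.MP_176ace_nt.Gr

open Finset

/-- A finite set of primes above `m` with small product of `1 - 1/l`. -/
private lemma siev_primes (m K : ℕ) (hK : 1 ≤ K) : ∃ T : Finset ℕ,
    (∀ l ∈ T, l.Prime ∧ m < l) ∧ K * ∏ l ∈ T, (l - 1) ≤ ∏ l ∈ T, l := by
  classical
  have hns := not_summable_one_div_on_primes
  have hnn : ∀ n : ℕ, 0 ≤ Set.indicator {p : ℕ | p.Prime} (fun n : ℕ => (1 : ℝ) / n) n := by
    intro n
    apply Set.indicator_nonneg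
    intro x _
    positivity
  rw [not_summable_iff_tendsto_nat_atTop_of_nonneg hnn] at hns
  set S0 : ℝ := ∑ i ∈ range (m + 1), Set.indicator {p : ℕ | p.Prime} (fun n : ℕ => (1 : ℝ) / n) i
    with hS0
  obtain ⟨n, hn⟩ := ((hns.eventually_ge_atTop (S0 + Real.log K)).and
    (Filter.eventually_ge_atTop (m + 1))).exists
  obtain ⟨hn1, hn2⟩ := hn
  set T : Finset ℕ := (range n).filter (fun p => p.Prime ∧ m < p) with hT
  have hsum : Real.log K ≤ ∑ l ∈ T, (1 : ℝ) / l := by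
    have h1 : ∑ i ∈ range n, Set.indicator {p : ℕ | p.Prime} (fun n : ℕ => (1 : ℝ) / n) i
        = S0 + ∑ l ∈ T, (1 : ℝ) / l := by
      rw [hS0, ← Finset.sum_range_add_sum_Ico _ hn2]
      congr 1
      rw [hT, Finset.sum_filter]
      rw [← Finset.sum_range_add_sum_Ico _ hn2]
      have h2 : ∑ k ∈ range (m + 1), (if Nat.Prime k ∧ m < k then (1 : ℝ) / k else 0) = 0 := by
        apply Finset.sum_eq_zero
        intro k hk
        rw [Finset.mem_range] at hk
        rw [if_neg]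
        omega
      rw [h2, zero_add]
      apply Finset.sum_congr rfl
      intro k hk
      rw [Finset.mem_Ico] at hk
      by_cases hkp : k.Prime
      · rw [if_pos ⟨hkp, by omega⟩, Set.indicator_of_mem (show k ∈ {p : ℕ | p.Prime} from hkp)]
      · rw [if_neg (fun h => hkp h.1), Set.indicator_of_notMem (show k ∉ {p : ℕ | p.Prime} from hkp)]
    linarith
  refine ⟨T, ?_, ?_⟩
  · intro l hl
    rw [hT, Finset.mem_filter] at hl
    exact hl.2
  · have hprod : ∏ l ∈ T, (1 - (1 : ℝ) / l) ≤ Real.exp (-∑ l ∈ T, (1 : ℝ) / l) := by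
      rw [← Finset.sum_neg_distrib, Real.exp_sum]
      apply Finset.prod_le_prod
      · intro l hl
        rw [hT, Finset.mem_filter] at hl
        have : (1 : ℝ) ≤ l := by exact_mod_cast hl.2.1.one_lt.le
        have : (1 : ℝ) / l ≤ 1 := by
          rw [div_le_one (by linarith)]
          exact this
        linarith
      · intro l hl
        have := Real.add_one_le_exp (-((1 : ℝ) / l))
        linarith
    have hKpos : (0 : ℝ) < K := by exact_mod_cast hK
    have h3 : Real.exp (-∑ l ∈ T, (1 : ℝ) / l) ≤ 1 / K := by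
      rw [Real.exp_neg, one_div]
      apply inv_anti₀ hKpos
      rw [← Real.log_le_iff_le_exp hKpos]
      exact hsum
    have hTpos : ∀ l ∈ T, (0 : ℝ) < l := by
      intro l hl
      rw [hT, Finset.mem_filter] at hl
      exact_mod_cast hl.2.1.pos
    have h4 : ((∏ l ∈ T, (l - 1) : ℕ) : ℝ) = (∏ l ∈ T, (1 - (1 : ℝ) / l)) * ∏ l ∈ T, (l : ℝ) := by
      rw [← Finset.prod_mul_distrib, Nat.cast_prod]
      apply Finset.prod_congr rfl
      intro l hl
      have h5 := hTpos l hl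
      have h6 : 1 ≤ l := by exact_mod_cast h5
      rw [Nat.cast_sub h6, Nat.cast_one]
      field_simp
    have h7 : (0 : ℝ) < ∏ l ∈ T, (l : ℝ) := Finset.prod_pos hTpos
    have h8 : (K : ℝ) * ((∏ l ∈ T, (l - 1) : ℕ) : ℝ) ≤ ((∏ l ∈ T, l : ℕ) : ℝ) := by
      rw [h4]
      have h9 : ∏ l ∈ T, (1 - (1 : ℝ) / l) ≤ 1 / K := hprod.trans h3
      push_cast
      calc (K : ℝ) * ((∏ l ∈ T, (1 - (1 : ℝ) / l)) * ∏ l ∈ T, (l : ℝ))
          ≤ K * ((1 / K) * ∏ l ∈ T, (l : ℝ)) := by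
            apply mul_le_mul_of_nonneg_left _ hKpos.le
            apply mul_le_mul_of_nonneg_right h9 h7.le
        _ = ∏ l ∈ T, (l : ℝ) := by field_simp
    exact_mod_cast h8

/-- The number of `y` in a block of length `D0` with `n + δ y` a unit modulo `D0`. -/
private lemma siev_block (D0 : ℕ) (hD0 : 0 < D0) (n δ a : ℤ) (hδ : IsCoprime δ (D0 : ℤ)) :
    #{y ∈ Ioc a (a + D0) | IsCoprime (n + δ * y) (D0 : ℤ)} ≤ Nat.totient D0 := by
  classical
  haveI : NeZero D0 := ⟨hD0.ne'⟩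
  have hu : ∀ z : ℤ, IsCoprime z (D0 : ℤ) ↔ IsUnit (z : ZMod D0) := by
    intro z
    rw [ZMod.coe_int_isUnit_iff_isCoprime, isCoprime_comm]
  have hcard : Nat.totient D0 = #(Finset.univ.filter fun x : ZMod D0 => IsUnit x) := by
    rw [← ZMod.card_units_eq_totient, ← Finset.card_univ]
    apply Finset.card_bij (fun (u : (ZMod D0)ˣ) _ => (u : ZMod D0))
    · intro u _
      simp
    · intro u _ v _ h
      exact Units.ext h
    · intro x hx
      rw [Finset.mem_filter] at hx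
      obtain ⟨u, hu'⟩ := hx.2
      exact ⟨u, Finset.mem_univ _, hu'⟩
  rw [hcard]
  apply Finset.card_le_card_of_injOn (fun y : ℤ => ((n + δ * y : ℤ) : ZMod D0))
  · intro y hy
    rw [Finset.mem_coe, Finset.mem_filter] at hy
    rw [Finset.mem_coe, Finset.mem_filter]
    exact ⟨Finset.mem_univ _, (hu _).1 hy.2⟩
  · intro y hy z hz h
    rw [Finset.mem_coe, Finset.mem_filter, Finset.mem_Ioc] at hy hz
    have h1 : ((n + δ * y : ℤ) : ZMod D0) = ((n + δ * z : ℤ) : ZMod D0) := h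
    rw [ZMod.intCast_eq_intCast_iff_dvd_sub] at h1
    have h2 : (D0 : ℤ) ∣ δ * (z - y) := by
      have : n + δ * z - (n + δ * y) = δ * (z - y) := by ring
      rwa [this] at h1
    have h3 : (D0 : ℤ) ∣ z - y := hδ.symm.dvd_of_dvd_mul_left h2
    obtain ⟨t, ht⟩ := h3
    have h4 : (0 : ℤ) < D0 := by exact_mod_cast hD0
    have h5 : t = 0 := by
      by_contra h6
      rcases lt_or_gt_of_ne h6 with h7 | h7
      · have : (D0 : ℤ) * t ≤ -D0 := by nlinarith
        omega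
      · have : (D0 : ℤ) ≤ D0 * t := by nlinarith
        omega
    rw [h5, mul_zero] at ht
    omega

theorem exists_sieve (m K : ℕ) (hm : 1 ≤ m) (hK : 1 ≤ K) : ∃ D0 : ℕ, SieveOK m K D0 := by
  classical
  obtain ⟨T, hT1, hT2⟩ := siev_primes m K hK
  set D0 : ℕ := ∏ l ∈ T, l with hD0
  have hD0pos : 0 < D0 := Finset.prod_pos fun l hl => (hT1 l hl).1.pos
  have htot : Nat.totient D0 = ∏ l ∈ T, (l - 1) := by
    rw [hD0]
    clear hD0pos hD0 D0 hT2
    induction T using Finset.induction_on with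
    | empty => simp
    | insert a s ha ih =>
      rw [Finset.prod_insert ha, Finset.prod_insert ha, Nat.totient_mul, ih,
        Nat.totient_prime (hT1 a (Finset.mem_insert_self a s)).1]
      · intro l hl
        exact hT1 l (Finset.mem_insert_of_mem hl)
      · apply Nat.Coprime.prod_right
        intro l hl
        rw [Nat.coprime_primes (hT1 a (Finset.mem_insert_self a s)).1
          (hT1 l (Finset.mem_insert_of_mem hl)).1]
        rintro rfl
        exact ha hl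
  have hKtot : K * Nat.totient D0 ≤ D0 := by
    rw [htot]
    exact hT2
  refine ⟨D0, ?_⟩
  intro n δ lo N hδ1 hδm
  have hδ : IsCoprime δ (D0 : ℤ) := by
    rw [hD0, Nat.cast_prod]
    apply IsCoprime.prod_right
    intro l hl
    obtain ⟨hl1, hl2⟩ := hT1 l hl
    have h1 : IsCoprime (l : ℤ) δ := by
      rw [Prime.coprime_iff_not_dvd (Nat.prime_iff_prime_int.1 hl1)]
      intro h2
      have h3 : (l : ℤ) ≤ |δ| := Int.le_of_dvd (by omega) ((dvd_abs _ _).2 h2)
      omega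
    exact h1.symm
  have hsub : {y ∈ Ioc lo (lo + N) | (n + δ * y).toNat.Prime ∧ (D0 : ℤ) < n + δ * y} ⊆
      (range (N / D0 + 1)).biUnion fun i =>
        {y ∈ Ioc (lo + i * D0) (lo + i * D0 + D0) | IsCoprime (n + δ * y) (D0 : ℤ)} := by
    intro y hy
    rw [Finset.mem_filter, Finset.mem_Ioc] at hy
    obtain ⟨⟨hy1, hy2⟩, hy3, hy4⟩ := hy
    rw [Finset.mem_biUnion]
    have hpos : (0 : ℤ) < D0 := by exact_mod_cast hD0pos
    refine ⟨((y - lo - 1) / D0).toNat, ?_, ?_⟩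
    · rw [Finset.mem_range]
      have h1 : (y - lo - 1) / (D0 : ℤ) ≤ (N : ℤ) / D0 := Int.ediv_le_ediv hpos (by omega)
      have h2 : 0 ≤ (y - lo - 1) / (D0 : ℤ) := Int.ediv_nonneg (by omega) hpos.le
      have h3 : ((N / D0 : ℕ) : ℤ) = (N : ℤ) / D0 := by push_cast; rfl
      omega
    · rw [Finset.mem_filter, Finset.mem_Ioc]
      have h2 : 0 ≤ (y - lo - 1) / (D0 : ℤ) := Int.ediv_nonneg (by omega) hpos.le
      have h4 : (((y - lo - 1) / (D0 : ℤ)).toNat : ℤ) = (y - lo - 1) / D0 := Int.toNat_of_nonneg h2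
      rw [h4]
      have h5 := Int.emod_add_mul_ediv (y - lo - 1) D0
      have h6 := Int.emod_nonneg (y - lo - 1) hpos.ne'
      have h7 := Int.emod_lt_of_pos (y - lo - 1) hpos
      refine ⟨⟨?_, ?_⟩, ?_⟩
      · have : (y - lo - 1) / (D0 : ℤ) * D0 = D0 * ((y - lo - 1) / (D0 : ℤ)) := mul_comm _ _
        rw [this]
        omega
      · have : (y - lo - 1) / (D0 : ℤ) * D0 = D0 * ((y - lo - 1) / (D0 : ℤ)) := mul_comm _ _
        rw [this]
        omega
      · set p : ℕ := (n + δ * y).toNat with hp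
        have h8 : (n + δ * y) = (p : ℤ) := by
          rw [hp, Int.toNat_of_nonneg]
          omega
        rw [h8] at hy4 ⊢
        rw [Nat.isCoprime_iff_coprime]
        rw [Nat.Prime.coprime_iff_not_dvd hy3]
        intro h9
        have := Nat.le_of_dvd hD0pos h9
        omega
  have hcount : #{y ∈ Ioc lo (lo + N) | (n + δ * y).toNat.Prime ∧ (D0 : ℤ) < n + δ * y} ≤
      (N / D0 + 1) * Nat.totient D0 := by
    refine (Finset.card_le_card hsub).trans ?_
    refine Finset.card_biUnion_le.trans ?_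
    refine (Finset.sum_le_card_nsmul _ _ (Nat.totient D0) ?_).trans ?_
    · intro i _
      exact siev_block D0 hD0pos n δ _ hδ
    · rw [Finset.card_range, smul_eq_mul]
  calc K * #{y ∈ Ioc lo (lo + N) | (n + δ * y).toNat.Prime ∧ (D0 : ℤ) < n + δ * y}
      ≤ K * ((N / D0 + 1) * Nat.totient D0) := Nat.mul_le_mul_left _ hcount
    _ = (N / D0 + 1) * (K * Nat.totient D0) := by ring
    _ ≤ (N / D0 + 1) * D0 := Nat.mul_le_mul_left _ hKtot
    _ = N / D0 * D0 + D0 := by ring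
    _ ≤ N + K * D0 := by
        have h1 := Nat.div_mul_le_self N D0
        have h2 : D0 ≤ K * D0 := Nat.le_mul_of_pos_left _ (by omega)
        omega

end Pool.Agent.Lib.MP_176ace_nt.Gr
end

section

set_option autoImplicit false

/-!
# CNear: support and value at p of the coordinate of a prime type (paper 221, (c5), (c6))

`cp_near`: strong induction on `q`. Let `q` be prime with `cp q (inr p) ≠ 0`. If `q ≤ Q0` then `cp q` is
supported on `inl`; so `q > Q0`. If `q = p`: `S = 1`. Otherwise, by the recursion, some nonempty `W` has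
`ext cp (q + k(W)) (inr p) ≠ 0`, so some prime `q' ∣ q + k(W)` has `cp q' (inr p) ≠ 0`, and `q' < q` (`factor_lt`).
Put `r = (q + k(W)) / q'`, `r ≥ 2` (as `q' < q`). `0 < k(W) ≤ m M1 =: M2`. By induction
`|q' - S' p| ≤ M2 (S' - 1)`, so `|q - r S' p| ≤ r |q' - S' p| + k(W) ≤ r M2 (S' - 1) + M2 ≤ M2 (r S' - 1)`.
`ext_near`: `ext cp n (inr p) ≠ 0` gives a prime `q ∣ n` with `cp q (inr p) ≠ 0`; `n = r q`, `r ≥ 1`,
`|n - r S p| ≤ r M2 (S-1) ≤ M2 (r S - 1)`.
`cp_one`: the prime factors `q` of `p + k(W)` (`W` nonempty) are `< p`, and `cp q (inr p) = 0` for them, because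
`|q - S p| ≤ M2 (S-1)` gives `q ≥ S p - M2 (S-1) = p + (S-1)(p - M2) ≥ p` (`p > Q0 ≥ M2`).
-/

namespace Pool.Agent.Lib.MP_176ace_nt.Gr

open Finset

variable {m : ℕ} (D : Pre m) {cp : ℕ → (ℕ ⊕ ℕ) →₀ ℤ} (h : IsCp D cp)

private theorem cnear_ex {cp : ℕ → (ℕ ⊕ ℕ) →₀ ℤ} {n : ℕ} {i : ℕ ⊕ ℕ} (hne : ext cp n i ≠ 0) :
    ∃ q, q.Prime ∧ q ∣ n ∧ n ≠ 0 ∧ cp q i ≠ 0 := by
  unfold ext at hne
  rw [Finsupp.finsetSum_apply] at hne
  obtain ⟨q, hq, hq0⟩ := Finset.exists_ne_zero_of_sum_ne_zero hne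
  obtain ⟨h1, h2, h3⟩ := Nat.mem_primeFactors.1 hq
  refine ⟨q, h1, h2, h3, ?_⟩
  intro h0
  apply hq0
  rw [Finsupp.smul_apply, h0, smul_zero]

private theorem cnear_ssum (p : ℕ) (W : Finset (Fin m)) : ssum (D.kp p) W ≤ m * D.M1 := by
  calc ssum (D.kp p) W ≤ ∑ _a ∈ W, D.M1 := Finset.sum_le_sum fun a _ => (D.shape_kp p).le a
    _ = W.card * D.M1 := by rw [Finset.sum_const, smul_eq_mul]
    _ ≤ m * D.M1 := Nat.mul_le_mul_right _ (by simpa using Finset.card_le_univ W)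

include h in
theorem cp_near {p : ℕ} (hp : p.Prime) (hpQ : D.Q0 < p) {q : ℕ} (hq : q.Prime)
    (hne : cp q (Sum.inr p) ≠ 0) :
    ∃ S : ℕ, 1 ≤ S ∧ |(q : ℤ) - S * p| ≤ (m * D.M1 : ℕ) * ((S : ℤ) - 1) := by
  have _ := hp
  have _ := hpQ
  induction q using Nat.strong_induction_on with
  | _ q ih =>
    by_cases hqQ : q ≤ D.Q0
    · exfalso
      apply hne
      rw [h.small q hqQ]
      exact Finsupp.mapDomain_of_notMem_range _ _ (by rintro ⟨y, hy⟩; cases hy)
    · rw [not_le] at hqQ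
      by_cases hqp : q = p
      · exact ⟨1, le_rfl, by rw [hqp]; simp⟩
      · rw [h.large q hq hqQ, Finsupp.sub_apply, Finsupp.single_eq_of_ne (by
          intro hE; exact hqp (Sum.inr.inj hE).symm), zero_sub, neg_ne_zero,
          Finsupp.finsetSum_apply] at hne
        obtain ⟨W, hW, hW0⟩ := Finset.exists_ne_zero_of_sum_ne_zero hne
        have hWn : W.Nonempty := (Finset.mem_filter.1 hW).2
        have hext : ext cp (q + ssum (D.kp q) W) (Sum.inr p) ≠ 0 := by
          intro h0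
          apply hW0
          rw [Finsupp.smul_apply, h0, smul_zero]
        obtain ⟨q', hq', hdvd, -, hne'⟩ := cnear_ex hext
        have hlt := D.factor_lt hq hqQ hWn hq' hdvd
        obtain ⟨S', hS', hb⟩ := ih q' hlt hq' hne'
        obtain ⟨r, hr⟩ := hdvd
        have hk := cnear_ssum D q W
        have hr2 : 2 ≤ r := by
          by_contra hr1
          have hr1' : r ≤ 1 := by omega
          have : q' * r ≤ q' * 1 := Nat.mul_le_mul_left _ hr1'
          omega
        refine ⟨r * S', ?_, ?_⟩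
        · have := Nat.mul_le_mul (show 1 ≤ r by omega) hS'
          simpa using this
        · set M2 : ℕ := m * D.M1 with hM2
          set k : ℕ := ssum (D.kp q) W with hkdef
          have hrZ : (q : ℤ) + k = q' * r := by exact_mod_cast hr
          have hkZ : (k : ℤ) ≤ M2 := by exact_mod_cast hk
          have hk0 : (0 : ℤ) ≤ k := Int.natCast_nonneg k
          have hr2Z : (2 : ℤ) ≤ r := by exact_mod_cast hr2
          have hM0 : (0 : ℤ) ≤ M2 := Int.natCast_nonneg M2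
          have hb' := abs_le.1 hb
          have e1 : (q : ℤ) - ((r * S' : ℕ) : ℤ) * p = r * ((q' : ℤ) - S' * p) - k := by
            push_cast
            linear_combination hrZ
          rw [e1, abs_le]
          push_cast
          constructor
          · nlinarith [mul_nonneg (show (0 : ℤ) ≤ r by linarith) (show (0 : ℤ) ≤
              ((q' : ℤ) - S' * p) + M2 * ((S' : ℤ) - 1) by linarith [hb'.1]),
              mul_nonneg hM0 (show (0 : ℤ) ≤ (r : ℤ) - 2 by linarith)]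
          · nlinarith [mul_nonneg (show (0 : ℤ) ≤ r by linarith) (show (0 : ℤ) ≤
              M2 * ((S' : ℤ) - 1) - ((q' : ℤ) - S' * p) by linarith [hb'.2]),
              mul_nonneg hM0 (show (0 : ℤ) ≤ (r : ℤ) - 2 by linarith)]

include h in
theorem ext_near {p : ℕ} (hp : p.Prime) (hpQ : D.Q0 < p) {n : ℕ} (hn : 1 ≤ n)
    (hne : ext cp n (Sum.inr p) ≠ 0) :
    ∃ S : ℕ, 1 ≤ S ∧ |(n : ℤ) - S * p| ≤ (m * D.M1 : ℕ) * ((S : ℤ) - 1) := by
  obtain ⟨q, hq, ⟨r, hr⟩, -, hne'⟩ := cnear_ex hne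
  obtain ⟨S, hS, hb⟩ := cp_near D h hp hpQ hq hne'
  have hr1 : 1 ≤ r := by
    rcases Nat.eq_zero_or_pos r with rfl | h0
    · rw [mul_zero] at hr; omega
    · exact h0
  refine ⟨r * S, ?_, ?_⟩
  · have := Nat.mul_le_mul hr1 hS
    simpa using this
  · set M2 : ℕ := m * D.M1 with hM2
    have hrZ : (n : ℤ) = q * r := by exact_mod_cast hr
    have hr1Z : (1 : ℤ) ≤ r := by exact_mod_cast hr1
    have hM0 : (0 : ℤ) ≤ M2 := Int.natCast_nonneg M2
    have hb' := abs_le.1 hb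
    have e1 : (n : ℤ) - ((r * S : ℕ) : ℤ) * p = r * ((q : ℤ) - S * p) := by
      push_cast
      linear_combination hrZ
    rw [e1, abs_le]
    push_cast
    constructor
    · nlinarith [mul_nonneg (show (0 : ℤ) ≤ r by linarith) (show (0 : ℤ) ≤
        ((q : ℤ) - S * p) + M2 * ((S : ℤ) - 1) by linarith [hb'.1]),
        mul_nonneg hM0 (show (0 : ℤ) ≤ (r : ℤ) - 1 by linarith)]
    · nlinarith [mul_nonneg (show (0 : ℤ) ≤ r by linarith) (show (0 : ℤ) ≤
        M2 * ((S : ℤ) - 1) - ((q : ℤ) - S * p) by linarith [hb'.2]),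
        mul_nonneg hM0 (show (0 : ℤ) ≤ (r : ℤ) - 1 by linarith)]

include h in
theorem cp_one {p : ℕ} (hp : p.Prime) (hpQ : D.Q0 < p) : cp p (Sum.inr p) = 1 := by
  rw [h.large p hp hpQ, Finsupp.sub_apply, Finsupp.single_eq_same, Finsupp.finsetSum_apply,
    Finset.sum_eq_zero, sub_zero]
  intro W hW
  have hWn : W.Nonempty := (Finset.mem_filter.1 hW).2
  rw [Finsupp.smul_apply]
  by_cases h0 : ext cp (p + ssum (D.kp p) W) (Sum.inr p) = 0
  · rw [h0, smul_zero]
  · exfalso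
    obtain ⟨q, hq, hdvd, -, hne⟩ := cnear_ex h0
    have hlt := D.factor_lt hp hpQ hWn hq hdvd
    obtain ⟨S, hS, hb⟩ := cp_near D h hp hpQ hq hne
    set M2 : ℕ := m * D.M1 with hM2
    have hM2p : (M2 : ℤ) < p := by exact_mod_cast lt_of_le_of_lt D.Q0_ge hpQ
    have hltZ : (q : ℤ) < p := by exact_mod_cast hlt
    have hSZ : (1 : ℤ) ≤ S := by exact_mod_cast hS
    have hb' := abs_le.1 hb
    nlinarith [mul_nonneg (show (0 : ℤ) ≤ (S : ℤ) - 1 by linarith)
      (show (0 : ℤ) ≤ (p : ℤ) - M2 by linarith), hb'.1]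

end Pool.Agent.Lib.MP_176ace_nt.Gr
end

section

set_option autoImplicit false

/-!
# DivB: the divisor bound

For every `K ≥ 1` there is `C` with `d(n)^K ≤ C n` for all `n ≥ 1`.

Proof. `d(n) = ∏_{p ∣ n} (a_p + 1)` (`Nat.card_divisors`), `n = ∏ p^{a_p}`. For a prime `p ≥ 2^K`:
`(a+1)^K ≤ (2^a)^K = (2^K)^a ≤ p^a`. For a prime `p < 2^K`: `a + 1 ≤ 2K * 2^{a/K}` (real power; or: `(a+1)^K ≤ (2K)^K 2^a`,
because `2^{a/K} ≥ 1 + (a/K) log 2 ≥ (a+1)/(2K)`; a proof in natural numbers: write `a = K t + s`, `0 ≤ s < K`; then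
`a + 1 ≤ K (t+1) ≤ K 2^t`, so `(a+1)^K ≤ K^K 2^{K t} ≤ K^K 2^a`). Hence
`d(n)^K ≤ ∏_{p ∣ n, p < 2^K} K^K * ∏ p^{a_p} ≤ (K^K)^{2^K} n`. `C = (K^K)^(2^K)`.
-/

namespace Pool.Agent.Lib.MP_176ace_nt.Gr

open Finset

private theorem divb_small {K : ℕ} (hK : 1 ≤ K) (a : ℕ) : (a + 1) ^ K ≤ K ^ K * 2 ^ a := by
  have h1 : a + 1 ≤ K * 2 ^ (a / K) := by
    have h2 : a < K * (a / K + 1) := Nat.lt_mul_div_succ a (by omega)
    have h3 : a / K + 1 ≤ 2 ^ (a / K) := Nat.lt_two_pow_self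
    calc a + 1 ≤ K * (a / K + 1) := h2
      _ ≤ K * 2 ^ (a / K) := Nat.mul_le_mul_left _ h3
  calc (a + 1) ^ K ≤ (K * 2 ^ (a / K)) ^ K := Nat.pow_le_pow_left h1 K
    _ = K ^ K * 2 ^ (a / K * K) := by rw [mul_pow, pow_mul]
    _ ≤ K ^ K * 2 ^ a := Nat.mul_le_mul_left _
        (Nat.pow_le_pow_right (by norm_num) (Nat.div_mul_le_self a K))

private theorem divb_large {K p : ℕ} (hp : 2 ^ K ≤ p) (a : ℕ) : (a + 1) ^ K ≤ p ^ a := by
  calc (a + 1) ^ K ≤ (2 ^ a) ^ K := Nat.pow_le_pow_left Nat.lt_two_pow_self K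
    _ = (2 ^ K) ^ a := by rw [← pow_mul, ← pow_mul, mul_comm]
    _ ≤ p ^ a := Nat.pow_le_pow_left hp a

theorem divisor_bound (K : ℕ) (hK : 1 ≤ K) : ∃ C : ℕ, ∀ n : ℕ, 1 ≤ n → #n.divisors ^ K ≤ C * n := by
  refine ⟨(K ^ K) ^ (2 ^ K), ?_⟩
  intro n hn
  have hn0 : n ≠ 0 := by omega
  have hKK : 1 ≤ K ^ K := Nat.one_le_pow _ _ hK
  have h1 : #n.divisors ^ K = ∏ p ∈ n.primeFactors, (n.factorization p + 1) ^ K := by
    rw [Nat.card_divisors hn0, Finset.prod_pow]
  have h2 : n = ∏ p ∈ n.primeFactors, p ^ n.factorization p := by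
    conv_lhs => rw [← Nat.prod_factorization_pow_eq_self hn0]
    rfl
  have h3 : ∀ p ∈ n.primeFactors, (n.factorization p + 1) ^ K ≤
      (if p < 2 ^ K then K ^ K else 1) * p ^ n.factorization p := by
    intro p hp
    have hpp := Nat.prime_of_mem_primeFactors hp
    split_ifs with h
    · exact (divb_small hK _).trans (Nat.mul_le_mul_left _ (Nat.pow_le_pow_left hpp.two_le _))
    · rw [one_mul]
      exact divb_large (not_lt.1 h) _
  have h4 : ∏ p ∈ n.primeFactors, (if p < 2 ^ K then K ^ K else 1) ≤ (K ^ K) ^ (2 ^ K) := by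
    rw [Finset.prod_ite, Finset.prod_const_one, mul_one, Finset.prod_const]
    apply Nat.pow_le_pow_right hKK
    have h5 : n.primeFactors.filter (fun p => p < 2 ^ K) ⊆ Finset.range (2 ^ K) := by
      intro p hp
      exact Finset.mem_range.2 (Finset.mem_filter.1 hp).2
    have h6 := Finset.card_le_card h5
    rwa [Finset.card_range] at h6
  calc #n.divisors ^ K = ∏ p ∈ n.primeFactors, (n.factorization p + 1) ^ K := h1
    _ ≤ ∏ p ∈ n.primeFactors, ((if p < 2 ^ K then K ^ K else 1) * p ^ n.factorization p) :=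
        Finset.prod_le_prod' h3
    _ = (∏ p ∈ n.primeFactors, (if p < 2 ^ K then K ^ K else 1)) * n := by
        rw [Finset.prod_mul_distrib, ← h2]
    _ ≤ (K ^ K) ^ (2 ^ K) * n := Nat.mul_le_mul_right _ h4

end Pool.Agent.Lib.MP_176ace_nt.Gr
end
end

section

section

set_option autoImplicit false

/-!
# CGrow: growth of the functional (paper 221, (c4))

`nrm F = ∑ |F i|`; `nrm (F + G) ≤ nrm F + nrm G`, `nrm (z • F) = |z| nrm F`.
Let `η = 1/100`, `L = 2 * 2^(100 m)`, so `2^m (2/L)^η = 1` (real powers). `H0` = the maximum of `nrm (cp q)`, `q ≤ Q0`.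
`φ(n) = A (n^η - 1)` for real `n ≥ 1`, with `A = max (H0/(2^η - 1)) (1 + 2^m H0)`. `φ(a) + φ(b) ≤ φ(a b)` because
`(a^η - 1)(b^η - 1) ≥ 0`. Claim: `nrm (ext cp n) ≤ φ(n)` for all `n ≥ 1`. It suffices to have this for primes
(induction on the number of prime factors, `ext_mul`, e.g. `Nat.recOnMul` or `induction_on_primes`), and for
primes it is proved by strong induction (use the claim for all numbers all of whose prime factors are `< p`, or
strong induction on `n` with `n` composite = product of two smaller numbers):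
`q ≤ Q0` prime: `nrm ≤ H0 ≤ A (2^η - 1) ≤ φ(q)`. `p > Q0` prime: for `W` nonempty
`p + k(W) = l_W * t`, `t ≤ 2p/l_W ≤ 2p/L`, `t < p` and `l_W < p`, so
`nrm (cp p) ≤ 1 + ∑_{W nonempty} (H0 + A ((2p/L)^η - 1)) ≤ 1 + 2^m H0 + (2^m - 1) A (2p/L)^η - (2^m - 1) A
 ≤ 1 + 2^m H0 + A p^η - (2^m - 1) A ≤ A p^η - A`, since `(2^m - 2) A ≥ 2 A ≥ 1 + 2^m H0` (`m ≥ 2`).
So `nrm^100 ≤ A^100 n`; take `C1 = ⌈A^100⌉`.
-/

namespace Pool.Agent.Lib.MP_176ace_nt.Gr

open Finset

/-- the norm -/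
noncomputable def CGrow_nrm (F : (ℕ ⊕ ℕ) →₀ ℤ) : ℕ := ∑ i ∈ F.support, (F i).natAbs

theorem CGrow_nrm_eq (F : (ℕ ⊕ ℕ) →₀ ℤ) (s : Finset (ℕ ⊕ ℕ)) (hs : F.support ⊆ s) :
    CGrow_nrm F = ∑ i ∈ s, (F i).natAbs := by
  refine Finset.sum_subset hs fun i _ hi => ?_
  rw [Finsupp.notMem_support_iff] at hi
  rw [hi]
  rfl

theorem CGrow_nrm_add (F G : (ℕ ⊕ ℕ) →₀ ℤ) :
    CGrow_nrm (F + G) ≤ CGrow_nrm F + CGrow_nrm G := by
  classical
  rw [CGrow_nrm_eq F (F.support ∪ G.support) subset_union_left,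
    CGrow_nrm_eq G (F.support ∪ G.support) subset_union_right,
    CGrow_nrm_eq (F + G) (F.support ∪ G.support) Finsupp.support_add, ← Finset.sum_add_distrib]
  exact Finset.sum_le_sum fun i _ => Int.natAbs_add_le _ _

theorem CGrow_nrm_zero : CGrow_nrm 0 = 0 := by
  simp [CGrow_nrm]

theorem CGrow_nrm_smul (z : ℤ) (F : (ℕ ⊕ ℕ) →₀ ℤ) :
    CGrow_nrm (z • F) = z.natAbs * CGrow_nrm F := by
  rw [CGrow_nrm_eq (z • F) F.support Finsupp.support_smul, CGrow_nrm, Finset.mul_sum]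
  refine Finset.sum_congr rfl fun i _ => ?_
  rw [Finsupp.smul_apply, smul_eq_mul, Int.natAbs_mul]

theorem CGrow_nrm_single (i : ℕ ⊕ ℕ) : CGrow_nrm (Finsupp.single i 1) = 1 := by
  rw [CGrow_nrm_eq _ {i} Finsupp.support_single_subset]
  simp

theorem CGrow_nrm_sum {ι : Type*} (s : Finset ι) (f : ι → (ℕ ⊕ ℕ) →₀ ℤ) :
    CGrow_nrm (∑ j ∈ s, f j) ≤ ∑ j ∈ s, CGrow_nrm (f j) := by
  classical
  induction s using Finset.induction_on with
  | empty => simp [CGrow_nrm_zero]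
  | insert a s ha ih =>
    rw [Finset.sum_insert ha, Finset.sum_insert ha]
    exact (CGrow_nrm_add _ _).trans (by omega)

theorem CGrow_nrm_sg {m : ℕ} (W : Finset (Fin m)) (F : (ℕ ⊕ ℕ) →₀ ℤ) :
    CGrow_nrm (sg W • F) = CGrow_nrm F := by
  rw [CGrow_nrm_smul]
  have : (sg W).natAbs = 1 := by
    rw [sg, Int.natAbs_pow]
    simp
  rw [this, one_mul]

theorem CGrow_ssum_le {m M : ℕ} {k : Fin m → ℕ} (hk : ∀ a, k a ≤ M) (W : Finset (Fin m)) :
    ssum k W ≤ m * M := by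
  unfold ssum
  calc ∑ a ∈ W, k a ≤ ∑ _a ∈ W, M := Finset.sum_le_sum fun a _ => hk a
    _ = W.card * M := by rw [Finset.sum_const, smul_eq_mul]
    _ ≤ m * M := by
      refine Nat.mul_le_mul_right _ ?_
      have := Finset.card_le_univ W
      simpa using this

theorem CGrow_rpow_mul {a b : ℝ} (ha : 1 ≤ a) (hb : 1 ≤ b) {A η : ℝ} (hA : 0 ≤ A) (hη : 0 ≤ η) :
    A * (a ^ η - 1) + A * (b ^ η - 1) ≤ A * ((a * b) ^ η - 1) := by
  rw [Real.mul_rpow (by linarith) (by linarith)]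
  have h1 : 1 ≤ a ^ η := Real.one_le_rpow ha hη
  have h2 : 1 ≤ b ^ η := Real.one_le_rpow hb hη
  have h3 : 0 ≤ A * ((a ^ η - 1) * (b ^ η - 1)) :=
    mul_nonneg hA (mul_nonneg (by linarith) (by linarith))
  nlinarith [h3]

variable {m : ℕ} (D : Pre m) {cp : ℕ → (ℕ ⊕ ℕ) →₀ ℤ} (h : IsCp D cp)

include h in
theorem CGrow_main (hm : 2 ≤ m) {A H0 : ℝ}
    (hH : ∀ q, q ≤ D.Q0 → (CGrow_nrm (cp q) : ℝ) ≤ H0) (hH0 : 0 ≤ H0)
    (hA1 : H0 ≤ A * ((2 : ℝ) ^ ((1 : ℝ) / 100) - 1)) (hA2 : 1 + 2 ^ m * H0 ≤ A) (n : ℕ) :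
    1 ≤ n → (CGrow_nrm (ext cp n) : ℝ) ≤ A * ((n : ℝ) ^ ((1 : ℝ) / 100) - 1) := by
  have hA : 0 ≤ A := le_trans (by positivity) hA2
  induction n using Nat.strong_induction_on with
  | _ n ih =>
  intro hn
  rcases Nat.eq_or_lt_of_le hn with h1 | h1
  · subst h1
    simp [ext, CGrow_nrm_zero]
  by_cases hp : n.Prime
  swap
  · -- composite
    obtain ⟨a, ha, hna, hn1⟩ := (Nat.not_prime_iff_exists_dvd_lt (by omega : 2 ≤ n)).1 hp
    obtain ⟨b, rfl⟩ := ha
    have ha2 : 2 ≤ a := hna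
    have hb1 : 1 < b := by
      by_contra hb
      have : a * b ≤ a * 1 := Nat.mul_le_mul_left _ (by omega)
      omega
    have hba : b < a * b := by nlinarith
    rw [ext_mul cp a b (by omega) (by omega)]
    have e1 := ih a hn1 (by omega)
    have e2 := ih b hba (by omega)
    have e3 : (CGrow_nrm (ext cp a + ext cp b) : ℝ) ≤
        (CGrow_nrm (ext cp a) : ℝ) + CGrow_nrm (ext cp b) := by
      exact_mod_cast CGrow_nrm_add _ _
    have e4 := CGrow_rpow_mul (a := (a : ℝ)) (b := (b : ℝ)) (A := A) (η := (1 : ℝ) / 100)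
      (by exact_mod_cast (by omega : 1 ≤ a)) (by exact_mod_cast (by omega : 1 ≤ b)) hA
      (by norm_num)
    push_cast
    linarith
  · rw [ext_prime cp hp]
    rcases le_or_gt n D.Q0 with hQ | hQ
    · refine (hH n hQ).trans (hA1.trans ?_)
      refine mul_le_mul_of_nonneg_left ?_ hA
      have : (2 : ℝ) ^ ((1 : ℝ) / 100) ≤ (n : ℝ) ^ ((1 : ℝ) / 100) :=
        Real.rpow_le_rpow (by norm_num) (by exact_mod_cast hp.two_le) (by norm_num)
      linarith
    · rw [h.large n hp hQ]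
      set η : ℝ := (1 : ℝ) / 100 with hη
      have hnpos : (0 : ℝ) < n := by exact_mod_cast hp.pos
      -- one term
      have hterm : ∀ W : Finset (Fin m), W.Nonempty →
          (CGrow_nrm (ext cp (n + ssum (D.kp n) W)) : ℝ) ≤
            H0 + A * ((n : ℝ) ^ η / 2 ^ m - 1) := by
        intro W hW
        obtain ⟨t, ht⟩ := D.dvd n W hW
        have hl := D.l_big W
        have hlp := (D.l_prime W).pos
        have hk := CGrow_ssum_le (D.shape_kp n).le W
        have hkn : ssum (D.kp n) W ≤ n := le_trans hk (le_trans D.Q0_ge hQ.le)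
        have ht1 : 1 ≤ t := by
          rcases Nat.eq_zero_or_pos t with h0 | h0
          · rw [h0, mul_zero] at ht
            have := hp.pos
            omega
          · exact h0
        have hlt : D.l W * t ≤ 2 * n := by omega
        have hbig : 2 * 2 ^ (100 * m) * t ≤ 2 * n := by
          refine le_trans (Nat.mul_le_mul_right t ?_) hlt
          omega
        have hbig' : 2 ^ (100 * m) * t ≤ n := by
          rw [mul_assoc] at hbig
          omega
        have htn : t < n := by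
          have h2 : 2 ^ (100 * m) ≥ 2 := by
            calc 2 ^ (100 * m) ≥ 2 ^ 1 := Nat.pow_le_pow_right (by norm_num) (by omega)
              _ = 2 := by norm_num
          nlinarith
        rw [ht, ext_mul cp _ _ hlp ht1, ext_prime cp (D.l_prime W)]
        have e1 := ih t htn ht1
        have e2 : (CGrow_nrm (cp (D.l W) + ext cp t) : ℝ) ≤
            (CGrow_nrm (cp (D.l W)) : ℝ) + CGrow_nrm (ext cp t) := by
          exact_mod_cast CGrow_nrm_add _ _
        have e3 := hH (D.l W) (D.l_le W)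
        have e4 : (t : ℝ) ^ η ≤ (n : ℝ) ^ η / 2 ^ m := by
          rw [le_div_iff₀ (by positivity)]
          have e5 : (2 : ℝ) ^ m = ((2 : ℝ) ^ (100 * m)) ^ η := by
            rw [← Real.rpow_natCast, ← Real.rpow_natCast, ← Real.rpow_mul (by norm_num)]
            congr 1
            rw [hη]
            push_cast
            ring
          rw [e5, mul_comm, ← Real.mul_rpow (by positivity) (by positivity)]
          refine Real.rpow_le_rpow (by positivity) ?_ (by rw [hη]; norm_num)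
          exact_mod_cast hbig'
        have e6 : A * ((t : ℝ) ^ η - 1) ≤ A * ((n : ℝ) ^ η / 2 ^ m - 1) :=
          mul_le_mul_of_nonneg_left (by linarith) hA
        linarith
      have hsum : (CGrow_nrm (∑ W ∈ (univ : Finset (Finset (Fin m))) with W.Nonempty,
          sg W • ext cp (n + ssum (D.kp n) W)) : ℝ) ≤
          (2 ^ m - 1) * (H0 + A * ((n : ℝ) ^ η / 2 ^ m - 1)) := by
        have e1 : (CGrow_nrm (∑ W ∈ (univ : Finset (Finset (Fin m))) with W.Nonempty,
            sg W • ext cp (n + ssum (D.kp n) W)) : ℝ) ≤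
            ∑ W ∈ (univ : Finset (Finset (Fin m))) with W.Nonempty,
              (CGrow_nrm (ext cp (n + ssum (D.kp n) W)) : ℝ) := by
          have := CGrow_nrm_sum ((univ : Finset (Finset (Fin m))).filter fun W => W.Nonempty)
            (fun W => sg W • ext cp (n + ssum (D.kp n) W))
          simp only [CGrow_nrm_sg] at this
          exact_mod_cast this
        refine e1.trans ?_
        have e2 : ∑ W ∈ (univ : Finset (Finset (Fin m))) with W.Nonempty,
              (CGrow_nrm (ext cp (n + ssum (D.kp n) W)) : ℝ) ≤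
            ∑ _W ∈ (univ : Finset (Finset (Fin m))) with _W.Nonempty,
              (H0 + A * ((n : ℝ) ^ η / 2 ^ m - 1)) :=
          Finset.sum_le_sum fun W hW => hterm W (Finset.mem_filter.1 hW).2
        refine e2.trans (le_of_eq ?_)
        rw [Finset.sum_const, nsmul_eq_mul]
        congr 1
        have e3 : ((univ : Finset (Finset (Fin m))).filter fun W => W.Nonempty) =
            univ.erase ∅ := by
          ext W
          simp [Finset.nonempty_iff_ne_empty]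
        rw [e3, Finset.card_erase_of_mem (Finset.mem_univ _), Finset.card_univ,
          Fintype.card_finset, Fintype.card_fin, Nat.cast_sub Nat.one_le_two_pow]
        push_cast
        ring
      have hneg : (CGrow_nrm (Finsupp.single (Sum.inr n) 1 -
          ∑ W ∈ (univ : Finset (Finset (Fin m))) with W.Nonempty,
            sg W • ext cp (n + ssum (D.kp n) W)) : ℝ) ≤
          1 + (CGrow_nrm (∑ W ∈ (univ : Finset (Finset (Fin m))) with W.Nonempty,
            sg W • ext cp (n + ssum (D.kp n) W)) : ℝ) := by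
        have e1 := CGrow_nrm_add (Finsupp.single (Sum.inr n) 1)
          ((-1 : ℤ) • ∑ W ∈ (univ : Finset (Finset (Fin m))) with W.Nonempty,
            sg W • ext cp (n + ssum (D.kp n) W))
        rw [CGrow_nrm_single, CGrow_nrm_smul] at e1
        rw [sub_eq_add_neg, ← neg_one_smul ℤ]
        have e2 : (-1 : ℤ).natAbs = 1 := rfl
        rw [e2, one_mul] at e1
        exact_mod_cast e1
      refine hneg.trans ?_
      have h2m : (4 : ℝ) ≤ 2 ^ m := by
        calc (4 : ℝ) = 2 ^ 2 := by norm_num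
          _ ≤ 2 ^ m := pow_le_pow_right₀ (by norm_num) hm
      have hx : 0 ≤ (n : ℝ) ^ η := by positivity
      have hxx : (2 ^ m - 1) * (A * ((n : ℝ) ^ η / 2 ^ m)) ≤ A * (n : ℝ) ^ η := by
        have e1 : A * ((n : ℝ) ^ η / 2 ^ m) * 2 ^ m = A * (n : ℝ) ^ η := by
          field_simp
        have e2 : 0 ≤ A * ((n : ℝ) ^ η / 2 ^ m) := by positivity
        nlinarith
      have hAA : 2 * A ≤ (2 ^ m - 2) * A := mul_le_mul_of_nonneg_right (by linarith) hA
      nlinarith [hsum, hxx, hAA, hA2]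

include h in
theorem ext_growth (hm : 2 ≤ m) : ∃ C1 : ℕ, ∀ n, 1 ≤ n →
    (∑ i ∈ (ext cp n).support, (ext cp n i).natAbs) ^ 100 ≤ C1 * n := by
  set H0 : ℝ := ∑ q ∈ Finset.range (D.Q0 + 1), (CGrow_nrm (cp q) : ℝ) with hH0
  have hH0nn : 0 ≤ H0 := Finset.sum_nonneg fun q _ => Nat.cast_nonneg _
  have hH : ∀ q, q ≤ D.Q0 → (CGrow_nrm (cp q) : ℝ) ≤ H0 := fun q hq =>
    Finset.single_le_sum (f := fun q => (CGrow_nrm (cp q) : ℝ)) (fun q _ => Nat.cast_nonneg _)
      (Finset.mem_range.2 (by omega))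
  have h2 : 0 < (2 : ℝ) ^ ((1 : ℝ) / 100) - 1 := by
    have := Real.one_lt_rpow (x := 2) (z := (1 : ℝ) / 100) (by norm_num) (by norm_num)
    linarith
  set A : ℝ := H0 / ((2 : ℝ) ^ ((1 : ℝ) / 100) - 1) + (1 + 2 ^ m * H0) with hA
  have hA0 : 0 ≤ H0 / ((2 : ℝ) ^ ((1 : ℝ) / 100) - 1) := div_nonneg hH0nn h2.le
  have hA1 : H0 ≤ A * ((2 : ℝ) ^ ((1 : ℝ) / 100) - 1) := by
    have e1 : H0 / ((2 : ℝ) ^ ((1 : ℝ) / 100) - 1) * ((2 : ℝ) ^ ((1 : ℝ) / 100) - 1) = H0 :=
      div_mul_cancel₀ _ h2.ne'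
    have e2 : 0 ≤ (1 + 2 ^ m * H0) * ((2 : ℝ) ^ ((1 : ℝ) / 100) - 1) := by positivity
    rw [hA, add_mul, e1]
    linarith
  have hA2 : 1 + 2 ^ m * H0 ≤ A := by
    rw [hA]
    linarith
  have hAnn : 0 ≤ A := le_trans (by positivity) hA2
  refine ⟨⌈A ^ 100⌉₊, fun n hn => ?_⟩
  have key := CGrow_main D h hm hH hH0nn hA1 hA2 n hn
  have hn1 : (1 : ℝ) ≤ (n : ℝ) ^ ((1 : ℝ) / 100) :=
    Real.one_le_rpow (by exact_mod_cast hn) (by norm_num)
  have key2 : (CGrow_nrm (ext cp n) : ℝ) ≤ A * (n : ℝ) ^ ((1 : ℝ) / 100) :=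
    key.trans (mul_le_mul_of_nonneg_left (by linarith) hAnn)
  have key3 : (CGrow_nrm (ext cp n) : ℝ) ^ 100 ≤ A ^ 100 * n := by
    refine (pow_le_pow_left₀ (Nat.cast_nonneg _) key2 100).trans (le_of_eq ?_)
    rw [mul_pow, ← Real.rpow_natCast ((n : ℝ) ^ ((1 : ℝ) / 100)) 100,
      ← Real.rpow_mul (Nat.cast_nonneg _)]
    norm_num
  have key4 : (CGrow_nrm (ext cp n) : ℝ) ^ 100 ≤ (⌈A ^ 100⌉₊ : ℝ) * n :=
    key3.trans (mul_le_mul_of_nonneg_right (Nat.le_ceil _) (Nat.cast_nonneg _))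
  have key5 : (CGrow_nrm (ext cp n)) ^ 100 ≤ ⌈A ^ 100⌉₊ * n := by exact_mod_cast key4
  exact key5

end Pool.Agent.Lib.MP_176ace_nt.Gr
end

section

set_option autoImplicit false

/-!
# CFinal: existence of the functional
-/

namespace Pool.Agent.Lib.MP_176ace_nt.Gr

open Finset

theorem Pre.comp {m : ℕ} (D : Pre m) {p : ℕ} (hp : p.Prime) (hpQ : D.Q0 < p)
    (W : Finset (Fin m)) (hW : W.Nonempty) : ¬ (p + ssum (D.kp p) W).Prime := by
  intro hpr
  have h1 := D.factor_lt hp hpQ hW hpr dvd_rfl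
  omega

theorem exists_cfun {m : ℕ} (hm : 2 ≤ m) : Nonempty (CFun m) := by
  obtain ⟨D⟩ := exists_pre hm
  obtain ⟨cp, h⟩ := exists_cp D
  obtain ⟨C1, hC1⟩ := ext_growth D h hm
  exact ⟨{
    M1 := D.M1
    Q0 := D.Q0
    N0 := D.N0
    C1 := C1
    kap := D.kap
    kp := D.kp
    c := ext cp
    M1_pos := D.M1_pos
    Q0_ge := D.Q0_ge
    shape_kap := D.shape_kap
    shape_kp := fun p _ _ => D.shape_kp p
    comp := fun p hp hpQ W hW => D.comp hp hpQ W hW
    c_mul := fun a b ha hb => ext_mul cp a b ha hb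
    c_prod := fun n hn => ext_prod D h n hn
    c_supp := fun n i hi => ext_supp D h n i hi
    growth := hC1
    near := fun p hp hpQ n hn hne => ext_near D h hp hpQ hn hne
    one := fun p hp hpQ => by rw [ext_prime cp hp]; exact cp_one D h hp hpQ }⟩

end Pool.Agent.Lib.MP_176ace_nt.Gr
end

section

set_option autoImplicit false

/-!
# ParEx: existence of the parameters

`exists_par`: `exists_cfun`, `exists_sieve`, `divisor_bound 100` with constant `C`. For `b` larger than the constant of `hb`,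
`2 C` and `2 C1`: for `n ≤ 2 b^90`: `#divisors^100 ≤ C n ≤ 2 C b^90 ≤ b^91 ≤ b^100`, so `#divisors ≤ b`; the same for `c`.
`choose_b`: let `g b = 2 m b^115 + (m + 2) + (2 m b + 1)` (increasing); `b` maximal with `g b ≤ d`; then
`d < g (b + 1) ≤ 50 m b^115 + (m + 2) + (2 m b + 1)` for `b` large (`(1 + 1/b)^115 ≤ 2`).
-/

namespace Pool.Agent.Lib.MP_176ace_nt.Gr

open Finset

private theorem parex_root {b C n x : ℕ} (hb : 2 * C ≤ b) (hb1 : 1 ≤ b) (hn : n ≤ 2 * b ^ 90)
    (hx : x ^ 100 ≤ C * n) : x ≤ b := by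
  by_contra hcon
  have h0 : b < x := not_le.mp hcon
  have h1 : b ^ 100 < x ^ 100 := Nat.pow_lt_pow_left h0 (by norm_num)
  have h2 : C * n ≤ b ^ 91 := by
    calc C * n ≤ C * (2 * b ^ 90) := Nat.mul_le_mul_left _ hn
      _ = (2 * C) * b ^ 90 := by ring
      _ ≤ b * b ^ 90 := Nat.mul_le_mul_right _ hb
      _ = b ^ 91 := by ring
  have h3 : b ^ 91 ≤ b ^ 100 := Nat.pow_le_pow_right hb1 (by norm_num)
  exact absurd (lt_of_lt_of_le h1 (hx.trans (h2.trans h3))) (lt_irrefl _)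

theorem exists_par {m : ℕ} (hm : 2 ≤ m) : ∃ b0 : ℕ, ∀ b ≥ b0, ∃ P : Par m, P.b = b := by
  obtain ⟨D⟩ := exists_cfun hm
  obtain ⟨D0, hD0⟩ := exists_sieve m (8 * m ^ 2 * (8 * (2 + 4 ^ m * (m * D.M1 + 1)))) (by omega)
    (by
      have : 0 < 8 * m ^ 2 * (8 * (2 + 4 ^ m * (m * D.M1 + 1))) := by positivity
      omega)
  obtain ⟨C, hC⟩ := divisor_bound 100 (by norm_num)
  refine ⟨10 ^ 6 * m ^ 3 * 4 ^ m * (8 * (2 + 4 ^ m * (m * D.M1 + 1))) * (D.M1 + 1) * (D0 + 1) *
    (D.N0 + 1) * (D.Q0 + 1) + 2 * C + 2 * D.C1 + 1, fun b hb => ?_⟩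
  refine ⟨{
    hm := hm
    D := D
    D0 := D0
    hsieve := hD0
    b := b
    hb := by omega
    hdiv := fun n hn hn2 => parex_root (C := C) (by omega) (by omega) hn2 (hC n hn)
    hgr := fun n hn hn2 => parex_root (C := D.C1) (by omega) (by omega) hn2 (D.growth n hn) }, rfl⟩

theorem choose_b (m : ℕ) (hm : 2 ≤ m) (b0 : ℕ) : ∃ d0 : ℕ, ∀ d ≥ d0, ∃ b ≥ b0,
    2 * m * b ^ 115 + (m + 2) + (2 * m * b + 1) ≤ d ∧
      d ≤ 50 * m * b ^ 115 + (m + 2) + (2 * m * b + 1) := by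
  have hpow : ∀ b : ℕ, 230 ≤ b → (b + 1) ^ 115 ≤ 2 * b ^ 115 := by
    intro b hb
    have hb' : (230 : ℝ) ≤ b := by exact_mod_cast hb
    have hpos : (0 : ℝ) < (b : ℝ) + 1 := by linarith
    have h1 : (1 : ℝ) + (115 : ℕ) * (-(1 / ((b : ℝ) + 1))) ≤ (1 + (-(1 / ((b : ℝ) + 1)))) ^ 115 := by
      apply one_add_mul_le_pow
      have : 1 / ((b : ℝ) + 1) ≤ 1 := by
        rw [div_le_one hpos]; linarith
      linarith
    have h2 : 1 / ((b : ℝ) + 1) ≤ 1 / 230 := by
      apply one_div_le_one_div_of_le (by norm_num); linarith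
    have h3 : (1 + (-(1 / ((b : ℝ) + 1)))) = b / ((b : ℝ) + 1) := by
      field_simp; ring
    have h4 : (1 / 2 : ℝ) ≤ (b / ((b : ℝ) + 1)) ^ 115 := by
      rw [← h3]
      refine le_trans ?_ h1
      push_cast
      linarith
    rw [div_pow, le_div_iff₀ (pow_pos hpos _)] at h4
    have h5 : ((b : ℝ) + 1) ^ 115 ≤ 2 * (b : ℝ) ^ 115 := by linarith
    exact_mod_cast h5
  set g : ℕ → ℕ := fun b => 2 * m * b ^ 115 + (m + 2) + (2 * m * b + 1) with hg
  have hgb : ∀ b : ℕ, b ≤ g b := by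
    intro b
    have : b ≤ 2 * m * b := Nat.le_mul_of_pos_left b (by omega)
    simp only [hg]
    omega
  set b1 : ℕ := b0 + 230 with hb1
  refine ⟨g b1, fun d hd => ?_⟩
  have hb1d : b1 ≤ d := (hgb b1).trans hd
  set b : ℕ := Nat.findGreatest (fun x => g x ≤ d) d with hbdef
  have hspec : g b ≤ d := Nat.findGreatest_spec (P := fun x => g x ≤ d) hb1d hd
  have hle : b1 ≤ b := Nat.le_findGreatest hb1d hd
  have hlt : d < g (b + 1) := by
    by_cases hbd : b + 1 ≤ d
    · have := Nat.findGreatest_is_greatest (P := fun x => g x ≤ d) (n := d) (k := b + 1)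
        (Nat.lt_succ_self _) hbd
      exact not_le.mp this
    · have := hgb (b + 1)
      omega
  refine ⟨b, by omega, hspec, ?_⟩
  have h1 := hpow b (by omega)
  have h2 : 1 ≤ b ^ 115 := Nat.one_le_pow _ _ (by omega)
  have h3 : 2 * m * (b + 1) ^ 115 ≤ 2 * m * (2 * b ^ 115) := Nat.mul_le_mul_left _ h1
  have h4 : m ≤ m * b ^ 115 := Nat.le_mul_of_pos_right m (by omega)
  simp only [hg] at hlt
  nlinarith [hlt, h3, h4]

end Pool.Agent.Lib.MP_176ace_nt.Gr
end
end
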