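import Mathlib
import Pool.Agent.Lib.MP_176ace_nt.Gr.Defs
import Pool.Agent.Lib.MP_176ace_nt.Gr.CBasic

section

section

set_option autoImplicit false

/-!
# Cell1: the algebra of the vertices of a cell (paper 221, Section 6)
-/

namespace Pool.Agent.Lib.MP_176ace_nt.Gr

open Finset

variable {m : ℕ}

theorem cl_lab_ne (j : Fin (m + 1)) (a : Fin m) :
    ((j : ℕ) : ℤ) - ((j.succAbove a : ℕ) : ℤ) ≠ 0 := by
  have h := Fin.succAbove_ne j a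
  intro h0
  apply h
  apply Fin.ext
  omega

theorem cl_lab_abs_le (j : Fin (m + 1)) (a : Fin m) :
    |((j : ℕ) : ℤ) - ((j.succAbove a : ℕ) : ℤ)| ≤ m := by
  have h1 := j.is_lt
  have h2 := (j.succAbove a).is_lt
  rw [abs_le]
  constructor <;> omega

theorem cl_tt_mul (j : Fin (m + 1)) (s : ℕ) (k : Fin m → ℕ) (hk : ∀ a, m.factorial ∣ k a) (a : Fin m) :
    (((j : ℕ) : ℤ) - ((j.succAbove a : ℕ) : ℤ)) * tt j s k a = ((s * k a : ℕ) : ℤ) := by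
  unfold tt
  apply Int.mul_ediv_cancel'
  have h1 : (((j : ℕ) : ℤ) - ((j.succAbove a : ℕ) : ℤ)) ∣ ((m.factorial : ℕ) : ℤ) := by
    rw [← Int.natAbs_dvd, Int.natCast_dvd_natCast]
    apply Nat.dvd_factorial
    · exact Int.natAbs_pos.2 (cl_lab_ne j a)
    · have := cl_lab_abs_le j a
      omega
  exact h1.trans (Int.natCast_dvd_natCast.2 (Dvd.dvd.mul_left (hk a) s))

theorem cl_tt_abs_le (j : Fin (m + 1)) (s : ℕ) (k : Fin m → ℕ) (hk : ∀ a, m.factorial ∣ k a)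
    (a : Fin m) : |tt j s k a| ≤ ((s * k a : ℕ) : ℤ) := by
  have h1 := cl_tt_mul j s k hk a
  have h2 : (1 : ℤ) ≤ |((j : ℕ) : ℤ) - ((j.succAbove a : ℕ) : ℤ)| :=
    Int.one_le_abs (cl_lab_ne j a)
  have h3 : |((j : ℕ) : ℤ) - ((j.succAbove a : ℕ) : ℤ)| * |tt j s k a| = ((s * k a : ℕ) : ℤ) := by
    rw [← abs_mul, h1]
    exact abs_of_nonneg (Int.natCast_nonneg _)
  rw [← h3]
  exact le_mul_of_one_le_left (abs_nonneg _) h2

theorem cl_ssum_insert (k : Fin m → ℕ) {a : Fin m} {W : Finset (Fin m)} (h : a ∉ W) :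
    ssum k (insert a W) = k a + ssum k W := by
  unfold ssum
  exact sum_insert h

theorem cl_ssum_empty (k : Fin m → ℕ) : ssum k ∅ = 0 := by
  simp [ssum]

theorem cl_ssum_le {M : ℕ} (k : Fin m → ℕ) (hk : ∀ a, k a ≤ M) (W : Finset (Fin m)) :
    ssum k W ≤ m * M := by
  unfold ssum
  refine (sum_le_card_nsmul _ _ _ (fun a _ => hk a)).trans ?_
  rw [smul_eq_mul]
  refine Nat.mul_le_mul_right _ ?_
  refine (card_le_univ W).trans ?_
  simp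

theorem cl_yv_insert (j : Fin (m + 1)) (s : ℕ) (k : Fin m → ℕ) (y : ℤ) {a : Fin m}
    {W : Finset (Fin m)} (h : a ∉ W) :
    yv j s k y (insert a W) = yv j s k y W + tt j s k a := by
  unfold yv
  rw [sum_insert h]
  ring

theorem cl_yv_empty (j : Fin (m + 1)) (s : ℕ) (k : Fin m → ℕ) (y : ℤ) :
    yv j s k y ∅ = y := by
  simp [yv]

theorem cl_yv_eq (j : Fin (m + 1)) (s : ℕ) (k : Fin m → ℕ) (y : ℤ) (W : Finset (Fin m)) :
    yv j s k y W = y + yv j s k 0 W := by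
  simp [yv]

theorem cl_yv_abs_le {M : ℕ} (j : Fin (m + 1)) (s : ℕ) (k : Fin m → ℕ)
    (hk : ∀ a, m.factorial ∣ k a) (hM : ∀ a, k a ≤ M) (y : ℤ) (W : Finset (Fin m)) :
    |yv j s k y W - y| ≤ ((s * (m * M) : ℕ) : ℤ) := by
  have h1 : yv j s k y W - y = ∑ a ∈ W, tt j s k a := by
    unfold yv; ring
  rw [h1]
  refine (abs_sum_le_sum_abs _ _).trans ?_
  refine (sum_le_sum fun a _ => cl_tt_abs_le j s k hk a).trans ?_
  rw [← Nat.cast_sum]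
  refine Nat.cast_le.2 ?_
  rw [← mul_sum]
  exact Nat.mul_le_mul_left _ (cl_ssum_le k hM W)

theorem cl_Nv_insert (s n : ℕ) (k : Fin m → ℕ) {a : Fin m} {W : Finset (Fin m)} (h : a ∉ W) :
    Nv s n k (insert a W) = Nv s n k W + s * k a := by
  unfold Nv
  rw [cl_ssum_insert k h]
  ring

theorem cl_Nv_pos {s n : ℕ} (k : Fin m → ℕ) (W : Finset (Fin m)) (hs : 1 ≤ s) (hn : 1 ≤ n) :
    1 ≤ Nv s n k W := by
  unfold Nv
  exact Nat.mul_pos hs (by omega)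

/-- The value of `L_i` at a vertex. -/
theorem cl_L_vtx (i : ℕ) (j : Fin (m + 1)) (n : ℕ) (k : Fin m → ℕ) (s : ℕ) (y : ℤ)
    (W : Finset (Fin m)) :
    L i (vtx j n k s y W) = (Nv s n k W : ℤ) + ((i : ℤ) - ((j : ℕ) : ℤ)) * yv j s k y W := by
  unfold L vtx
  ring

/-- (6.1) -/
theorem cl_L_vtx_self (j : Fin (m + 1)) (n : ℕ) (k : Fin m → ℕ) (s : ℕ) (y : ℤ)
    (W : Finset (Fin m)) :
    L (j : ℕ) (vtx j n k s y W) = (Nv s n k W : ℤ) := by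
  rw [cl_L_vtx]
  ring

/-- (6.1) -/
theorem cl_L_vtx_insert (j : Fin (m + 1)) (n : ℕ) (k : Fin m → ℕ) (s : ℕ) (y : ℤ)
    (hk : ∀ a, m.factorial ∣ k a) {a : Fin m} {W : Finset (Fin m)} (h : a ∉ W) :
    L (j.succAbove a : ℕ) (vtx j n k s y (insert a W)) =
      L (j.succAbove a : ℕ) (vtx j n k s y W) := by
  rw [cl_L_vtx, cl_L_vtx, cl_yv_insert j s k y h, cl_Nv_insert s n k h]
  have h1 := cl_tt_mul j s k hk a
  push_cast at h1 ⊢
  linarith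

theorem cl_sg_insert {a : Fin m} {W : Finset (Fin m)} (h : a ∉ W) :
    sg (insert a W) = - sg W := by
  unfold sg
  rw [card_insert_of_notMem h, pow_succ]
  ring

/-- A function on subsets which does not change when `a` is added has alternating sum zero. -/
theorem cl_sum_sg_eq_zero {A : Type*} [AddCommGroup A] (G : Finset (Fin m) → A) (a : Fin m)
    (hG : ∀ W, a ∉ W → G (insert a W) = G W) :
    ∑ W : Finset (Fin m), sg W • G W = 0 := by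
  classical
  refine sum_involution (fun W _ => if a ∈ W then W.erase a else insert a W) ?_ ?_ ?_ ?_
  · intro W _
    by_cases h : a ∈ W
    · simp only [if_pos h]
      have h1 : a ∉ W.erase a := notMem_erase a W
      have h2 := hG _ h1
      have h3 := cl_sg_insert h1
      rw [insert_erase h] at h2 h3
      rw [h3, h2]
      simp
    · simp only [if_neg h]
      rw [cl_sg_insert h, hG W h]
      simp
  · intro W _ _
    by_cases h : a ∈ W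
    · simp only [if_pos h]
      intro h1
      rw [← h1] at h
      exact notMem_erase a W h
    · simp only [if_neg h]
      intro h1
      rw [← h1] at h
      exact h (mem_insert_self _ _)
  · intro W _
    exact mem_univ _
  · intro W _
    by_cases h : a ∈ W
    · simp only [if_pos h, if_neg (notMem_erase a W)]
      exact insert_erase h
    · simp only [if_neg h, if_pos (mem_insert_self a W)]
      exact erase_insert h

/-- A function on subsets which does not change when `a` is added has the same product over the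
even and over the odd subsets. -/
theorem cl_prod_even_eq_odd {A : Type*} [CommMonoid A] (G : Finset (Fin m) → A) (a : Fin m)
    (hG : ∀ W, a ∉ W → G (insert a W) = G W) :
    ∏ W : Finset (Fin m) with Even W.card, G W =
      ∏ W : Finset (Fin m) with ¬ Even W.card, G W := by
  classical
  refine prod_bij' (fun W _ => if a ∈ W then W.erase a else insert a W)
    (fun W _ => if a ∈ W then W.erase a else insert a W) ?_ ?_ ?_ ?_ ?_
  · intro W hW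
    rw [mem_filter] at hW ⊢
    refine ⟨mem_univ _, ?_⟩
    by_cases h : a ∈ W
    · simp only [if_pos h]
      have h1 := card_erase_add_one h
      rw [← h1] at hW
      have := hW.2
      rw [Nat.even_add_one] at this
      exact this
    · simp only [if_neg h]
      rw [card_insert_of_notMem h, Nat.even_add_one]
      exact fun h2 => h2 hW.2
  · intro W hW
    rw [mem_filter] at hW ⊢
    refine ⟨mem_univ _, ?_⟩
    by_cases h : a ∈ W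
    · simp only [if_pos h]
      have h1 := card_erase_add_one h
      rw [← h1] at hW
      have := hW.2
      rw [Nat.even_add_one, not_not] at this
      exact this
    · simp only [if_neg h]
      rw [card_insert_of_notMem h, Nat.even_add_one]
      exact hW.2
  · intro W _
    by_cases h : a ∈ W
    · simp only [if_pos h, if_neg (notMem_erase a W)]
      exact insert_erase h
    · simp only [if_neg h, if_pos (mem_insert_self a W)]
      exact erase_insert h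
  · intro W _
    by_cases h : a ∈ W
    · simp only [if_pos h, if_neg (notMem_erase a W)]
      exact insert_erase h
    · simp only [if_neg h, if_pos (mem_insert_self a W)]
      exact erase_insert h
  · intro W _
    by_cases h : a ∈ W
    · simp only [if_pos h]
      have h1 := hG _ (notMem_erase a W)
      rw [insert_erase h] at h1
      exact h1
    · simp only [if_neg h]
      exact (hG W h).symm

/-- (6.2), alternating sums. -/
theorem cl_sum_sg_L {A : Type*} [AddCommGroup A] (F : ℤ → A) (j i : Fin (m + 1)) (hij : i ≠ j)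
    (n : ℕ) (k : Fin m → ℕ) (s : ℕ) (y : ℤ) (hk : ∀ a, m.factorial ∣ k a) :
    ∑ W : Finset (Fin m), sg W • F (L (i : ℕ) (vtx j n k s y W)) = 0 := by
  obtain ⟨a, rfl⟩ := Fin.exists_succAbove_eq hij
  exact cl_sum_sg_eq_zero _ a fun W h => by rw [cl_L_vtx_insert j n k s y hk h]

/-- (6.2), products over the even and the odd vertices. -/
theorem cl_prod_even_L {A : Type*} [CommMonoid A] (F : ℤ → A) (j i : Fin (m + 1)) (hij : i ≠ j)
    (n : ℕ) (k : Fin m → ℕ) (s : ℕ) (y : ℤ) (hk : ∀ a, m.factorial ∣ k a) :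
    ∏ W : Finset (Fin m) with Even W.card, F (L (i : ℕ) (vtx j n k s y W)) =
      ∏ W : Finset (Fin m) with ¬ Even W.card, F (L (i : ℕ) (vtx j n k s y W)) := by
  obtain ⟨a, rfl⟩ := Fin.exists_succAbove_eq hij
  exact cl_prod_even_eq_odd _ a fun W h => by rw [cl_L_vtx_insert j n k s y hk h]

theorem cl_sum_sg (hm : 1 ≤ m) : ∑ W : Finset (Fin m), sg W = 0 := by
  have h := cl_sum_sg_eq_zero (m := m) (fun _ => (1 : ℤ)) ⟨0, by omega⟩ (fun _ _ => rfl)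
  simpa using h

/-- (6.2), the alternating product of the `L_j`. -/
theorem cl_prod_Nv (hm : 1 ≤ m) {s : ℕ} (hs : 1 ≤ s) (n : ℕ) (k : Fin m → ℕ) :
    ∏ W : Finset (Fin m), ((Nv s n k W : ℕ) : ℚ) ^ sg W = uval n k := by
  have hs0 : (s : ℚ) ≠ 0 := by
    have : s ≠ 0 := by omega
    exact_mod_cast this
  have h1 : ∀ W : Finset (Fin m), ((Nv s n k W : ℕ) : ℚ) ^ sg W =
      (s : ℚ) ^ sg W * ((n + ssum k W : ℕ) : ℚ) ^ sg W := by
    intro W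
    unfold Nv
    rw [Nat.cast_mul, mul_zpow]
  have h2 : ∏ W : Finset (Fin m), (s : ℚ) ^ sg W = 1 := by
    have h3 : ∀ T : Finset (Finset (Fin m)), ∏ W ∈ T, (s : ℚ) ^ sg W = (s : ℚ) ^ (∑ W ∈ T, sg W) := by
      intro T
      induction T using Finset.induction_on with
      | empty => simp
      | insert W T hW ih => rw [prod_insert hW, sum_insert hW, ih, zpow_add₀ hs0]
    rw [h3, cl_sum_sg hm, zpow_zero]
  rw [prod_congr rfl fun W _ => h1 W, prod_mul_distrib, h2, one_mul]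
  rfl

/-- (6.2), quotient form: even product `= uval` times odd product. -/
theorem cl_prod_even_Nv (hm : 1 ≤ m) {s n : ℕ} (hs : 1 ≤ s) (hn : 1 ≤ n) (k : Fin m → ℕ) :
    ∏ W : Finset (Fin m) with Even W.card, ((Nv s n k W : ℕ) : ℚ) =
      uval n k * ∏ W : Finset (Fin m) with ¬ Even W.card, ((Nv s n k W : ℕ) : ℚ) := by
  rw [← cl_prod_Nv hm hs n k]
  rw [← prod_filter_mul_prod_filter_not univ (fun W : Finset (Fin m) => Even W.card)
    (fun W => ((Nv s n k W : ℕ) : ℚ) ^ sg W), mul_assoc, ← prod_mul_distrib]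
  have h1 : ∀ W ∈ ({W : Finset (Fin m) | ¬ Even W.card} : Finset (Finset (Fin m))),
      ((Nv s n k W : ℕ) : ℚ) ^ sg W * ((Nv s n k W : ℕ) : ℚ) = 1 := by
    intro W hW
    rw [mem_filter] at hW
    have h2 : sg W = -1 := by
      unfold sg
      exact (Nat.not_even_iff_odd.1 hW.2).neg_one_pow
    have h3 : ((Nv s n k W : ℕ) : ℚ) ≠ 0 := by
      have := cl_Nv_pos k W hs hn
      have h4 : Nv s n k W ≠ 0 := by omega
      exact_mod_cast h4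
    rw [h2, zpow_neg_one, inv_mul_cancel₀ h3]
  rw [prod_congr rfl h1, prod_const_one, mul_one]
  refine prod_congr rfl fun W hW => ?_
  rw [mem_filter] at hW
  have h2 : sg W = 1 := by
    unfold sg
    exact hW.2.neg_one_pow
  rw [h2, zpow_one]

/-- (6.3) A cell determines its vertices. -/
theorem cl_Nv_inj {s n : ℕ} (hs : 1 ≤ s) {k : Fin m → ℕ} (hk : Function.Injective (ssum k))
    {W W' : Finset (Fin m)} (h : Nv s n k W = Nv s n k W') : W = W' := by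
  unfold Nv at h
  have h1 := Nat.eq_of_mul_eq_mul_left (by omega) h
  exact hk (by omega)

theorem cl_vtx_inj {j : Fin (m + 1)} {s n : ℕ} (hs : 1 ≤ s) {k : Fin m → ℕ}
    (hk : Function.Injective (ssum k)) {y y' : ℤ} {W W' : Finset (Fin m)}
    (h : vtx j n k s y W = vtx j n k s y' W') : y = y' ∧ W = W' := by
  have h1 : (Nv s n k W : ℤ) = Nv s n k W' := by
    rw [← cl_L_vtx_self j n k s y W, ← cl_L_vtx_self j n k s y' W', h]
  have h2 : W = W' := cl_Nv_inj hs hk (by exact_mod_cast h1)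
  subst h2
  refine ⟨?_, rfl⟩
  have h3 : yv j s k y W = yv j s k y' W := congrArg Prod.snd h
  rw [cl_yv_eq, cl_yv_eq j s k y'] at h3
  linarith

/-- The gcd of a vertex. -/
theorem cl_gcd_vtx (j : Fin (m + 1)) (n : ℕ) (k : Fin m → ℕ) (s : ℕ) (y : ℤ)
    (W : Finset (Fin m)) :
    Int.gcd (vtx j n k s y W).1 (vtx j n k s y W).2 = Int.gcd (Nv s n k W : ℤ) (yv j s k y W) := by
  unfold vtx
  rw [sub_eq_add_neg, ← neg_mul, Int.gcd_comm, Int.gcd_comm (Nv s n k W : ℤ)]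
  simp

end Pool.Agent.Lib.MP_176ace_nt.Gr
end

section

set_option autoImplicit false

/-!
# Cell2: inequalities between the parameters; the vertices lie in `V` and have weight `1/2`
-/

namespace Pool.Agent.Lib.MP_176ace_nt.Gr

open Finset

namespace Par

variable {m : ℕ} (P : Par m)

theorem cl_m_pos (P : Par m) : 1 ≤ m := by
  have := P.hm
  omega

theorem cl_K6_eq : P.K6 = 8 * (2 + 4 ^ m * (P.M2 + 1)) := rfl

theorem cl_K6_pos : 1 ≤ P.K6 := by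
  rw [cl_K6_eq]
  omega

theorem cl_M2_pos : 1 ≤ P.M2 := Nat.mul_pos P.cl_m_pos P.D.M1_pos

theorem cl_ineq1 : 10 ^ 6 * m ^ 3 * 4 ^ m * P.K6 ≤ P.b := by
  refine le_trans ?_ P.hb
  calc 10 ^ 6 * m ^ 3 * 4 ^ m * P.K6
      = 10 ^ 6 * m ^ 3 * 4 ^ m * (8 * (2 + 4 ^ m * (m * P.D.M1 + 1))) * 1 * 1 * 1 * 1 := by
        unfold K6; ring
    _ ≤ 10 ^ 6 * m ^ 3 * 4 ^ m * (8 * (2 + 4 ^ m * (m * P.D.M1 + 1))) * (P.D.M1 + 1) * (P.D0 + 1) *
    (P.D.N0 + 1) * (P.D.Q0 + 1) := by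
        gcongr <;> omega

theorem cl_ineq2 : 10 ^ 6 * 4 ^ m * m * (P.D0 + 1) ≤ P.b := by
  refine le_trans ?_ P.hb
  have h1 : m ≤ m ^ 3 := Nat.le_self_pow (by norm_num) m
  calc 10 ^ 6 * 4 ^ m * m * (P.D0 + 1)
      = 10 ^ 6 * m * 4 ^ m * 1 * 1 * (P.D0 + 1) * 1 * 1 := by ring
    _ ≤ 10 ^ 6 * m ^ 3 * 4 ^ m * (8 * (2 + 4 ^ m * (m * P.D.M1 + 1))) * (P.D.M1 + 1) * (P.D0 + 1) *
    (P.D.N0 + 1) * (P.D.Q0 + 1) := by
        gcongr <;> omega

theorem cl_ineq3 : 10 ^ 6 * (P.D.N0 + 1) ≤ P.b := by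
  refine le_trans ?_ P.hb
  have h1 : 1 ≤ m ^ 3 := Nat.one_le_pow _ _ P.cl_m_pos
  have h2 : 1 ≤ 4 ^ m := Nat.one_le_pow _ _ (by norm_num)
  calc 10 ^ 6 * (P.D.N0 + 1)
      = 10 ^ 6 * 1 * 1 * 1 * 1 * 1 * (P.D.N0 + 1) * 1 := by ring
    _ ≤ 10 ^ 6 * m ^ 3 * 4 ^ m * (8 * (2 + 4 ^ m * (m * P.D.M1 + 1))) * (P.D.M1 + 1) * (P.D0 + 1) *
    (P.D.N0 + 1) * (P.D.Q0 + 1) := by
        gcongr <;> omega

theorem cl_ineq4 : 10 ^ 6 * m ^ 3 * 4 ^ m * (P.M2 + 2) ≤ P.b := by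
  refine le_trans ?_ P.cl_ineq1
  have h2 : 1 ≤ 4 ^ m := Nat.one_le_pow _ _ (by norm_num)
  refine Nat.mul_le_mul_left _ ?_
  rw [cl_K6_eq]
  have h3 : 1 * (P.M2 + 1) ≤ 4 ^ m * (P.M2 + 1) := Nat.mul_le_mul_right _ h2
  omega

theorem cl_ineq5 : 10 ^ 6 * m * (P.M2 + 2) ≤ P.b := by
  refine le_trans ?_ P.cl_ineq4
  have h2 : 1 ≤ 4 ^ m := Nat.one_le_pow _ _ (by norm_num)
  have h1 : m ≤ m ^ 3 := Nat.le_self_pow (by norm_num) m
  calc 10 ^ 6 * m * (P.M2 + 2) = 10 ^ 6 * m * 1 * (P.M2 + 2) := by ring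
    _ ≤ 10 ^ 6 * m ^ 3 * 4 ^ m * (P.M2 + 2) := by gcongr

theorem cl_ineq6 : 10 ^ 6 * m ≤ P.b := by
  refine le_trans ?_ P.cl_ineq5
  exact Nat.le_mul_of_pos_right _ (by omega)

theorem cl_ineq7 : 10 ^ 6 * (P.M2 + 2) ≤ P.b := by
  refine le_trans ?_ P.cl_ineq5
  have := P.cl_m_pos
  calc 10 ^ 6 * (P.M2 + 2) = 10 ^ 6 * 1 * (P.M2 + 2) := by ring
    _ ≤ 10 ^ 6 * m * (P.M2 + 2) := by gcongr

theorem cl_ineq8 : 10 ^ 6 ≤ P.b := by
  refine le_trans ?_ P.cl_ineq7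
  exact Nat.le_mul_of_pos_right _ (by omega)

theorem cl_b_pos : 1 ≤ P.b := by
  have := P.cl_ineq8
  omega

theorem cl_pow_le {i j : ℕ} (h : i ≤ j) : P.b ^ i ≤ P.b ^ j := Nat.pow_le_pow_right P.cl_b_pos h

theorem cl_D0_le : P.D0 ≤ P.b := by
  have h := P.cl_ineq2
  have h2 : 1 ≤ 4 ^ m := Nat.one_le_pow _ _ (by norm_num)
  have h1 := P.cl_m_pos
  calc P.D0 ≤ 1 * 1 * 1 * (P.D0 + 1) := by omega
    _ ≤ 10 ^ 6 * 4 ^ m * m * (P.D0 + 1) := by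
        gcongr
        norm_num
    _ ≤ P.b := h

/-- `m * B1 ≤ b ^ 4`, `m * B0 + m * B1 ≤ b ^ 26`. -/
theorem cl_rows_le : m * P.B0 + m * P.B1 ≤ P.b ^ 26 := by
  have h1 := P.cl_ineq6
  have h2 : P.B1 ≤ P.B0 := P.cl_pow_le (by norm_num)
  calc m * P.B0 + m * P.B1 ≤ m * P.B0 + m * P.B0 := by gcongr
    _ = (2 * m) * P.B0 := by ring
    _ ≤ P.b * P.B0 := Nat.mul_le_mul_right _ (by omega)
    _ = P.b ^ 26 := by unfold B0; ring

theorem cl_pow26_le : 10 ^ 6 * P.b ^ 26 ≤ P.Y := by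
  have h1 := P.cl_ineq8
  calc 10 ^ 6 * P.b ^ 26 ≤ P.b * P.b ^ 26 := Nat.mul_le_mul_right _ h1
    _ = P.b ^ 27 := by ring
    _ ≤ P.b ^ 30 := P.cl_pow_le (by norm_num)

theorem cl_Y1_add : P.Y1 + m * P.B1 = P.Y := by
  unfold Y1
  have h1 := P.cl_rows_le
  have h2 := P.cl_pow26_le
  omega

theorem cl_Y1_cast : (P.Y1 : ℤ) = (P.Y : ℤ) - (m : ℤ) * P.B1 := by
  have h := P.cl_Y1_add
  have h2 : ((P.Y1 + m * P.B1 : ℕ) : ℤ) = (P.Y : ℤ) := by rw [h]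
  push_cast at h2
  linarith

/-- `m * Y` is tiny compared with `X`. -/
theorem cl_mY_le : 10 ^ 6 * (m * P.Y) ≤ P.b ^ 31 := by
  have h1 := P.cl_ineq6
  calc 10 ^ 6 * (m * P.Y) = 10 ^ 6 * m * P.b ^ 30 := by unfold Y; ring
    _ ≤ P.b * P.b ^ 30 := Nat.mul_le_mul_right _ h1
    _ = P.b ^ 31 := by ring

theorem cl_X_big : 10 ^ 6 * P.b ^ 89 ≤ P.X := by
  have h1 := P.cl_ineq8
  calc 10 ^ 6 * P.b ^ 89 ≤ P.b * P.b ^ 89 := Nat.mul_le_mul_right _ h1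
    _ = P.b ^ 90 := by ring

theorem cl_Ptop_add : P.Ptop + 2 * (m * P.Y) = P.X := by
  unfold Ptop
  have h1 := P.cl_mY_le
  have h2 : P.b ^ 31 ≤ P.b ^ 89 := P.cl_pow_le (by norm_num)
  have h3 := P.cl_X_big
  rw [mul_assoc]
  omega

/-! ### shapes and requests -/

theorem cl_shape_of_mem {i : ℕ ⊕ ℕ} (hi : i ∈ P.idx) : Shape m P.D.M1 (P.kx i) := by
  unfold idx at hi
  rw [mem_union, mem_image, mem_image] at hi
  rcases hi with ⟨n, hn, rfl⟩ | ⟨p, hp, rfl⟩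
  · exact P.D.shape_kap
  · rw [mem_filter] at hp
    exact P.D.shape_kp p hp.2.1 hp.2.2

theorem cl_nOf_pos {i : ℕ ⊕ ℕ} (hi : i ∈ P.idx) : 1 ≤ nOf i := by
  unfold idx at hi
  rw [mem_union, mem_image, mem_image] at hi
  rcases hi with ⟨n, hn, rfl⟩ | ⟨p, hp, rfl⟩
  · exact (mem_Icc.1 hn).1
  · rw [mem_filter] at hp
    exact (mem_Icc.1 hp.1).1

theorem cl_nOf_le {i : ℕ ⊕ ℕ} (hi : i ∈ P.idx) : nOf i ≤ P.Ptop := by
  unfold idx at hi
  rw [mem_union, mem_image, mem_image] at hi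
  rcases hi with ⟨n, hn, rfl⟩ | ⟨p, hp, rfl⟩
  · have h1 := (mem_Icc.1 hn).2
    have h2 := P.cl_ineq3
    have h3 := P.cl_Ptop_add
    have h4 := P.cl_mY_le
    have h5 : P.b ^ 31 ≤ P.b ^ 89 := P.cl_pow_le (by norm_num)
    have h6 := P.cl_X_big
    have h7 : P.b ^ 1 ≤ P.b ^ 89 := P.cl_pow_le (by norm_num)
    rw [pow_one] at h7
    change n ≤ P.Ptop
    omega
  · rw [mem_filter] at hp
    exact (mem_Icc.1 hp.1).2

/-- An index beyond `2X/3` is of prime type. -/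
theorem cl_prime_of_special {i : ℕ ⊕ ℕ} (hi : i ∈ P.idx) (h : 2 * P.X < 3 * nOf i) :
    ∃ p, i = Sum.inr p ∧ p.Prime ∧ P.D.Q0 < p ∧ p ≤ P.Ptop := by
  unfold idx at hi
  rw [mem_union, mem_image, mem_image] at hi
  rcases hi with ⟨n, hn, rfl⟩ | ⟨p, hp, rfl⟩
  · exfalso
    have h1 := (mem_Icc.1 hn).2
    have h2 := P.cl_ineq3
    have h6 := P.cl_X_big
    have h7 : P.b ^ 1 ≤ P.b ^ 89 := P.cl_pow_le (by norm_num)
    rw [pow_one] at h7
    change 2 * P.X < 3 * n at h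
    omega
  · rw [mem_filter] at hp
    exact ⟨p, rfl, hp.2.1, hp.2.2, (mem_Icc.1 hp.1).2⟩

variable {P}

theorem cl_mem_R {ρ : Req m} (h : ρ ∈ P.R) : ρ.1 ≠ 0 ∧ ρ.2.1 ∈ P.idx ∧ 1 ≤ ρ.2.2 ∧
    ρ.2.2 ≤ P.b ^ 14 ∧ ρ.2.2 ≤ P.smax ρ.2.1 := by
  unfold R at h
  rw [mem_filter, mem_product, mem_product, mem_Icc] at h
  exact ⟨h.2.1, h.1.2.1, h.1.2.2.1, h.1.2.2.2, h.2.2⟩

theorem cl_lab_bounds {ρ : Req m} (h : ρ ∈ P.R) : 1 ≤ (ρ.1 : ℕ) ∧ (ρ.1 : ℕ) ≤ m := by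
  have h1 := (cl_mem_R h).1
  have h2 := ρ.1.is_lt
  refine ⟨?_, by omega⟩
  rw [Nat.one_le_iff_ne_zero]
  intro h0
  exact h1 (Fin.ext h0)

theorem cl_NW_pos {ρ : Req m} (h : ρ ∈ P.R) (W : Finset (Fin m)) : 1 ≤ P.NW ρ W :=
  cl_Nv_pos _ W (cl_mem_R h).2.2.1 (P.cl_nOf_pos (cl_mem_R h).2.1)

/-- `N_W` in terms of `n_i`. -/
theorem cl_NW_bounds {ρ : Req m} (h : ρ ∈ P.R) (W : Finset (Fin m)) :
    ρ.2.2 * nOf ρ.2.1 ≤ P.NW ρ W ∧ P.NW ρ W ≤ ρ.2.2 * nOf ρ.2.1 + ρ.2.2 * P.M2 := by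
  have h1 := (P.cl_shape_of_mem (cl_mem_R h).2.1).le
  have h2 := cl_ssum_le _ h1 W
  unfold NW Nv
  rw [mul_add]
  refine ⟨Nat.le_add_right _ _, ?_⟩
  exact Nat.add_le_add_left (Nat.mul_le_mul_left _ h2) _

/-- The scale is `1` for large indices. -/
theorem cl_scale_one {ρ : Req m} (h : ρ ∈ P.R) (hn : P.b ^ 74 < nOf ρ.2.1) : ρ.2.2 = 1 := by
  have h1 := cl_mem_R h
  have h2 := h1.2.2.2.2
  unfold smax at h2
  rw [if_neg (by omega)] at h2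
  omega

theorem cl_sM2_le {ρ : Req m} (h : ρ ∈ P.R) : 10 ^ 6 * (ρ.2.2 * P.M2) ≤ P.b ^ 15 := by
  have h1 := P.cl_ineq7
  calc 10 ^ 6 * (ρ.2.2 * P.M2) = ρ.2.2 * (10 ^ 6 * P.M2) := by ring
    _ ≤ P.b ^ 14 * P.b := Nat.mul_le_mul (cl_mem_R h).2.2.2.1 (by omega)
    _ = P.b ^ 15 := by ring

theorem cl_pow74_lt : 10 ^ 6 * P.b ^ 74 ≤ P.X := by
  have h1 := P.cl_X_big
  have h2 : P.b ^ 74 ≤ P.b ^ 89 := P.cl_pow_le (by norm_num)
  omega

/-- `N_W ≤ 3X/4` for normal requests. -/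
theorem cl_NW_le_normal {ρ : Req m} (h : ρ ∈ P.R) (hn : 3 * nOf ρ.2.1 ≤ 2 * P.X)
    (W : Finset (Fin m)) : 4 * P.NW ρ W ≤ 3 * P.X := by
  have h1 := (cl_NW_bounds h W).2
  have h2 := cl_sM2_le h
  have h3 := P.cl_X_big
  have h4 : P.b ^ 15 ≤ P.b ^ 89 := P.cl_pow_le (by norm_num)
  by_cases h5 : nOf ρ.2.1 ≤ P.b ^ 74
  · have h6 : ρ.2.2 * nOf ρ.2.1 ≤ P.b ^ 14 * P.b ^ 74 :=
      Nat.mul_le_mul (cl_mem_R h).2.2.2.1 h5
    have h7 : P.b ^ 14 * P.b ^ 74 ≤ P.b ^ 89 := by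
      rw [← pow_add]
      exact P.cl_pow_le (by norm_num)
    omega
  · have h6 := cl_scale_one h (by omega)
    rw [h6, one_mul, one_mul] at h1
    rw [h6, one_mul] at h2
    omega

theorem cl_NW_le {ρ : Req m} (h : ρ ∈ P.R) (W : Finset (Fin m)) : P.NW ρ W ≤ P.X := by
  by_cases hn : 3 * nOf ρ.2.1 ≤ 2 * P.X
  · have := cl_NW_le_normal h hn W
    omega
  · have h1 := (cl_NW_bounds h W).2
    have h0 := @cl_pow74_lt m P
    have h6 := cl_scale_one h (by omega)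
    have h2 := cl_sM2_le h
    rw [h6, one_mul, one_mul] at h1
    rw [h6, one_mul] at h2
    have h3 := P.cl_nOf_le (cl_mem_R h).2.1
    have h4 := P.cl_Ptop_add
    have h5 : P.b ^ 15 ≤ P.b ^ 30 := P.cl_pow_le (by norm_num)
    have h7 : P.Y ≤ m * P.Y := Nat.le_mul_of_pos_left _ P.cl_m_pos
    have h8 : P.Y = P.b ^ 30 := rfl
    omega

/-! ### rows -/

/-- Rows of candidates. -/
theorem cl_row_bounds {ρ : Req m} (h : ρ ∈ P.R) {y : ℤ}
    (hy : y ∈ Ioc (P.lo ρ.1 ρ.2.1) (P.lo ρ.1 ρ.2.1 + P.len ρ.2.1)) :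
    (P.Y1 : ℤ) - m * P.B0 < y ∧ y ≤ P.Y ∧ (3 * nOf ρ.2.1 ≤ 2 * P.X → y ≤ P.Y1) ∧
      (2 * P.X < 3 * nOf ρ.2.1 → (P.Y1 : ℤ) < y) := by
  rw [mem_Ioc] at hy
  obtain ⟨h1, h2⟩ := cl_lab_bounds h
  have h1' : (1 : ℤ) ≤ ((ρ.1 : ℕ) : ℤ) := by exact_mod_cast h1
  have h2' : ((ρ.1 : ℕ) : ℤ) ≤ (m : ℤ) := by exact_mod_cast h2
  have hY := P.cl_Y1_cast
  have hB0 : (0 : ℤ) ≤ P.B0 := Int.natCast_nonneg _
  have hB1 : (0 : ℤ) ≤ P.B1 := Int.natCast_nonneg _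
  have hm0 : (0 : ℤ) ≤ (m : ℤ) := Int.natCast_nonneg _
  unfold lo len at hy
  by_cases hn : 3 * nOf ρ.2.1 ≤ 2 * P.X
  · rw [if_pos hn, if_pos hn] at hy
    have h3 : (0 : ℤ) ≤ ((m : ℤ) - ((ρ.1 : ℕ) : ℤ)) * P.B0 := mul_nonneg (by linarith) hB0
    have h4 : (0 : ℤ) ≤ (((ρ.1 : ℕ) : ℤ) - 1) * P.B0 := mul_nonneg (by linarith) hB0
    have h5 : (0 : ℤ) ≤ (m : ℤ) * P.B1 := mul_nonneg hm0 hB1
    refine ⟨by nlinarith [hy.1], by nlinarith [hy.2], fun _ => by nlinarith [hy.2], fun h6 => by omega⟩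
  · rw [if_neg hn, if_neg hn] at hy
    have h3 : (0 : ℤ) ≤ ((m : ℤ) - ((ρ.1 : ℕ) : ℤ)) * P.B1 := mul_nonneg (by linarith) hB1
    have h4 : (0 : ℤ) ≤ (((ρ.1 : ℕ) : ℤ) - 1) * P.B1 := mul_nonneg (by linarith) hB1
    have h5 : (0 : ℤ) ≤ (m : ℤ) * P.B0 := mul_nonneg hm0 hB0
    refine ⟨by nlinarith [hy.1], by nlinarith [hy.2], fun h6 => by omega, fun h6 => by nlinarith [hy.1]⟩

theorem cl_mem_Cand {ρ : Req m} {y : ℤ} (hy : y ∈ P.Cand ρ) :
    y ∈ Ioc (P.lo ρ.1 ρ.2.1) (P.lo ρ.1 ρ.2.1 + P.len ρ.2.1) ∧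
    ∀ W, (P.vx ρ y W).2 ∈ Ioc (P.lo ρ.1 ρ.2.1) (P.lo ρ.1 ρ.2.1 + P.len ρ.2.1) ∧
      Int.gcd (P.vx ρ y W).1 (P.vx ρ y W).2 < P.b ^ 3 ∧
      (2 * P.X < 3 * nOf ρ.2.1 → ¬ P.Exc (P.vx ρ y W)) := by
  classical
  unfold Cand at hy
  exact mem_filter.1 hy

/-- The abscissa of a vertex. -/
theorem cl_vx_fst_bounds {ρ : Req m} (h : ρ ∈ P.R) {y : ℤ} (hy : y ∈ P.Cand ρ)
    (W : Finset (Fin m)) : -((m : ℤ) * P.Y) ≤ (P.vx ρ y W).1 ∧
      (P.vx ρ y W).1 ≤ (P.NW ρ W : ℤ) := by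
  have h1 := ((cl_mem_Cand hy).2 W).1
  obtain ⟨h2, h3, -, -⟩ := cl_row_bounds h h1
  have h4 : (P.vx ρ y W).1 = (P.NW ρ W : ℤ) - ((ρ.1 : ℕ) : ℤ) * (P.vx ρ y W).2 := rfl
  obtain ⟨h5, h6⟩ := cl_lab_bounds h
  have h5' : (1 : ℤ) ≤ ((ρ.1 : ℕ) : ℤ) := by exact_mod_cast h5
  have h6' : ((ρ.1 : ℕ) : ℤ) ≤ (m : ℤ) := by exact_mod_cast h6
  have hpos : (0 : ℤ) < (P.vx ρ y W).2 := by
    have h7 := P.cl_rows_le
    have h8 := P.cl_pow26_le
    have h9 := P.cl_Y1_add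
    have h10 : m * P.B0 < P.Y1 := by
      have : 1 ≤ P.b ^ 26 := Nat.one_le_pow _ _ P.cl_b_pos
      omega
    have h11 : (m : ℤ) * P.B0 < P.Y1 := by exact_mod_cast h10
    linarith
  rw [h4]
  have h7 : (0 : ℤ) ≤ (P.NW ρ W : ℤ) := Int.natCast_nonneg _
  have h8 : (0 : ℤ) ≤ ((ρ.1 : ℕ) : ℤ) * (P.vx ρ y W).2 := mul_nonneg (by linarith) hpos.le
  have h9 : ((ρ.1 : ℕ) : ℤ) * (P.vx ρ y W).2 ≤ (m : ℤ) * P.Y :=
    mul_le_mul h6' h3 hpos.le (by linarith)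
  constructor <;> linarith

/-- The vertices of candidates are points. -/
theorem cl_vx_mem_V {ρ : Req m} (h : ρ ∈ P.R) {y : ℤ} (hy : y ∈ P.Cand ρ)
    (W : Finset (Fin m)) : P.vx ρ y W ∈ P.V := by
  have h1 := (cl_mem_Cand hy).2 W
  obtain ⟨h2, h3, -, -⟩ := cl_row_bounds h h1.1
  obtain ⟨h4, h5⟩ := cl_vx_fst_bounds h hy W
  have h6 := cl_NW_le h W
  unfold V
  rw [mem_filter, mem_product, mem_Icc, mem_Ioc]
  have h7 : (P.NW ρ W : ℤ) ≤ P.X := by exact_mod_cast h6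
  have h8 := P.cl_mY_le
  have h9 : P.b ^ 31 ≤ P.b ^ 90 := P.cl_pow_le (by norm_num)
  have h10 : m * P.Y ≤ P.X := by
    have : P.X = P.b ^ 90 := rfl
    omega
  have h11 : (m : ℤ) * P.Y ≤ P.X := by exact_mod_cast h10
  have h12 := P.cl_rows_le
  have h13 := P.cl_Y1_add
  have h14 : P.Y ≤ P.Y1 - m * P.B0 + P.b ^ 26 := by omega
  have h15 : (P.Y : ℤ) - P.b ^ 26 ≤ (P.Y1 : ℤ) - m * P.B0 := by
    have h16 : P.Y + m * P.B0 ≤ P.Y1 + P.b ^ 26 := by omega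
    have h17 : (P.Y : ℤ) + m * P.B0 ≤ P.Y1 + (P.b : ℤ) ^ 26 := by exact_mod_cast h16
    linarith
  exact ⟨⟨⟨by linarith, by linarith⟩, ⟨by linarith, h3⟩⟩, h1.2.1⟩

theorem cl_X_pos : 0 < P.X := Nat.pow_pos P.cl_b_pos

theorem cl_psi_eq_one {t : ℤ} (h : 4 * |t| ≤ 3 * (P.X : ℤ)) : P.psi t = 1 := by
  unfold psi
  apply min_eq_left
  apply le_max_of_le_right
  have hX : (0 : ℝ) < P.X := by exact_mod_cast (cl_X_pos : 0 < P.X)
  have h1 : 4 * |(t : ℝ)| ≤ 3 * (P.X : ℝ) := by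
    have h2 : ((4 * |t| : ℤ) : ℝ) ≤ ((3 * (P.X : ℤ) : ℤ) : ℝ) := by exact_mod_cast h
    push_cast at h2
    exact h2
  have h2 : 8 * |(t : ℝ)| / P.X ≤ 6 := by
    rw [div_le_iff₀ hX]
    linarith
  linarith

/-- The vertices of candidates have weight `1/2`. -/
theorem cl_w_vx {ρ : Req m} (h : ρ ∈ P.R) {y : ℤ} (hy : y ∈ P.Cand ρ)
    (W : Finset (Fin m)) {r : ℕ} (hr : m * P.B0 ≤ r) (θ : ℝ) :
    P.w r θ (P.vx ρ y W) = 1 / 2 := by
  have h1 := (cl_mem_Cand hy).2 W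
  obtain ⟨h2, h3, h4, h5⟩ := cl_row_bounds h h1.1
  unfold w
  by_cases hn : 3 * nOf ρ.2.1 ≤ 2 * P.X
  · have h6 := h4 hn
    have hr' : (m : ℤ) * P.B0 ≤ (r : ℤ) := by exact_mod_cast hr
    rw [if_neg (by linarith), if_pos (by linarith), cl_psi_eq_one]
    obtain ⟨h7, h8⟩ := cl_vx_fst_bounds h hy W
    have h9 := cl_NW_le_normal h hn W
    have h9' : 4 * (P.NW ρ W : ℤ) ≤ 3 * P.X := by exact_mod_cast h9
    have h10 := P.cl_mY_le
    have h11 : P.b ^ 31 ≤ P.b ^ 90 := P.cl_pow_le (by norm_num)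
    have h12 : 4 * (m * P.Y) ≤ 3 * P.X := by
      have : P.X = P.b ^ 90 := rfl
      omega
    have h12' : 4 * ((m : ℤ) * P.Y) ≤ 3 * P.X := by exact_mod_cast h12
    have h13 : |(P.vx ρ y W).1| ≤ max ((m : ℤ) * P.Y) (P.NW ρ W : ℤ) := by
      rw [abs_le]
      constructor
      · have := le_max_left ((m : ℤ) * P.Y) (P.NW ρ W : ℤ)
        linarith
      · exact h8.trans (le_max_right _ _)
    rcases max_cases ((m : ℤ) * P.Y) (P.NW ρ W : ℤ) with h14 | h14 <;> rw [h14.1] at h13 <;> linarith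
  · rw [if_pos (h5 (by omega)), if_neg (h1.2.2 (by omega))]

end Par

end Pool.Agent.Lib.MP_176ace_nt.Gr
end
end

section

section

set_option autoImplicit false

/-!
# Grdy: greedy choice (paper 221, 3.4)

Proof. Induction on `R` (`Finset.induction_on`): for `insert ρ R'` take the choice for `R'` (its hypothesis follows from
the one for `insert ρ R'`). The candidates of `ρ` that conflict with a chosen candidate of some `ρ' ∈ R'` are at most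
`∑_{ρ' ∈ R'} h ρ' * c ρ ρ'`, so at least `h ρ` candidates are left: choose `h ρ` of them
(`Finset.exists_subset_card_eq`). Note that only conflicts between different requests matter; `conf` is symmetric.
-/

namespace Pool.Agent.Lib.MP_176ace_nt.Gr

open Finset

theorem greedy {α β : Type*} [DecidableEq α] [DecidableEq β] (R : Finset α)
    (Cand : α → Finset β) (h : α → ℕ) (c : α → α → ℕ) (conf : α → β → α → β → Prop)
    (hsymm : ∀ ρ x ρ' x', conf ρ x ρ' x' → conf ρ' x' ρ x)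
    (hc : ∀ ρ ∈ R, ∀ ρ' ∈ R, ρ ≠ ρ' → ∀ x' ∈ Cand ρ',
      Set.ncard {x | x ∈ Cand ρ ∧ conf ρ x ρ' x'} ≤ c ρ ρ')
    (hcard : ∀ ρ ∈ R, h ρ + ∑ ρ' ∈ R.erase ρ, c ρ ρ' * h ρ' ≤ #(Cand ρ)) :
    ∃ Ch : α → Finset β, (∀ ρ ∈ R, Ch ρ ⊆ Cand ρ ∧ #(Ch ρ) = h ρ) ∧
      ∀ ρ ∈ R, ∀ ρ' ∈ R, ρ ≠ ρ' → ∀ x ∈ Ch ρ, ∀ x' ∈ Ch ρ', ¬ conf ρ x ρ' x' := by
  classical
  induction R using Finset.induction_on with
  | empty => exact ⟨fun _ => ∅, by simp, by simp⟩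
  | insert r R' hr ih =>
    obtain ⟨Ch, h1, h2⟩ := ih
      (fun ρ hρ ρ' hρ' => hc ρ (mem_insert_of_mem hρ) ρ' (mem_insert_of_mem hρ'))
      (fun ρ hρ => by
        refine le_trans ?_ (hcard ρ (mem_insert_of_mem hρ))
        have hsub : R'.erase ρ ⊆ (insert r R').erase ρ := erase_subset_erase _ (subset_insert _ _)
        exact Nat.add_le_add_left (sum_le_sum_of_subset hsub) _)
    have herase : (insert r R').erase r = R' := erase_insert hr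
    set Bad : Finset β := R'.biUnion fun ρ' => (Ch ρ').biUnion fun x' =>
      {x ∈ Cand r | conf r x ρ' x'} with hBad
    have hBcard : #Bad ≤ ∑ ρ' ∈ R', c r ρ' * h ρ' := by
      refine card_biUnion_le.trans (sum_le_sum fun ρ' hρ' => ?_)
      refine card_biUnion_le.trans ?_
      have h3 : ∀ x' ∈ Ch ρ', #{x ∈ Cand r | conf r x ρ' x'} ≤ c r ρ' := by
        intro x' hx'
        have h4 := hc r (mem_insert_self _ _) ρ' (mem_insert_of_mem hρ')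
          (by rintro rfl; exact hr hρ') x' ((h1 ρ' hρ').1 hx')
        rw [← Set.ncard_coe_finset]
        convert h4 using 2
        ext x
        simp
      refine (sum_le_card_nsmul _ _ _ h3).trans ?_
      rw [(h1 ρ' hρ').2, smul_eq_mul, mul_comm]
    have hleft : h r ≤ #(Cand r \ Bad) := by
      have h3 := hcard r (mem_insert_self _ _)
      rw [herase] at h3
      have h4 := le_card_sdiff Bad (Cand r)
      omega
    obtain ⟨T, hT, hTc⟩ := exists_subset_card_eq hleft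
    have hne : ∀ ρ ∈ R', ρ ≠ r := by
      rintro ρ hρ rfl
      exact hr hρ
    have hup : ∀ ρ ∈ R', Function.update Ch r T ρ = Ch ρ := fun ρ hρ =>
      Function.update_of_ne (hne ρ hρ) _ _
    have hself : Function.update Ch r T r = T := Function.update_self _ _ _
    have hno : ∀ ρ' ∈ R', ∀ x ∈ T, ∀ x' ∈ Ch ρ', ¬ conf r x ρ' x' := by
      intro ρ' hρ' x hx x' hx' hcf
      have h3 := hT hx
      rw [mem_sdiff] at h3
      apply h3.2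
      rw [hBad, mem_biUnion]
      refine ⟨ρ', hρ', ?_⟩
      rw [mem_biUnion]
      refine ⟨x', hx', ?_⟩
      rw [mem_filter]
      exact ⟨h3.1, hcf⟩
    refine ⟨Function.update Ch r T, ?_, ?_⟩
    · intro ρ hρ
      rcases mem_insert.1 hρ with rfl | hρ'
      · rw [hself]
        exact ⟨hT.trans sdiff_subset, hTc⟩
      · rw [hup ρ hρ']
        exact h1 ρ hρ'
    · intro ρ hρ ρ' hρ' hne' x hx x' hx' hcf
      rcases mem_insert.1 hρ with rfl | hρR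
      · rcases mem_insert.1 hρ' with rfl | hρR'
        · exact hne' rfl
        · rw [hself] at hx
          rw [hup ρ' hρR'] at hx'
          exact hno ρ' hρR' x hx x' hx' hcf
      · rcases mem_insert.1 hρ' with rfl | hρR'
        · rw [hself] at hx'
          rw [hup ρ hρR] at hx
          exact hno ρ hρR x' hx' x hx (hsymm _ _ _ _ hcf)
        · rw [hup ρ hρR] at hx
          rw [hup ρ' hρR'] at hx'
          exact h2 ρ hρR ρ' hρR' hne' x hx x' hx' hcf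

end Pool.Agent.Lib.MP_176ace_nt.Gr
end

section

set_option autoImplicit false

/-!
# Cell3: the number of candidates
-/

namespace Pool.Agent.Lib.MP_176ace_nt.Gr

open Finset

variable {m : ℕ}

theorem cl_card_dvd_le (lo : ℤ) (N c : ℕ) (hc : 1 ≤ c) (t : ℤ) :
    #{y ∈ Ioc lo (lo + N) | (c : ℤ) ∣ y + t} ≤ N / c + 1 := by
  have h1 : #{y ∈ Ioc lo (lo + N) | (c : ℤ) ∣ y + t} =
      #{y ∈ Ioc lo (lo + N) | y ≡ -t [ZMOD (c : ℤ)]} := by
    congr 1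
    ext y
    simp only [mem_filter, and_congr_right_iff]
    intro _
    rw [Int.modEq_comm, Int.modEq_iff_dvd]
    simp
  have hc0 : (0 : ℤ) < c := by exact_mod_cast hc
  rw [h1]
  have h2 := Int.Ioc_filter_modEq_card lo (lo + N) hc0 (-t)
  have hcq : (0 : ℚ) < (c : ℚ) := by exact_mod_cast hc
  obtain ⟨q, hq⟩ : ∃ q, q = N / c := ⟨_, rfl⟩
  have h8 : N < (q + 1) * c := by
    have h8 := Nat.lt_div_mul_add (a := N) (b := c) (by omega)
    rw [add_mul, one_mul, hq]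
    exact h8
  rw [← hq]
  have h3 : ⌊(((lo + N : ℤ) : ℚ) - ((-t : ℤ) : ℚ)) / ((c : ℤ) : ℚ)⌋ -
      ⌊((lo : ℚ) - ((-t : ℤ) : ℚ)) / ((c : ℤ) : ℚ)⌋ ≤ ((q + 1 : ℕ) : ℤ) := by
    have h4 : (((lo + N : ℤ) : ℚ) - ((-t : ℤ) : ℚ)) / ((c : ℤ) : ℚ) =
      ((lo : ℚ) - ((-t : ℤ) : ℚ)) / ((c : ℤ) : ℚ) + (N : ℚ) / (c : ℚ) := by
      rw [Int.cast_natCast, ← add_div]
      push_cast
      congr 1
      ring
    rw [h4]
    have h5 : ⌊((lo : ℚ) - ((-t : ℤ) : ℚ)) / ((c : ℤ) : ℚ) + (N : ℚ) / (c : ℚ)⌋ <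
        ⌊((lo : ℚ) - ((-t : ℤ) : ℚ)) / ((c : ℤ) : ℚ)⌋ + ((q + 1 : ℕ) : ℤ) + 1 := by
      rw [Int.floor_lt]
      have h6 := Int.lt_floor_add_one (((lo : ℚ) - ((-t : ℤ) : ℚ)) / ((c : ℤ) : ℚ))
      have h7 : (N : ℚ) / (c : ℚ) < (q : ℚ) + 1 := by
        rw [div_lt_iff₀ hcq]
        exact_mod_cast h8
      push_cast at h6 h7 ⊢
      linarith
    linarith
  have h4 : ((#{y ∈ Ioc lo (lo + N) | y ≡ -t [ZMOD (c : ℤ)]} : ℕ) : ℤ) ≤
      ((q + 1 : ℕ) : ℤ) := by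
    rw [h2]
    exact max_le h3 (Int.natCast_nonneg _)
  exact_mod_cast h4

namespace Par

variable {P : Par m}

theorem cl_len_le (ρ : Req m) : P.len ρ.2.1 = P.B0 ∨ P.len ρ.2.1 = P.B1 := by
  unfold len
  split_ifs
  · exact Or.inl rfl
  · exact Or.inr rfl

/-- Rows with a large gcd. -/
theorem cl_gcd_bad {ρ : Req m} (h : ρ ∈ P.R) (W : Finset (Fin m)) (lo : ℤ) (N : ℕ) :
    #{y ∈ Ioc lo (lo + N) | P.b ^ 3 ≤ Int.gcd (P.vx ρ y W).1 (P.vx ρ y W).2} ≤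
      P.b * (N / P.b ^ 3 + 1) := by
  classical
  have hN1 := cl_NW_pos h W
  have hN2 : P.NW ρ W ≤ 2 * P.b ^ 90 := by
    have := cl_NW_le h W
    have h2 : P.X = P.b ^ 90 := rfl
    omega
  have hsub : ({y ∈ Ioc lo (lo + N) | P.b ^ 3 ≤ Int.gcd (P.vx ρ y W).1 (P.vx ρ y W).2} : Finset ℤ) ⊆
      ({c ∈ (P.NW ρ W).divisors | P.b ^ 3 ≤ c} : Finset ℕ).biUnion fun c =>
        {y ∈ Ioc lo (lo + N) | (c : ℤ) ∣ y + yv ρ.1 ρ.2.2 (P.kx ρ.2.1) 0 W} := by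
    intro y hy
    rw [mem_filter] at hy
    rw [mem_biUnion]
    have hg : Int.gcd (P.vx ρ y W).1 (P.vx ρ y W).2 =
        Int.gcd (P.NW ρ W : ℤ) (yv ρ.1 ρ.2.2 (P.kx ρ.2.1) y W) :=
      cl_gcd_vtx _ _ _ _ _ _
    refine ⟨Int.gcd (P.NW ρ W : ℤ) (yv ρ.1 ρ.2.2 (P.kx ρ.2.1) y W), ?_, ?_⟩
    · rw [mem_filter, Nat.mem_divisors]
      refine ⟨⟨?_, by omega⟩, ?_⟩
      · have := Int.gcd_dvd_left (P.NW ρ W : ℤ) (yv ρ.1 ρ.2.2 (P.kx ρ.2.1) y W)
        exact_mod_cast this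
      · rw [← hg]; exact hy.2
    · rw [mem_filter]
      refine ⟨hy.1, ?_⟩
      rw [← cl_yv_eq]
      exact Int.gcd_dvd_right _ _
  refine (card_le_card hsub).trans (card_biUnion_le.trans ?_)
  have hb3 : 1 ≤ P.b ^ 3 := Nat.one_le_pow _ _ P.cl_b_pos
  refine (sum_le_card_nsmul _ _ (N / P.b ^ 3 + 1) ?_).trans ?_
  · intro c hc
    rw [mem_filter] at hc
    refine (cl_card_dvd_le lo N c (by omega) _).trans ?_
    have := Nat.div_le_div_left hc.2 (by omega) (a := N)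
    omega
  · rw [smul_eq_mul]
    refine Nat.mul_le_mul_right _ ?_
    refine (card_le_card (filter_subset _ _)).trans ?_
    exact P.hdiv _ hN1 hN2

/-- The rows of a cell are near its base row. -/
theorem cl_row_near {ρ : Req m} (h : ρ ∈ P.R) (y : ℤ) (W : Finset (Fin m)) :
    |(P.vx ρ y W).2 - y| ≤ ((ρ.2.2 * P.M2 : ℕ) : ℤ) := by
  have h1 := P.cl_shape_of_mem (cl_mem_R h).2.1
  exact cl_yv_abs_le ρ.1 ρ.2.2 (P.kx ρ.2.1) h1.dvd h1.le y W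

/-- Rows near the boundary of a block. -/
theorem cl_boundary_bad {ρ : Req m} (h : ρ ∈ P.R) (lo : ℤ) (N : ℕ) :
    #{y ∈ Ioc lo (lo + N) | ∃ W, (P.vx ρ y W).2 ∉ Ioc lo (lo + N)} ≤
      2 * (ρ.2.2 * P.M2) := by
  classical
  set e := ρ.2.2 * P.M2 with he
  have hsub : ({y ∈ Ioc lo (lo + N) | ∃ W, (P.vx ρ y W).2 ∉ Ioc lo (lo + N)} : Finset ℤ) ⊆
      Ioc lo (lo + e) ∪ Ioc (lo + N - e) (lo + N) := by
    intro y hy
    rw [mem_filter, mem_Ioc] at hy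
    obtain ⟨⟨h1, h2⟩, W, hW⟩ := hy
    have h3 := cl_row_near h y W
    rw [← he, abs_le] at h3
    rw [mem_Ioc, not_and_or, not_lt, not_le] at hW
    rw [mem_union, mem_Ioc, mem_Ioc]
    rcases hW with hW | hW
    · left; constructor <;> linarith [h3.1, h3.2]
    · right; constructor <;> linarith [h3.1, h3.2]
  refine (card_le_card hsub).trans ((card_union_le _ _).trans ?_)
  rw [Int.card_Ioc, Int.card_Ioc]
  have h1 : (lo + (e : ℤ) - lo).toNat = e := by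
    rw [add_sub_cancel_left]; simp
  have h2 : (lo + (N : ℤ) - (lo + N - e)).toNat = e := by
    rw [sub_sub_cancel]; simp
  rw [h1, h2]
  omega

/-- `N_W` is not a prime beyond `Ptop`. -/
theorem cl_NW_not_top {ρ : Req m} (h : ρ ∈ P.R) (hn : 2 * P.X < 3 * nOf ρ.2.1) (W : Finset (Fin m)) :
    ¬ ((P.NW ρ W).Prime ∧ P.Ptop < P.NW ρ W) := by
  obtain ⟨p, hp, hpp, hpQ, hpt⟩ := P.cl_prime_of_special (cl_mem_R h).2.1 hn
  have h0 := @cl_pow74_lt m P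
  have h1 := cl_scale_one h (by omega)
  rintro ⟨h2, h3⟩
  have h4 : P.NW ρ W = p + ssum (P.D.kp p) W := by
    unfold NW Nv kx
    rw [h1, hp]
    simp [nOf, kOf]
  by_cases hW : W.Nonempty
  · apply P.D.comp p hpp hpQ W hW
    rw [← h4]
    exact h2
  · rw [not_nonempty_iff_eq_empty] at hW
    rw [h4, hW, cl_ssum_empty] at h3
    omega

open Classical in
/-- Rows with excluded vertices. -/
theorem cl_exc_bad {ρ : Req m} (h : ρ ∈ P.R) (hn : 2 * P.X < 3 * nOf ρ.2.1) (W : Finset (Fin m)) :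
    #{y ∈ Ioc (P.lo ρ.1 ρ.2.1) (P.lo ρ.1 ρ.2.1 + P.len ρ.2.1) |
      (P.vx ρ y W).2 ∈ Ioc (P.lo ρ.1 ρ.2.1) (P.lo ρ.1 ρ.2.1 + P.len ρ.2.1) ∧
      P.Exc (P.vx ρ y W)} * (8 * m ^ 2 * P.K6) ≤ m * (P.B1 + 8 * m ^ 2 * P.K6 * P.D0) := by
  classical
  have hlen : P.len ρ.2.1 = P.B1 := by
    unfold len
    rw [if_neg (by omega)]
  set lo := P.lo ρ.1 ρ.2.1 with hlo
  have h0 := @cl_pow74_lt m P
  have hs := cl_scale_one h (by omega)
  have hmY := P.cl_mY_le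
  have h31 : P.b ^ 31 ≤ P.b ^ 89 := P.cl_pow_le (by norm_num)
  have hX := P.cl_X_big
  have hD0 := P.cl_D0_le
  have hb1 : P.b ≤ P.b ^ 31 := Nat.le_self_pow (by norm_num) _
  have hPt := P.cl_Ptop_add
  have hNW := (cl_NW_bounds h W).1
  rw [hs, one_mul] at hNW
  have hkey : ∀ y, (P.vx ρ y W).2 ∈ Ioc lo (lo + P.len ρ.2.1) → P.Exc (P.vx ρ y W) →
      ∃ i ∈ (range (m + 1)).erase (ρ.1 : ℕ),
        ((P.NW ρ W : ℤ) + ((i : ℤ) - ((ρ.1 : ℕ) : ℤ)) * yv ρ.1 ρ.2.2 (P.kx ρ.2.1) 0 W +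
          ((i : ℤ) - ((ρ.1 : ℕ) : ℤ)) * y).toNat.Prime ∧ (P.D0 : ℤ) <
        (P.NW ρ W : ℤ) + ((i : ℤ) - ((ρ.1 : ℕ) : ℤ)) * yv ρ.1 ρ.2.2 (P.kx ρ.2.1) 0 W +
          ((i : ℤ) - ((ρ.1 : ℕ) : ℤ)) * y := by
    intro y hy hE
    obtain ⟨i, hi, hip, hit⟩ := hE
    have hLi : L i (P.vx ρ y W) = (P.NW ρ W : ℤ) +
        ((i : ℤ) - ((ρ.1 : ℕ) : ℤ)) * yv ρ.1 ρ.2.2 (P.kx ρ.2.1) 0 W +
          ((i : ℤ) - ((ρ.1 : ℕ) : ℤ)) * y := by
      have h1 := cl_L_vtx i ρ.1 (nOf ρ.2.1) (P.kx ρ.2.1) ρ.2.2 y W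
      rw [cl_yv_eq] at h1
      have h2 : L i (P.vx ρ y W) = _ := h1
      rw [h2]
      unfold NW
      ring
    have hij : i ≠ (ρ.1 : ℕ) := by
      intro hij
      have h1 := cl_L_vtx_self ρ.1 (nOf ρ.2.1) (P.kx ρ.2.1) ρ.2.2 y W
      have h2 : L i (P.vx ρ y W) = (P.NW ρ W : ℤ) := by rw [hij]; exact h1
      rw [h2, Int.natAbs_natCast] at hip hit
      exact cl_NW_not_top h hn W ⟨hip, hit⟩
    have hpos : 0 < L i (P.vx ρ y W) := by
      have h1 : L i (P.vx ρ y W) = (P.NW ρ W : ℤ) + ((i : ℤ) - ((ρ.1 : ℕ) : ℤ)) * (P.vx ρ y W).2 :=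
        cl_L_vtx i ρ.1 (nOf ρ.2.1) (P.kx ρ.2.1) ρ.2.2 y W
      obtain ⟨h2, h3, -, -⟩ := cl_row_bounds h hy
      have hrow : (0 : ℤ) < (P.vx ρ y W).2 := by
        have h7 := P.cl_rows_le
        have h8 := P.cl_pow26_le
        have h9 := P.cl_Y1_add
        have h10 : m * P.B0 < P.Y1 := by
          have : 1 ≤ P.b ^ 26 := Nat.one_le_pow _ _ P.cl_b_pos
          omega
        have h11 : (m : ℤ) * P.B0 < P.Y1 := by exact_mod_cast h10
        linarith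
      obtain ⟨h5, h6⟩ := cl_lab_bounds h
      have h6' : ((ρ.1 : ℕ) : ℤ) ≤ (m : ℤ) := by exact_mod_cast h6
      have h12 : (-(m : ℤ)) * P.Y ≤ ((i : ℤ) - ((ρ.1 : ℕ) : ℤ)) * (P.vx ρ y W).2 := by
        have h13 : (0 : ℤ) ≤ (i : ℤ) := Int.natCast_nonneg _
        have h14 : (-(m : ℤ)) ≤ (i : ℤ) - ((ρ.1 : ℕ) : ℤ) := by linarith
        have h15 : (-(m : ℤ)) * (P.vx ρ y W).2 ≤ ((i : ℤ) - ((ρ.1 : ℕ) : ℤ)) * (P.vx ρ y W).2 :=
          mul_le_mul_of_nonneg_right h14 hrow.le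
        have h16 : (m : ℤ) * (P.vx ρ y W).2 ≤ (m : ℤ) * P.Y :=
          mul_le_mul_of_nonneg_left h3 (Int.natCast_nonneg _)
        linarith
      rw [h1]
      have h17 : m * P.Y < P.NW ρ W := by omega
      have h18 : (m : ℤ) * P.Y < (P.NW ρ W : ℤ) := by exact_mod_cast h17
      linarith
    refine ⟨i, ?_, ?_, ?_⟩
    · rw [mem_erase, mem_range]
      exact ⟨hij, by omega⟩
    · rw [← hLi]
      have : (L i (P.vx ρ y W)).toNat = (L i (P.vx ρ y W)).natAbs := by omega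
      rw [this]
      exact hip
    · rw [← hLi]
      have h1 : P.D0 < (L i (P.vx ρ y W)).natAbs := by omega
      omega
  have hsub : ({y ∈ Ioc lo (lo + P.len ρ.2.1) |
      (P.vx ρ y W).2 ∈ Ioc lo (lo + P.len ρ.2.1) ∧ P.Exc (P.vx ρ y W)} : Finset ℤ) ⊆
      ((range (m + 1)).erase (ρ.1 : ℕ)).biUnion fun i =>
        {y ∈ Ioc lo (lo + P.B1) |
        ((P.NW ρ W : ℤ) + ((i : ℤ) - ((ρ.1 : ℕ) : ℤ)) * yv ρ.1 ρ.2.2 (P.kx ρ.2.1) 0 W +
          ((i : ℤ) - ((ρ.1 : ℕ) : ℤ)) * y).toNat.Prime ∧ (P.D0 : ℤ) <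
        (P.NW ρ W : ℤ) + ((i : ℤ) - ((ρ.1 : ℕ) : ℤ)) * yv ρ.1 ρ.2.2 (P.kx ρ.2.1) 0 W +
          ((i : ℤ) - ((ρ.1 : ℕ) : ℤ)) * y} := by
    intro y hy
    rw [mem_filter] at hy
    obtain ⟨i, hi, hi1, hi2⟩ := hkey y hy.2.1 hy.2.2
    rw [mem_biUnion]
    refine ⟨i, hi, ?_⟩
    rw [mem_filter]
    refine ⟨?_, hi1, hi2⟩
    rw [hlen] at hy
    exact hy.1
  have h1 := (card_le_card hsub).trans card_biUnion_le
  refine (Nat.mul_le_mul_right _ h1).trans ?_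
  rw [sum_mul]
  refine (sum_le_card_nsmul _ _ (P.B1 + 8 * m ^ 2 * P.K6 * P.D0) ?_).trans ?_
  · intro i hi
    rw [mem_erase, mem_range] at hi
    have h2 := P.hsieve ((P.NW ρ W : ℤ) + ((i : ℤ) - ((ρ.1 : ℕ) : ℤ)) *
      yv ρ.1 ρ.2.2 (P.kx ρ.2.1) 0 W) ((i : ℤ) - ((ρ.1 : ℕ) : ℤ)) lo P.B1 ?_ ?_
    · rw [mul_comm]
      exact h2
    · apply Int.one_le_abs
      intro h3
      apply hi.1
      omega
    · obtain ⟨h5, h6⟩ := cl_lab_bounds h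
      rw [abs_le]
      constructor <;> omega
  · rw [smul_eq_mul]
    refine Nat.mul_le_mul_right _ ?_
    have h5 := ρ.1.is_lt
    rw [card_erase_of_mem (mem_range.2 h5), card_range]
    omega

/-- The candidates of a normal request. -/
theorem cl_card_Cand_normal {ρ : Req m} (h : ρ ∈ P.R) (hn : 3 * nOf ρ.2.1 ≤ 2 * P.X) :
    P.B0 ≤ 2 * #(P.Cand ρ) := by
  classical
  have hlen : P.len ρ.2.1 = P.B0 := by
    unfold len
    rw [if_pos hn]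
  set lo := P.lo ρ.1 ρ.2.1 with hlo
  have hsub : Ioc lo (lo + P.B0) ⊆ P.Cand ρ ∪
      (({y ∈ Ioc lo (lo + P.B0) | ∃ W, (P.vx ρ y W).2 ∉ Ioc lo (lo + P.B0)} : Finset ℤ) ∪
      (univ : Finset (Finset (Fin m))).biUnion fun W =>
        {y ∈ Ioc lo (lo + P.B0) | P.b ^ 3 ≤ Int.gcd (P.vx ρ y W).1 (P.vx ρ y W).2}) := by
    intro y hy
    by_contra hc
    rw [mem_union, mem_union, not_or, not_or] at hc
    obtain ⟨h1, h2, h3⟩ := hc
    apply h1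
    unfold Cand
    rw [mem_filter]
    rw [← hlo, hlen]
    refine ⟨hy, fun W => ⟨?_, ?_, fun h4 => by omega⟩⟩
    · by_contra h4
      exact h2 (mem_filter.2 ⟨hy, W, h4⟩)
    · by_contra h4
      apply h3
      rw [mem_biUnion]
      exact ⟨W, mem_univ _, mem_filter.2 ⟨hy, by omega⟩⟩
  have h1 := card_le_card hsub
  rw [Int.card_Ioc] at h1
  have h2 : (lo + (P.B0 : ℤ) - lo).toNat = P.B0 := by
    rw [add_sub_cancel_left]; simp
  rw [h2] at h1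
  have h3 := card_union_le (P.Cand ρ)
      (({y ∈ Ioc lo (lo + P.B0) | ∃ W, (P.vx ρ y W).2 ∉ Ioc lo (lo + P.B0)} : Finset ℤ) ∪
      (univ : Finset (Finset (Fin m))).biUnion fun W =>
        {y ∈ Ioc lo (lo + P.B0) | P.b ^ 3 ≤ Int.gcd (P.vx ρ y W).1 (P.vx ρ y W).2})
  have h4 := card_union_le
      ({y ∈ Ioc lo (lo + P.B0) | ∃ W, (P.vx ρ y W).2 ∉ Ioc lo (lo + P.B0)} : Finset ℤ)
      ((univ : Finset (Finset (Fin m))).biUnion fun W =>
        {y ∈ Ioc lo (lo + P.B0) | P.b ^ 3 ≤ Int.gcd (P.vx ρ y W).1 (P.vx ρ y W).2})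
  have h5 := cl_boundary_bad h lo P.B0
  have h6 : #((univ : Finset (Finset (Fin m))).biUnion fun W =>
        {y ∈ Ioc lo (lo + P.B0) | P.b ^ 3 ≤ Int.gcd (P.vx ρ y W).1 (P.vx ρ y W).2}) ≤
        2 ^ m * (P.b * (P.B0 / P.b ^ 3 + 1)) := by
    refine card_biUnion_le.trans ?_
    refine (sum_le_card_nsmul _ _ _ fun W _ => cl_gcd_bad h W lo P.B0).trans ?_
    rw [smul_eq_mul, card_univ, Fintype.card_finset, Fintype.card_fin]
  have h7 := cl_sM2_le h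
  have h8 : P.B0 / P.b ^ 3 = P.b ^ 22 := by
    have h9 : P.B0 = P.b ^ 22 * P.b ^ 3 := by unfold B0; ring
    rw [h9]
    exact Nat.mul_div_cancel _ (Nat.pow_pos P.cl_b_pos)
  rw [h8] at h6
  have h9 : 10 ^ 6 * (2 ^ m * (P.b * (P.b ^ 22 + 1))) ≤ 2 * P.b ^ 24 := by
    have h10 := P.cl_ineq4
    have h11 : 10 ^ 6 * 2 ^ m ≤ P.b := by
      refine le_trans ?_ h10
      have h12 : 1 ≤ m ^ 3 := Nat.one_le_pow _ _ P.cl_m_pos
      calc 10 ^ 6 * 2 ^ m = 10 ^ 6 * 1 * 2 ^ m * 1 := by ring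
        _ ≤ 10 ^ 6 * m ^ 3 * 4 ^ m * (P.M2 + 2) := by
          gcongr
          · norm_num
          · omega
    have h13 : P.b ^ 22 + 1 ≤ 2 * P.b ^ 22 := by
      have := Nat.one_le_pow 22 _ P.cl_b_pos
      omega
    calc 10 ^ 6 * (2 ^ m * (P.b * (P.b ^ 22 + 1)))
        = (10 ^ 6 * 2 ^ m) * (P.b * (P.b ^ 22 + 1)) := by ring
      _ ≤ P.b * (P.b * (2 * P.b ^ 22)) := by gcongr
      _ = 2 * P.b ^ 24 := by ring
  have h10 : P.b ^ 15 ≤ P.b ^ 24 := P.cl_pow_le (by norm_num)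
  have h11 : 10 ^ 6 * P.b ^ 24 ≤ P.B0 := by
    calc 10 ^ 6 * P.b ^ 24 ≤ P.b * P.b ^ 24 := Nat.mul_le_mul_right _ P.cl_ineq8
      _ = P.b ^ 25 := by ring
  omega

/-- The candidates of a special request. -/
theorem cl_card_Cand_special {ρ : Req m} (h : ρ ∈ P.R) (hn : 2 * P.X < 3 * nOf ρ.2.1) :
    P.B1 ≤ 2 * #(P.Cand ρ) := by
  classical
  have hlen : P.len ρ.2.1 = P.B1 := by
    unfold len
    rw [if_neg (by omega)]
  have h0 := @cl_pow74_lt m P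
  have hs := cl_scale_one h (by omega)
  have hE := cl_exc_bad h hn
  set lo := P.lo ρ.1 ρ.2.1 with hlo
  rw [hlen] at hE
  have hsub : Ioc lo (lo + P.B1) ⊆ P.Cand ρ ∪
      (({y ∈ Ioc lo (lo + P.B1) | ∃ W, (P.vx ρ y W).2 ∉ Ioc lo (lo + P.B1)} : Finset ℤ) ∪
      ((univ : Finset (Finset (Fin m))).biUnion (fun W =>
        {y ∈ Ioc lo (lo + P.B1) | P.b ^ 3 ≤ Int.gcd (P.vx ρ y W).1 (P.vx ρ y W).2}) ∪
      (univ : Finset (Finset (Fin m))).biUnion (fun W =>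
        {y ∈ Ioc lo (lo + P.B1) | (P.vx ρ y W).2 ∈ Ioc lo (lo + P.B1) ∧ P.Exc (P.vx ρ y W)}))) := by
    intro y hy
    by_contra hc
    rw [mem_union, mem_union, mem_union, not_or, not_or, not_or] at hc
    obtain ⟨h1, h2, h3, h5⟩ := hc
    apply h1
    unfold Cand
    rw [mem_filter]
    rw [← hlo, hlen]
    have h6 : ∀ W, (P.vx ρ y W).2 ∈ Ioc lo (lo + P.B1) := by
      intro W
      by_contra h4
      exact h2 (mem_filter.2 ⟨hy, W, h4⟩)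
    refine ⟨hy, fun W => ⟨h6 W, ?_, fun _ h7 => ?_⟩⟩
    · by_contra h4
      apply h3
      rw [mem_biUnion]
      exact ⟨W, mem_univ _, mem_filter.2 ⟨hy, by omega⟩⟩
    · apply h5
      rw [mem_biUnion]
      exact ⟨W, mem_univ _, mem_filter.2 ⟨hy, h6 W, h7⟩⟩
  have h1 := card_le_card hsub
  rw [Int.card_Ioc] at h1
  have h2 : (lo + (P.B1 : ℤ) - lo).toNat = P.B1 := by
    rw [add_sub_cancel_left]; simp
  rw [h2] at h1
  have h1' := h1.trans ((card_union_le _ _).trans (Nat.add_le_add_left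
    ((card_union_le _ _).trans (Nat.add_le_add_left (card_union_le _ _) _)) _))
  have h5 := cl_boundary_bad h lo P.B1
  have h6 : #((univ : Finset (Finset (Fin m))).biUnion fun W =>
        {y ∈ Ioc lo (lo + P.B1) | P.b ^ 3 ≤ Int.gcd (P.vx ρ y W).1 (P.vx ρ y W).2}) ≤
        2 ^ m * (P.b * (P.B1 / P.b ^ 3 + 1)) := by
    refine card_biUnion_le.trans ?_
    refine (sum_le_card_nsmul _ _ _ fun W _ => cl_gcd_bad h W lo P.B1).trans ?_
    rw [smul_eq_mul, card_univ, Fintype.card_finset, Fintype.card_fin]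
  have h7 := cl_sM2_le h
  rw [hs, one_mul] at h5 h7
  have h8 : P.B1 / P.b ^ 3 = 1 := Nat.div_self (Nat.pow_pos P.cl_b_pos)
  rw [h8] at h6
  have h12 : 1 ≤ m ^ 3 := Nat.one_le_pow _ _ P.cl_m_pos
  have h9 : 10 ^ 6 * (2 ^ m * (P.b * (1 + 1))) ≤ 2 * P.b ^ 2 := by
    have h10 := P.cl_ineq4
    have h11 : 10 ^ 6 * 2 ^ m ≤ P.b := by
      refine le_trans ?_ h10
      calc 10 ^ 6 * 2 ^ m = 10 ^ 6 * 1 * 2 ^ m * 1 := by ring
        _ ≤ 10 ^ 6 * m ^ 3 * 4 ^ m * (P.M2 + 2) := by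
          gcongr
          · norm_num
          · omega
    calc 10 ^ 6 * (2 ^ m * (P.b * (1 + 1)))
        = (10 ^ 6 * 2 ^ m) * (P.b * 2) := by ring
      _ ≤ P.b * (P.b * 2) := by gcongr
      _ = 2 * P.b ^ 2 := by ring
  -- the excluded rows
  set Ex : Finset (Fin m) → Finset ℤ := fun W =>
    {y ∈ Ioc lo (lo + P.B1) | (P.vx ρ y W).2 ∈ Ioc lo (lo + P.B1) ∧ P.Exc (P.vx ρ y W)} with hEx
  have h13 : #((univ : Finset (Finset (Fin m))).biUnion Ex) * (8 * m ^ 2 * P.K6) ≤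
      2 ^ m * (m * (P.B1 + 8 * m ^ 2 * P.K6 * P.D0)) := by
    refine (Nat.mul_le_mul_right _ card_biUnion_le).trans ?_
    rw [sum_mul]
    refine (sum_le_card_nsmul _ _ _ fun W _ => hE W).trans ?_
    rw [smul_eq_mul, card_univ, Fintype.card_finset, Fintype.card_fin]
  have h14 : 16 * 2 ^ m ≤ P.K6 := by
    rw [cl_K6_eq]
    have h15 : 2 ^ m ≤ 4 ^ m := Nat.pow_le_pow_left (by norm_num) m
    have h16 : 4 ^ m * 2 ≤ 4 ^ m * (P.M2 + 1) := Nat.mul_le_mul_left _ (by have := P.cl_M2_pos; omega)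
    omega
  have hK : 0 < 8 * m ^ 2 * P.K6 := by
    have := P.cl_K6_pos
    have := P.cl_m_pos
    positivity
  -- `#Ex * 8 ≤ B1 / 16 + ...`
  have h15 : 8 * #((univ : Finset (Finset (Fin m))).biUnion Ex) ≤ P.B1 + 8 * (2 ^ m * (m * P.D0)) := by
    have h16 : (8 * #((univ : Finset (Finset (Fin m))).biUnion Ex)) * (8 * m ^ 2 * P.K6) ≤
        (P.B1 + 8 * (2 ^ m * (m * P.D0))) * (8 * m ^ 2 * P.K6) := by
      calc (8 * #((univ : Finset (Finset (Fin m))).biUnion Ex)) * (8 * m ^ 2 * P.K6)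
          = 8 * (#((univ : Finset (Finset (Fin m))).biUnion Ex) * (8 * m ^ 2 * P.K6)) := by ring
        _ ≤ 8 * (2 ^ m * (m * (P.B1 + 8 * m ^ 2 * P.K6 * P.D0))) := Nat.mul_le_mul_left _ h13
        _ = P.B1 * (8 * m * 2 ^ m) + 8 * (2 ^ m * (m * P.D0)) * (8 * m ^ 2 * P.K6) := by ring
        _ ≤ P.B1 * (8 * m ^ 2 * P.K6) + 8 * (2 ^ m * (m * P.D0)) * (8 * m ^ 2 * P.K6) := by
            have h17 : m ≤ m ^ 2 := Nat.le_self_pow (by norm_num) m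
            have h18 : 2 ^ m ≤ P.K6 := by omega
            gcongr
        _ = (P.B1 + 8 * (2 ^ m * (m * P.D0))) * (8 * m ^ 2 * P.K6) := by ring
    exact Nat.le_of_mul_le_mul_right h16 hK
  have h16 : 10 ^ 6 * (2 ^ m * (m * P.D0)) ≤ P.b := by
    refine le_trans ?_ P.cl_ineq2
    have h17 : 2 ^ m ≤ 4 ^ m := Nat.pow_le_pow_left (by norm_num) m
    calc 10 ^ 6 * (2 ^ m * (m * P.D0)) = 10 ^ 6 * 2 ^ m * m * P.D0 := by ring
      _ ≤ 10 ^ 6 * 4 ^ m * m * (P.D0 + 1) := by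
          gcongr
          omega
  have h17 := P.cl_ineq7
  have h18 : P.b ≤ P.b ^ 2 := Nat.le_self_pow (by norm_num) _
  have h19 : 10 ^ 6 * P.b ^ 2 ≤ P.B1 := by
    calc 10 ^ 6 * P.b ^ 2 ≤ P.b * P.b ^ 2 := Nat.mul_le_mul_right _ P.cl_ineq8
      _ = P.b ^ 3 := by ring
  omega

end Par

end Pool.Agent.Lib.MP_176ace_nt.Gr
end

section

set_option autoImplicit false

/-!
# Cell4: conflicts and the selection of the cells
-/

namespace Pool.Agent.Lib.MP_176ace_nt.Gr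

open Finset

variable {m : ℕ}

namespace Par

variable {P : Par m}

/-- Two requests use the same block of rows. -/
def cl_SameBlock (P : Par m) (ρ ρ' : Req m) : Prop :=
  ρ.1 = ρ'.1 ∧ (3 * nOf ρ.2.1 ≤ 2 * P.X ↔ 3 * nOf ρ'.2.1 ≤ 2 * P.X)

theorem cl_sameBlock_of_vx_eq {ρ ρ' : Req m} (h : ρ ∈ P.R) (h' : ρ' ∈ P.R) {y y' : ℤ}
    (hy : y ∈ P.Cand ρ) (hy' : y' ∈ P.Cand ρ') {W W' : Finset (Fin m)}
    (he : P.vx ρ y W = P.vx ρ' y' W') : P.cl_SameBlock ρ ρ' := by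
  have h1 := ((cl_mem_Cand hy).2 W).1
  have h2 := ((cl_mem_Cand hy').2 W').1
  rw [← he] at h2
  obtain ⟨-, -, h3, h4⟩ := cl_row_bounds h h1
  obtain ⟨-, -, h5, h6⟩ := cl_row_bounds h' h2
  have hcl : 3 * nOf ρ.2.1 ≤ 2 * P.X ↔ 3 * nOf ρ'.2.1 ≤ 2 * P.X := by
    constructor
    · intro h7
      by_contra h8
      have h9 := h3 h7
      have h10 := h6 (by omega)
      omega
    · intro h7
      by_contra h8
      have h9 := h5 h7
      have h10 := h4 (by omega)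
      omega
  refine ⟨?_, hcl⟩
  have hB0 : (0 : ℤ) ≤ P.B0 := Int.natCast_nonneg _
  have hB1 : (0 : ℤ) ≤ P.B1 := Int.natCast_nonneg _
  rw [mem_Ioc] at h1 h2
  apply Fin.ext
  by_contra hne
  have hlt : (ρ.1 : ℕ) < (ρ'.1 : ℕ) ∨ (ρ'.1 : ℕ) < (ρ.1 : ℕ) := by omega
  by_cases h7 : 3 * nOf ρ.2.1 ≤ 2 * P.X
  · have h8 := hcl.1 h7
    unfold lo len at h1 h2
    rw [if_pos h7, if_pos h7] at h1
    rw [if_pos h8, if_pos h8] at h2
    rcases hlt with hlt | hlt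
    · have h9 : ((ρ.1 : ℕ) : ℤ) + 1 ≤ ((ρ'.1 : ℕ) : ℤ) := by exact_mod_cast hlt
      have h10 : (((ρ.1 : ℕ) : ℤ) + 1) * P.B0 ≤ ((ρ'.1 : ℕ) : ℤ) * P.B0 :=
        mul_le_mul_of_nonneg_right h9 hB0
      nlinarith [h1.1, h2.2]
    · have h9 : ((ρ'.1 : ℕ) : ℤ) + 1 ≤ ((ρ.1 : ℕ) : ℤ) := by exact_mod_cast hlt
      have h10 : (((ρ'.1 : ℕ) : ℤ) + 1) * P.B0 ≤ ((ρ.1 : ℕ) : ℤ) * P.B0 :=
        mul_le_mul_of_nonneg_right h9 hB0
      nlinarith [h1.2, h2.1]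
  · have h8 : ¬ 3 * nOf ρ'.2.1 ≤ 2 * P.X := fun h8 => h7 (hcl.2 h8)
    unfold lo len at h1 h2
    rw [if_neg h7, if_neg h7] at h1
    rw [if_neg h8, if_neg h8] at h2
    rcases hlt with hlt | hlt
    · have h9 : ((ρ.1 : ℕ) : ℤ) + 1 ≤ ((ρ'.1 : ℕ) : ℤ) := by exact_mod_cast hlt
      have h10 : (((ρ.1 : ℕ) : ℤ) + 1) * P.B1 ≤ ((ρ'.1 : ℕ) : ℤ) * P.B1 :=
        mul_le_mul_of_nonneg_right h9 hB1
      nlinarith [h1.1, h2.2]
    · have h9 : ((ρ'.1 : ℕ) : ℤ) + 1 ≤ ((ρ.1 : ℕ) : ℤ) := by exact_mod_cast hlt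
      have h10 : (((ρ'.1 : ℕ) : ℤ) + 1) * P.B1 ≤ ((ρ.1 : ℕ) : ℤ) * P.B1 :=
        mul_le_mul_of_nonneg_right h9 hB1
      nlinarith [h1.2, h2.1]

/-- The cl_pairs of coinciding values. -/
def cl_pairs (P : Par m) (ρ ρ' : Req m) : Finset (Finset (Fin m) × Finset (Fin m)) :=
  {p | P.NW ρ p.1 = P.NW ρ' p.2}

open Classical in
/-- The number of conflicts. -/
noncomputable def cl_cf (P : Par m) (ρ ρ' : Req m) : ℕ :=
  if P.cl_SameBlock ρ ρ' then #(P.cl_pairs ρ ρ') else 0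

theorem cl_NW_eq_of_vx_eq {ρ ρ' : Req m} {y y' : ℤ} {W W' : Finset (Fin m)} (hl : ρ.1 = ρ'.1)
    (he : P.vx ρ y W = P.vx ρ' y' W') : P.NW ρ W = P.NW ρ' W' := by
  have h1 := cl_L_vtx_self ρ.1 (nOf ρ.2.1) (P.kx ρ.2.1) ρ.2.2 y W
  have h2 := cl_L_vtx_self ρ'.1 (nOf ρ'.2.1) (P.kx ρ'.2.1) ρ'.2.2 y' W'
  have h3 : (P.NW ρ W : ℤ) = P.NW ρ' W' := by
    change ((Nv ρ.2.2 (nOf ρ.2.1) (P.kx ρ.2.1) W : ℕ) : ℤ) = (Nv ρ'.2.2 (nOf ρ'.2.1) (P.kx ρ'.2.1) W' : ℕ)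
    rw [← h1, ← h2]
    change L (ρ.1 : ℕ) (P.vx ρ y W) = L (ρ'.1 : ℕ) (P.vx ρ' y' W')
    rw [he, hl]
  exact_mod_cast h3

/-- A candidate conflicts with few candidates. -/
theorem cl_conf_card {ρ ρ' : Req m} (h : ρ ∈ P.R) (h' : ρ' ∈ P.R) {y' : ℤ}
    (hy' : y' ∈ P.Cand ρ') :
    Set.ncard {y | y ∈ P.Cand ρ ∧ ∃ W W', P.vx ρ y W = P.vx ρ' y' W'} ≤ P.cl_cf ρ ρ' := by
  classical
  unfold cl_cf
  split_ifs with hs
  · have hsub : {y | y ∈ P.Cand ρ ∧ ∃ W W', P.vx ρ y W = P.vx ρ' y' W'} ⊆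
        (((P.cl_pairs ρ ρ').image fun p =>
          yv ρ'.1 ρ'.2.2 (P.kx ρ'.2.1) y' p.2 - yv ρ.1 ρ.2.2 (P.kx ρ.2.1) 0 p.1 : Finset ℤ) : Set ℤ) := by
      rintro y ⟨-, W, W', he⟩
      rw [mem_coe, mem_image]
      refine ⟨(W, W'), ?_, ?_⟩
      · unfold cl_pairs
        rw [mem_filter]
        exact ⟨mem_univ _, cl_NW_eq_of_vx_eq hs.1 he⟩
      · have h1 : yv ρ.1 ρ.2.2 (P.kx ρ.2.1) y W = yv ρ'.1 ρ'.2.2 (P.kx ρ'.2.1) y' W' :=
          congrArg Prod.snd he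
        rw [cl_yv_eq] at h1
        simp only
        linarith
    refine (Set.ncard_le_ncard hsub (finite_toSet _)).trans ?_
    rw [Set.ncard_coe_finset]
    exact card_image_le
  · have : {y | y ∈ P.Cand ρ ∧ ∃ W W', P.vx ρ y W = P.vx ρ' y' W'} = ∅ := by
      rw [Set.eq_empty_iff_forall_notMem]
      rintro y ⟨hy, W, W', he⟩
      exact hs (cl_sameBlock_of_vx_eq h h' hy hy' he)
    rw [this]
    simp

/-- The encoding of a coincidence. -/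
def cl_code (P : Par m) (N : ℕ) (q : Req m × Finset (Fin m)) : ℕ × Finset (Fin m) × ℕ :=
  (q.1.2.2, q.2, Sum.elim (fun _ => P.M2 + 1) (fun p => N / q.1.2.2 - p) q.1.2.1)

/-- The requests with the label `j` and a vertex with value `N`. -/
noncomputable def cl_hits (P : Par m) (j : Fin (m + 1)) (N : ℕ) : Finset (Req m × Finset (Fin m)) :=
  {q ∈ P.R ×ˢ univ | q.1.1 = j ∧ P.NW q.1 q.2 = N}

theorem cl_mem_hits {j : Fin (m + 1)} {N : ℕ} {q : Req m × Finset (Fin m)} (h : q ∈ P.cl_hits j N) :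
    q.1 ∈ P.R ∧ q.1.1 = j ∧ P.NW q.1 q.2 = N := by
  unfold cl_hits at h
  rw [mem_filter, mem_product] at h
  exact ⟨h.1.1, h.2⟩

/-- Division of the value by the scale. -/
theorem cl_hits_div {j : Fin (m + 1)} {N : ℕ} {q : Req m × Finset (Fin m)} (h : q ∈ P.cl_hits j N) :
    q.1.2.2 ∣ N ∧ N / q.1.2.2 = nOf q.1.2.1 + ssum (P.kx q.1.2.1) q.2 := by
  obtain ⟨h1, h2, h3⟩ := cl_mem_hits h
  have hs := (cl_mem_R h1).2.2.1
  unfold NW Nv at h3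
  rw [← h3]
  refine ⟨Dvd.intro _ rfl, ?_⟩
  exact Nat.mul_div_cancel_left _ hs

theorem cl_code_inj (j : Fin (m + 1)) (N : ℕ) : Set.InjOn (P.cl_code N) (P.cl_hits j N) := by
  rintro ⟨⟨l, i, s⟩, W⟩ hq ⟨⟨l', i', s'⟩, W'⟩ hq' he
  rw [mem_coe] at hq hq'
  obtain ⟨h1, h2, h3⟩ := cl_mem_hits hq
  obtain ⟨h1', h2', h3'⟩ := cl_mem_hits hq'
  obtain ⟨h4, h5⟩ := cl_hits_div hq
  obtain ⟨h4', h5'⟩ := cl_hits_div hq'
  unfold cl_code at he
  simp only [Prod.mk.injEq] at he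
  obtain ⟨hs, hW, ht⟩ := he
  simp only at hs hW ht h1 h2 h3 h1' h2' h3' h4 h5 h4' h5'
  subst hs hW h2
  subst h2'
  have hk := cl_ssum_le _ (P.cl_shape_of_mem (cl_mem_R h1).2.1).le W
  have hk' := cl_ssum_le _ (P.cl_shape_of_mem (cl_mem_R h1').2.1).le W
  simp only at hk hk'
  have hM2 : P.M2 = m * P.D.M1 := rfl
  rcases i with n | p
  · rcases i' with n' | p'
    · have h6 : P.kx (Sum.inl n) = P.kx (Sum.inl n' : ℕ ⊕ ℕ) := rfl
      rw [h6] at h5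
      have h7 : n = n' := by
        simp only [nOf, Sum.elim_inl, id] at h5 h5'
        omega
      rw [h7]
    · exfalso
      simp only [nOf, Sum.elim_inl, Sum.elim_inr, id] at ht h5 h5'
      omega
  · rcases i' with n' | p'
    · exfalso
      simp only [nOf, Sum.elim_inl, Sum.elim_inr, id] at ht h5 h5'
      omega
    · have h7 : p = p' := by
        simp only [nOf, Sum.elim_inr, id] at ht h5 h5'
        omega
      rw [h7]

theorem cl_card_hits (j : Fin (m + 1)) {N : ℕ} (hN : 1 ≤ N) (hN2 : N ≤ P.X) :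
    #(P.cl_hits j N) ≤ P.b * 2 ^ m * (P.M2 + 2) := by
  classical
  rw [← card_image_of_injOn (cl_code_inj j N)]
  have hsub : (P.cl_hits j N).image (P.cl_code N) ⊆
      N.divisors ×ˢ (univ : Finset (Finset (Fin m))) ×ˢ range (P.M2 + 2) := by
    intro x hx
    rw [mem_image] at hx
    obtain ⟨⟨⟨l, i, s⟩, W⟩, hq, rfl⟩ := hx
    obtain ⟨h1, h2, h3⟩ := cl_mem_hits hq
    obtain ⟨h4, h5⟩ := cl_hits_div hq
    have hk := cl_ssum_le _ (P.cl_shape_of_mem (cl_mem_R h1).2.1).le W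
    simp only at h4 h5 hk
    have hM2 : P.M2 = m * P.D.M1 := rfl
    rw [mem_product, mem_product, Nat.mem_divisors, mem_range]
    refine ⟨⟨h4, by omega⟩, mem_univ _, ?_⟩
    rcases i with n | p
    · simp only [cl_code, Sum.elim_inl]
      omega
    · simp only [cl_code, Sum.elim_inr]
      simp only [nOf, Sum.elim_inr, id] at h5
      omega
  refine (card_le_card hsub).trans ?_
  rw [card_product, card_product, card_univ, Fintype.card_finset, Fintype.card_fin, card_range,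
    ← mul_assoc]
  refine Nat.mul_le_mul_right _ (Nat.mul_le_mul_right _ ?_)
  refine P.hdiv N hN ?_
  have : P.X = P.b ^ 90 := rfl
  omega

/-- Special requests with the label `j` and a vertex with value `N`. -/
theorem cl_card_hits_special (j : Fin (m + 1)) (N : ℕ) :
    #{q ∈ P.cl_hits j N | 2 * P.X < 3 * nOf q.1.2.1} ≤ 2 ^ m * (P.M2 + 1) := by
  classical
  rw [← card_image_of_injOn ((cl_code_inj (P := P) j N).mono (coe_subset.2 (filter_subset _ _)))]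
  have hsub : ({q ∈ P.cl_hits j N | 2 * P.X < 3 * nOf q.1.2.1} : Finset _).image (P.cl_code N) ⊆
      {1} ×ˢ (univ : Finset (Finset (Fin m))) ×ˢ range (P.M2 + 1) := by
    intro x hx
    rw [mem_image] at hx
    obtain ⟨⟨⟨l, i, s⟩, W⟩, hq', rfl⟩ := hx
    rw [mem_filter] at hq'
    obtain ⟨hq, hsp⟩ := hq'
    obtain ⟨h1, h2, h3⟩ := cl_mem_hits hq
    obtain ⟨h4, h5⟩ := cl_hits_div hq
    have hk := cl_ssum_le _ (P.cl_shape_of_mem (cl_mem_R h1).2.1).le W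
    have h0 := @cl_pow74_lt m P
    simp only at hsp
    have hs := cl_scale_one h1 (by simp only; omega)
    obtain ⟨p, hp, -⟩ := P.cl_prime_of_special (cl_mem_R h1).2.1 hsp
    simp only at h4 h5 hk hs hp
    subst hs hp
    have hM2 : P.M2 = m * P.D.M1 := rfl
    rw [mem_product, mem_product, mem_singleton, mem_range]
    refine ⟨rfl, mem_univ _, ?_⟩
    simp only [cl_code, Sum.elim_inr]
    simp only [nOf, Sum.elim_inr, id] at h5
    omega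
  refine (card_le_card hsub).trans ?_
  rw [card_product, card_product, card_univ, Fintype.card_finset, Fintype.card_fin, card_range,
    card_singleton, one_mul]

/-- The sum of the conflict numbers. -/
theorem cl_sum_cf_le {ρ : Req m} (T : Finset (Req m)) (hT : T ⊆ P.R) (hTb : ∀ ρ' ∈ T, P.cl_SameBlock ρ ρ') :
    ∑ ρ' ∈ T, #(P.cl_pairs ρ ρ') ≤
      ∑ W : Finset (Fin m), #{q ∈ P.cl_hits ρ.1 (P.NW ρ W) | q.1 ∈ T} := by
  classical
  have h1 : ∀ ρ' : Req m, #(P.cl_pairs ρ ρ') =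
      ∑ W : Finset (Fin m), #{W' : Finset (Fin m) | P.NW ρ W = P.NW ρ' W'} := by
    intro ρ'
    unfold cl_pairs
    rw [card_filter, ← univ_product_univ, sum_product]
    refine sum_congr rfl fun W _ => ?_
    rw [card_filter]
  rw [sum_congr rfl fun ρ' _ => h1 ρ', sum_comm]
  refine sum_le_sum fun W _ => ?_
  rw [← card_sigma]
  refine card_le_card_of_injOn (fun x => (x.1, x.2)) ?_ ?_
  · rintro ⟨ρ', W'⟩ hx
    rw [mem_coe, mem_sigma] at hx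
    simp only [mem_filter, mem_univ, true_and] at hx
    rw [mem_coe, mem_filter]
    refine ⟨?_, hx.1⟩
    unfold cl_hits
    rw [mem_filter, mem_product]
    exact ⟨⟨hT hx.1, mem_univ _⟩, (hTb ρ' hx.1).1.symm, hx.2.symm⟩
  · rintro ⟨ρ', W'⟩ _ ⟨ρ'', W''⟩ _ he
    simp only [Prod.mk.injEq] at he
    obtain ⟨rfl, rfl⟩ := he
    rfl

theorem cl_sum_cf {ρ : Req m} (h : ρ ∈ P.R) :
    2 * P.hq ρ.2.1 + ∑ ρ' ∈ P.R.erase ρ, P.cl_cf ρ ρ' * (2 * P.hq ρ'.2.1) ≤ #(P.Cand ρ) := by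
  classical
  set T : Finset (Req m) := {ρ' ∈ P.R.erase ρ | P.cl_SameBlock ρ ρ'} with hTdef
  have hT : T ⊆ P.R := (filter_subset _ _).trans (erase_subset _ _)
  have hTb : ∀ ρ' ∈ T, P.cl_SameBlock ρ ρ' := fun ρ' hρ' => (mem_filter.1 hρ').2
  have h1 : ∑ ρ' ∈ P.R.erase ρ, P.cl_cf ρ ρ' * (2 * P.hq ρ'.2.1) =
      (∑ ρ' ∈ T, #(P.cl_pairs ρ ρ')) * (2 * P.hq ρ.2.1) := by
    rw [hTdef, sum_filter, sum_mul]
    refine sum_congr rfl fun ρ' _ => ?_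
    unfold cl_cf
    by_cases hs : P.cl_SameBlock ρ ρ'
    · rw [if_pos hs]
      congr 2
      unfold hq
      by_cases h2 : 3 * nOf ρ.2.1 ≤ 2 * P.X
      · rw [if_pos h2, if_pos (hs.2.1 h2)]
      · rw [if_neg h2, if_neg (fun h3 => h2 (hs.2.2 h3))]
    · rw [if_neg hs, zero_mul, zero_mul]
  rw [h1]
  have h2 := cl_sum_cf_le (ρ := ρ) T hT hTb
  by_cases hn : 3 * nOf ρ.2.1 ≤ 2 * P.X
  · have h3 := cl_card_Cand_normal h hn
    have h4 : ∑ W : Finset (Fin m), #{q ∈ P.cl_hits ρ.1 (P.NW ρ W) | q.1 ∈ T} ≤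
        2 ^ m * (P.b * 2 ^ m * (P.M2 + 2)) := by
      refine (sum_le_card_nsmul _ _ (P.b * 2 ^ m * (P.M2 + 2)) fun W _ => ?_).trans ?_
      · exact (card_le_card (filter_subset _ _)).trans (cl_card_hits _ (cl_NW_pos h W) (cl_NW_le h W))
      · rw [smul_eq_mul, card_univ, Fintype.card_finset, Fintype.card_fin]
    have h5 : P.hq ρ.2.1 = P.b ^ 22 := by
      unfold hq
      rw [if_pos hn]
      rfl
    have h6 : 10 ^ 6 * (2 ^ m * (P.b * 2 ^ m * (P.M2 + 2))) ≤ P.b ^ 2 := by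
      have h7 := P.cl_ineq4
      have h8 : 1 ≤ m ^ 3 := Nat.one_le_pow _ _ P.cl_m_pos
      have h9 : (2 : ℕ) ^ m * 2 ^ m = 4 ^ m := by
        rw [← mul_pow]
        norm_num
      calc 10 ^ 6 * (2 ^ m * (P.b * 2 ^ m * (P.M2 + 2)))
          = (10 ^ 6 * 1 * (2 ^ m * 2 ^ m) * (P.M2 + 2)) * P.b := by ring
        _ ≤ (10 ^ 6 * m ^ 3 * 4 ^ m * (P.M2 + 2)) * P.b := by
            rw [h9]
            gcongr
        _ ≤ P.b * P.b := Nat.mul_le_mul_right _ h7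
        _ = P.b ^ 2 := by ring
    rw [h5]
    set S := ∑ ρ' ∈ T, #(P.cl_pairs ρ ρ') with hS
    have h7 : 10 ^ 6 * S ≤ P.b ^ 2 := by
      have := h2.trans h4
      omega
    have h8 : S * (2 * P.b ^ 22) * 10 ^ 6 ≤ 2 * P.b ^ 24 := by
      calc S * (2 * P.b ^ 22) * 10 ^ 6 = (10 ^ 6 * S) * (2 * P.b ^ 22) := by ring
        _ ≤ P.b ^ 2 * (2 * P.b ^ 22) := Nat.mul_le_mul_right _ h7
        _ = 2 * P.b ^ 24 := by ring
    have h9 : 10 ^ 6 * P.b ^ 24 ≤ P.B0 := by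
      calc 10 ^ 6 * P.b ^ 24 ≤ P.b * P.b ^ 24 := Nat.mul_le_mul_right _ P.cl_ineq8
        _ = P.b ^ 25 := by ring
    have h10 : P.b ^ 22 ≤ P.b ^ 24 := P.cl_pow_le (by norm_num)
    omega
  · have h3 := cl_card_Cand_special h (by omega)
    have h4 : ∑ W : Finset (Fin m), #{q ∈ P.cl_hits ρ.1 (P.NW ρ W) | q.1 ∈ T} ≤
        2 ^ m * (2 ^ m * (P.M2 + 1)) := by
      refine (sum_le_card_nsmul _ _ (2 ^ m * (P.M2 + 1)) fun W _ => ?_).trans ?_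
      · refine (card_le_card ?_).trans (cl_card_hits_special ρ.1 (P.NW ρ W))
        intro q hq
        rw [mem_filter] at hq ⊢
        refine ⟨hq.1, ?_⟩
        have h5 := (hTb _ hq.2).2
        omega
      · rw [smul_eq_mul, card_univ, Fintype.card_finset, Fintype.card_fin]
    have h5 : P.hq ρ.2.1 = P.h1 := by
      unfold hq
      rw [if_neg hn]
    have h9 : (2 : ℕ) ^ m * (2 ^ m * (P.M2 + 1)) = 4 ^ m * (P.M2 + 1) := by
      rw [← mul_assoc, ← mul_pow]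
      norm_num
    rw [h9] at h4
    rw [h5]
    set S := ∑ ρ' ∈ T, #(P.cl_pairs ρ ρ') with hS
    have h6 := h2.trans h4
    have h7 : P.K6 * P.h1 ≤ P.B1 := Nat.mul_div_le _ _
    have h8 : (8 * (2 + S)) * P.h1 ≤ P.K6 * P.h1 := by
      rw [cl_K6_eq]
      gcongr
    have h10 : (8 * (2 + S)) * P.h1 = 16 * P.h1 + 8 * (S * P.h1) := by ring
    have h11 : S * (2 * P.h1) = 2 * (S * P.h1) := by ring
    rw [h11]
    omega

/-- The selection theorem. -/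
theorem cl_select (P : Par m) : ∃ Ch : Req m → Finset ℤ,
    (∀ ρ ∈ P.R, Ch ρ ⊆ P.Cand ρ ∧ #(Ch ρ) = 2 * P.hq ρ.2.1) ∧
    ∀ ρ ∈ P.R, ∀ ρ' ∈ P.R, ρ ≠ ρ' → ∀ y ∈ Ch ρ, ∀ y' ∈ Ch ρ', ∀ W W',
      P.vx ρ y W ≠ P.vx ρ' y' W' := by
  classical
  obtain ⟨Ch, h1, h2⟩ := greedy P.R (fun ρ => P.Cand ρ) (fun ρ => 2 * P.hq ρ.2.1) P.cl_cf
    (fun ρ y ρ' y' => ∃ W W', P.vx ρ y W = P.vx ρ' y' W')
    (fun ρ y ρ' y' ⟨W, W', he⟩ => ⟨W', W, he.symm⟩)
    (fun ρ hρ ρ' hρ' _ y' hy' => cl_conf_card hρ hρ' hy')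
    (fun ρ hρ => cl_sum_cf hρ)
  refine ⟨Ch, h1, ?_⟩
  intro ρ hρ ρ' hρ' hne y hy y' hy' W W' he
  exact h2 ρ hρ ρ' hρ' hne y hy y' hy' ⟨W, W', he⟩

/-- Within a request the cells are disjoint. -/
theorem cl_vx_inj {ρ : Req m} (h : ρ ∈ P.R) {y y' : ℤ} {W W' : Finset (Fin m)}
    (he : P.vx ρ y W = P.vx ρ y' W') : y = y' ∧ W = W' :=
  cl_vtx_inj (cl_mem_R h).2.2.1 (P.cl_shape_of_mem (cl_mem_R h).2.1).inj he

end Par

end Pool.Agent.Lib.MP_176ace_nt.Gr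
end

section

set_option autoImplicit false

/-!
# CellI: the interface of Section 6 (cells)
-/

namespace Pool.Agent.Lib.MP_176ace_nt.Gr

open Finset

namespace Par

variable {m : ℕ} (P : Par m)

/-- the vertices of the cells of one request are distinct -/
theorem vx_inj {ρ : Req m} (hρ : ρ ∈ P.R) {y y' : ℤ} {W W' : Finset (Fin m)}
    (h : P.vx ρ y W = P.vx ρ y' W') : y = y' ∧ W = W' :=
  cl_vx_inj hρ h

theorem L_vx (ρ : Req m) (y : ℤ) (W : Finset (Fin m)) :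
    L (ρ.1 : ℕ) (P.vx ρ y W) = P.NW ρ W :=
  cl_L_vtx_self ρ.1 (nOf ρ.2.1) (P.kx ρ.2.1) ρ.2.2 y W

theorem NW_pos {ρ : Req m} (hρ : ρ ∈ P.R) (W : Finset (Fin m)) : 1 ≤ P.NW ρ W :=
  cl_NW_pos hρ W

/-- (6.2) -/
theorem cell_sum {ρ : Req m} (hρ : ρ ∈ P.R) (y : ℤ) {i : ℕ} (hi : i ≤ m) (hne : i ≠ (ρ.1 : ℕ))
    {A : Type*} [AddCommGroup A] (F : ℤ → A) :
    ∑ W : Finset (Fin m), sg W • F (L i (P.vx ρ y W)) = 0 := by
  have h := cl_sum_sg_L F ρ.1 ⟨i, Nat.lt_succ_of_le hi⟩ (fun h => hne (by rw [← h]))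
    (nOf ρ.2.1) (P.kx ρ.2.1) ρ.2.2 y (P.cl_shape_of_mem (cl_mem_R hρ).2.1).dvd
  exact h

theorem vx_V {ρ : Req m} (hρ : ρ ∈ P.R) {y : ℤ} (hy : y ∈ P.Cand ρ) (W : Finset (Fin m)) :
    P.vx ρ y W ∈ P.V :=
  cl_vx_mem_V hρ hy W

theorem vx_w {ρ : Req m} (hρ : ρ ∈ P.R) {y : ℤ} (hy : y ∈ P.Cand ρ) (W : Finset (Fin m)) {r : ℕ}
    (hr : m * P.B0 ≤ r) (θ : ℝ) : P.w r θ (P.vx ρ y W) = 1 / 2 :=
  cl_w_vx hρ hy W hr θ

theorem exists_sel : Nonempty P.Sel := by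
  obtain ⟨Ch, h1, h2⟩ := P.cl_select
  exact ⟨⟨Ch, fun ρ hρ => (h1 ρ hρ).1, fun ρ hρ => (h1 ρ hρ).2, h2⟩⟩

end Par

end Pool.Agent.Lib.MP_176ace_nt.Gr
end

section

set_option autoImplicit false

/-!
# T3L: sums and products over `T3`

`prod_T3`, `sum_T3` (e.g. `prod_T3` for `Multiplicative A`), `sum_Vres`: the unions in the definitions of `T3` and `Vres` are disjoint (`S.disj` for different requests,
`vx_inj` for different rows of one request), and `vx ρ y` is injective (`vx_inj`).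
`T3_sub`: clear (the vertices are in `Vres`). `T3_V`, `Vres_V`, `T3_w`: from `vx_V`, `vx_w`, `S.sub`.
`card_even`: `#{W : sg W = 1} = #{W : sg W = -1}` (`m ≥ 2 ≥ 1`; `∑ sg W = ∏ (1 - 1) = 0`, `Finset.sum_powerset_neg_one_pow_card`).
`card_T3`: so every chosen half has `2^(m-1)` elements. `w_Vres`: `∑_{Vres} w = #Vres / 2 = #T3`.
-/

namespace Pool.Agent.Lib.MP_176ace_nt.Gr

open Finset

private theorem t3l_sg {m : ℕ} (W : Finset (Fin m)) : sg W = 1 ∨ sg W = -1 :=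
  neg_one_pow_eq_or ℤ _

theorem card_even {m : ℕ} (hm : 1 ≤ m) :
    #{W : Finset (Fin m) | sg W = 1} = #{W : Finset (Fin m) | sg W = -1} := by
  have h0 : ∑ W : Finset (Fin m), sg W = 0 := by
    have h1 := Finset.sum_powerset_neg_one_pow_card (x := (univ : Finset (Fin m)))
    have hne : (univ : Finset (Fin m)) ≠ ∅ := by
      have : Nonempty (Fin m) := ⟨⟨0, hm⟩⟩
      exact Finset.univ_nonempty.ne_empty
    rw [if_neg hne, Finset.powerset_univ] at h1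
    exact h1
  have h2 : ∀ W : Finset (Fin m), sg W =
      (if sg W = 1 then (1 : ℤ) else 0) - (if sg W = -1 then (1 : ℤ) else 0) := by
    intro W
    rcases t3l_sg W with h | h <;> rw [h] <;> norm_num
  rw [Finset.sum_congr rfl fun W _ => h2 W, Finset.sum_sub_distrib, Finset.sum_boole,
    Finset.sum_boole] at h0
  have h3 : ((#{W : Finset (Fin m) | sg W = 1} : ℕ) : ℤ) =
      ((#{W : Finset (Fin m) | sg W = -1} : ℕ) : ℤ) := by
    simpa [sub_eq_zero] using h0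
  exact_mod_cast h3

/-- the number of vertices in a half -/
private theorem t3l_half {m : ℕ} (hm : 1 ≤ m) {ε : ℤ} (hε : ε = 1 ∨ ε = -1) :
    2 * #{W : Finset (Fin m) | sg W = ε} = #(univ : Finset (Finset (Fin m))) := by
  have h1 : #(univ : Finset (Finset (Fin m))) = #{W : Finset (Fin m) | sg W = 1} +
      #{W : Finset (Fin m) | sg W = -1} := by
    rw [← Finset.card_union_of_disjoint]
    · congr 1
      ext W
      simpa using t3l_sg W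
    · rw [Finset.disjoint_left]
      intro W hW hW'
      rw [Finset.mem_filter] at hW hW'
      rw [hW.2] at hW'
      norm_num at hW'
  have h2 := card_even hm
  rcases hε with rfl | rfl <;> omega

namespace Par

variable {m : ℕ} (P : Par m)

private theorem t3l_disj1 (S : P.Sel) (A : Req m → ℤ → Finset (Finset (Fin m))) :
    Set.PairwiseDisjoint (P.R : Set (Req m))
      (fun ρ => (S.Ch ρ).biUnion fun y => image (P.vx ρ y) (A ρ y)) := by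
  intro ρ hρ ρ' hρ' hne
  simp only [Function.onFun]
  rw [Finset.disjoint_left]
  intro v hv hv'
  simp only [Finset.mem_biUnion, Finset.mem_image] at hv hv'
  obtain ⟨y, hy, W, -, rfl⟩ := hv
  obtain ⟨y', hy', W', -, h⟩ := hv'
  exact S.disj ρ hρ ρ' hρ' hne y hy y' hy' W W' h.symm

private theorem t3l_disj2 (S : P.Sel) (A : Req m → ℤ → Finset (Finset (Fin m))) {ρ : Req m}
    (hρ : ρ ∈ P.R) : Set.PairwiseDisjoint (S.Ch ρ : Set ℤ)
      (fun y => image (P.vx ρ y) (A ρ y)) := by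
  intro y _ y' _ hne
  simp only [Function.onFun]
  rw [Finset.disjoint_left]
  intro v hv hv'
  simp only [Finset.mem_image] at hv hv'
  obtain ⟨W, -, rfl⟩ := hv
  obtain ⟨W', -, h⟩ := hv'
  exact hne (P.vx_inj hρ h).1.symm

private theorem t3l_prod (S : P.Sel) (A : Req m → ℤ → Finset (Finset (Fin m))) {B : Type*}
    [CommMonoid B] (G : ℤ × ℤ → B) :
    ∏ v ∈ P.R.biUnion fun ρ => (S.Ch ρ).biUnion fun y => image (P.vx ρ y) (A ρ y), G v =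
      ∏ ρ ∈ P.R, ∏ y ∈ S.Ch ρ, ∏ W ∈ A ρ y, G (P.vx ρ y W) := by
  rw [Finset.prod_biUnion (P.t3l_disj1 S A)]
  refine Finset.prod_congr rfl fun ρ hρ => ?_
  rw [Finset.prod_biUnion (P.t3l_disj2 S A hρ)]
  refine Finset.prod_congr rfl fun y _ => ?_
  exact Finset.prod_image fun W _ W' _ h => (P.vx_inj hρ h).2

private theorem t3l_sum (S : P.Sel) (A : Req m → ℤ → Finset (Finset (Fin m))) {B : Type*}
    [AddCommMonoid B] (G : ℤ × ℤ → B) :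
    ∑ v ∈ P.R.biUnion fun ρ => (S.Ch ρ).biUnion fun y => image (P.vx ρ y) (A ρ y), G v =
      ∑ ρ ∈ P.R, ∑ y ∈ S.Ch ρ, ∑ W ∈ A ρ y, G (P.vx ρ y W) := by
  rw [Finset.sum_biUnion (P.t3l_disj1 S A)]
  refine Finset.sum_congr rfl fun ρ hρ => ?_
  rw [Finset.sum_biUnion (P.t3l_disj2 S A hρ)]
  refine Finset.sum_congr rfl fun y _ => ?_
  exact Finset.sum_image fun W _ W' _ h => (P.vx_inj hρ h).2

theorem prod_T3 (S : P.Sel) (Mi : Req m → Finset ℤ) {A : Type*} [CommMonoid A] (G : ℤ × ℤ → A) :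
    ∏ v ∈ P.T3 S.Ch Mi, G v = ∏ ρ ∈ P.R, ∏ y ∈ S.Ch ρ,
      ∏ W : Finset (Fin m) with sg W = (if y ∈ Mi ρ then -1 else 1), G (P.vx ρ y W) := by
  exact P.t3l_prod S (fun ρ y => {W : Finset (Fin m) | sg W = (if y ∈ Mi ρ then -1 else 1)}) G

theorem sum_T3 (S : P.Sel) (Mi : Req m → Finset ℤ) {A : Type*} [AddCommMonoid A]
    (G : ℤ × ℤ → A) : ∑ v ∈ P.T3 S.Ch Mi, G v = ∑ ρ ∈ P.R, ∑ y ∈ S.Ch ρ,
      ∑ W : Finset (Fin m) with sg W = (if y ∈ Mi ρ then -1 else 1), G (P.vx ρ y W) := by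
  exact P.t3l_sum S (fun ρ y => {W : Finset (Fin m) | sg W = (if y ∈ Mi ρ then -1 else 1)}) G

theorem sum_Vres (S : P.Sel) {A : Type*} [AddCommMonoid A] (G : ℤ × ℤ → A) :
    ∑ v ∈ P.Vres S.Ch, G v = ∑ ρ ∈ P.R, ∑ y ∈ S.Ch ρ, ∑ W : Finset (Fin m), G (P.vx ρ y W) := by
  exact P.t3l_sum S (fun _ _ => univ) G

theorem T3_sub (Ch Mi : Req m → Finset ℤ) : P.T3 Ch Mi ⊆ P.Vres Ch := by
  unfold T3 Vres half
  intro v hv
  simp only [Finset.mem_biUnion, Finset.mem_image] at hv ⊢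
  obtain ⟨ρ, hρ, y, hy, W, -, rfl⟩ := hv
  exact ⟨ρ, hρ, y, hy, W, Finset.mem_univ _, rfl⟩

theorem Vres_V (S : P.Sel) : P.Vres S.Ch ⊆ P.V := by
  unfold Vres
  intro v hv
  simp only [Finset.mem_biUnion, Finset.mem_image] at hv
  obtain ⟨ρ, hρ, y, hy, W, -, rfl⟩ := hv
  exact P.vx_V hρ (S.sub ρ hρ hy) W

theorem Vres_w (S : P.Sel) {r : ℕ} (hr : m * P.B0 ≤ r) (θ : ℝ) {v : ℤ × ℤ}
    (hv : v ∈ P.Vres S.Ch) : P.w r θ v = 1 / 2 := by
  unfold Vres at hv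
  simp only [Finset.mem_biUnion, Finset.mem_image] at hv
  obtain ⟨ρ, hρ, y, hy, W, -, rfl⟩ := hv
  exact P.vx_w hρ (S.sub ρ hρ hy) W hr θ

theorem card_T3 (S : P.Sel) (Mi : Req m → Finset ℤ) :
    2 * #(P.T3 S.Ch Mi) = #(P.Vres S.Ch) := by
  rw [Finset.card_eq_sum_ones, Finset.card_eq_sum_ones, P.sum_T3 S Mi, P.sum_Vres S]
  simp only [Finset.mul_sum]
  refine Finset.sum_congr rfl fun ρ _ => Finset.sum_congr rfl fun y _ => ?_
  rw [← Finset.mul_sum, ← Finset.card_eq_sum_ones, ← Finset.card_eq_sum_ones]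
  refine t3l_half (le_trans (by norm_num) P.hm) ?_
  split_ifs
  · exact Or.inr rfl
  · exact Or.inl rfl

theorem w_Vres (S : P.Sel) {r : ℕ} (hr : m * P.B0 ≤ r) (θ : ℝ) (Mi : Req m → Finset ℤ) :
    ∑ v ∈ P.Vres S.Ch, P.w r θ v = #(P.T3 S.Ch Mi) := by
  rw [Finset.sum_congr rfl fun v hv => P.Vres_w S hr θ hv, Finset.sum_const, nsmul_eq_mul,
    ← P.card_T3 S Mi]
  push_cast
  ring

end Par

end Pool.Agent.Lib.MP_176ace_nt.Gr
end
end
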