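import Mathlib
import Pool.Agent.Lib.MP_176ace_nt.Gr.VFacts
import Pool.Agent.Lib.MP_176ace_nt.Gr.EZero
import Pool.Agent.Lib.MP_176ace_nt.Gr.T3L

section

set_option autoImplicit false

/-!
# BF: Beck-Fiala rounding

Proof. Generalise: given `w` with values in `[0,1]`, call `v` floating if `0 < w v < 1`. Claim: for every
`I' ⊆ I` (the active rows) ... Simplest organisation: induction on the number of floating `v`, for the statement

  for all `w : V → [0,1]` there is `eps : V → {0,1}`, `eps = w` at the non-floating `v`, such that for every row `i`: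
  `|∑ a i v (eps v - w v)| ≤ ∑_{v floating} |a i v|` always (trivial, `|eps - w| ≤ 1`), and
  `|∑ a i v (eps v - w v)| ≤ β`.

Step: if there is no floating `v`, `eps = w`. Otherwise a row `i` is active if `∑_{v floating} |a i v| > β`.
`∑_{i active} ∑_{v floating} |a i v| ≤ β #floating` (column sums), so `#active < #floating` (if `β > 0`; if some row is
active then `β #active < ...`; if no row is active any direction works). So there is `z : V → ℝ`, `z ≠ 0`, supported on the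
floating `v`, with `∑ a i v z v = 0` for all active `i` (more unknowns than equations:
`LinearMap.exists_ne_zero_of_finrank_lt`-type lemma / `exists_ne_zero ... ker`). Let `t > 0` be maximal with
`w + t z` in `[0,1]` (or use `-z`): a new coordinate becomes 0 or 1, the floating set of `w' = w + t z` is strictly
smaller and contained in the old one. Induction gives `eps` for `w'`. Row `i` active for `w`:
`∑ a i v (eps v - w v) = ∑ a i v (eps v - w' v)`, absolute value `≤ β` by induction. Row `i` not active for `w`: use the trivial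
bound: `|∑ a i v (eps v - w v)| ≤ ∑_{v floating for w} |a i v| ≤ β`.
-/

namespace Pool.Agent.Lib.MP_176ace_nt.Gr

open Finset

private theorem BF_aux {V I : Type*} [Fintype V] [Fintype I] (a : I → V → ℝ) (β : ℝ)
    (hβ0 : 0 ≤ β) (hβ : ∀ v, ∑ i, |a i v| ≤ β) (N : ℕ) :
    ∀ w : V → ℝ, (∀ v, 0 ≤ w v ∧ w v ≤ 1) →
      (Finset.univ.filter fun v => ¬ (w v = 0 ∨ w v = 1)).card ≤ N →
    ∃ e : V → ℝ, (∀ v, e v = 0 ∨ e v = 1) ∧ (∀ v, (w v = 0 ∨ w v = 1) → e v = w v) ∧
      ∀ i, |∑ v, a i v * (e v - w v)| ≤ β := by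
  classical
  induction N with
  | zero =>
    intro w hw hc
    have hall : ∀ v, w v = 0 ∨ w v = 1 := by
      intro v
      by_contra hv
      have : v ∈ Finset.univ.filter fun v => ¬ (w v = 0 ∨ w v = 1) :=
        Finset.mem_filter.2 ⟨Finset.mem_univ _, hv⟩
      have h2 := Finset.card_pos.2 ⟨v, this⟩
      omega
    refine ⟨w, hall, fun v _ => rfl, fun i => ?_⟩
    simpa using hβ0
  | succ N ih =>
    intro w hw hc
    set Fl : Finset V := Finset.univ.filter fun v => ¬ (w v = 0 ∨ w v = 1) with hFl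
    by_cases hne : Fl.Nonempty
    swap
    · rw [Finset.not_nonempty_iff_eq_empty] at hne
      apply ih w hw
      rw [← hFl, hne]; simp
    set Act : Finset I := Finset.univ.filter fun i => β < ∑ v ∈ Fl, |a i v| with hAct
    have hcard : Act.card < Fl.card := by
      by_cases hA : Act.Nonempty
      swap
      · rw [Finset.not_nonempty_iff_eq_empty] at hA
        rw [hA]; simpa using hne.card_pos
      have h1 : ∑ i ∈ Act, β < ∑ i ∈ Act, ∑ v ∈ Fl, |a i v| := by
        apply Finset.sum_lt_sum_of_nonempty hA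
        intro i hi
        exact (Finset.mem_filter.1 hi).2
      have h2 : ∑ i ∈ Act, ∑ v ∈ Fl, |a i v| ≤ ∑ v ∈ Fl, β := by
        rw [Finset.sum_comm]
        apply Finset.sum_le_sum
        intro v _
        refine le_trans ?_ (hβ v)
        exact Finset.sum_le_sum_of_subset_of_nonneg (Finset.subset_univ _)
          (fun i _ _ => abs_nonneg _)
      rw [Finset.sum_const, nsmul_eq_mul] at h1
      rw [Finset.sum_const, nsmul_eq_mul] at h2
      have h3 : (Act.card : ℝ) * β < Fl.card * β := lt_of_lt_of_le h1 h2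
      have h4 : (Act.card : ℝ) < Fl.card := lt_of_mul_lt_mul_right h3 hβ0
      exact_mod_cast h4
    -- a direction
    obtain ⟨z, hz0, hzsupp, hzact⟩ : ∃ z : V → ℝ, (∃ v, z v ≠ 0) ∧ (∀ v, v ∉ Fl → z v = 0) ∧
        ∀ i ∈ Act, ∑ v, a i v * z v = 0 := by
      let L : (Fl → ℝ) →ₗ[ℝ] (Act → ℝ) :=
        { toFun := fun x i => ∑ v : Fl, a i v * x v
          map_add' := by
            intro x y
            ext i
            simp only [Pi.add_apply, mul_add, Finset.sum_add_distrib]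
          map_smul' := by
            intro c x
            ext i
            simp only [Pi.smul_apply, smul_eq_mul, RingHom.id_apply, Finset.mul_sum]
            apply Finset.sum_congr rfl
            intro v _
            ring }
      have hker : LinearMap.ker L ≠ ⊥ := by
        apply LinearMap.ker_ne_bot_of_finrank_lt
        simpa using hcard
      obtain ⟨x, hx, hx0⟩ := Submodule.exists_mem_ne_zero_of_ne_bot hker
      refine ⟨fun v => if h : v ∈ Fl then x ⟨v, h⟩ else (0 : ℝ), ?_, ?_, ?_⟩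
      · by_contra hcon
        push Not at hcon
        apply hx0
        ext v
        have := hcon v.1
        rw [dif_pos v.2] at this
        simpa using this
      · intro v hv
        show (if h : v ∈ Fl then x ⟨v, h⟩ else (0 : ℝ)) = 0
        rw [dif_neg hv]
      · intro i hi
        have h1 : L x ⟨i, hi⟩ = 0 := by rw [LinearMap.mem_ker.1 hx]; rfl
        have h2 : L x ⟨i, hi⟩ = ∑ v : Fl, a i v * x v := rfl
        rw [h2] at h1
        refine Eq.trans ?_ h1
        show ∑ v, a i v * (if h : v ∈ Fl then x ⟨v, h⟩ else (0 : ℝ)) = ∑ v : Fl, a i v * x v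
        have h3 : ∑ v, a i v * (if h : v ∈ Fl then x ⟨v, h⟩ else (0 : ℝ))
            = ∑ v ∈ Fl, a i v * (if h : v ∈ Fl then x ⟨v, h⟩ else (0 : ℝ)) := by
          symm
          apply Finset.sum_subset (Finset.subset_univ _)
          intro v _ hv
          rw [dif_neg hv, mul_zero]
        rw [h3, ← Finset.sum_coe_sort Fl]
        apply Finset.sum_congr rfl
        intro v _
        rw [dif_pos v.2]
    -- the step length
    set S : Finset V := Finset.univ.filter fun v => z v ≠ 0 with hS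
    have hSne : S.Nonempty := by
      obtain ⟨v, hv⟩ := hz0
      exact ⟨v, by simp [hS, hv]⟩
    let st : V → ℝ := fun v => if 0 < z v then (1 - w v) / z v else (w v) / (-z v)
    obtain ⟨v0, hv0, hmin⟩ := Finset.exists_min_image S st hSne
    have hzv0 : z v0 ≠ 0 := (Finset.mem_filter.1 hv0).2
    set t := st v0 with ht
    have ht0 : 0 ≤ t := by
      rw [ht]
      simp only [st]
      split_ifs with h
      · exact div_nonneg (by linarith [(hw v0).2]) h.le
      · exact div_nonneg (hw v0).1 (by linarith [not_lt.1 h])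
    have hbd : ∀ v, 0 ≤ w v + t * z v ∧ w v + t * z v ≤ 1 := by
      intro v
      by_cases hzv : z v = 0
      · rw [hzv, mul_zero, add_zero]; exact hw v
      have hvS : v ∈ S := by simp [hS, hzv]
      have hle : t ≤ st v := hmin v hvS
      simp only [st] at hle
      rcases lt_or_gt_of_ne hzv with hneg | hpos
      · rw [if_neg (not_lt.2 hneg.le), le_div_iff₀ (by linarith)] at hle
        constructor
        · linarith
        · have : t * z v ≤ 0 := mul_nonpos_of_nonneg_of_nonpos ht0 hneg.le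
          linarith [(hw v).2]
      · rw [if_pos hpos, le_div_iff₀ hpos] at hle
        constructor
        · have : 0 ≤ t * z v := mul_nonneg ht0 hpos.le
          linarith [(hw v).1]
        · linarith
    have hv0end : w v0 + t * z v0 = 0 ∨ w v0 + t * z v0 = 1 := by
      rcases lt_or_gt_of_ne hzv0 with hneg | hpos
      · left
        rw [ht]
        simp only [st]
        rw [if_neg (not_lt.2 hneg.le)]
        field_simp
        ring
      · right
        rw [ht]
        simp only [st]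
        rw [if_pos hpos]
        field_simp
        ring
    have hv0Fl : v0 ∈ Fl := by
      by_contra h
      exact hzv0 (hzsupp v0 h)
    obtain ⟨e, he1, he2, he3⟩ := ih (fun v => w v + t * z v) hbd (by
      have hsub : (Finset.univ.filter fun v => ¬ (w v + t * z v = 0 ∨ w v + t * z v = 1)) ⊆
          Fl.erase v0 := by
        intro v hv
        rw [Finset.mem_filter] at hv
        rw [Finset.mem_erase]
        refine ⟨?_, ?_⟩
        · rintro rfl
          exact hv.2 hv0end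
        · by_contra hvF
          apply hv.2
          rw [hzsupp v hvF, mul_zero, add_zero]
          have : ¬ ¬ (w v = 0 ∨ w v = 1) := by
            intro hcon
            exact hvF (Finset.mem_filter.2 ⟨Finset.mem_univ _, hcon⟩)
          exact not_not.1 this
      have h1 := Finset.card_le_card hsub
      rw [Finset.card_erase_of_mem hv0Fl] at h1
      have h2 := hne.card_pos
      omega)
    have hoff : ∀ v, v ∉ Fl → e v = w v := by
      intro v hv
      have h1 : w v = 0 ∨ w v = 1 := by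
        by_contra hcon
        exact hv (Finset.mem_filter.2 ⟨Finset.mem_univ _, hcon⟩)
      have h4 : w v + t * z v = w v := by rw [hzsupp v hv, mul_zero, add_zero]
      have h2 := he2 v (by
        show w v + t * z v = 0 ∨ w v + t * z v = 1
        rw [h4]; exact h1)
      have h5 : e v = w v + t * z v := h2
      rw [h4] at h5
      exact h5
    refine ⟨e, he1, ?_, ?_⟩
    · intro v hv
      apply hoff
      rw [hFl, Finset.mem_filter]
      exact fun h => h.2 hv
    · intro i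
      by_cases hi : i ∈ Act
      · have h1 := he3 i
        have h2 : ∑ v, a i v * (e v - w v) = ∑ v, a i v * (e v - (w v + t * z v)) := by
          have h3 : ∑ v, a i v * (e v - w v) =
              ∑ v, a i v * (e v - (w v + t * z v)) + t * ∑ v, a i v * z v := by
            rw [Finset.mul_sum, ← Finset.sum_add_distrib]
            apply Finset.sum_congr rfl
            intro v _
            ring
          rw [h3, hzact i hi, mul_zero, add_zero]
        rw [h2]; exact h1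
      · have hle : ∑ v ∈ Fl, |a i v| ≤ β := by
          by_contra hcon
          exact hi (by rw [hAct]; simp [not_le.1 hcon])
        calc |∑ v, a i v * (e v - w v)| ≤ ∑ v, |a i v * (e v - w v)| :=
              Finset.abs_sum_le_sum_abs _ _
          _ = ∑ v ∈ Fl, |a i v * (e v - w v)| := by
              symm
              apply Finset.sum_subset (Finset.subset_univ _)
              intro v _ hv
              rw [hoff v hv, sub_self, mul_zero, abs_zero]
          _ ≤ ∑ v ∈ Fl, |a i v| := by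
              apply Finset.sum_le_sum
              intro v _
              rw [abs_mul]
              have h1 : |e v - w v| ≤ 1 := by
                rw [abs_le]
                rcases he1 v with h | h <;> rw [h] <;> constructor <;>
                  linarith [(hw v).1, (hw v).2]
              nlinarith [abs_nonneg (a i v)]
          _ ≤ β := hle

theorem beck_fiala {V I : Type*} [Fintype V] [Fintype I] (a : I → V → ℝ) (β : ℝ) (hβ0 : 0 ≤ β)
    (hβ : ∀ v, ∑ i, |a i v| ≤ β) (w : V → ℝ) (hw : ∀ v, 0 ≤ w v ∧ w v ≤ 1) :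
    ∃ e : V → ℝ, (∀ v, e v = 0 ∨ e v = 1) ∧ (∀ v, w v = 0 → e v = 0) ∧
      ∀ i, |∑ v, a i v * (e v - w v)| ≤ β := by
  obtain ⟨e, h1, h2, h3⟩ := BF_aux a β hβ0 hβ _ w hw le_rfl
  exact ⟨e, h1, fun v hv => by rw [h2 v (Or.inl hv), hv], h3⟩

end Pool.Agent.Lib.MP_176ace_nt.Gr
end

section

set_option autoImplicit false

/-!
# Adds: the additional points (paper 221, Section 7)

`f_i = (i ya + 1, ya)` (`0 ≤ i < b^3`): all `L_j > 0`. `g_i = (-(i ya + 1), ya)` (`1 ≤ i ≤ m + 2`): `L_j = (j - i) ya - 1 < 0` iff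
`j ≤ i`. All have `gcd = 1`, `|x| ≤ b^33 + 1 ≤ X / 4`, so they lie in `V` and `2 |L_j| ≤ X` for `j ≤ m`.
Choose a set `G ⊆ {1, ..., m - 1}` of indices such that the sign of `s j * ∏_{i ∈ G} L_j g_i` is the same for
`j = 1..m` (downward: `g_i` changes exactly the signs of the labels `j ≤ i`; so decide on `g_{m-1}, g_{m-2}, ..., g_1`
by comparing the labels `i + 1` and `i`). `g_{m+1}` is always taken (it changes all signs and has `-x = (m+1) ya + 1 > m y`), and
`g_{m+2}` is taken iff this is needed to make the signs positive. `#G + 2 ≤ m + 1 ≤ N`, so add `N - #(...)`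
of the `f_i` (`N ≤ m + 2 + 2 beta ≤ b^3`).
-/

namespace Pool.Agent.Lib.MP_176ace_nt.Gr

open Finset

/-- the sign change of the label `j` by the points `g_i`, `i ∈ A` -/
private def chiA (j : ℕ) (A : Finset ℕ) : ℤ := ∏ i ∈ A, if j ≤ i then (-1 : ℤ) else 1

private theorem chiA_sq (j : ℕ) (A : Finset ℕ) : chiA j A * chiA j A = 1 := by
  unfold chiA
  rw [← Finset.prod_mul_distrib]
  apply Finset.prod_eq_one
  intro i _
  split_ifs <;> norm_num

private theorem exists_G (s : ℕ → ℤ) (hs : ∀ j, s j ≠ 0) (m : ℕ) :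
    ∀ j, 1 ≤ j → j ≤ m →
      0 < s m * s j * chiA j ((Ico 1 m).filter fun i => s i * s (i + 1) < 0) := by
  induction m with
  | zero => intro j h1 h2; omega
  | succ m ih =>
    intro j h1 h2
    rcases Nat.lt_or_ge m j with hlt | hge
    · have hj : j = m + 1 := by omega
      subst hj
      have h3 : chiA (m + 1) ((Ico 1 (m + 1)).filter fun i => s i * s (i + 1) < 0) = 1 := by
        unfold chiA
        apply Finset.prod_eq_one
        intro i hi
        have := (Finset.mem_Ico.1 (Finset.mem_filter.1 hi).1).2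
        rw [if_neg (by omega)]
      rw [h3, mul_one]
      exact mul_self_pos.2 (hs _)
    · have hm1 : 1 ≤ m := le_trans h1 hge
      have ih' := ih j h1 hge
      have h4 : chiA j ((Ico 1 (m + 1)).filter fun i => s i * s (i + 1) < 0) =
          chiA j ((Ico 1 m).filter fun i => s i * s (i + 1) < 0) *
            (if s m * s (m + 1) < 0 then (-1 : ℤ) else 1) := by
        unfold chiA
        rw [Finset.prod_filter, Finset.prod_filter, Finset.prod_Ico_succ_top hm1, if_pos hge]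
      rw [h4]
      have hsq : 0 < s m * s m := mul_self_pos.2 (hs m)
      have hσ : 0 < s m * s (m + 1) * (if s m * s (m + 1) < 0 then (-1 : ℤ) else 1) := by
        have hne : s m * s (m + 1) ≠ 0 := mul_ne_zero (hs _) (hs _)
        split_ifs with h
        · linarith
        · rw [mul_one]
          exact lt_of_le_of_ne (not_lt.1 h) (Ne.symm hne)
      set τ : ℤ := if s m * s (m + 1) < 0 then (-1 : ℤ) else 1
      set χ := chiA j ((Ico 1 m).filter fun i => s i * s (i + 1) < 0)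
      have h5 : 0 < (s m * s m) * (s (m + 1) * s j * (χ * τ)) := by
        have : (s m * s m) * (s (m + 1) * s j * (χ * τ)) =
            (s m * s (m + 1) * τ) * (s m * s j * χ) := by ring
        rw [this]
        exact mul_pos hσ ih'
      exact (mul_pos_iff_of_pos_left hsq).1 h5

namespace Par

variable {m : ℕ} (P : Par m)

/-- a point of the addition row -/
private def fpt (i : ℕ) : ℤ × ℤ := ((i : ℤ) * P.ya + 1, P.ya)

/-- a point of the addition row -/
private def gpt (i : ℕ) : ℤ × ℤ := (-((i : ℤ) * P.ya + 1), P.ya)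

private theorem ya_ge : (2 : ℤ) ≤ P.ya := by
  have h1 := P.ya_eq
  have h2 := P.b29_lt
  have h3 : (P.ya : ℤ) + (P.b : ℤ) ^ 26 = P.Y + 1 := by exact_mod_cast h1
  have h4 : (1 : ℤ) ≤ (P.b : ℤ) ^ 29 := by
    have : 1 ≤ P.b ^ 29 := Nat.one_le_pow _ _ P.b_pos
    exact_mod_cast this
  linarith

private theorem ya_le : (P.ya : ℤ) ≤ (P.b : ℤ) ^ 30 := by
  have h1 := P.ya_eq
  have h4 : 1 ≤ P.b ^ 26 := Nat.one_le_pow _ _ P.b_pos
  have h5 : P.ya ≤ P.Y := by omega
  have h6 : (P.ya : ℤ) ≤ (P.Y : ℤ) := by exact_mod_cast h5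
  have h7 : (P.Y : ℤ) = (P.b : ℤ) ^ 30 := by
    unfold Y
    push_cast
    ring
  rw [h7] at h6
  exact h6

private theorem bound33 {i : ℕ} (hi : i ≤ P.b ^ 3) :
    4 * ((i : ℤ) * P.ya + 1) ≤ P.X ∧ 4 * ((m : ℤ) * P.ya) ≤ P.X := by
  have hy := P.ya_le
  have hy2 := P.ya_ge
  have hb := P.b_big
  have hbZ : (10 ^ 6 : ℤ) ≤ P.b := by exact_mod_cast hb
  have hX : (P.X : ℤ) = (P.b : ℤ) ^ 90 := by
    unfold X
    push_cast
    ring
  have hiZ : (i : ℤ) ≤ (P.b : ℤ) ^ 3 := by exact_mod_cast hi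
  have hmle : m ≤ P.b := by
    refine le_trans ?_ P.m_le
    have hm := P.m_pos
    nlinarith
  have hmZ : (m : ℤ) ≤ (P.b : ℤ) ^ 3 := by
    have h1 : m ≤ P.b ^ 3 := le_trans hmle (Nat.le_self_pow (by norm_num) _)
    exact_mod_cast h1
  have h33 : (P.b : ℤ) ^ 3 * (P.b : ℤ) ^ 30 = (P.b : ℤ) ^ 33 := by ring
  have h34 : 5 * (P.b : ℤ) ^ 33 ≤ (P.b : ℤ) ^ 34 := by
    have h0 : (0 : ℤ) ≤ (P.b : ℤ) ^ 33 := by positivity
    calc 5 * (P.b : ℤ) ^ 33 ≤ (P.b : ℤ) * (P.b : ℤ) ^ 33 :=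
          mul_le_mul_of_nonneg_right (by linarith) h0
      _ = (P.b : ℤ) ^ 34 := by ring
  have h90 : (P.b : ℤ) ^ 34 ≤ (P.b : ℤ) ^ 90 := pow_le_pow_right₀ (by linarith) (by norm_num)
  have h4 : (4 : ℤ) ≤ (P.b : ℤ) ^ 33 := by
    have : (P.b : ℤ) ^ 1 ≤ (P.b : ℤ) ^ 33 := pow_le_pow_right₀ (by linarith) (by norm_num)
    linarith
  have key : ∀ t : ℤ, 0 ≤ t → t ≤ (P.b : ℤ) ^ 3 → t * P.ya ≤ (P.b : ℤ) ^ 33 := by
    intro t ht0 ht
    rw [← h33]
    exact mul_le_mul ht hy (by linarith) (by positivity)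
  have k1 := key i (by positivity) hiZ
  have k2 := key m (by positivity) hmZ
  rw [hX]
  constructor <;> linarith

private theorem coprime_row (i : ℕ) : Int.gcd ((i : ℤ) * P.ya + 1) P.ya = 1 := by
  rw [← Int.isCoprime_iff_gcd_eq_one]
  exact ⟨1, -(i : ℤ), by ring⟩

private theorem pt_V {x : ℤ} {i : ℕ} (hi : i ≤ P.b ^ 3)
    (hx : x = (i : ℤ) * P.ya + 1 ∨ x = -((i : ℤ) * P.ya + 1)) :
    (x, (P.ya : ℤ)) ∈ P.V ∧ ∀ j ≤ m, 2 * (L j (x, (P.ya : ℤ))).natAbs ≤ P.X := by
  have hy2 := P.ya_ge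
  obtain ⟨k1, k2⟩ := P.bound33 hi
  have hpos : (0 : ℤ) ≤ (i : ℤ) * P.ya + 1 := by positivity
  have habs : |x| = (i : ℤ) * P.ya + 1 := by
    rcases hx with rfl | rfl
    · exact abs_of_nonneg hpos
    · rw [abs_neg]
      exact abs_of_nonneg hpos
  constructor
  · rw [P.mem_V]
    refine ⟨?_, ⟨?_, ?_⟩, ?_⟩
    · show |x| ≤ (P.X : ℤ)
      rw [habs]
      linarith
    · have h1 := P.ya_eq
      have h3 : (P.ya : ℤ) + (P.b : ℤ) ^ 26 = P.Y + 1 := by exact_mod_cast h1
      show (P.Y : ℤ) - P.b ^ 26 < (P.ya : ℤ)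
      linarith
    · have h1 := P.ya_eq
      have h4 : 1 ≤ P.b ^ 26 := Nat.one_le_pow _ _ P.b_pos
      have h5 : P.ya ≤ P.Y := by omega
      show (P.ya : ℤ) ≤ (P.Y : ℤ)
      exact_mod_cast h5
    · show Int.gcd x P.ya < P.b ^ 3
      have h1 : Int.gcd x P.ya = 1 := by
        rcases hx with rfl | rfl
        · exact P.coprime_row i
        · rw [Int.neg_gcd]
          exact P.coprime_row i
      rw [h1]
      have hb := P.b_big
      have : P.b ≤ P.b ^ 3 := Nat.le_self_pow (by norm_num) _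
      omega
  · intro j hj
    have h1 : |L j (x, (P.ya : ℤ))| ≤ ((i : ℤ) * P.ya + 1) + (m : ℤ) * P.ya := by
      unfold L
      have hjm : (j : ℤ) ≤ m := by exact_mod_cast hj
      have hj0 : (0 : ℤ) ≤ (j : ℤ) * P.ya := by positivity
      calc |x + (j : ℤ) * P.ya| ≤ |x| + |(j : ℤ) * P.ya| := abs_add_le _ _
        _ ≤ ((i : ℤ) * P.ya + 1) + (m : ℤ) * P.ya := by
          rw [habs, abs_of_nonneg hj0]
          gcongr
    have h2 : (2 : ℤ) * ((L j (x, (P.ya : ℤ))).natAbs : ℤ) ≤ P.X := by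
      rw [Int.natCast_natAbs]
      linarith
    exact_mod_cast h2

private theorem L_fpt (j i : ℕ) : 0 < L j (P.fpt i) := by
  have hy2 := P.ya_ge
  unfold L fpt
  positivity

private theorem L_gpt (j i : ℕ) : 0 < (if j ≤ i then (-1 : ℤ) else 1) * L j (P.gpt i) := by
  have hy2 := P.ya_ge
  have h1 : L j (P.gpt i) = ((j : ℤ) - i) * P.ya - 1 := by
    unfold L gpt
    ring
  rw [h1]
  split_ifs with h
  · have h2 : (j : ℤ) - i ≤ 0 := by
      have : (j : ℤ) ≤ i := by exact_mod_cast h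
      linarith
    have h3 : ((j : ℤ) - i) * P.ya ≤ 0 := mul_nonpos_of_nonpos_of_nonneg h2 (by linarith)
    linarith
  · have h2 : (1 : ℤ) ≤ (j : ℤ) - i := by
      have : i + 1 ≤ j := by omega
      have : (i : ℤ) + 1 ≤ j := by exact_mod_cast this
      linarith
    have h3 : (P.ya : ℤ) ≤ ((j : ℤ) - i) * P.ya := by nlinarith
    linarith

private theorem prod_gpt (j : ℕ) (A : Finset ℕ) : 0 < chiA j A * ∏ i ∈ A, L j (P.gpt i) := by
  unfold chiA
  rw [← Finset.prod_mul_distrib]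
  exact Finset.prod_pos fun i _ => P.L_gpt j i

theorem additions (s : ℕ → ℤ) (hs : ∀ j, s j ≠ 0) {N : ℕ} (hN : m + 2 ≤ N)
    (hN' : N ≤ m + 2 + 2 * P.beta) :
    ∃ T2 ⊆ P.V, (∀ v ∈ T2, v.2 = P.ya) ∧ (∀ v ∈ T2, ∀ j ≤ m, 2 * (L j v).natAbs ≤ P.X) ∧
      #T2 = N ∧ (∀ j ∈ Icc 1 m, 0 < s j * ∏ v ∈ T2, L j v) ∧
      ∃ v ∈ T2, (m : ℤ) * v.2 < -v.1 := by
  classical
  have hm := P.m_pos
  have hy2 := P.ya_ge
  have hmle : m ≤ P.b := by
    refine le_trans ?_ P.m_le
    nlinarith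
  have hNb : N ≤ P.b ^ 3 := by
    have h1 := P.beta_le
    have h2 := P.b_big
    have h3 : P.b * P.b ^ 2 = P.b ^ 3 := by ring
    nlinarith
  set G : Finset ℕ := (Ico 1 m).filter fun i => s i * s (i + 1) < 0 with hG
  set A : Finset ℕ := insert (m + 1) (if 0 < s m then insert (m + 2) G else G) with hA
  have hGlt : ∀ i ∈ G, i < m := fun i hi => (Finset.mem_Ico.1 (Finset.mem_filter.1 hi).1).2
  have hGc : #G ≤ m - 1 := by
    refine le_trans (Finset.card_filter_le _ _) ?_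
    rw [Nat.card_Ico]
  have hAc : #A ≤ m + 1 := by
    refine le_trans (Finset.card_insert_le _ _) ?_
    split_ifs
    · have := Finset.card_insert_le (m + 2) G
      omega
    · omega
  have hAle : ∀ i ∈ A, i ≤ m + 2 := by
    intro i hi
    rw [hA, Finset.mem_insert] at hi
    rcases hi with rfl | hi
    · omega
    · split_ifs at hi
      · rw [Finset.mem_insert] at hi
        rcases hi with rfl | hi
        · omega
        · have := hGlt i hi; omega
      · have := hGlt i hi; omega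
  have hsign : ∀ j ∈ Icc 1 m, 0 < s j * chiA j A := by
    intro j hj
    rw [Finset.mem_Icc] at hj
    have h1 := exists_G s hs m j hj.1 hj.2
    rw [← hG] at h1
    have hn1 : m + 1 ∉ G := fun h => by have := hGlt _ h; omega
    have hn2 : m + 2 ∉ G := fun h => by have := hGlt _ h; omega
    rw [hA]
    split_ifs with hpos
    · have h2 : chiA j (insert (m + 1) (insert (m + 2) G)) = chiA j G := by
        unfold chiA
        rw [Finset.prod_insert, Finset.prod_insert hn2, if_pos (by omega), if_pos (by omega)]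
        · ring
        · rw [Finset.mem_insert]
          rintro (h | h)
          · omega
          · exact hn1 h
      rw [h2]
      have h3 : s m * s j * chiA j G = s m * (s j * chiA j G) := by ring
      rw [h3] at h1
      exact (mul_pos_iff_of_pos_left hpos).1 h1
    · have h2 : chiA j (insert (m + 1) G) = -chiA j G := by
        unfold chiA
        rw [Finset.prod_insert hn1, if_pos (by omega)]
        ring
      rw [h2]
      have hneg : 0 < -s m := by
        have := lt_of_le_of_ne (not_lt.1 hpos) (hs m)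
        linarith
      have h3 : s m * s j * chiA j G = -s m * (s j * -chiA j G) := by ring
      rw [h3] at h1
      exact (mul_pos_iff_of_pos_left hneg).1 h1
  set K := N - #A with hK
  have hKN : K ≤ N := Nat.sub_le _ _
  have hgi : Set.InjOn P.gpt (A : Set ℕ) := by
    intro i _ i' _ h
    have h1 : -((i : ℤ) * P.ya + 1) = -((i' : ℤ) * P.ya + 1) := congrArg Prod.fst h
    have h2 : (i : ℤ) * P.ya = (i' : ℤ) * P.ya := by linarith
    have h3 : (i : ℤ) = i' := mul_right_cancel₀ (by linarith) h2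
    exact_mod_cast h3
  have hfi : Set.InjOn P.fpt (range K : Set ℕ) := by
    intro i _ i' _ h
    have h1 : (i : ℤ) * P.ya + 1 = (i' : ℤ) * P.ya + 1 := congrArg Prod.fst h
    have h2 : (i : ℤ) * P.ya = (i' : ℤ) * P.ya := by linarith
    have h3 : (i : ℤ) = i' := mul_right_cancel₀ (by linarith) h2
    exact_mod_cast h3
  have hdisj : Disjoint (A.image P.gpt) ((range K).image P.fpt) := by
    rw [Finset.disjoint_left]
    intro v hv hv'
    obtain ⟨i, -, rfl⟩ := Finset.mem_image.1 hv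
    obtain ⟨i', -, h⟩ := Finset.mem_image.1 hv'
    have h1 : (i' : ℤ) * P.ya + 1 = -((i : ℤ) * P.ya + 1) := congrArg Prod.fst h
    have h2 : (0 : ℤ) ≤ (i : ℤ) * P.ya := by positivity
    have h3 : (0 : ℤ) ≤ (i' : ℤ) * P.ya := by positivity
    linarith
  have hall : ∀ v ∈ A.image P.gpt ∪ (range K).image P.fpt, v.2 = P.ya ∧ v ∈ P.V ∧
      ∀ j ≤ m, 2 * (L j v).natAbs ≤ P.X := by
    intro v hv
    rw [Finset.mem_union, Finset.mem_image, Finset.mem_image] at hv
    rcases hv with ⟨i, hi, rfl⟩ | ⟨i, hi, rfl⟩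
    · have h1 := hAle i hi
      exact ⟨rfl, P.pt_V (x := -((i : ℤ) * P.ya + 1)) (i := i) (by omega) (Or.inr rfl)⟩
    · have h1 := Finset.mem_range.1 hi
      exact ⟨rfl, P.pt_V (x := (i : ℤ) * P.ya + 1) (i := i) (by omega) (Or.inl rfl)⟩
  refine ⟨A.image P.gpt ∪ (range K).image P.fpt, fun v hv => (hall v hv).2.1,
    fun v hv => (hall v hv).1, fun v hv => (hall v hv).2.2, ?_, ?_, ?_⟩
  · rw [Finset.card_union_of_disjoint hdisj, Finset.card_image_of_injOn hgi,
      Finset.card_image_of_injOn hfi, Finset.card_range]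
    omega
  · intro j hj
    rw [Finset.prod_union hdisj, Finset.prod_image hgi, Finset.prod_image hfi]
    have h1 := hsign j hj
    have h2 := P.prod_gpt j A
    have h3 : 0 < ∏ i ∈ range K, L j (P.fpt i) := Finset.prod_pos fun i _ => P.L_fpt j i
    have h4 := mul_pos (mul_pos h1 h2) h3
    have h5 : s j * chiA j A * (chiA j A * ∏ i ∈ A, L j (P.gpt i)) *
        ∏ i ∈ range K, L j (P.fpt i) =
        (chiA j A * chiA j A) * (s j * ((∏ i ∈ A, L j (P.gpt i)) *
          ∏ i ∈ range K, L j (P.fpt i))) := by ring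
    rw [h5, chiA_sq, one_mul] at h4
    exact h4
  · refine ⟨P.gpt (m + 1), ?_, ?_⟩
    · apply Finset.mem_union_left
      exact Finset.mem_image_of_mem _ (Finset.mem_insert_self _ _)
    · show (m : ℤ) * P.ya < -(-(((m + 1 : ℕ) : ℤ) * P.ya + 1))
      push_cast
      linarith

end Par

end Pool.Agent.Lib.MP_176ace_nt.Gr
end

section

set_option autoImplicit false

/-!
# Rnd: rounding (paper 221, Section 7)

`col_le`: `v ∈ V`: `∑_{j=1..m} ∑_i |cr j i v| ≤ ∑_j (∑_i |c_i |L_j v|| + ∑_i |c_i |L_0 v||) ≤ 2 m b` (`V_L_le2`, `P.hgr`).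
`rounding`: apply `beck_fiala` to the type of the points of `V \ U` (`U = Vres`), rows: the pairs `(j, i)`,
`j ∈ Icc 1 m`, `i ∈ P.idx`, with entries `cr j i v`, and one more row with entries `1` (so the column sums are
`≤ 2 m b + 1 = beta`), weights `w`. `T1 = {v : e v = 1}`; `w v = 0 → e v = 0` gives `w ≠ 0` on `T1`.
-/

namespace Pool.Agent.Lib.MP_176ace_nt.Gr

open Finset

namespace Par

variable {m : ℕ} (P : Par m)

theorem c_sum_le {n : ℕ} (h1 : 1 ≤ n) (h2 : n ≤ 2 * P.b ^ 90) (I : Finset (ℕ ⊕ ℕ)) :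
    ∑ i ∈ I, |(P.D.c n i : ℝ)| ≤ P.b := by
  classical
  have h3 : ∑ i ∈ I, (P.D.c n i).natAbs ≤ P.b := by
    refine le_trans ?_ (P.hgr n h1 h2)
    calc ∑ i ∈ I, (P.D.c n i).natAbs = ∑ i ∈ I with (P.D.c n i).natAbs ≠ 0, (P.D.c n i).natAbs :=
          (Finset.sum_filter_ne_zero _).symm
      _ ≤ ∑ i ∈ (P.D.c n).support, (P.D.c n i).natAbs := by
          apply Finset.sum_le_sum_of_subset
          intro i hi
          rw [Finset.mem_filter] at hi
          rw [Finsupp.mem_support_iff]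
          intro h0
          exact hi.2 (by rw [h0]; rfl)
  have h4 : ∑ i ∈ I, |(P.D.c n i : ℝ)| = ((∑ i ∈ I, (P.D.c n i).natAbs : ℕ) : ℝ) := by
    rw [Nat.cast_sum]
    apply Finset.sum_congr rfl
    intro i _
    rw [Nat.cast_natAbs, Int.cast_abs]
  rw [h4]
  exact_mod_cast h3

theorem col_le {v : ℤ × ℤ} (hv : v ∈ P.V) (I : Finset (ℕ ⊕ ℕ)) :
    ∑ j ∈ Icc 1 m, ∑ i ∈ I, |(P.cr j i v : ℝ)| ≤ 2 * m * P.b := by
  have key : ∀ j ∈ Icc 1 m, ∑ i ∈ I, |(P.cr j i v : ℝ)| ≤ 2 * P.b := by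
    intro j hj
    rw [Finset.mem_Icc] at hj
    obtain ⟨a1, a2⟩ := P.V_L_le2 hv hj.2
    obtain ⟨b1, b2⟩ := P.V_L_le2 hv (Nat.zero_le m)
    have h1 := P.c_sum_le a1 a2 I
    have h2 := P.c_sum_le b1 b2 I
    calc ∑ i ∈ I, |(P.cr j i v : ℝ)|
        ≤ ∑ i ∈ I, (|(P.D.c (L j v).natAbs i : ℝ)| + |(P.D.c (L 0 v).natAbs i : ℝ)|) := by
          apply Finset.sum_le_sum
          intro i _
          unfold cr
          push_cast
          exact abs_sub _ _
      _ = ∑ i ∈ I, |(P.D.c (L j v).natAbs i : ℝ)| + ∑ i ∈ I, |(P.D.c (L 0 v).natAbs i : ℝ)| :=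
          Finset.sum_add_distrib
      _ ≤ 2 * P.b := by linarith
  calc ∑ j ∈ Icc 1 m, ∑ i ∈ I, |(P.cr j i v : ℝ)| ≤ ∑ j ∈ Icc 1 m, (2 * P.b : ℝ) :=
        Finset.sum_le_sum key
    _ = 2 * m * P.b := by
        rw [Finset.sum_const, Nat.card_Icc, nsmul_eq_mul, Nat.add_sub_cancel]
        ring

theorem rounding (r : ℕ) {θ : ℝ} (h0 : 0 ≤ θ) (h1 : θ ≤ 1) (U : Finset (ℤ × ℤ)) :
    ∃ T1 ⊆ P.V \ U, (∀ v ∈ T1, P.w r θ v ≠ 0) ∧
      (∀ j ∈ Icc 1 m, ∀ i ∈ P.idx, |∑ v ∈ T1, (P.cr j i v : ℝ) -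
        ∑ v ∈ P.V \ U, P.w r θ v * P.cr j i v| ≤ P.beta) ∧
      |(#T1 : ℝ) - ∑ v ∈ P.V \ U, P.w r θ v| ≤ P.beta := by
  classical
  have hβ : ∀ v : {v // v ∈ P.V \ U},
      ∑ i : Option ({j // j ∈ Icc 1 m} × {i // i ∈ P.idx}),
        |(match i with
          | none => (1 : ℝ)
          | some x => (P.cr x.1.1 x.2.1 v.1 : ℝ))| ≤ (P.beta : ℝ) := by
    intro v
    have hv : v.1 ∈ P.V := (Finset.mem_sdiff.1 v.2).1
    rw [Fintype.sum_option]
    simp only [abs_one]
    rw [Fintype.sum_prod_type]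
    have h2 := P.col_le hv P.idx
    have h3 : ∑ x : {j // j ∈ Icc 1 m}, ∑ y : {i // i ∈ P.idx}, |(P.cr x.1 y.1 v.1 : ℝ)| =
        ∑ j ∈ Icc 1 m, ∑ i ∈ P.idx, |(P.cr j i v.1 : ℝ)| := by
      rw [← Finset.sum_coe_sort (Icc 1 m)]
      apply Finset.sum_congr rfl
      intro x _
      rw [← Finset.sum_coe_sort P.idx]
    rw [h3]
    unfold beta
    push_cast
    linarith
  obtain ⟨e, he1, he2, he3⟩ := beck_fiala
    (V := {v // v ∈ P.V \ U}) (I := Option ({j // j ∈ Icc 1 m} × {i // i ∈ P.idx}))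
    (fun i v => match i with
      | none => (1 : ℝ)
      | some x => (P.cr x.1.1 x.2.1 v.1 : ℝ)) (P.beta : ℝ) (Nat.cast_nonneg _) hβ
    (fun v => P.w r θ v.1) (fun v => ⟨P.w_nonneg h0 v.1, P.w_le_one h1 h0 v.1⟩)
  set T1 : Finset (ℤ × ℤ) := (P.V \ U).filter fun v => ∃ h : v ∈ P.V \ U, e ⟨v, h⟩ = 1 with hT1
  have hsum : ∀ f : ℤ × ℤ → ℝ, ∑ v ∈ T1, f v = ∑ v : {v // v ∈ P.V \ U}, f v.1 * e v := by
    intro f
    rw [hT1, Finset.sum_filter, ← Finset.sum_coe_sort (P.V \ U)]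
    apply Finset.sum_congr rfl
    intro v _
    rcases he1 v with h | h
    · rw [h, mul_zero, if_neg]
      rintro ⟨h', h''⟩
      have : e v = 1 := h''
      rw [h] at this
      exact zero_ne_one this
    · rw [h, mul_one, if_pos]
      exact ⟨v.2, h⟩
  refine ⟨T1, Finset.filter_subset _ _, ?_, ?_, ?_⟩
  · intro v hv hw
    obtain ⟨h, h'⟩ := (Finset.mem_filter.1 hv).2
    have := he2 ⟨v, h⟩ hw
    rw [h'] at this
    exact one_ne_zero this
  · intro j hj i hi
    have h2 := he3 (some (⟨j, hj⟩, ⟨i, hi⟩))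
    have h3 : ∑ v ∈ T1, (P.cr j i v : ℝ) - ∑ v ∈ P.V \ U, P.w r θ v * P.cr j i v =
        ∑ v : {v // v ∈ P.V \ U}, (P.cr j i v.1 : ℝ) * (e v - P.w r θ v.1) := by
      rw [hsum, ← Finset.sum_coe_sort (P.V \ U), ← Finset.sum_sub_distrib]
      apply Finset.sum_congr rfl
      intro v _
      ring
    rw [h3]
    exact h2
  · have h2 := he3 none
    have h3 : (#T1 : ℝ) - ∑ v ∈ P.V \ U, P.w r θ v =
        ∑ v : {v // v ∈ P.V \ U}, (1 : ℝ) * (e v - P.w r θ v.1) := by
      have h4 : (#T1 : ℝ) = ∑ v ∈ T1, (1 : ℝ) := by simp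
      rw [h4, hsum, ← Finset.sum_coe_sort (P.V \ U), ← Finset.sum_sub_distrib]
      apply Finset.sum_congr rfl
      intro v _
      ring
    rw [h3]
    exact h2

end Par

end Pool.Agent.Lib.MP_176ace_nt.Gr
end

section

set_option autoImplicit false

/-!
# Size: the total weight (paper 221, Section 8)

`f r θ = ∑_V w`. `row_lower`: for `b^3 ≤ y ≤ Y` the number of `x` with `4|x| ≤ 3X` and `gcd (x, y) < b^3` is at least `X`: there
are `≥ 3X/2 - 1` such `x` without the gcd condition, and for each of the at most `b` divisors `g ≥ b^3` of `y` (`P.hdiv`, `y ≤ Y ≤ 2X`)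
at most `2X/b^3 + 1` of them are divisible by `g`: `b (2X/b^3 + 1) ≤ X/2 - 1`. On these `x` `psi = 1`.
`size_mono`: `f r 1 = f (r+1) 0` and `f r θ = f r 0 + θ (f r 1 - f r 0)`.
`size_upper`: `f (m B0) 0 ≤ (m B1 + m B0) (X + 1) ≤ 2 m b^115` (each row has at most `2X + 1` points of weight `≤ 1/2`).
`size_lower`: `f (100 m B0) 0 ≥ 100 m B0 * X / 2` (`sum_V`; the rows `Y1 - 100 m B0 < y ≤ Y1` lie in the window, `rows_le`).
`size_exists`: take `r` maximal with `f r 0 ≤ t` (`m B0 ≤ r < 100 m B0`), then `f r 0 ≤ t < f (r+1) 0 = f r 1`, choose `θ`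
(if `t = f (100 m B0) 0` exactly, use `r = 100 m B0 - 1`, `θ = 1`).
-/

namespace Pool.Agent.Lib.MP_176ace_nt.Gr

open Finset

namespace Par

variable {m : ℕ} (P : Par m)

theorem bad_card {y : ℤ} (hy : (P.b : ℤ) ^ 3 ≤ y) (hy' : y ≤ P.Y) :
    #{x ∈ Icc (-(P.X : ℤ)) P.X | P.b ^ 3 ≤ Int.gcd x y} ≤ P.b * (2 * P.b ^ 87 + 1) := by
  classical
  have hb := P.b_pos
  have hbZ : (0 : ℤ) < (P.b : ℤ) ^ 3 := by
    have : 0 < P.b ^ 3 := pow_pos hb _
    exact_mod_cast this
  have hy0 : 0 < y := by linarith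
  obtain ⟨n, rfl⟩ := Int.eq_ofNat_of_zero_le hy0.le
  have hn0 : 0 < n := by exact_mod_cast hy0
  have hnY : n ≤ P.Y := by exact_mod_cast hy'
  have hn2 : n ≤ 2 * P.b ^ 90 := by
    have h1 := P.mY_le
    have h2 : P.Y ≤ m * P.Y := Nat.le_mul_of_pos_left _ P.m_pos
    have h3 : P.X = P.b ^ 90 := rfl
    omega
  have hsub : ({x ∈ Icc (-(P.X : ℤ)) P.X | P.b ^ 3 ≤ Int.gcd x n} : Finset ℤ) ⊆
      (n.divisors.filter fun g => P.b ^ 3 ≤ g).biUnion fun g =>
        (Icc (-(P.b : ℤ) ^ 87) ((P.b : ℤ) ^ 87)).image fun z => (g : ℤ) * z := by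
    intro x hx
    obtain ⟨hx1, hx2⟩ := mem_filter.1 hx
    rw [mem_Icc] at hx1
    rw [mem_biUnion]
    refine ⟨Int.gcd x n, ?_, ?_⟩
    · rw [mem_filter, Nat.mem_divisors]
      refine ⟨⟨?_, hn0.ne'⟩, hx2⟩
      have := Int.gcd_dvd_right x (n : ℤ)
      exact_mod_cast this
    · rw [mem_image]
      obtain ⟨z, hz⟩ := Int.gcd_dvd_left x (n : ℤ)
      refine ⟨z, ?_, hz.symm⟩
      have hx3 : |x| ≤ (P.b : ℤ) ^ 90 := by
        rw [abs_le]
        have h4 : (P.X : ℤ) = (P.b : ℤ) ^ 90 := by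
          unfold X
          push_cast
          rfl
        rw [← h4]
        exact hx1
      have hg : (P.b : ℤ) ^ 3 ≤ (Int.gcd x (n : ℤ) : ℤ) := by exact_mod_cast hx2
      have h5 : (P.b : ℤ) ^ 3 * |z| ≤ (P.b : ℤ) ^ 3 * (P.b : ℤ) ^ 87 := by
        calc (P.b : ℤ) ^ 3 * |z| ≤ (Int.gcd x (n : ℤ) : ℤ) * |z| :=
              mul_le_mul_of_nonneg_right hg (abs_nonneg _)
          _ = |x| := by
            conv_rhs => rw [hz]
            rw [abs_mul, abs_of_nonneg (by positivity : (0 : ℤ) ≤ (Int.gcd x (n : ℤ) : ℤ))]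
          _ ≤ (P.b : ℤ) ^ 90 := hx3
          _ = _ := by ring
      have h6 := le_of_mul_le_mul_left h5 hbZ
      rw [mem_Icc]
      exact abs_le.1 h6
  refine (card_le_card hsub).trans ?_
  refine card_biUnion_le.trans ?_
  calc ∑ g ∈ n.divisors.filter (fun g => P.b ^ 3 ≤ g),
        #((Icc (-(P.b : ℤ) ^ 87) ((P.b : ℤ) ^ 87)).image fun z => (g : ℤ) * z)
      ≤ ∑ g ∈ n.divisors.filter (fun g => P.b ^ 3 ≤ g), (2 * P.b ^ 87 + 1) := by
        refine sum_le_sum fun g _ => card_image_le.trans ?_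
        rw [Int.card_Icc]
        have : (P.b : ℤ) ^ 87 + 1 - -(P.b : ℤ) ^ 87 = ((2 * P.b ^ 87 + 1 : ℕ) : ℤ) := by
          push_cast
          ring
        rw [this, Int.toNat_natCast]
    _ = #(n.divisors.filter fun g => P.b ^ 3 ≤ g) * (2 * P.b ^ 87 + 1) := by
        rw [sum_const, smul_eq_mul]
    _ ≤ P.b * (2 * P.b ^ 87 + 1) := by
        refine Nat.mul_le_mul_right _ ?_
        exact (card_filter_le _ _).trans (P.hdiv n hn0 hn2)

theorem row_lower {y : ℤ} (hy : (P.b : ℤ) ^ 3 ≤ y) (hy' : y ≤ P.Y) :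
    (P.X : ℝ) / 2 ≤ ∑ x ∈ Icc (-(P.X : ℤ)) P.X with Int.gcd x y < P.b ^ 3, P.psi x / 2 := by
  classical
  have hb := P.b_pos
  have hbad := P.bad_card hy hy'
  -- the number `N` of `x` with `4 |x| ≤ 3 X`
  set N : ℕ := 3 * P.X / 4 with hN
  set A : Finset ℤ := {x ∈ Icc (-(N : ℤ)) N | Int.gcd x y < P.b ^ 3} with hA
  have hNX : N ≤ P.X := by omega
  have hAsub : A ⊆ ({x ∈ Icc (-(P.X : ℤ)) P.X | Int.gcd x y < P.b ^ 3} : Finset ℤ) := by
    intro x hx
    rw [hA, mem_filter, mem_Icc] at hx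
    rw [mem_filter, mem_Icc]
    have : (N : ℤ) ≤ P.X := by exact_mod_cast hNX
    exact ⟨⟨by linarith [hx.1.1], by linarith [hx.1.2]⟩, hx.2⟩
  have hcard : P.X ≤ #A := by
    have h1 : #(Icc (-(N : ℤ)) N) = 2 * N + 1 := by
      rw [Int.card_Icc]
      omega
    have h2 : #A + #{x ∈ Icc (-(N : ℤ)) N | ¬ Int.gcd x y < P.b ^ 3} = #(Icc (-(N : ℤ)) N) :=
      card_filter_add_card_filter_not _
    have h3 : #{x ∈ Icc (-(N : ℤ)) N | ¬ Int.gcd x y < P.b ^ 3} ≤ P.b * (2 * P.b ^ 87 + 1) := by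
      refine le_trans (card_le_card ?_) hbad
      intro x hx
      rw [mem_filter, mem_Icc, not_lt] at hx
      rw [mem_filter, mem_Icc]
      have : (N : ℤ) ≤ P.X := by exact_mod_cast hNX
      exact ⟨⟨by linarith [hx.1.1], by linarith [hx.1.2]⟩, hx.2⟩
    have h4 : P.b * (2 * P.b ^ 87 + 1) = 2 * P.b ^ 88 + P.b := by ring
    have h5 : P.b ≤ P.b ^ 88 := Nat.le_self_pow (by norm_num) _
    have h6 : 100 * P.b ^ 88 ≤ P.b ^ 89 := P.absorb (by have := P.b_big; omega) 88
    have h7 : P.b ^ 89 ≤ P.X := Nat.pow_le_pow_right hb (by norm_num)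
    have h8 := P.b_big
    omega
  calc (P.X : ℝ) / 2 ≤ (#A : ℝ) / 2 := by
        have : (P.X : ℝ) ≤ #A := by exact_mod_cast hcard
        linarith
    _ = ∑ x ∈ A, P.psi x / 2 := by
        rw [sum_congr rfl (g := fun _ => (1 / 2 : ℝ)), sum_const, nsmul_eq_mul]
        · ring
        · intro x hx
          rw [hA, mem_filter, mem_Icc] at hx
          rw [P.psi_one]
          have h1 : |x| ≤ N := abs_le.2 hx.1
          have h2 : 4 * (N : ℤ) ≤ 3 * P.X := by
            have : 4 * N ≤ 3 * P.X := by omega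
            exact_mod_cast this
          linarith
    _ ≤ _ := by
        refine sum_le_sum_of_subset_of_nonneg hAsub fun x _ _ => ?_
        have := P.psi_nonneg x
        linarith

theorem w_step (r : ℕ) (v : ℤ × ℤ) : P.w r 1 v = P.w (r + 1) 0 v := by
  unfold w
  push_cast
  split_ifs <;> first | rfl | omega | ring

theorem size_step (r : ℕ) : ∑ v ∈ P.V, P.w r 1 v = ∑ v ∈ P.V, P.w (r + 1) 0 v :=
  sum_congr rfl fun v _ => P.w_step r v

theorem size_affine (r : ℕ) (θ : ℝ) : ∑ v ∈ P.V, P.w r θ v =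
    ∑ v ∈ P.V, P.w r 0 v + θ * (∑ v ∈ P.V, P.w r 1 v - ∑ v ∈ P.V, P.w r 0 v) := by
  rw [← sum_sub_distrib, mul_sum, ← sum_add_distrib]
  refine sum_congr rfl fun v _ => ?_
  unfold w
  split_ifs <;> ring

theorem w_zero_le (r : ℕ) (v : ℤ × ℤ) : P.w r 0 v ≤ 1 / 2 := by
  have h2 := P.psi_nonneg v.1
  have h3 := P.psi_le_one v.1
  unfold w
  split_ifs <;> linarith

theorem w_zero_of_le {r : ℕ} {v : ℤ × ℤ} (h : v.2 ≤ (P.Y1 : ℤ) - r) : P.w r 0 v = 0 := by
  unfold w
  rw [if_neg (by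
    have : (0 : ℤ) ≤ r := by positivity
    linarith), if_neg (by linarith)]
  split_ifs
  · ring
  · rfl

theorem size_upper : ∑ v ∈ P.V, P.w (m * P.B0) 0 v ≤ 2 * m * (P.b : ℝ) ^ 115 := by
  classical
  have hb := P.b_pos
  have h1 : ∑ v ∈ P.V, P.w (m * P.B0) 0 v =
      ∑ v ∈ P.V with (P.Y1 : ℤ) - (m * P.B0 : ℕ) < v.2, P.w (m * P.B0) 0 v := by
    refine (sum_filter_of_ne fun v _ hv => ?_).symm
    by_contra hcon
    exact hv (P.w_zero_of_le (not_lt.1 hcon))
  have h2 : #{v ∈ P.V | (P.Y1 : ℤ) - (m * P.B0 : ℕ) < v.2} ≤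
      (2 * P.X + 1) * (m * P.B0 + m * P.B1) := by
    have hsub : ({v ∈ P.V | (P.Y1 : ℤ) - (m * P.B0 : ℕ) < v.2} : Finset (ℤ × ℤ)) ⊆
        Icc (-(P.X : ℤ)) P.X ×ˢ Ioc ((P.Y1 : ℤ) - (m * P.B0 : ℕ)) P.Y := by
      intro v hv
      obtain ⟨hv1, hv2⟩ := mem_filter.1 hv
      obtain ⟨a1, a2, -⟩ := P.mem_V.1 hv1
      rw [mem_product, mem_Icc, mem_Ioc]
      exact ⟨abs_le.1 a1, hv2, a2.2⟩
    refine (card_le_card hsub).trans ?_
    rw [card_product, Int.card_Icc, Int.card_Ioc]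
    have h3 := P.Y1_eq
    refine Nat.mul_le_mul ?_ ?_ <;> omega
  have h3 : (2 * P.X + 1) * (m * P.B0 + m * P.B1) ≤ 4 * m * P.b ^ 115 := by
    have e1 : P.b ^ 3 * 4 ≤ P.b ^ 25 := by
      have : 4 ≤ P.b ^ 22 := by
        have h5 := P.b_big
        have h6 : P.b ≤ P.b ^ 22 := Nat.le_self_pow (by norm_num) _
        omega
      calc P.b ^ 3 * 4 ≤ P.b ^ 3 * P.b ^ 22 := Nat.mul_le_mul_left _ this
        _ = P.b ^ 25 := by ring
    have e2 : 1 ≤ P.b ^ 90 := Nat.one_le_pow _ _ hb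
    calc (2 * P.X + 1) * (m * P.B0 + m * P.B1) = m * ((2 * P.b ^ 90 + 1) * (P.b ^ 25 + P.b ^ 3)) := by
          unfold X B0 B1
          ring
      _ ≤ m * ((2 * P.b ^ 90 + P.b ^ 90) * (P.b ^ 25 + P.b ^ 3)) := by gcongr
      _ = m * P.b ^ 90 * (3 * P.b ^ 25 + 3 * P.b ^ 3) := by ring
      _ ≤ m * P.b ^ 90 * (4 * P.b ^ 25) := by
          refine Nat.mul_le_mul_left _ ?_
          omega
      _ = 4 * m * P.b ^ 115 := by ring
  rw [h1]
  calc ∑ v ∈ P.V with (P.Y1 : ℤ) - (m * P.B0 : ℕ) < v.2, P.w (m * P.B0) 0 v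
      ≤ ∑ v ∈ P.V with (P.Y1 : ℤ) - (m * P.B0 : ℕ) < v.2, (1 / 2 : ℝ) :=
        sum_le_sum fun v _ => P.w_zero_le _ v
    _ = #{v ∈ P.V | (P.Y1 : ℤ) - (m * P.B0 : ℕ) < v.2} * (1 / 2 : ℝ) := by
        rw [sum_const, nsmul_eq_mul]
    _ ≤ (4 * m * P.b ^ 115 : ℕ) * (1 / 2 : ℝ) := by
        have := h2.trans h3
        have h4 : ((#{v ∈ P.V | (P.Y1 : ℤ) - (m * P.B0 : ℕ) < v.2} : ℕ) : ℝ) ≤
          ((4 * m * P.b ^ 115 : ℕ) : ℝ) := by exact_mod_cast this
        linarith
    _ = 2 * m * (P.b : ℝ) ^ 115 := by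
        push_cast
        ring

theorem size_lower : 50 * m * (P.b : ℝ) ^ 115 ≤ ∑ v ∈ P.V, P.w (100 * m * P.B0) 0 v := by
  classical
  have hb := P.b_pos
  have hY1 := P.Y1_eq
  have hrows := P.rows_le
  have h29 := P.b29_lt
  have h4 : (P.b : ℤ) ^ 3 ≤ (P.b : ℤ) ^ 29 := by
    have : P.b ^ 3 ≤ P.b ^ 29 := Nat.pow_le_pow_right hb (by norm_num)
    exact_mod_cast this
  have hY1' : (P.Y1 : ℤ) + (m * P.B1 : ℕ) = P.Y := by exact_mod_cast hY1
  have hrows' : ((100 * m * P.B0 : ℕ) : ℤ) + (m * P.B1 : ℕ) + 1 < (P.b : ℤ) ^ 26 := by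
    exact_mod_cast hrows
  rw [P.sum_V]
  have hsub : Ioc ((P.Y1 : ℤ) - (100 * m * P.B0 : ℕ)) P.Y1 ⊆
      Ioc ((P.Y : ℤ) - P.b ^ 26) P.Y := by
    intro y hy
    rw [mem_Ioc] at hy ⊢
    have : (0 : ℤ) ≤ ((m * P.B1 : ℕ) : ℤ) := by positivity
    constructor <;> linarith [hy.1, hy.2]
  calc 50 * m * (P.b : ℝ) ^ 115 = ∑ y ∈ Ioc ((P.Y1 : ℤ) - (100 * m * P.B0 : ℕ)) P.Y1,
        (P.X : ℝ) / 2 := by
        rw [sum_const, nsmul_eq_mul, Int.card_Ioc]
        have : (P.Y1 : ℤ) - ((P.Y1 : ℤ) - (100 * m * P.B0 : ℕ)) = ((100 * m * P.B0 : ℕ) : ℤ) := by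
          ring
        rw [this, Int.toNat_natCast]
        unfold B0 X
        push_cast
        ring
    _ ≤ ∑ y ∈ Ioc ((P.Y1 : ℤ) - (100 * m * P.B0 : ℕ)) P.Y1,
        ∑ x ∈ Icc (-(P.X : ℤ)) P.X with Int.gcd x y < P.b ^ 3, P.w (100 * m * P.B0) 0 (x, y) := by
        refine sum_le_sum fun y hy => ?_
        have hy2 := mem_Ioc.1 (hsub hy)
        rw [mem_Ioc] at hy
        refine (P.row_lower (y := y) (by linarith [hy2.1]) hy2.2).trans (le_of_eq ?_)
        refine sum_congr rfl fun x _ => ?_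
        unfold w
        rw [if_neg (by simpa using hy.2), if_pos hy.1]
    _ ≤ _ := by
        refine sum_le_sum_of_subset_of_nonneg hsub fun y _ _ => ?_
        exact sum_nonneg fun x _ => P.w_nonneg le_rfl _

theorem size_exists {t : ℝ} (h1 : 2 * m * (P.b : ℝ) ^ 115 ≤ t) (h2 : t ≤ 50 * m * (P.b : ℝ) ^ 115) :
    ∃ (r : ℕ) (θ : ℝ), m * P.B0 ≤ r ∧ r < 100 * m * P.B0 ∧ 0 ≤ θ ∧ θ ≤ 1 ∧
      ∑ v ∈ P.V, P.w r θ v = t := by
  have hb := P.b_pos
  have hm := P.m_pos
  have hu := P.size_upper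
  have hl := P.size_lower
  have hB : 1 ≤ m * P.B0 := Nat.mul_pos hm (pow_pos hb _)
  have hlt : m * P.B0 < 100 * m * P.B0 := by
    have : 100 * m * P.B0 = 100 * (m * P.B0) := by ring
    omega
  by_cases hc : ∑ v ∈ P.V, P.w (100 * m * P.B0) 0 v ≤ t
  · refine ⟨100 * m * P.B0 - 1, 1, by omega, by omega, zero_le_one, le_rfl, ?_⟩
    rw [P.size_step, Nat.sub_add_cancel (by omega)]
    exact le_antisymm hc (h2.trans hl)
  · -- find the last `r` with `f r 0 ≤ t`
    have hex : ∃ r, m * P.B0 ≤ r ∧ r < 100 * m * P.B0 ∧ ∑ v ∈ P.V, P.w r 0 v ≤ t ∧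
        t < ∑ v ∈ P.V, P.w (r + 1) 0 v := by
      by_contra hno
      push Not at hno
      have hall : ∀ k, m * P.B0 + k ≤ 100 * m * P.B0 → ∑ v ∈ P.V, P.w (m * P.B0 + k) 0 v ≤ t := by
        intro k
        induction k with
        | zero => exact fun _ => hu.trans h1
        | succ k ih =>
          intro hk
          have h3 := ih (by omega)
          exact hno (m * P.B0 + k) (by omega) (by omega) h3
      apply hc
      have := hall (100 * m * P.B0 - m * P.B0) (by omega)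
      rwa [Nat.add_sub_cancel' hlt.le] at this
    obtain ⟨r, hr1, hr2, hr3, hr4⟩ := hex
    have h5 := P.size_step r
    set f0 := ∑ v ∈ P.V, P.w r 0 v with hf0
    set f1 := ∑ v ∈ P.V, P.w r 1 v with hf1
    have hpos : 0 < f1 - f0 := by
      rw [h5]
      linarith
    refine ⟨r, (t - f0) / (f1 - f0), hr1, hr2, div_nonneg (by linarith) hpos.le, ?_, ?_⟩
    · rw [div_le_one hpos, h5]
      linarith
    · rw [P.size_affine, ← hf0, ← hf1, div_mul_cancel₀ _ hpos.ne']
      ring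

end Par

end Pool.Agent.Lib.MP_176ace_nt.Gr
end

section

set_option autoImplicit false

/-!
# T3M: the effect of the states of the cells

`sign_T3`: by `prod_T3`, cell by cell. If `j = ρ.1` all `L_j` of the vertices are positive (`L_vx`, `NW_pos`), so both halves
have a positive product. If `j ≠ ρ.1` use `cell_sum` with the multiplicative group: the products of `L_j` over the two halves
agree: apply `cell_sum` to `F = ` (counting function of a value) i.e. for every integer `t` the number of even `W` with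
`L_j (vx W) = t` equals the number of odd `W`; so the product of any function of `L_j` over the even `W` equals the product over
the odd `W` (`halves_eq`).
`sum_T3_cr`: the sum over one cell in the state `ε` of `cr j i` is
`1/2 ∑_W cr j i (v_W) + ε/2 ∑_W sg W * cr j i (v_W)`; the last sum is `0` for the labels `≠ ρ.1` and
`∑_W sg W * c (NW ρ W) i` for the label `ρ.1`, in any case independent of the row `y` (here `1 ≤ j`, and `ρ.1 ≠ 0` for
`ρ ∈ R`, so the label `0` term vanishes). With exactly `hq` of the `2 hq` cells of every request in the state `-1` the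
signed parts cancel.
`ratio_T3`: `∏_W (|L_j v_W| / |L_0 v_W|)^{sg W}` is `uval (nOf i) (kx i)` if `j = ρ.1` (the scale `s` cancels because
`∑ sg W = 0`) and `1` otherwise. Changing the state of one cell from `+` to `-` divides the product by it.
-/

namespace Pool.Agent.Lib.MP_176ace_nt.Gr

open Finset

private theorem sg_cases {m : ℕ} (W : Finset (Fin m)) : sg W = 1 ∨ sg W = -1 := neg_one_pow_eq_or ℤ _

private theorem T3M_sum_split {m : ℕ} {A : Type*} [AddCommGroup A] (F : Finset (Fin m) → A) :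
    ∑ W : Finset (Fin m), sg W • F W =
      ∑ W : Finset (Fin m) with sg W = 1, F W - ∑ W : Finset (Fin m) with sg W = -1, F W := by
  have h1 : ∀ W : Finset (Fin m), sg W • F W =
      (if sg W = 1 then F W else 0) - (if sg W = -1 then F W else 0) := by
    intro W
    rcases sg_cases W with h | h
    · simp [h]
    · simp [h]
  rw [sum_congr rfl fun W _ => h1 W, sum_sub_distrib, sum_filter, sum_filter]

private theorem T3M_sum_all {m : ℕ} {A : Type*} [AddCommGroup A] (F : Finset (Fin m) → A) :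
    ∑ W : Finset (Fin m), F W =
      ∑ W : Finset (Fin m) with sg W = 1, F W + ∑ W : Finset (Fin m) with sg W = -1, F W := by
  have h1 : ∀ W : Finset (Fin m), F W =
      (if sg W = 1 then F W else 0) + (if sg W = -1 then F W else 0) := by
    intro W
    rcases sg_cases W with h | h
    · simp [h]
    · simp [h]
  rw [sum_congr rfl fun W _ => h1 W, sum_add_distrib, sum_filter, sum_filter]

private theorem T3M_prod_all {m : ℕ} {A : Type*} [CommMonoid A] (F : Finset (Fin m) → A) :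
    ∏ W : Finset (Fin m), F W =
      (∏ W : Finset (Fin m) with sg W = 1, F W) * ∏ W : Finset (Fin m) with sg W = -1, F W := by
  have h1 : ∀ W : Finset (Fin m), F W =
      (if sg W = 1 then F W else 1) * (if sg W = -1 then F W else 1) := by
    intro W
    rcases sg_cases W with h | h
    · simp [h]
    · simp [h]
  rw [prod_congr rfl fun W _ => h1 W, prod_mul_distrib, prod_filter, prod_filter]

/-- equality of products from equality of the counting functions -/
private theorem T3M_prod_of_count {α A : Type*} [CommMonoid A] (s t : Finset α) (f : α → ℤ)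
    (h : ∀ z : ℤ, #{a ∈ s | f a = z} = #{a ∈ t | f a = z}) (G : ℤ → A) :
    ∏ a ∈ s, G (f a) = ∏ a ∈ t, G (f a) := by
  have h1 : s.val.map f = t.val.map f := by
    ext z
    rw [Multiset.count_map, Multiset.count_map]
    have h2 := h z
    have h3 : ∀ r : Finset α, Multiset.card (Multiset.filter (fun a => z = f a) r.val) =
        #{a ∈ r | f a = z} := by
      intro r
      rw [card_def, filter_val]
      congr 1
      exact Multiset.filter_congr fun a _ => eq_comm
    rw [h3, h3, h2]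
  have h4 : ∀ r : Finset α, ∏ a ∈ r, G (f a) = ((r.val.map f).map G).prod := by
    intro r
    rw [Multiset.map_map]
    rfl
  rw [h4, h4, h1]

namespace Par

variable {m : ℕ} (P : Par m)

/-- the products over the two halves of a cell of a function of `L_j`, `j ≠ ρ.1` -/
theorem halves_eq {ρ : Req m} (hρ : ρ ∈ P.R) (y : ℤ) {i : ℕ} (hi : i ≤ m) (hne : i ≠ (ρ.1 : ℕ))
    {A : Type*} [CommMonoid A] (G : ℤ → A) :
    ∏ W : Finset (Fin m) with sg W = 1, G (L i (P.vx ρ y W)) =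
      ∏ W : Finset (Fin m) with sg W = -1, G (L i (P.vx ρ y W)) := by
  refine T3M_prod_of_count _ _ (fun W => L i (P.vx ρ y W)) ?_ G
  intro z
  have h := P.cell_sum hρ y hi hne (fun t : ℤ => if t = z then (1 : ℤ) else 0)
  rw [T3M_sum_split (fun W => if L i (P.vx ρ y W) = z then (1 : ℤ) else 0)] at h
  have h2 := sub_eq_zero.1 h
  rw [sum_boole, sum_boole] at h2
  exact_mod_cast h2

private theorem R_ne {ρ : Req m} (hρ : ρ ∈ P.R) : (0 : ℕ) ≠ (ρ.1 : ℕ) := by
  have h := (mem_filter.1 hρ).2.1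
  intro h0
  exact h (Fin.ext (by simp [← h0]))

/-- the product over one half is positive for the label of the request -/
private theorem half_pos {ρ : Req m} (hρ : ρ ∈ P.R) (y ε : ℤ) :
    0 < ∏ W : Finset (Fin m) with sg W = ε, L (ρ.1 : ℕ) (P.vx ρ y W) := by
  refine prod_pos fun W _ => ?_
  rw [P.L_vx ρ y W]
  have := P.NW_pos hρ W
  exact_mod_cast this

private def signH : ℤ →* ℤ where
  toFun := Int.sign
  map_one' := Int.sign_one
  map_mul' := Int.sign_mul

private theorem sign_half {ρ : Req m} (hρ : ρ ∈ P.R) (y : ℤ) {j : ℕ} (hj : j ≤ m) :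
    (∏ W : Finset (Fin m) with sg W = -1, L j (P.vx ρ y W)).sign =
      (∏ W : Finset (Fin m) with sg W = 1, L j (P.vx ρ y W)).sign := by
  by_cases h : j = (ρ.1 : ℕ)
  · subst h
    rw [Int.sign_eq_one_of_pos (P.half_pos hρ y _), Int.sign_eq_one_of_pos (P.half_pos hρ y _)]
  · rw [P.halves_eq hρ y hj h (fun t => t)]

theorem sign_T3 (S : P.Sel) (Mi : Req m → Finset ℤ) {j : ℕ} (hj : j ∈ Icc 1 m) :
    (∏ v ∈ P.T3 S.Ch Mi, L j v).sign = (∏ v ∈ P.T3 S.Ch fun _ => ∅, L j v).sign := by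
  have hj' : j ≤ m := (mem_Icc.1 hj).2
  rw [P.prod_T3 S Mi (fun v => L j v), P.prod_T3 S (fun _ => ∅) (fun v => L j v)]
  change signH _ = signH _
  rw [map_prod, map_prod]
  refine prod_congr rfl fun ρ hρ => ?_
  rw [map_prod, map_prod]
  refine prod_congr rfl fun y _ => ?_
  change Int.sign _ = Int.sign _
  by_cases h : y ∈ Mi ρ
  · simpa [h] using P.sign_half hρ y hj'
  · simp [h]

/-- the signed sum over one cell does not depend on the row -/
private theorem signed_cr {ρ : Req m} (hρ : ρ ∈ P.R) {j : ℕ} (hj : j ∈ Icc 1 m) (i : ℕ ⊕ ℕ) :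
    ∃ κ : ℤ, ∀ y : ℤ, ∑ W : Finset (Fin m), sg W • P.cr j i (P.vx ρ y W) = κ := by
  have hj' : j ≤ m := (mem_Icc.1 hj).2
  have h0 : ∀ y : ℤ, ∑ W : Finset (Fin m), sg W • P.D.c (L 0 (P.vx ρ y W)).natAbs i = 0 :=
    fun y => P.cell_sum hρ y (Nat.zero_le m) (P.R_ne hρ) (fun t : ℤ => P.D.c t.natAbs i)
  have h1 : ∀ y : ℤ, ∑ W : Finset (Fin m), sg W • P.cr j i (P.vx ρ y W) =
      ∑ W : Finset (Fin m), sg W • P.D.c (L j (P.vx ρ y W)).natAbs i := by
    intro y
    have h2 : ∀ W : Finset (Fin m), sg W • P.cr j i (P.vx ρ y W) =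
        sg W • P.D.c (L j (P.vx ρ y W)).natAbs i - sg W • P.D.c (L 0 (P.vx ρ y W)).natAbs i := by
      intro W
      rw [cr, smul_sub]
    rw [sum_congr rfl fun W _ => h2 W, sum_sub_distrib, h0 y, sub_zero]
  by_cases h : j = (ρ.1 : ℕ)
  · refine ⟨∑ W : Finset (Fin m), sg W • P.D.c (P.NW ρ W) i, fun y => ?_⟩
    rw [h1 y]
    refine sum_congr rfl fun W _ => ?_
    rw [h, P.L_vx ρ y W, Int.natAbs_natCast]
  · refine ⟨0, fun y => ?_⟩
    rw [h1 y]
    exact P.cell_sum hρ y hj' h (fun t : ℤ => P.D.c t.natAbs i)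

theorem sum_T3_cr (S : P.Sel) (Mi : Req m → Finset ℤ)
    (hMi : ∀ ρ ∈ P.R, Mi ρ ⊆ S.Ch ρ ∧ #(Mi ρ) = P.hq ρ.2.1) {j : ℕ} (hj : j ∈ Icc 1 m)
    (i : ℕ ⊕ ℕ) :
    2 * ∑ v ∈ P.T3 S.Ch Mi, P.cr j i v = ∑ v ∈ P.Vres S.Ch, P.cr j i v := by
  rw [P.sum_T3 S Mi (P.cr j i), P.sum_Vres S (P.cr j i), mul_sum]
  refine sum_congr rfl fun ρ hρ => ?_
  obtain ⟨κ, hκ⟩ := P.signed_cr hρ hj i
  rw [mul_sum]
  have h1 : ∀ y ∈ S.Ch ρ, 2 * ∑ W : Finset (Fin m) with sg W = (if y ∈ Mi ρ then -1 else 1),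
      P.cr j i (P.vx ρ y W) = ∑ W : Finset (Fin m), P.cr j i (P.vx ρ y W) +
        (if y ∈ Mi ρ then -κ else κ) := by
    intro y _
    have h2 := hκ y
    rw [T3M_sum_split (fun W => P.cr j i (P.vx ρ y W))] at h2
    rw [T3M_sum_all (fun W => P.cr j i (P.vx ρ y W))]
    by_cases h : y ∈ Mi ρ
    · simp only [h, if_true]
      linarith
    · simp only [h, if_false]
      linarith
  rw [sum_congr rfl h1, sum_add_distrib]
  have h3 : ∑ y ∈ S.Ch ρ, (if y ∈ Mi ρ then -κ else κ) = 0 := by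
    rw [← sum_sdiff (hMi ρ hρ).1]
    have h4 : ∑ y ∈ S.Ch ρ \ Mi ρ, (if y ∈ Mi ρ then -κ else κ) = #(S.Ch ρ \ Mi ρ) • κ := by
      rw [← sum_const]
      refine sum_congr rfl fun y hy => ?_
      rw [if_neg (mem_sdiff.1 hy).2]
    have h5 : ∑ y ∈ Mi ρ, (if y ∈ Mi ρ then -κ else κ) = #(Mi ρ) • (-κ) := by
      rw [← sum_const]
      refine sum_congr rfl fun y hy => ?_
      rw [if_pos hy]
    have h6 : #(S.Ch ρ \ Mi ρ) = #(Mi ρ) := by
      rw [card_sdiff_of_subset (hMi ρ hρ).1, S.card ρ hρ, (hMi ρ hρ).2]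
      omega
    rw [h4, h5, h6, smul_neg, add_neg_cancel]
  rw [h3, add_zero]

/-- the ratio of the two halves of a cell -/
private theorem ratio_half {ρ : Req m} (hρ : ρ ∈ P.R) (y : ℤ) {j : ℕ} (hj : j ∈ Icc 1 m) :
    ∏ W : Finset (Fin m) with sg W = -1,
        (((L j (P.vx ρ y W)).natAbs : ℚ) / (L 0 (P.vx ρ y W)).natAbs) =
      (∏ W : Finset (Fin m) with sg W = 1,
        (((L j (P.vx ρ y W)).natAbs : ℚ) / (L 0 (P.vx ρ y W)).natAbs)) *
      (if (ρ.1 : ℕ) = j then (uval (nOf ρ.2.1) (P.kx ρ.2.1))⁻¹ else 1) := by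
  have hj' : j ≤ m := (mem_Icc.1 hj).2
  have h0 := P.halves_eq hρ y (Nat.zero_le m) (P.R_ne hρ) (fun t => ((t.natAbs : ℕ) : ℚ))
  rw [prod_div_distrib, prod_div_distrib, ← h0]
  by_cases h : j = (ρ.1 : ℕ)
  · rw [if_pos h.symm]
    have h1 : ∀ W : Finset (Fin m), ((L j (P.vx ρ y W)).natAbs : ℚ) =
        (ρ.2.2 : ℚ) * ((nOf ρ.2.1 + ssum (P.kx ρ.2.1) W : ℕ) : ℚ) := by
      intro W
      rw [h, P.L_vx ρ y W, Int.natAbs_natCast, NW, Nv]
      push_cast
      ring
    have hpos : ∀ W : Finset (Fin m), ((ρ.2.2 : ℕ) : ℚ) ≠ 0 ∧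
        ((nOf ρ.2.1 + ssum (P.kx ρ.2.1) W : ℕ) : ℚ) ≠ 0 := by
      intro W
      have h2 := P.NW_pos hρ W
      rw [NW, Nv] at h2
      have h3 : ρ.2.2 ≠ 0 := by
        rintro h3
        rw [h3] at h2
        simp at h2
      have h4 : nOf ρ.2.1 + ssum (P.kx ρ.2.1) W ≠ 0 := by
        intro h4
        rw [h4] at h2
        simp at h2
      exact ⟨by exact_mod_cast h3, by exact_mod_cast h4⟩
    have hu : uval (nOf ρ.2.1) (P.kx ρ.2.1) =
        (∏ W : Finset (Fin m) with sg W = 1, ((nOf ρ.2.1 + ssum (P.kx ρ.2.1) W : ℕ) : ℚ)) *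
        (∏ W : Finset (Fin m) with sg W = -1, ((nOf ρ.2.1 + ssum (P.kx ρ.2.1) W : ℕ) : ℚ))⁻¹ := by
      rw [uval, T3M_prod_all]
      congr 1
      · refine prod_congr rfl fun W hW => ?_
        rw [(mem_filter.1 hW).2, zpow_one]
      · rw [← prod_inv_distrib]
        refine prod_congr rfl fun W hW => ?_
        rw [(mem_filter.1 hW).2, zpow_neg_one]
    rw [prod_congr rfl fun W _ => h1 W, prod_congr rfl fun W _ => h1 W, prod_mul_distrib,
      prod_mul_distrib, prod_const, prod_const, ← card_even (by have := P.hm; omega), hu]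
    set a := ∏ W : Finset (Fin m) with sg W = 1, ((nOf ρ.2.1 + ssum (P.kx ρ.2.1) W : ℕ) : ℚ)
      with ha
    set b := ∏ W : Finset (Fin m) with sg W = -1, ((nOf ρ.2.1 + ssum (P.kx ρ.2.1) W : ℕ) : ℚ)
      with hb
    have ha0 : a ≠ 0 := prod_ne_zero_iff.2 fun W _ => (hpos W).2
    rw [mul_inv, inv_inv]
    field_simp
  · rw [if_neg (fun h' => h h'.symm), mul_one,
      P.halves_eq hρ y hj' h (fun t => ((t.natAbs : ℕ) : ℚ))]

theorem ratio_T3 (S : P.Sel) (Mi : Req m → Finset ℤ) (hMi : ∀ ρ ∈ P.R, Mi ρ ⊆ S.Ch ρ)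
    {j : ℕ} (hj : j ∈ Icc 1 m) :
    ∏ v ∈ P.T3 S.Ch Mi, (((L j v).natAbs : ℚ) / (L 0 v).natAbs) =
      (∏ v ∈ P.T3 S.Ch fun _ => ∅, (((L j v).natAbs : ℚ) / (L 0 v).natAbs)) *
      ∏ ρ ∈ P.R with (ρ.1 : ℕ) = j, uval (nOf ρ.2.1) (P.kx ρ.2.1) ^ (-(#(Mi ρ) : ℤ)) := by
  rw [P.prod_T3 S Mi (fun v => (((L j v).natAbs : ℚ) / (L 0 v).natAbs)),
    P.prod_T3 S (fun _ => ∅) (fun v => (((L j v).natAbs : ℚ) / (L 0 v).natAbs)), prod_filter,
    ← prod_mul_distrib]
  refine prod_congr rfl fun ρ hρ => ?_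
  have h1 : ∀ y ∈ S.Ch ρ, ∏ W : Finset (Fin m) with sg W = (if y ∈ Mi ρ then -1 else 1),
      (((L j (P.vx ρ y W)).natAbs : ℚ) / (L 0 (P.vx ρ y W)).natAbs) =
      (∏ W : Finset (Fin m) with sg W = (if y ∈ (∅ : Finset ℤ) then -1 else 1),
        (((L j (P.vx ρ y W)).natAbs : ℚ) / (L 0 (P.vx ρ y W)).natAbs)) *
      (if y ∈ Mi ρ then
        (if (ρ.1 : ℕ) = j then (uval (nOf ρ.2.1) (P.kx ρ.2.1))⁻¹ else 1) else 1) := by
    intro y _
    by_cases h : y ∈ Mi ρ
    · simp only [h, if_true, notMem_empty, if_false]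
      exact P.ratio_half hρ y hj
    · simp only [h, notMem_empty, if_false, mul_one]
  rw [prod_congr rfl h1, prod_mul_distrib]
  congr 1
  rw [← prod_filter, prod_const]
  have h2 : {y ∈ S.Ch ρ | y ∈ Mi ρ} = Mi ρ := by
    ext y
    rw [mem_filter]
    exact ⟨fun h => h.2, fun h => ⟨hMi ρ hρ h, h⟩⟩
  rw [h2]
  by_cases h : (ρ.1 : ℕ) = j
  · rw [if_pos h, if_pos h, inv_pow, zpow_neg, zpow_natCast]
  · rw [if_neg h, if_neg h, one_pow]

end Par

end Pool.Agent.Lib.MP_176ace_nt.Gr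
end
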