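import Mathlib
import Pool.Agent.Lib.MP_176ace_nt.Gr.T3M
import Pool.Agent.Lib.MP_176ace_nt.Gr.DBnd
import Pool.Agent.Lib.MP_176ace_nt.Gr.T3L
import Pool.Agent.Lib.MP_176ace_nt.Gr.ParEx
import Pool.Agent.Lib.MP_176ace_nt.Config

section

section

set_option autoImplicit false

/-!
# CfgL: basic facts on the final set `T = T1 ∪ T2 ∪ T3`

The three sets are disjoint: `T1` is disjoint from `Vres ⊇ T3` (`T3_sub`), `w ≠ 0` on `T1` and on `T3` (`Vres_w`), and `w = 0`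
on `T2` (`w_ya`). `card_T3` gives the same cardinality for every `Mi`.
`T_sign`: `sign_T3` and `C.T2_sign`.
`T_c_zero`: an index outside of `idx` with a nonzero value is a prime `p > Ptop` (`not_mem_idx`); on `T1`, `T3` use `c_Ptop`, on `T2`
`|L_j v| ≤ X/2 < p`, `c_zero_of_lt` (or `c_top`).
-/

namespace Pool.Agent.Lib.MP_176ace_nt.Gr

open Finset

namespace Par

variable {m : ℕ} {P : Par m} {d : ℕ} (C : P.Cfg d) (Mi : Req m → Finset ℤ)

namespace Cfg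

private theorem T1_V {v : ℤ × ℤ} (hv : v ∈ C.T1) : v ∈ P.V ∧ v ∉ P.Vres C.S.Ch :=
  mem_sdiff.1 (C.T1_sub hv)

private theorem T3_w {v : ℤ × ℤ} (hv : v ∈ P.T3 C.S.Ch Mi) : P.w C.r C.θ v ≠ 0 := by
  rw [P.Vres_w C.S C.hr C.θ (P.T3_sub _ _ hv)]
  norm_num

private theorem T2_w {v : ℤ × ℤ} (hv : v ∈ C.T2) : P.w C.r C.θ v = 0 :=
  P.w_ya C.hr' C.θ (C.T2_ya v hv)

private theorem disj12 : Disjoint C.T1 C.T2 :=
  disjoint_left.2 fun v h1 h2 => C.T1_w v h1 (C.T2_w h2)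

private theorem disj123 : Disjoint (C.T1 ∪ C.T2) (P.T3 C.S.Ch Mi) := by
  refine disjoint_left.2 fun v h1 h2 => ?_
  rcases mem_union.1 h1 with h | h
  · exact (C.T1_V h).2 (P.T3_sub _ _ h2)
  · exact C.T3_w Mi h2 (C.T2_w h)

/-- sums over `T` -/
theorem sum_T {A : Type*} [AddCommMonoid A] (G : ℤ × ℤ → A) :
    ∑ v ∈ C.T Mi, G v = ∑ v ∈ C.T1, G v + ∑ v ∈ C.T2, G v + ∑ v ∈ P.T3 C.S.Ch Mi, G v := by
  unfold T
  rw [sum_union (C.disj123 Mi), sum_union C.disj12]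

theorem prod_T {A : Type*} [CommMonoid A] (G : ℤ × ℤ → A) :
    ∏ v ∈ C.T Mi, G v = (∏ v ∈ C.T1, G v) * (∏ v ∈ C.T2, G v) * ∏ v ∈ P.T3 C.S.Ch Mi, G v := by
  unfold T
  rw [prod_union (C.disj123 Mi), prod_union C.disj12]

theorem T_V : C.T Mi ⊆ P.V := by
  intro v hv
  unfold T at hv
  rw [mem_union, mem_union] at hv
  rcases hv with (h | h) | h
  · exact (C.T1_V h).1
  · exact C.T2_V h
  · exact P.Vres_V C.S (P.T3_sub _ _ h)

theorem T_card : #(C.T Mi) = d := by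
  have h1 : #(C.T Mi) = #C.T1 + #C.T2 + #(P.T3 C.S.Ch Mi) := by
    unfold T
    rw [card_union_of_disjoint (C.disj123 Mi), card_union_of_disjoint C.disj12]
  have h2 := P.card_T3 C.S Mi
  have h3 := P.card_T3 C.S fun _ => ∅
  have h4 := C.T2_card
  omega

theorem T_pos {j : ℕ} (hj : j ∈ Icc 1 m) : 0 < ∏ v ∈ C.T Mi, L j v := by
  have h1 := C.T2_sign j hj
  have h2 := P.sign_T3 C.S Mi hj
  rw [C.prod_T]
  rw [← Int.sign_eq_one_iff_pos] at h1 ⊢
  rw [Int.sign_mul] at h1 ⊢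
  rw [h2]
  exact h1

theorem T_c_zero {v : ℤ × ℤ} (hv : v ∈ C.T Mi) {j : ℕ} (hj : j ≤ m) {i : ℕ ⊕ ℕ}
    (hi : i ∉ P.idx) : P.D.c (L j v).natAbs i = 0 := by
  by_contra hc
  obtain ⟨p, rfl, hp, hP⟩ := P.not_mem_idx hi hc
  have hV := C.T_V Mi hv
  unfold T at hv
  rw [mem_union, mem_union] at hv
  rcases hv with (h | h) | h
  · exact hc (P.c_Ptop hV (C.T1_w v h) hp hP hj)
  · apply hc
    have h1 := C.T2_L v h j hj
    have h2 := P.Ptop_eq
    have h3 := P.mY_le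
    have h4 := (P.V_L_le2 hV hj).1
    refine P.c_zero_of_lt hp ?_ h4 ?_
    · rcases P.D.c_supp _ _ hc with ⟨l, hl, -⟩ | ⟨q, hq, -, hq'⟩
      · exact absurd hl (by simp)
      · rw [Sum.inr.injEq] at hq
        rw [hq]
        exact hq'
    · have h5 : 2 * m * P.Y = 2 * (m * P.Y) := by ring
      omega
  · exact hc (P.c_Ptop hV (C.T3_w Mi h) hp hP hj)

end Cfg

end Par

end Pool.Agent.Lib.MP_176ace_nt.Gr
end

section

set_option autoImplicit false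

/-!
# Bal: balancing all labels (paper 221, Section 7)

`prod_eq_uval`: for a finite set `T` of points of `V` such that all `c |L_j v| i`, `c |L_0 v| i` vanish for `i ∉ I`:
`∏_T |L_j v| / |L_0 v| = ∏_{i ∈ I} uval_i ^ (∑_T cr j i v)` (`P.D.c_prod`; `Finsupp.prod` over the support can be written as a product
over `I`; `uval_pos`).
`exists_mu`: for an index `i` and an integer `e` with `|e| ≤ S h` choose `mu s` with `|mu s| ≤ h` and sum `e`
(elementary; `mu s = sign e * (e / S or e / S + 1)`).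
`balance`: let `e j i = ∑_{v ∈ T(Mi0)} cr j i v` for some `Mi0` with `#(Mi0 ρ) = hq` (it exists because `#Ch = 2 hq`; the
value does not matter). If `Mi ρ ⊆ Ch ρ`, `#(Mi ρ) = hq + mu ρ` and `∑_{ρ ∈ R, ρ.1 = j, ρ.2.1 = i} mu ρ = e j i` for all
`i ∈ idx` then by `ratio_T3` (for `Mi` and for `Mi0`) and `prod_eq_uval` (for `T(Mi0)`):
`∏_{T(Mi)} |L_j| / |L_0| = ∏_{T(Mi0)} |L_j| / |L_0| * ∏_{ρ ∈ R, ρ.1 = j} uval^(- mu ρ) = ∏_{i ∈ idx} uval_i^(e j i - e j i) = 1`.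
-/

namespace Pool.Agent.Lib.MP_176ace_nt.Gr

open Finset

theorem exists_mu (e : ℤ) {S h : ℕ} (hS : 1 ≤ S) (he : |e| ≤ (S * h : ℕ)) :
    ∃ mu : ℕ → ℤ, (∀ s, |mu s| ≤ h) ∧ ∑ s ∈ Icc 1 S, mu s = e := by
  clear hS
  induction S generalizing e with
  | zero =>
    refine ⟨fun _ => 0, fun s => by simp, ?_⟩
    have h0 : |e| ≤ 0 := by simpa using he
    have h1 : e = 0 := abs_eq_zero.1 (le_antisymm h0 (abs_nonneg e))
    simp [h1]
  | succ S ih =>
    set t : ℤ := max (-(h : ℤ)) (min (h : ℤ) e) with ht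
    have hh : (0 : ℤ) ≤ h := by positivity
    have he2 : -((S : ℤ) * h + h) ≤ e ∧ e ≤ (S : ℤ) * h + h := by
      have h1 := abs_le.1 he
      push_cast at h1
      constructor
      · linarith [h1.1]
      · linarith [h1.2]
    have hSh : (0 : ℤ) ≤ (S : ℤ) * h := by positivity
    have h1 : |t| ≤ h := by
      rw [abs_le]
      constructor
      · exact le_max_left _ _
      · exact max_le (by linarith) (min_le_left _ _)
    have h2 : |e - t| ≤ ((S * h : ℕ) : ℤ) := by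
      push_cast
      rw [abs_le]
      rcases le_total e h with h3 | h3
      · rcases le_total (-(h : ℤ)) e with h4 | h4
        · have : t = e := by rw [ht, min_eq_right h3, max_eq_right h4]
          rw [this]
          constructor <;> linarith
        · have : t = -(h : ℤ) := by rw [ht, min_eq_right h3, max_eq_left h4]
          rw [this]
          constructor <;> linarith [he2.1, he2.2]
      · have : t = h := by rw [ht, min_eq_left h3, max_eq_right (by linarith)]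
        rw [this]
        constructor <;> linarith [he2.1, he2.2]
    obtain ⟨mu, hmu, hsum⟩ := ih (e - t) h2
    refine ⟨fun s => if s = S + 1 then t else mu s, fun s => ?_, ?_⟩
    · dsimp only
      split_ifs
      · exact h1
      · exact hmu s
    · rw [Finset.sum_Icc_succ_top (by omega)]
      rw [if_pos rfl]
      have h5 : ∑ s ∈ Icc 1 S, (if s = S + 1 then t else mu s) = ∑ s ∈ Icc 1 S, mu s :=
        Finset.sum_congr rfl fun s hs => if_neg (by have := (mem_Icc.1 hs).2; omega)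
      rw [h5, hsum]
      ring

namespace Par

variable {m : ℕ} {P : Par m}

private theorem bal_uval_pos {n : ℕ} (hn : 1 ≤ n) (k : Fin m → ℕ) : 0 < uval n k := by
  unfold uval
  refine Finset.prod_pos fun W _ => zpow_pos ?_ _
  have : 0 < n + ssum k W := by omega
  exact_mod_cast this

/-- an index with `nOf i = 0` never occurs -/
private theorem bal_pos_or (P : Par m) (i : ℕ ⊕ ℕ) : 1 ≤ nOf i ∨ ∀ n, P.D.c n i = 0 := by
  by_cases h : 1 ≤ nOf i
  · exact Or.inl h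
  · refine Or.inr fun n => ?_
    by_contra hc
    rcases P.D.c_supp n i hc with ⟨l, rfl, hl, -⟩ | ⟨p, rfl, hp, -⟩
    · exact h hl
    · exact h hp.one_lt.le

private theorem bal_prod_zpow {ι : Type*} {a : ℚ} (ha : a ≠ 0) (T : Finset ι) (f : ι → ℤ) :
    ∏ v ∈ T, a ^ f v = a ^ ∑ v ∈ T, f v := by
  classical
  induction T using Finset.induction_on with
  | empty => simp
  | insert x T hx ih => rw [Finset.prod_insert hx, Finset.sum_insert hx, ih, zpow_add₀ ha]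

theorem prod_eq_uval (T : Finset (ℤ × ℤ)) (hT : T ⊆ P.V) (j : ℕ) (I : Finset (ℕ ⊕ ℕ))
    (hI : ∀ v ∈ T, ∀ i ∉ I, P.D.c (L j v).natAbs i = 0 ∧ P.D.c (L 0 v).natAbs i = 0) :
    ∏ v ∈ T, (((L j v).natAbs : ℚ) / (L 0 v).natAbs) =
      ∏ i ∈ I, uval (nOf i) (P.kx i) ^ ∑ v ∈ T, P.cr j i v := by
  have hval : ∀ n : ℕ, 1 ≤ n → (∀ i ∉ I, P.D.c n i = 0) →
      (n : ℚ) = ∏ i ∈ I, uval (nOf i) (P.kx i) ^ P.D.c n i := by
    intro n hn hz
    rw [P.D.c_prod n hn]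
    rw [Finsupp.prod_of_support_subset (P.D.c n) (s := I) _ _ (fun i _ => zpow_zero _)]
    · rfl
    · intro i hi
      by_contra hiI
      exact (Finsupp.mem_support_iff.1 hi) (hz i hiI)
  have hdiv : ∀ v ∈ T, (((L j v).natAbs : ℚ) / (L 0 v).natAbs) =
      ∏ i ∈ I, uval (nOf i) (P.kx i) ^ P.cr j i v := by
    intro v hv
    have h1 : ∀ l, 1 ≤ (L l v).natAbs := fun l =>
      Nat.one_le_iff_ne_zero.2 (Int.natAbs_ne_zero.2 (P.V_L_ne (hT hv) l))
    rw [hval _ (h1 j) (fun i hi => (hI v hv i hi).1), hval _ (h1 0) (fun i hi => (hI v hv i hi).2),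
      ← Finset.prod_div_distrib]
    refine Finset.prod_congr rfl fun i _ => ?_
    rcases bal_pos_or P i with h2 | h2
    · rw [← zpow_sub₀ (bal_uval_pos h2 _).ne']
      rfl
    · unfold cr
      rw [h2, h2]
      simp
  rw [Finset.prod_congr rfl hdiv, Finset.prod_comm]
  refine Finset.prod_congr rfl fun i _ => ?_
  rcases bal_pos_or P i with h2 | h2
  · exact bal_prod_zpow (bal_uval_pos h2 _).ne' T _
  · have h3 : ∀ v, P.cr j i v = 0 := fun v => by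
      unfold cr
      rw [h2, h2, sub_zero]
    simp [h3]

variable {d : ℕ} (C : P.Cfg d)

theorem Cfg.balance (Mi0 Mi : Req m → Finset ℤ)
    (hMi0 : ∀ ρ ∈ P.R, Mi0 ρ ⊆ C.S.Ch ρ ∧ #(Mi0 ρ) = P.hq ρ.2.1) (mu : Req m → ℤ)
    (hMi : ∀ ρ ∈ P.R, Mi ρ ⊆ C.S.Ch ρ ∧ (#(Mi ρ) : ℤ) = P.hq ρ.2.1 + mu ρ) {j : ℕ}
    (hj : j ∈ Icc 1 m)
    (hmu : ∀ i ∈ P.idx, ∑ ρ ∈ P.R with (ρ.1 : ℕ) = j ∧ ρ.2.1 = i, mu ρ =
      ∑ v ∈ C.T Mi0, P.cr j i v) :
    ∏ v ∈ C.T Mi, (L j v).natAbs = ∏ v ∈ C.T Mi, (L 0 v).natAbs := by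
  classical
  have hidx : ∀ i ∈ P.idx, 1 ≤ nOf i := by
    intro i hi
    rcases Finset.mem_union.1 hi with h | h
    · obtain ⟨l, hl, rfl⟩ := Finset.mem_image.1 h
      exact (mem_Icc.1 hl).1
    · obtain ⟨l, hl, rfl⟩ := Finset.mem_image.1 h
      exact (mem_Icc.1 (mem_filter.1 hl).1).1
  have hRi : ∀ ρ ∈ P.R, ρ.2.1 ∈ P.idx := by
    intro ρ hρ
    have h1 := (mem_filter.1 hρ).1
    rw [mem_product, mem_product] at h1
    exact h1.2.1
  set r : ℤ × ℤ → ℚ := fun v => ((L j v).natAbs : ℚ) / (L 0 v).natAbs with hr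
  have hA := P.ratio_T3 C.S Mi (fun ρ hρ => (hMi ρ hρ).1) hj
  have hB := P.ratio_T3 C.S Mi0 (fun ρ hρ => (hMi0 ρ hρ).1) hj
  set Rj : Finset (Req m) := {ρ ∈ P.R | (ρ.1 : ℕ) = j} with hRj
  have hC : ∏ v ∈ P.T3 C.S.Ch Mi, r v = (∏ v ∈ P.T3 C.S.Ch Mi0, r v) *
      ∏ ρ ∈ Rj, uval (nOf ρ.2.1) (P.kx ρ.2.1) ^ (-mu ρ) := by
    rw [hA, hB, mul_assoc, ← Finset.prod_mul_distrib]
    congr 1
    refine Finset.prod_congr rfl fun ρ hρ => ?_
    have hρR : ρ ∈ P.R := (mem_filter.1 hρ).1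
    rw [← zpow_add₀ (bal_uval_pos (hidx _ (hRi ρ hρR)) _).ne', (hMi ρ hρR).2, (hMi0 ρ hρR).2]
    congr 1
    ring
  have hD : ∏ v ∈ C.T Mi, r v = (∏ v ∈ C.T Mi0, r v) *
      ∏ ρ ∈ Rj, uval (nOf ρ.2.1) (P.kx ρ.2.1) ^ (-mu ρ) := by
    rw [C.prod_T Mi, C.prod_T Mi0, hC]
    ring
  have hE : ∏ v ∈ C.T Mi0, r v =
      ∏ i ∈ P.idx, uval (nOf i) (P.kx i) ^ ∑ v ∈ C.T Mi0, P.cr j i v :=
    prod_eq_uval (C.T Mi0) (C.T_V Mi0) j P.idx fun v hv i hi =>
      ⟨C.T_c_zero Mi0 hv (mem_Icc.1 hj).2 hi, C.T_c_zero Mi0 hv (Nat.zero_le m) hi⟩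
  have hF : ∏ ρ ∈ Rj, uval (nOf ρ.2.1) (P.kx ρ.2.1) ^ (-mu ρ) =
      ∏ i ∈ P.idx, uval (nOf i) (P.kx i) ^ (-∑ v ∈ C.T Mi0, P.cr j i v) := by
    rw [← Finset.prod_fiberwise_of_maps_to (s := Rj) (t := P.idx) (g := fun ρ => ρ.2.1)
      (fun ρ hρ => hRi ρ (mem_filter.1 hρ).1)]
    refine Finset.prod_congr rfl fun i hi => ?_
    have h1 : ∏ ρ ∈ Rj with ρ.2.1 = i, uval (nOf ρ.2.1) (P.kx ρ.2.1) ^ (-mu ρ) =
        ∏ ρ ∈ Rj with ρ.2.1 = i, uval (nOf i) (P.kx i) ^ (-mu ρ) :=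
      Finset.prod_congr rfl fun ρ hρ => by rw [(mem_filter.1 hρ).2]
    rw [h1, bal_prod_zpow (bal_uval_pos (hidx i hi) _).ne', Finset.sum_neg_distrib, ← hmu i hi]
    have h2 : (Rj.filter fun ρ => ρ.2.1 = i) = P.R.filter fun ρ => (ρ.1 : ℕ) = j ∧ ρ.2.1 = i := by
      rw [hRj, Finset.filter_filter]
    rw [h2]
  have hG : ∏ v ∈ C.T Mi, r v = 1 := by
    rw [hD, hE, hF, ← Finset.prod_mul_distrib]
    refine Finset.prod_eq_one fun i hi => ?_
    rw [← zpow_add₀ (bal_uval_pos (hidx i hi) _).ne', add_neg_cancel, zpow_zero]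
  rw [hr, Finset.prod_div_distrib] at hG
  have hne : (∏ v ∈ C.T Mi, ((L 0 v).natAbs : ℚ)) ≠ 0 :=
    Finset.prod_ne_zero_iff.2 fun v hv =>
      Nat.cast_ne_zero.2 (Int.natAbs_ne_zero.2 (P.V_L_ne (C.T_V Mi hv) 0))
  rw [div_eq_one_iff_eq hne] at hG
  exact_mod_cast hG

end Par

end Pool.Agent.Lib.MP_176ace_nt.Gr
end

section

set_option autoImplicit false

/-!
# Der: the derivatives (paper 221, Section 9)

`lam_ne`: if the sum were `0`, multiply by `p ∏_{W ≠ ∅} (p + k(W))`: `∏_{W ≠ ∅} (p + k(W))` would be divisible by `p`, but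
`0 < k(W) < p`.
`tuple`: the number of tuples `c ∈ ∏ Y j` which are bad for a given `i` is at most `(m+1)^(m-1)` (`c i` is determined by the
others), and `m (m+1)^(m-1) < (m+1)^m`. (Or: choose by induction, whatever is easier.)
`delta_inj`: `δ y = ∑_W sg W * y_W / N_W` where `y_W = y + const_W` and `N_W` does not depend on `y`, so
`δ y - δ y' = (y - y') λ`, `λ = ∑_W sg W / (s (n + k(W)))`, here `s = 1`, `n = p`.
-/

namespace Pool.Agent.Lib.MP_176ace_nt.Gr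

open Finset

theorem lam_ne {m : ℕ} (k : Fin m → ℕ) {p : ℕ} (hp : p.Prime)
    (hk : ∀ W : Finset (Fin m), W.Nonempty → 0 < ssum k W ∧ ssum k W < p) :
    ∑ W : Finset (Fin m), (sg W : ℚ) / ((p + ssum k W : ℕ) : ℚ) ≠ 0 := by
  classical
  intro h
  set S : Finset (Finset (Fin m)) := univ.erase ∅ with hS
  have hp0 : (p : ℚ) ≠ 0 := by exact_mod_cast hp.ne_zero
  have hne : ∀ W : Finset (Fin m), ((p + ssum k W : ℕ) : ℚ) ≠ 0 := by
    intro W
    have : p + ssum k W ≠ 0 := by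
      have := hp.pos
      omega
    exact_mod_cast this
  have h0 : ssum k (∅ : Finset (Fin m)) = 0 := by simp [ssum]
  have h1 : sg (∅ : Finset (Fin m)) = 1 := by simp [sg]
  have h2 : (1 : ℚ) / p + ∑ W ∈ S, (sg W : ℚ) / ((p + ssum k W : ℕ) : ℚ) = 0 := by
    have h3 := add_sum_erase univ (fun W : Finset (Fin m) => (sg W : ℚ) / ((p + ssum k W : ℕ) : ℚ))
      (mem_univ (∅ : Finset (Fin m)))
    simp only [h0, h1, add_zero, Int.cast_one] at h3
    rw [h3]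
    exact h
  set Q : ℤ := ∏ W ∈ S, ((p + ssum k W : ℕ) : ℤ) with hQ
  have h3 : ∀ W ∈ S, (Q : ℚ) * ((sg W : ℚ) / ((p + ssum k W : ℕ) : ℚ)) =
      ((sg W * ∏ W' ∈ S.erase W, ((p + ssum k W' : ℕ) : ℤ) : ℤ) : ℚ) := by
    intro W hW
    rw [hQ, ← mul_prod_erase S _ hW]
    push_cast
    have := hne W
    push_cast at this
    field_simp
  have h4 : (Q : ℚ) / p = ((-∑ W ∈ S, sg W * ∏ W' ∈ S.erase W, ((p + ssum k W' : ℕ) : ℤ) : ℤ) : ℚ) := by
    have h5 : (Q : ℚ) * ((1 : ℚ) / p + ∑ W ∈ S, (sg W : ℚ) / ((p + ssum k W : ℕ) : ℚ)) = 0 := by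
      rw [h2, mul_zero]
    rw [mul_add, mul_sum, sum_congr rfl h3, mul_one_div] at h5
    rw [Int.cast_neg, Int.cast_sum]
    linarith
  have h6 : (p : ℤ) ∣ Q := by
    refine ⟨-∑ W ∈ S, sg W * ∏ W' ∈ S.erase W, ((p + ssum k W' : ℕ) : ℤ), ?_⟩
    rw [div_eq_iff hp0] at h4
    rw [mul_comm]
    exact_mod_cast h4
  have hpp : Prime (p : ℤ) := Nat.prime_iff_prime_int.1 hp
  obtain ⟨W, hW, hd⟩ := (hpp.dvd_finsetProd_iff _).1 h6
  have hWne : W.Nonempty := nonempty_iff_ne_empty.2 (mem_erase.1 hW).1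
  obtain ⟨a1, a2⟩ := hk W hWne
  have h7 : p ∣ p + ssum k W := by exact_mod_cast hd
  have h8 : p ∣ ssum k W := (Nat.dvd_add_right (dvd_refl p)).1 h7
  exact absurd (Nat.le_of_dvd a1 h8) (not_le.2 a2)

theorem tuple {m : ℕ} (Y : Fin m → Finset ℤ) (hY : ∀ j, m + 1 ≤ #(Y j))
    (bad : Fin m → (Fin m → ℤ) → Prop)
    (h : ∀ i c, ∀ t ∈ Y i, ∀ t' ∈ Y i, bad i (Function.update c i t) →
      bad i (Function.update c i t') → t = t') :
    ∃ c : Fin m → ℤ, (∀ j, c j ∈ Y j) ∧ ∀ i, ¬ bad i c := by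
  classical
  set F : Finset (Fin m → ℤ) := Fintype.piFinset Y with hF
  have hFpos : 0 < #F := by
    rw [hF, Fintype.card_piFinset]
    exact prod_pos fun j _ => lt_of_lt_of_le (Nat.succ_pos m) (hY j)
  have hB : ∀ i, #{c ∈ F | bad i c} * (m + 1) ≤ #F := by
    intro i
    have h1 : #(({c ∈ F | bad i c} : Finset (Fin m → ℤ)) ×ˢ Y i) ≤ #F := by
      refine card_le_card_of_injOn (fun q : (Fin m → ℤ) × ℤ => Function.update q.1 i q.2) ?_ ?_
      · intro q hq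
        have hq' := mem_coe.1 hq
        rw [mem_product, mem_filter, hF, Fintype.mem_piFinset] at hq'
        rw [mem_coe, hF, Fintype.mem_piFinset]
        intro j
        by_cases hj : j = i
        · subst hj
          simpa using hq'.2
        · change Function.update q.1 i q.2 j ∈ Y j
          rw [Function.update_of_ne hj]
          exact hq'.1.1 j
      · rintro ⟨c, t⟩ hq ⟨c', t'⟩ hq' heq
        have hq := mem_coe.1 hq
        have hq' := mem_coe.1 hq'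
        rw [mem_product, mem_filter, hF, Fintype.mem_piFinset] at hq hq'
        have heq' : Function.update c i t = Function.update c' i t' := heq
        have ht : t = t' := by
          have := congrFun heq' i
          simpa using this
        have hne : ∀ j, j ≠ i → c j = c' j := by
          intro j hj
          have := congrFun heq' j
          rwa [Function.update_of_ne hj, Function.update_of_ne hj] at this
        have hc' : c' = Function.update c i (c' i) := by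
          funext j
          by_cases hj : j = i
          · subst hj
            simp
          · rw [Function.update_of_ne hj]
            exact (hne j hj).symm
        have hci : c i = c' i := by
          refine h i c (c i) (hq.1.1 i) (c' i) (hq'.1.1 i) ?_ ?_
          · rw [Function.update_eq_self]
            exact hq.1.2
          · rw [← hc']
            exact hq'.1.2
        have hcc : c = c' := by
          funext j
          by_cases hj : j = i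
          · subst hj
            exact hci
          · exact hne j hj
        rw [hcc, ht]
    rw [card_product] at h1
    exact (Nat.mul_le_mul_left _ (hY i)).trans h1
  by_contra hcon
  push Not at hcon
  have hcov : F ⊆ univ.biUnion fun i => ({c ∈ F | bad i c} : Finset (Fin m → ℤ)) := by
    intro c hc
    have hc2 := Fintype.mem_piFinset.1 (hF ▸ hc)
    obtain ⟨i, hi⟩ := hcon c hc2
    exact mem_biUnion.2 ⟨i, mem_univ i, mem_filter.2 ⟨hc, hi⟩⟩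
  have h2 : #F * (m + 1) ≤ m * #F := by
    calc #F * (m + 1) ≤ (∑ i : Fin m, #{c ∈ F | bad i c}) * (m + 1) :=
          Nat.mul_le_mul_right _ ((card_le_card hcov).trans card_biUnion_le)
      _ = ∑ i : Fin m, #{c ∈ F | bad i c} * (m + 1) := sum_mul _ _ _
      _ ≤ ∑ _i : Fin m, #F := sum_le_sum fun i _ => hB i
      _ = m * #F := by rw [sum_const, card_univ, Fintype.card_fin, smul_eq_mul]
  nlinarith

namespace Par

variable {m : ℕ} {P : Par m}

/-- the change of `∑ y / L_j` when the state of a cell of label `j` is changed -/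
theorem delta_inj {j : Fin (m + 1)} {p : ℕ} (hp : p.Prime)
    (hρ : ((j, Sum.inr p, 1) : Req m) ∈ P.R) {y y' : ℤ}
    (h : ∑ W : Finset (Fin m), (sg W : ℚ) * ((P.vx (j, Sum.inr p, 1) y W).2 /
        L (j : ℕ) (P.vx (j, Sum.inr p, 1) y W) : ℚ) =
      ∑ W : Finset (Fin m), (sg W : ℚ) * ((P.vx (j, Sum.inr p, 1) y' W).2 /
        L (j : ℕ) (P.vx (j, Sum.inr p, 1) y' W) : ℚ)) : y = y' := by
  classical
  -- the prime is large
  have hidx : (Sum.inr p : ℕ ⊕ ℕ) ∈ P.idx := by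
    have h1 := (mem_filter.1 hρ).1
    rw [mem_product, mem_product] at h1
    exact h1.2.1
  have hQ : P.D.Q0 < p := by
    unfold idx at hidx
    rw [mem_union, mem_image, mem_image] at hidx
    rcases hidx with ⟨l, -, hl⟩ | ⟨q, hq, hqp⟩
    · exact absurd hl (by simp)
    · have : q = p := Sum.inr_injective hqp
      subst this
      exact (mem_filter.1 hq).2.2
  have hsh := P.D.shape_kp p hp hQ
  set k : Fin m → ℕ := P.D.kp p with hk
  have hL : ∀ (z : ℤ) (W : Finset (Fin m)), L (j : ℕ) (P.vx (j, Sum.inr p, 1) z W) =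
      ((p + ssum k W : ℕ) : ℤ) := by
    intro z W
    simp only [vx, vtx, L, Nv, nOf, kx, kOf, Sum.elim_inr, id, one_mul]
    rw [← hk]
    ring
  have h2 : ∀ (z : ℤ) (W : Finset (Fin m)), (P.vx (j, Sum.inr p, 1) z W).2 =
      z + ∑ a ∈ W, tt j 1 k a := by
    intro z W
    simp only [vx, vtx, yv, kx, kOf, Sum.elim_inr]
    rw [← hk]
  have hlam := lam_ne k hp fun W hW => by
    constructor
    · obtain ⟨a, ha⟩ := hW
      have h3 : k a ≤ ssum k W := single_le_sum (f := k) (fun _ _ => Nat.zero_le _) ha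
      have := hsh.pos a
      omega
    · have h3 : ssum k W ≤ m * P.D.M1 := by
        calc ssum k W = ∑ a ∈ W, k a := rfl
          _ ≤ ∑ _a ∈ W, P.D.M1 := sum_le_sum fun a _ => hsh.le a
          _ = #W * P.D.M1 := by rw [sum_const, smul_eq_mul]
          _ ≤ m * P.D.M1 := Nat.mul_le_mul_right _ (by
              simpa using card_le_univ W)
      have := P.D.Q0_ge
      omega
  have h4 : ((y : ℚ) - y') * ∑ W : Finset (Fin m), (sg W : ℚ) / ((p + ssum k W : ℕ) : ℚ) = 0 := by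
    rw [← sub_eq_zero, ← sum_sub_distrib] at h
    rw [← h, mul_sum]
    refine sum_congr rfl fun W _ => ?_
    rw [hL, hL, h2, h2]
    push_cast
    ring
  rcases mul_eq_zero.1 h4 with h5 | h5
  · exact_mod_cast sub_eq_zero.1 h5
  · exact absurd h5 hlam

end Par

end Pool.Agent.Lib.MP_176ace_nt.Gr
end

section

set_option autoImplicit false

/-!
# CfgEx: existence of a configuration (paper 221, Sections 7, 8)

Take `S` from `exists_sel`, `r, θ` from `size_exists` with `t = d - (m + 2) - beta`, `T1` from `rounding` with `U = Vres S.Ch`.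
`∑_V w = ∑_{V \ Vres} w + ∑_{Vres} w` (`Vres_V`) and `∑_{Vres} w = #T3` (`w_Vres`), so
`#T1 + #T3 ∈ [t - beta, t + beta] = [d - (m+2) - 2 beta, d - (m+2)]`, hence `N = d - #T1 - #T3` satisfies
`m + 2 ≤ N ≤ m + 2 + 2 beta`. `T2` from `additions` with `s j = (∏_{T1} L_j) (∏_{T3} L_j)` (nonzero by `V_L_ne` for points of
`V`).
-/

namespace Pool.Agent.Lib.MP_176ace_nt.Gr

open Finset

namespace Par

variable {m : ℕ} (P : Par m)

theorem exists_cfg {d : ℕ} (h1 : 2 * m * P.b ^ 115 + (m + 2) + (2 * m * P.b + 1) ≤ d)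
    (h2 : d ≤ 50 * m * P.b ^ 115 + (m + 2) + (2 * m * P.b + 1)) : Nonempty (P.Cfg d) := by
  obtain ⟨S⟩ := P.exists_sel
  have hbeta : (P.beta : ℝ) = 2 * m * P.b + 1 := by
    unfold Par.beta
    push_cast
    ring
  have h1' : 2 * m * (P.b : ℝ) ^ 115 + (m + 2) + (2 * m * P.b + 1) ≤ d := by exact_mod_cast h1
  have h2' : (d : ℝ) ≤ 50 * m * (P.b : ℝ) ^ 115 + (m + 2) + (2 * m * P.b + 1) := by
    exact_mod_cast h2
  obtain ⟨r, θ, hr, hr', hθ, hθ', hsize⟩ := P.size_exists (t := (d : ℝ) - (m + 2) - P.beta)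
    (by rw [hbeta]; linarith) (by rw [hbeta]; linarith)
  obtain ⟨T1, T1s, T1w, T1cr, T1c⟩ := P.rounding r hθ hθ' (P.Vres S.Ch)
  have hV := Finset.sum_sdiff (f := fun v => P.w r θ v) (P.Vres_V S)
  have hw := P.w_Vres S hr θ (fun _ => ∅)
  rw [hw, hsize] at hV
  have hV' : ∑ v ∈ P.V \ P.Vres S.Ch, P.w r θ v =
      (d : ℝ) - (m + 2) - P.beta - #(P.T3 S.Ch fun _ => ∅) := by linarith
  rw [hV'] at T1c
  obtain ⟨hc1, hc2⟩ := abs_le.1 T1c
  have hc3 : #T1 + #(P.T3 S.Ch fun _ => ∅) + (m + 2) ≤ d := by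
    have : (#T1 : ℝ) + #(P.T3 S.Ch fun _ => ∅) + (m + 2) ≤ d := by linarith
    exact_mod_cast this
  have hc4 : d ≤ #T1 + #(P.T3 S.Ch fun _ => ∅) + (m + 2) + 2 * P.beta := by
    have : (d : ℝ) ≤ (#T1 : ℝ) + #(P.T3 S.Ch fun _ => ∅) + (m + 2) + 2 * P.beta := by linarith
    exact_mod_cast this
  have T1V : ∀ v ∈ T1, v ∈ P.V := fun v hv => (Finset.mem_sdiff.1 (T1s hv)).1
  have T3V : ∀ v ∈ P.T3 S.Ch (fun _ => ∅), v ∈ P.V := fun v hv =>
    P.Vres_V S (P.T3_sub S.Ch _ hv)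
  have hs : ∀ j : ℕ, (∏ v ∈ T1, L j v) * ∏ v ∈ P.T3 S.Ch (fun _ => ∅), L j v ≠ 0 := fun j =>
    mul_ne_zero (Finset.prod_ne_zero_iff.2 fun v hv => P.V_L_ne (T1V v hv) j)
      (Finset.prod_ne_zero_iff.2 fun v hv => P.V_L_ne (T3V v hv) j)
  obtain ⟨T2, T2V, T2ya, T2L, T2c, T2s, T2b⟩ := P.additions
    (fun j => (∏ v ∈ T1, L j v) * ∏ v ∈ P.T3 S.Ch (fun _ => ∅), L j v) hs
    (N := d - #T1 - #(P.T3 S.Ch fun _ => ∅)) (by omega) (by omega)
  exact ⟨{ S := S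
           r := r
           θ := θ
           hr := hr
           hr' := hr'
           hθ := hθ
           hθ' := hθ'
           size := hsize
           T1 := T1
           T1_sub := T1s
           T1_w := T1w
           T1_cr := T1cr
           T2 := T2
           T2_V := T2V
           T2_ya := T2ya
           T2_L := T2L
           T2_card := by rw [T2c]; omega
           T2_le := by rw [T2c]; omega
           T2_sign := fun j hj => by
             have h3 := T2s j hj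
             have h4 : (∏ v ∈ T1, L j v) * (∏ v ∈ T2, L j v) *
                 ∏ v ∈ P.T3 S.Ch (fun _ => ∅), L j v =
                 ((∏ v ∈ T1, L j v) * ∏ v ∈ P.T3 S.Ch (fun _ => ∅), L j v) *
                 ∏ v ∈ T2, L j v := by ring
             rw [h4]
             exact h3
           T2_big := T2b }⟩

end Par

end Pool.Agent.Lib.MP_176ace_nt.Gr
end

section

set_option autoImplicit false

/-!
# ExpB: bound of the exponents (paper 221, Section 7)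

`e j i = ∑_{v ∈ T} cr j i v` for `T = C.T Mi`, where every `Mi ρ` has exactly `hq` elements.
`exp_eq`: `2 * ∑_{T3} cr = ∑_{Vres} cr` (`sum_T3_cr`) and `w = 1/2` on `Vres` (`Vres_w`), so
`∑_{T3} cr = ∑_{Vres} w cr` and `E_j (c_i) = ∑_V w cr = ∑_{V \ Vres} w cr + ∑_{Vres} w cr` (`Vres_V`). Hence
`e - E = (∑_{T1} cr - ∑_{V \ Vres} w cr) + ∑_{T2} cr`; the first bracket is `≤ beta` by `C.T1_cr`.
`exp_bound`: `∑_{T2} |cr| ≤ #T2 * 2 b ≤ (m + 2 + 2 beta) 2 b` (`cF_bound`), and `= 0` for `i = p`, `3 p > 2 X` (`|L| ≤ X/2 < p`,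
`c_zero_of_lt`). With `E_D1`, `E_D2`, `E_D3`:
`nOf i ≤ b^74`: `b^35 + b^3 <= b^36 = smax * hq`; `b^74 < nOf i`, `3 nOf i ≤ 2 X` (so `i = inr p`, as `N0 < b^74`; also
`hq = h0 = b^22`, `smax = 1`): `b^21 + b^3 ≤ b^22 / 2`; `3 nOf i > 2 X`: `h1 / 2 + beta ≤ h1` (`h1 + 1 > b^3 / K6`).
-/

namespace Pool.Agent.Lib.MP_176ace_nt.Gr

open Finset

namespace Par

variable {m : ℕ} {P : Par m} {d : ℕ} (C : P.Cfg d) (Mi : Req m → Finset ℤ)

namespace Cfg

theorem exp_eq (hMi : ∀ ρ ∈ P.R, Mi ρ ⊆ C.S.Ch ρ ∧ #(Mi ρ) = P.hq ρ.2.1) {j : ℕ}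
    (hj : j ∈ Icc 1 m) {i : ℕ ⊕ ℕ} (hi : i ∈ P.idx) :
    |(∑ v ∈ C.T Mi, P.cr j i v : ℝ) - P.E C.r C.θ j (P.cF i)| ≤
      P.beta + |∑ v ∈ C.T2, (P.cr j i v : ℝ)| := by
  have h1 : (2 : ℝ) * ∑ v ∈ P.T3 C.S.Ch Mi, (P.cr j i v : ℝ) =
      ∑ v ∈ P.Vres C.S.Ch, (P.cr j i v : ℝ) := by
    have h := P.sum_T3_cr C.S Mi hMi hj i
    exact_mod_cast h
  have h2 : ∑ v ∈ P.Vres C.S.Ch, P.w C.r C.θ v * (P.cr j i v : ℝ) =
      1 / 2 * ∑ v ∈ P.Vres C.S.Ch, (P.cr j i v : ℝ) := by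
    rw [mul_sum]
    refine sum_congr rfl fun v hv => ?_
    rw [P.Vres_w C.S C.hr C.θ hv]
  have h3 : P.E C.r C.θ j (P.cF i) = ∑ v ∈ P.V, P.w C.r C.θ v * (P.cr j i v : ℝ) := by
    unfold E
    refine sum_congr rfl fun v _ => ?_
    unfold cF cr
    push_cast
    ring
  have h4 := sum_sdiff (f := fun v => P.w C.r C.θ v * (P.cr j i v : ℝ)) (P.Vres_V C.S)
  have h5 := C.T1_cr j hj i hi
  have h6 := C.sum_T Mi fun v => (P.cr j i v : ℝ)
  rw [h6, h3, ← h4, h2, ← h1]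
  have e : ∑ v ∈ C.T1, (P.cr j i v : ℝ) + ∑ v ∈ C.T2, (P.cr j i v : ℝ) +
      ∑ v ∈ P.T3 C.S.Ch Mi, (P.cr j i v : ℝ) -
      (∑ v ∈ P.V \ P.Vres C.S.Ch, P.w C.r C.θ v * (P.cr j i v : ℝ) +
        1 / 2 * (2 * ∑ v ∈ P.T3 C.S.Ch Mi, (P.cr j i v : ℝ))) =
      (∑ v ∈ C.T1, (P.cr j i v : ℝ) -
        ∑ v ∈ P.V \ P.Vres C.S.Ch, P.w C.r C.θ v * (P.cr j i v : ℝ)) +
        ∑ v ∈ C.T2, (P.cr j i v : ℝ) := by ring
  rw [e]
  exact (abs_add_le _ _).trans (add_le_add h5 le_rfl)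

theorem T2_small {j : ℕ} (hj : j ∈ Icc 1 m) (i : ℕ ⊕ ℕ) :
    |∑ v ∈ C.T2, (P.cr j i v : ℝ)| ≤ (m + 2 + 2 * P.beta) * (2 * P.b) := by
  have hjm := (mem_Icc.1 hj).2
  have h1 : ∀ v ∈ C.T2, |(P.cr j i v : ℝ)| ≤ 2 * P.b := by
    intro v hv
    have hV := C.T2_V hv
    obtain ⟨a1, a2⟩ := P.V_L_le2 hV hjm
    obtain ⟨b1, b2⟩ := P.V_L_le2 hV (Nat.zero_le m)
    have h2 := P.cF_bound i a1 a2
    have h3 := P.cF_bound i b1 b2
    have e : (P.cr j i v : ℝ) = P.cF i (L j v).natAbs - P.cF i (L 0 v).natAbs := by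
      unfold cF cr
      push_cast
      ring
    rw [e]
    refine (abs_sub _ _).trans ?_
    linarith
  have h2 : (#C.T2 : ℝ) ≤ m + 2 + 2 * P.beta := by exact_mod_cast C.T2_le
  calc |∑ v ∈ C.T2, (P.cr j i v : ℝ)| ≤ ∑ v ∈ C.T2, |(P.cr j i v : ℝ)| :=
        abs_sum_le_sum_abs _ _
    _ ≤ ∑ v ∈ C.T2, (2 * P.b : ℝ) := sum_le_sum h1
    _ = (#C.T2 : ℝ) * (2 * P.b) := by rw [sum_const, nsmul_eq_mul]
    _ ≤ _ := mul_le_mul_of_nonneg_right h2 (by positivity)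

theorem T2_zero {j : ℕ} (hj : j ∈ Icc 1 m) {p : ℕ} (hp : p.Prime) (h2 : 2 * P.X < 3 * p) :
    ∑ v ∈ C.T2, (P.cr j (Sum.inr p) v : ℝ) = 0 := by
  have hjm := (mem_Icc.1 hj).2
  refine sum_eq_zero fun v hv => ?_
  have hV := C.T2_V hv
  have h0 : ∀ k ≤ m, P.D.c (L k v).natAbs (Sum.inr p) = 0 := by
    intro k hk
    have h3 := C.T2_L v hv k hk
    rw [P.c_top hp h2 (P.V_L_le2 hV hk).1 (P.V_L_le hV hk), if_neg]
    omega
  unfold cr
  rw [h0 j hjm, h0 0 (Nat.zero_le m), sub_zero, Int.cast_zero]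

private theorem small_le (P : Par m) : P.beta + (m + 2 + 2 * P.beta) * (2 * P.b) ≤ P.b ^ 4 := by
  have h1 := P.beta_le
  have h2 := P.m_le
  have h3 := P.b_big
  have h4 : m + 2 ≤ P.b := by nlinarith [P.m_pos]
  have h5 : m + 2 + 2 * P.beta ≤ P.b ^ 2 := by nlinarith
  have h6 : P.beta ≤ P.b ^ 2 := by omega
  have h7 : (m + 2 + 2 * P.beta) * (2 * P.b) ≤ P.b ^ 2 * (2 * P.b) := Nat.mul_le_mul_right _ h5
  have h8 : P.b ^ 2 ≤ P.b ^ 3 := Nat.pow_le_pow_right P.b_pos (by norm_num)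
  have h9 : 3 * P.b ^ 3 ≤ P.b ^ 4 := P.absorb (by omega) 3
  have h10 : P.b ^ 2 * (2 * P.b) = 2 * P.b ^ 3 := by ring
  omega

private theorem abs_le_gen (hMi : ∀ ρ ∈ P.R, Mi ρ ⊆ C.S.Ch ρ ∧ #(Mi ρ) = P.hq ρ.2.1) {j : ℕ}
    (hj : j ∈ Icc 1 m) {i : ℕ ⊕ ℕ} (hi : i ∈ P.idx) :
    |(∑ v ∈ C.T Mi, P.cr j i v : ℝ)| ≤ |P.E C.r C.θ j (P.cF i)| + (P.b : ℝ) ^ 4 := by
  have h1 := C.exp_eq Mi hMi hj hi
  have h2 := C.T2_small hj i
  have h3 : (P.beta : ℝ) + (m + 2 + 2 * P.beta) * (2 * P.b) ≤ (P.b : ℝ) ^ 4 := by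
    exact_mod_cast small_le P
  have h4 : |(∑ v ∈ C.T Mi, P.cr j i v : ℝ)| ≤
      |(∑ v ∈ C.T Mi, P.cr j i v : ℝ) - P.E C.r C.θ j (P.cF i)| + |P.E C.r C.θ j (P.cF i)| := by
    have := abs_add_le ((∑ v ∈ C.T Mi, P.cr j i v : ℝ) - P.E C.r C.θ j (P.cF i))
      (P.E C.r C.θ j (P.cF i))
    simpa using this
  linarith

private theorem idx_inr (P : Par m) {p : ℕ} (hp : p.Prime) (h1 : P.b ^ 74 < p)
    (h2 : 3 * p ≤ 2 * P.X) : Sum.inr p ∈ P.idx := by
  unfold idx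
  rw [mem_union]
  right
  refine mem_image_of_mem _ ?_
  rw [mem_filter, mem_Icc]
  have h3 := P.Ptop_eq
  have h4 := P.mY_le
  have h5 := P.Q0_lt
  have h6 : P.b ≤ P.b ^ 74 := Nat.le_self_pow (by norm_num) _
  have h7 : 2 * m * P.Y = 2 * (m * P.Y) := by ring
  exact ⟨⟨hp.one_lt.le, by omega⟩, hp, by omega⟩

private theorem idx_cases {P : Par m} {i : ℕ ⊕ ℕ} (hi : i ∈ P.idx) (h : P.b ^ 74 < nOf i) :
    ∃ p, i = Sum.inr p ∧ p.Prime ∧ p ≤ P.Ptop := by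
  unfold idx at hi
  rw [mem_union, mem_image, mem_image] at hi
  rcases hi with ⟨l, hl, rfl⟩ | ⟨p, hp, rfl⟩
  · exfalso
    have h1 := (mem_Icc.1 hl).2
    have h2 := P.N0_le
    have h3 : P.b ≤ P.b ^ 74 := Nat.le_self_pow (by norm_num) _
    have h4 : nOf (Sum.inl l) = l := rfl
    omega
  · rw [mem_filter, mem_Icc] at hp
    exact ⟨p, rfl, hp.2.1, hp.1.2⟩

/-- a better bound in the middle range -/
private theorem mid (hMi : ∀ ρ ∈ P.R, Mi ρ ⊆ C.S.Ch ρ ∧ #(Mi ρ) = P.hq ρ.2.1) {j : ℕ}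
    (hj : j ∈ Icc 1 m) {p : ℕ} (hp : p.Prime) (h1 : P.b ^ 74 < p) (h2 : 3 * p ≤ 2 * P.X) :
    2 * |∑ v ∈ C.T Mi, P.cr j (Sum.inr p) v| ≤ (P.h0 : ℤ) := by
  have h3 := C.abs_le_gen Mi hMi hj (idx_inr P hp h1 h2)
  have h4 := P.E_D2 C.r C.hθ C.hθ' (mem_Icc.1 hj).2 hp h1
  have h5 : 2 * (P.b ^ 21 + P.b ^ 4) ≤ P.h0 := by
    have h6 : P.b ^ 4 ≤ P.b ^ 21 := Nat.pow_le_pow_right P.b_pos (by norm_num)
    have h7 : 4 * P.b ^ 21 ≤ P.b ^ 22 := P.absorb (by have := P.b_big; omega) 21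
    unfold h0
    omega
  have h6 : (2 : ℝ) * ((P.b : ℝ) ^ 21 + (P.b : ℝ) ^ 4) ≤ P.h0 := by exact_mod_cast h5
  have h7 : (2 : ℝ) * |(∑ v ∈ C.T Mi, P.cr j (Sum.inr p) v : ℝ)| ≤ P.h0 := by linarith
  exact_mod_cast h7

theorem exp_bound (hMi : ∀ ρ ∈ P.R, Mi ρ ⊆ C.S.Ch ρ ∧ #(Mi ρ) = P.hq ρ.2.1) {j : ℕ}
    (hj : j ∈ Icc 1 m) {i : ℕ ⊕ ℕ} (hi : i ∈ P.idx) :
    |∑ v ∈ C.T Mi, P.cr j i v| ≤ ((P.smax i * P.hq i : ℕ) : ℤ) := by
  have h74 : 3 * P.b ^ 74 ≤ 2 * P.X := by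
    have h1 : 3 * P.b ^ 74 ≤ P.b ^ 75 := P.absorb (by have := P.b_big; omega) 74
    have h2 : P.b ^ 75 ≤ P.b ^ 90 := Nat.pow_le_pow_right P.b_pos (by norm_num)
    unfold X
    omega
  rcases le_or_gt (nOf i) (P.b ^ 74) with hc | hc
  · -- small indices
    have h3 := C.abs_le_gen Mi hMi hj hi
    have h4 := P.E_D1 C.r C.hθ C.hθ' (mem_Icc.1 hj).2 i
    have e : P.smax i * P.hq i = P.b ^ 36 := by
      unfold smax hq h0
      rw [if_pos hc, if_pos (by omega)]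
      ring
    rw [e]
    have h5 : P.b ^ 35 + P.b ^ 4 ≤ P.b ^ 36 := by
      have h6 : P.b ^ 4 ≤ P.b ^ 35 := Nat.pow_le_pow_right P.b_pos (by norm_num)
      have h7 : 2 * P.b ^ 35 ≤ P.b ^ 36 := P.absorb (by have := P.b_big; omega) 35
      omega
    have h6 : (P.b : ℝ) ^ 35 + (P.b : ℝ) ^ 4 ≤ (P.b : ℝ) ^ 36 := by exact_mod_cast h5
    have h7 : |(∑ v ∈ C.T Mi, P.cr j i v : ℝ)| ≤ (P.b : ℝ) ^ 36 := by linarith
    exact_mod_cast h7
  obtain ⟨p, rfl, hp, hpP⟩ := idx_cases hi hc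
  have hn : nOf (Sum.inr p : ℕ ⊕ ℕ) = p := rfl
  rw [hn] at hc
  rcases le_or_gt (3 * p) (2 * P.X) with h2 | h2
  · -- the middle range
    have h3 := C.mid Mi hMi hj hp hc h2
    have e : P.smax (Sum.inr p) * P.hq (Sum.inr p) = P.h0 := by
      unfold smax hq
      rw [hn, if_neg (not_le.2 hc), if_pos h2, one_mul]
    rw [e]
    have h4 := abs_nonneg (∑ v ∈ C.T Mi, P.cr j (Sum.inr p) v)
    linarith
  · -- large primes
    have e : P.smax (Sum.inr p) * P.hq (Sum.inr p) = P.h1 := by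
      unfold smax hq
      rw [hn, if_neg (not_le.2 hc), if_neg (not_le.2 h2), one_mul]
    rw [e]
    have h3 := C.exp_eq Mi hMi hj hi
    rw [C.T2_zero hj hp h2, abs_zero, add_zero] at h3
    have h4 := P.E_D3 C.r C.hθ C.hθ' (mem_Icc.1 hj).2 hp h2 hpP
    have h5 : 2 * P.beta ≤ P.h1 := by
      have a1 := P.lt_h1
      have a2 := P.beta_le
      have a3 : 10 ^ 6 * P.K6 ≤ P.b := by
        refine le_trans ?_ P.K6_le
        refine Nat.mul_le_mul_left _ ?_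
        have hm := P.m_pos
        calc P.K6 = 1 * P.K6 * 1 := by ring
          _ ≤ m ^ 2 * P.K6 * (P.D0 + 1) := by
              refine Nat.mul_le_mul (Nat.mul_le_mul_right _ (Nat.one_le_pow _ _ hm)) (by omega)
      have a4 : P.b ^ 2 < P.h1 + 1 := by
        by_contra hcon
        push Not at hcon
        have a5 : P.K6 * (P.h1 + 1) ≤ P.K6 * P.b ^ 2 := Nat.mul_le_mul_left _ hcon
        have a6 : P.K6 * P.b ^ 2 ≤ P.b * P.b ^ 2 := Nat.mul_le_mul_right _ (by omega)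
        have a7 : P.b * P.b ^ 2 = P.B1 := by unfold B1; ring
        omega
      omega
    have h6 : (2 : ℝ) * P.beta ≤ P.h1 := by exact_mod_cast h5
    have h7 : |(∑ v ∈ C.T Mi, P.cr j (Sum.inr p) v : ℝ)| ≤
        |(∑ v ∈ C.T Mi, P.cr j (Sum.inr p) v : ℝ) - P.E C.r C.θ j (P.cF (Sum.inr p))| +
          |P.E C.r C.θ j (P.cF (Sum.inr p))| := by
      have := abs_add_le ((∑ v ∈ C.T Mi, P.cr j (Sum.inr p) v : ℝ) -
        P.E C.r C.θ j (P.cF (Sum.inr p))) (P.E C.r C.θ j (P.cF (Sum.inr p)))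
      simpa using this
    have h8 : |(∑ v ∈ C.T Mi, P.cr j (Sum.inr p) v : ℝ)| ≤ P.h1 := by linarith
    exact_mod_cast h8

/-- a better bound in the middle range -/
theorem exp_bound_mid (hMi : ∀ ρ ∈ P.R, Mi ρ ⊆ C.S.Ch ρ ∧ #(Mi ρ) = P.hq ρ.2.1) {j : ℕ}
    (hj : j ∈ Icc 1 m) {p : ℕ} (hp : p.Prime) (h1 : P.b ^ 74 < p) (h2 : 3 * p ≤ 2 * P.X) :
    2 * |∑ v ∈ C.T Mi, P.cr j (Sum.inr p) v| ≤ (P.h0 : ℤ) := C.mid Mi hMi hj hp h1 h2

end Cfg

end Par

end Pool.Agent.Lib.MP_176ace_nt.Gr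
end

section

set_option autoImplicit false

/-!
# Sel2: choice of the states (paper 221, Sections 7, 9)

`exists_muR`: choose `mu` for every pair `(j, i)` by `exists_mu` (`S = smax i`, `h = hq i`, `e = e j i`, bound
`exp_bound`); the requests with label `j` and index `i` are the `(j, i, s)`, `1 ≤ s ≤ smax i` (`smax i ≤ b^14`). For `i = inr p` with
`b^74 < p`, `smax = 1`, so `mu (j, inr p, 1) = e j (inr p)` and `exp_bound_mid` applies.
`exists_states`: let `p0` be a prime with `b^74 < p0`, `3 p0 ≤ 2 X` (Bertrand: `p0 ≤ 2 (b^74 + 1)`), `ρ_j = (j, inr p0, 1)`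
for `j = 1..m` (as `Fin m`, label `j.succ`). For `ρ` not one of the `ρ_j` let `Mi ρ` be any subset of `Ch ρ` with
`hq + mu ρ ∈ [0, 2 hq]` elements. For `ρ_j` let `Base_j ⊆ Ch ρ_j` have `hq + mu - 1` elements (`|mu| ≤ h0 / 2`, so this is `≥ 0`);
`Y j = Ch ρ_j \ Base_j` has `2 h0 - (h0 + mu - 1) ≥ h0 / 2 + 1 ≥ m + 1` elements. For `c ∈ ∏ Y j` put
`Mi ρ_j = insert (c j) Base_j`. `D_i (c) = ∑_{v ∈ T(Mi)} y_v / L_i v`; `bad i c` : `D_i (c) = 0`. By `sum_T` and `sum_T3`, changing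
only `c i` from `t` to `t'` changes `D_i` by `δ t - δ t'` (`δ` as in `delta_inj`), so at most one value of `c i` is bad.
Use `tuple`.
-/

namespace Pool.Agent.Lib.MP_176ace_nt.Gr

open Finset

namespace Par

variable {m : ℕ} {P : Par m} {d : ℕ} (C : P.Cfg d)

omit C in
private theorem smax_pos (P : Par m) (i : ℕ ⊕ ℕ) : 1 ≤ P.smax i := by
  unfold smax
  split_ifs
  · exact Nat.one_le_pow _ _ P.b_pos
  · exact le_refl 1

omit C in
private theorem smax_le (P : Par m) (i : ℕ ⊕ ℕ) : P.smax i ≤ P.b ^ 14 := by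
  unfold smax
  split_ifs
  · exact le_refl _
  · exact Nat.one_le_pow _ _ P.b_pos

omit C in
private theorem mem_R (P : Par m) (ρ : Req m) :
    ρ ∈ P.R ↔ ρ.1 ≠ 0 ∧ ρ.2.1 ∈ P.idx ∧ 1 ≤ ρ.2.2 ∧ ρ.2.2 ≤ P.smax ρ.2.1 := by
  unfold R
  rw [mem_filter, mem_product, mem_product, mem_Icc]
  have h := smax_le P ρ.2.1
  constructor
  · rintro ⟨⟨-, h1, h2, h3⟩, h4, h5⟩
    exact ⟨h4, h1, h2, h5⟩
  · rintro ⟨h4, h1, h2, h5⟩
    exact ⟨⟨mem_univ _, h1, h2, h5.trans h⟩, h4, h5⟩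

private theorem fin_mem {m : ℕ} {j : Fin (m + 1)} (hj : j ≠ 0) : (j : ℕ) ∈ Icc 1 m := by
  rw [mem_Icc]
  refine ⟨?_, Nat.lt_succ_iff.1 j.2⟩
  rw [Nat.one_le_iff_ne_zero]
  intro h
  exact hj (Fin.ext h)

private theorem sg_cases {m : ℕ} (W : Finset (Fin m)) : sg W = 1 ∨ sg W = -1 := by
  unfold sg
  exact neg_one_pow_eq_or ℤ _

private theorem signed_sum {m : ℕ} (G : Finset (Fin m) → ℚ) :
    ∑ W : Finset (Fin m), (sg W : ℚ) * G W =
      ∑ W : Finset (Fin m) with sg W = 1, G W - ∑ W : Finset (Fin m) with sg W = -1, G W := by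
  rw [sum_filter, sum_filter, ← sum_sub_distrib]
  refine sum_congr rfl fun W _ => ?_
  rcases sg_cases W with h | h
  · rw [h, if_pos rfl, if_neg (by norm_num)]
    push_cast
    ring
  · rw [h, if_neg (by norm_num), if_pos rfl]
    push_cast
    ring

namespace Cfg

/-- the dependence of a sum over the final set on the states -/
private theorem sum_T_states (Mi : Req m → Finset ℤ) (G : ℤ × ℤ → ℚ) :
    ∑ v ∈ C.T Mi, G v = (∑ v ∈ C.T1, G v + ∑ v ∈ C.T2, G v +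
      ∑ ρ ∈ P.R, ∑ y ∈ C.S.Ch ρ, ∑ W : Finset (Fin m) with sg W = 1, G (P.vx ρ y W)) -
      ∑ ρ ∈ P.R, ∑ y ∈ C.S.Ch ρ, (if y ∈ Mi ρ then
        ∑ W : Finset (Fin m), (sg W : ℚ) * G (P.vx ρ y W) else 0) := by
  rw [C.sum_T, P.sum_T3, add_sub_assoc, ← sum_sub_distrib]
  congr 1
  refine sum_congr rfl fun ρ _ => ?_
  rw [← sum_sub_distrib]
  refine sum_congr rfl fun y _ => ?_
  rw [signed_sum]
  by_cases h : y ∈ Mi ρ
  · simp only [if_pos h]
    ring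
  · simp only [if_neg h]
    ring

theorem exists_muR (Mi0 : Req m → Finset ℤ)
    (hMi0 : ∀ ρ ∈ P.R, Mi0 ρ ⊆ C.S.Ch ρ ∧ #(Mi0 ρ) = P.hq ρ.2.1) :
    ∃ mu : Req m → ℤ, (∀ ρ ∈ P.R, |mu ρ| ≤ P.hq ρ.2.1) ∧
      (∀ ρ ∈ P.R, ∀ p : ℕ, p.Prime → P.b ^ 74 < p → 3 * p ≤ 2 * P.X → ρ.2.1 = Sum.inr p →
        2 * |mu ρ| ≤ P.h0) ∧
      ∀ j ∈ Icc 1 m, ∀ i ∈ P.idx, ∑ ρ ∈ P.R with (ρ.1 : ℕ) = j ∧ ρ.2.1 = i, mu ρ =
        ∑ v ∈ C.T Mi0, P.cr j i v := by
  classical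
  have H : ∀ (j : ℕ) (i : ℕ ⊕ ℕ), ∃ mu : ℕ → ℤ, j ∈ Icc 1 m → i ∈ P.idx →
      (∀ s, |mu s| ≤ P.hq i) ∧ ∑ s ∈ Icc 1 (P.smax i), mu s = ∑ v ∈ C.T Mi0, P.cr j i v := by
    intro j i
    by_cases hj : j ∈ Icc 1 m
    · by_cases hi : i ∈ P.idx
      · obtain ⟨mu, h1, h2⟩ := exists_mu (∑ v ∈ C.T Mi0, P.cr j i v) (smax_pos P i)
          (C.exp_bound Mi0 hMi0 hj hi)
        exact ⟨mu, fun _ _ => ⟨h1, h2⟩⟩
      · exact ⟨0, fun _ h => absurd h hi⟩
    · exact ⟨0, fun h => absurd h hj⟩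
  choose M hM using H
  refine ⟨fun ρ => M ρ.1 ρ.2.1 ρ.2.2, ?_, ?_, ?_⟩
  · intro ρ hρ
    have h1 := (mem_R P ρ).1 hρ
    exact (hM _ _ (fin_mem h1.1) h1.2.1).1 _
  · intro ρ hρ p hp hp1 hp2 hρp
    have h1 := (mem_R P ρ).1 hρ
    have hs : P.smax ρ.2.1 = 1 := by
      rw [hρp]
      unfold smax nOf
      rw [if_neg]
      simpa using hp1
    have h2 := (hM _ _ (fin_mem h1.1) h1.2.1).2
    rw [hs, Icc_self, sum_singleton] at h2
    have h3 : ρ.2.2 = 1 := by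
      have := h1.2.2
      omega
    have h4 := C.exp_bound_mid Mi0 hMi0 (fin_mem h1.1) hp hp1 hp2
    have h5 : M ρ.1 ρ.2.1 ρ.2.2 = ∑ v ∈ C.T Mi0, P.cr ρ.1 (Sum.inr p) v := by
      rw [h3, h2, hρp]
    change 2 * |M ρ.1 ρ.2.1 ρ.2.2| ≤ (P.h0 : ℤ)
    rw [h5]
    exact h4
  · intro j hj i hi
    rw [← (hM j i hj hi).2]
    have hj' := mem_Icc.1 hj
    refine sum_nbij' (fun ρ => ρ.2.2) (fun s => (⟨j, by omega⟩, i, s)) ?_ ?_ ?_ ?_ ?_
    · intro ρ hρ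
      rw [mem_filter, mem_R] at hρ
      obtain ⟨⟨h1, h2, h3, h4⟩, h5, h6⟩ := hρ
      rw [mem_Icc]
      rw [h6] at h4
      exact ⟨h3, h4⟩
    · intro s hs
      rw [mem_Icc] at hs
      rw [mem_filter, mem_R]
      refine ⟨⟨?_, hi, hs.1, hs.2⟩, rfl, rfl⟩
      intro h
      have := congrArg Fin.val h
      simp at this
      omega
    · rintro ⟨a, b, s⟩ hρ
      rw [mem_filter] at hρ
      obtain ⟨-, h5, h6⟩ := hρ
      simp only at h5 h6
      subst h6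
      simp only [Prod.mk.injEq, and_true]
      exact Fin.ext h5.symm
    · intro s _
      rfl
    · rintro ⟨a, b, s⟩ hρ
      rw [mem_filter] at hρ
      obtain ⟨-, h5, h6⟩ := hρ
      simp only at h5 h6
      subst h6
      subst h5
      rfl

theorem exists_states (mu : Req m → ℤ) (h1 : ∀ ρ ∈ P.R, |mu ρ| ≤ P.hq ρ.2.1)
    (h2 : ∀ ρ ∈ P.R, ∀ p : ℕ, p.Prime → P.b ^ 74 < p → 3 * p ≤ 2 * P.X → ρ.2.1 = Sum.inr p →
      2 * |mu ρ| ≤ P.h0) :
    ∃ Mi : Req m → Finset ℤ,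
      (∀ ρ ∈ P.R, Mi ρ ⊆ C.S.Ch ρ ∧ (#(Mi ρ) : ℤ) = P.hq ρ.2.1 + mu ρ) ∧
      ∀ j ∈ Icc 1 m, ∑ v ∈ C.T Mi, (v.2 : ℚ) / L j v ≠ 0 := by
  classical
  have hb := P.b_big
  have hbp := P.b_pos
  -- the prime `p0`
  obtain ⟨p0, hp0, hlt, hle⟩ := Nat.exists_prime_lt_and_le_two_mul (P.b ^ 74)
    (pow_pos hbp 74).ne'
  have hX : 10 ^ 6 * (2 * P.b ^ 74) ≤ P.X := by
    have h3 : 2 * P.b ^ 74 ≤ P.b ^ 75 := P.absorb (by omega) 74
    have h4 : 10 ^ 6 * P.b ^ 75 ≤ P.b ^ 76 := P.absorb hb 75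
    have h5 : P.b ^ 76 ≤ P.X := Nat.pow_le_pow_right hbp (by norm_num)
    calc 10 ^ 6 * (2 * P.b ^ 74) ≤ 10 ^ 6 * P.b ^ 75 := Nat.mul_le_mul_left _ h3
      _ ≤ P.b ^ 76 := h4
      _ ≤ P.X := h5
  have h3p : 3 * p0 ≤ 2 * P.X := by omega
  have hidx : Sum.inr p0 ∈ P.idx := by
    unfold idx
    rw [mem_union]
    right
    refine mem_image_of_mem _ ?_
    rw [mem_filter, mem_Icc]
    refine ⟨⟨hp0.one_lt.le, ?_⟩, hp0, ?_⟩
    · have h5 := P.Ptop_eq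
      have h6 := P.mY_le
      have h7 : 2 * m * P.Y = 2 * (m * P.Y) := by ring
      omega
    · have h5 := P.Q0_lt
      have h6 : P.b ≤ P.b ^ 74 := Nat.le_self_pow (by norm_num) _
      omega
  have hρR : ∀ j : Fin m, ((j.succ, Sum.inr p0, 1) : Req m) ∈ P.R := by
    intro j
    rw [mem_R]
    exact ⟨Fin.succ_ne_zero j, hidx, le_refl 1, smax_pos P _⟩
  have hq0 : P.hq (Sum.inr p0) = P.h0 := by
    unfold hq nOf
    rw [if_pos]
    simpa using h3p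
  have hh0 : 2 * m + 2 ≤ P.h0 := by
    have h5 : 2 * m + 2 ≤ P.b := by
      have h6 := P.m_le
      have h7 := P.m_pos
      nlinarith
    exact h5.trans (Nat.le_self_pow (by norm_num) _)
  -- the states of the other requests
  have H1 : ∀ ρ : Req m, ∃ A : Finset ℤ, ρ ∈ P.R → A ⊆ C.S.Ch ρ ∧
      (#A : ℤ) = P.hq ρ.2.1 + mu ρ := by
    intro ρ
    by_cases hρ : ρ ∈ P.R
    · have h5 := abs_le.1 (h1 ρ hρ)
      have h6 := C.S.card ρ hρ
      have h7 : ((P.hq ρ.2.1 : ℤ) + mu ρ).toNat ≤ #(C.S.Ch ρ) := by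
        rw [h6]
        omega
      obtain ⟨A, hA, hA'⟩ := exists_subset_card_eq h7
      refine ⟨A, fun _ => ⟨hA, ?_⟩⟩
      rw [hA']
      omega
    · exact ⟨∅, fun h => absurd h hρ⟩
  choose Mi1 hMi1 using H1
  -- the special requests
  have H2 : ∀ j : Fin m, ∃ A : Finset ℤ, A ⊆ C.S.Ch (j.succ, Sum.inr p0, 1) ∧
      (#A : ℤ) = P.h0 + mu (j.succ, Sum.inr p0, 1) - 1 := by
    intro j
    have h5 := h2 _ (hρR j) p0 hp0 hlt h3p rfl
    have h6 := C.S.card _ (hρR j)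
    have h8 : P.hq ((j.succ, Sum.inr p0, 1) : Req m).2.1 = P.h0 := hq0
    rw [h8] at h6
    have h5' : |mu (j.succ, Sum.inr p0, 1)| * 2 ≤ (P.h0 : ℤ) := by linarith
    have h9 : mu (j.succ, Sum.inr p0, 1) ≤ |mu (j.succ, Sum.inr p0, 1)| := le_abs_self _
    have h10 : -mu (j.succ, Sum.inr p0, 1) ≤ |mu (j.succ, Sum.inr p0, 1)| := neg_le_abs _
    have h7 : ((P.h0 : ℤ) + mu (j.succ, Sum.inr p0, 1) - 1).toNat ≤
        #(C.S.Ch (j.succ, Sum.inr p0, 1)) := by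
      rw [h6]
      omega
    obtain ⟨A, hA, hA'⟩ := exists_subset_card_eq h7
    refine ⟨A, hA, ?_⟩
    rw [hA']
    omega
  choose Base hBase hBase' using H2
  have hY : ∀ j : Fin m, m + 1 ≤ #(C.S.Ch (j.succ, Sum.inr p0, 1) \ Base j) := by
    intro j
    have h5 := h2 _ (hρR j) p0 hp0 hlt h3p rfl
    have h6 := C.S.card _ (hρR j)
    have h8 : P.hq ((j.succ, Sum.inr p0, 1) : Req m).2.1 = P.h0 := hq0
    rw [h8] at h6
    have h9 : mu (j.succ, Sum.inr p0, 1) ≤ |mu (j.succ, Sum.inr p0, 1)| := le_abs_self _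
    have h10 := card_sdiff_add_card_eq_card (hBase j)
    have h11 := hBase' j
    omega
  -- the states
  let Mi : (Fin m → ℤ) → Req m → Finset ℤ := fun c ρ =>
    if h : ∃ j : Fin m, ρ = (j.succ, Sum.inr p0, 1) then insert (c h.choose) (Base h.choose)
    else Mi1 ρ
  have hMi_s : ∀ (c : Fin m → ℤ) (j : Fin m), Mi c (j.succ, Sum.inr p0, 1) =
      insert (c j) (Base j) := by
    intro c j
    have hex : ∃ j' : Fin m, ((j.succ, Sum.inr p0, 1) : Req m) = (j'.succ, Sum.inr p0, 1) :=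
      ⟨j, rfl⟩
    have h5 : hex.choose = j := by
      have h6 := hex.choose_spec
      have h7 : j.succ = hex.choose.succ := congrArg Prod.fst h6
      exact (Fin.succ_injective _ h7).symm
    change (if h : ∃ j' : Fin m, ((j.succ, Sum.inr p0, 1) : Req m) = (j'.succ, Sum.inr p0, 1)
      then insert (c h.choose) (Base h.choose) else Mi1 (j.succ, Sum.inr p0, 1)) = _
    rw [dif_pos hex, h5]
  have hMi_o : ∀ (c : Fin m → ℤ) (ρ : Req m), (¬ ∃ j : Fin m, ρ = (j.succ, Sum.inr p0, 1)) →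
      Mi c ρ = Mi1 ρ := by
    intro c ρ h
    change (if h : ∃ j' : Fin m, ρ = (j'.succ, Sum.inr p0, 1)
      then insert (c h.choose) (Base h.choose) else Mi1 ρ) = _
    rw [dif_neg h]
  obtain ⟨c, hcY, hbad⟩ := tuple (fun j => C.S.Ch (j.succ, Sum.inr p0, 1) \ Base j) hY
    (fun i c => ∑ v ∈ C.T (Mi c), (v.2 : ℚ) / L ((i : ℕ) + 1) v = 0) (by
      intro i c t ht t' ht' hb1 hb2
      rw [mem_sdiff] at ht ht'
      refine delta_inj hp0 (hρR i) ?_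
      set G : ℤ × ℤ → ℚ := fun v => (v.2 : ℚ) / L ((i : ℕ) + 1) v with hG
      have e1 := C.sum_T_states (Mi (Function.update c i t)) G
      have e2 := C.sum_T_states (Mi (Function.update c i t')) G
      rw [hb1] at e1
      rw [hb2] at e2
      have e3 : ∑ ρ ∈ P.R, ∑ y ∈ C.S.Ch ρ, (if y ∈ Mi (Function.update c i t) ρ then
          ∑ W : Finset (Fin m), (sg W : ℚ) * G (P.vx ρ y W) else 0) =
          ∑ ρ ∈ P.R, ∑ y ∈ C.S.Ch ρ, (if y ∈ Mi (Function.update c i t') ρ then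
          ∑ W : Finset (Fin m), (sg W : ℚ) * G (P.vx ρ y W) else 0) := by linarith
      rw [← add_sum_erase _ _ (hρR i), ← add_sum_erase _ _ (hρR i)] at e3
      have e4 : ∑ ρ ∈ P.R.erase (i.succ, Sum.inr p0, 1), ∑ y ∈ C.S.Ch ρ,
          (if y ∈ Mi (Function.update c i t) ρ then
          ∑ W : Finset (Fin m), (sg W : ℚ) * G (P.vx ρ y W) else 0) =
          ∑ ρ ∈ P.R.erase (i.succ, Sum.inr p0, 1), ∑ y ∈ C.S.Ch ρ,
          (if y ∈ Mi (Function.update c i t') ρ then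
          ∑ W : Finset (Fin m), (sg W : ℚ) * G (P.vx ρ y W) else 0) := by
        refine sum_congr rfl fun ρ hρ => ?_
        rw [mem_erase] at hρ
        have h5 : Mi (Function.update c i t) ρ = Mi (Function.update c i t') ρ := by
          by_cases hex : ∃ j : Fin m, ρ = (j.succ, Sum.inr p0, 1)
          · obtain ⟨j, hj⟩ := hex
            have hji : j ≠ i := by
              intro h
              apply hρ.1
              rw [hj, h]
            rw [hj, hMi_s, hMi_s, Function.update_of_ne hji, Function.update_of_ne hji]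
          · rw [hMi_o _ _ hex, hMi_o _ _ hex]
        rw [h5]
      rw [e4] at e3
      have e5 := add_right_cancel e3
      have e6 : ∀ τ : ℤ, τ ∈ C.S.Ch (i.succ, Sum.inr p0, 1) → τ ∉ Base i →
          ∑ y ∈ C.S.Ch (i.succ, Sum.inr p0, 1),
          (if y ∈ Mi (Function.update c i τ) (i.succ, Sum.inr p0, 1) then
          ∑ W : Finset (Fin m), (sg W : ℚ) * G (P.vx (i.succ, Sum.inr p0, 1) y W) else 0) =
          (∑ W : Finset (Fin m), (sg W : ℚ) * G (P.vx (i.succ, Sum.inr p0, 1) τ W)) +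
          ∑ y ∈ Base i, ∑ W : Finset (Fin m), (sg W : ℚ) *
            G (P.vx (i.succ, Sum.inr p0, 1) y W) := by
        intro τ hτ hτ'
        rw [hMi_s, Function.update_self, ← sum_filter]
        have h5 : (C.S.Ch (i.succ, Sum.inr p0, 1)).filter (fun y => y ∈ insert τ (Base i)) =
            insert τ (Base i) := by
          rw [filter_mem_eq_inter]
          exact inter_eq_right.2 (insert_subset hτ (hBase i))
        rw [h5, sum_insert hτ']
      rw [e6 t ht.1 ht.2, e6 t' ht'.1 ht'.2] at e5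
      have e7 := add_right_cancel e5
      simp only [hG] at e7
      have h8 : ((i.succ : Fin (m + 1)) : ℕ) = (i : ℕ) + 1 := Fin.val_succ i
      rw [h8]
      exact e7)
  refine ⟨Mi c, ?_, ?_⟩
  · intro ρ hρ
    by_cases hex : ∃ j : Fin m, ρ = (j.succ, Sum.inr p0, 1)
    · obtain ⟨j, hj⟩ := hex
      subst hj
      have h5 := hcY j
      rw [mem_sdiff] at h5
      rw [hMi_s]
      refine ⟨insert_subset h5.1 (hBase j), ?_⟩
      rw [card_insert_of_notMem h5.2]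
      push_cast
      rw [hBase' j]
      change (P.h0 : ℤ) + mu (j.succ, Sum.inr p0, 1) - 1 + 1 =
        P.hq (Sum.inr p0) + mu (j.succ, Sum.inr p0, 1)
      rw [hq0]
      ring
    · rw [hMi_o _ _ hex]
      exact hMi1 ρ hρ
  · intro j hj
    rw [mem_Icc] at hj
    have h5 := hbad ⟨j - 1, by omega⟩
    simp only at h5
    have h6 : j - 1 + 1 = j := by omega
    rw [h6] at h5
    exact h5

end Cfg

end Par

end Pool.Agent.Lib.MP_176ace_nt.Gr
end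

section

set_option autoImplicit false

/-!
# ThmB: completely split polynomials with many equal values

`exists_T`: `exists_cfg`, some `Mi0` with `#(Mi0 ρ) = hq` (subset of `Ch ρ`, which has `2 hq` elements), `exists_muR`,
`exists_states`, `balance`, `T_pos`, `T_card`, `T_V`, `C.T2_big`.
`thmB`: `exists_par`, `choose_b`; `a v = - v.1 / v.2` for `v ∈ T`, so `j - a v = L_j v / v.2`; injective by `V_inj`. The products
over `T` of `L_j` are positive and their absolute values agree, `v.2 > 0` (`V_y`). `∑ 1 / (j - a v) = ∑ v.2 / L_j v`.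
Enumerate `T` by `Fin d` (`Finset.equivFinOfCardEq`).
-/

namespace Pool.Agent.Lib.MP_176ace_nt.Gr

open Finset

theorem Par.exists_T {m : ℕ} (P : Par m) {d : ℕ}
    (h1 : 2 * m * P.b ^ 115 + (m + 2) + (2 * m * P.b + 1) ≤ d)
    (h2 : d ≤ 50 * m * P.b ^ 115 + (m + 2) + (2 * m * P.b + 1)) :
    ∃ T : Finset (ℤ × ℤ), #T = d ∧ T ⊆ P.V ∧
      (∀ j ∈ Icc 1 m, ∏ v ∈ T, (L j v).natAbs = ∏ v ∈ T, (L 0 v).natAbs) ∧
      (∀ j ∈ Icc 1 m, 0 < ∏ v ∈ T, L j v) ∧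
      (∀ j ∈ Icc 1 m, ∑ v ∈ T, (v.2 : ℚ) / L j v ≠ 0) ∧
      ∃ v ∈ T, (m : ℤ) * v.2 < -v.1 := by
  classical
  obtain ⟨C⟩ := P.exists_cfg h1 h2
  have H : ∀ ρ : Req m, ∃ A : Finset ℤ, ρ ∈ P.R → A ⊆ C.S.Ch ρ ∧ #A = P.hq ρ.2.1 := by
    intro ρ
    by_cases hρ : ρ ∈ P.R
    · have h3 := C.S.card ρ hρ
      obtain ⟨A, hA, hA'⟩ := exists_subset_card_eq (s := C.S.Ch ρ) (n := P.hq ρ.2.1) (by omega)
      exact ⟨A, fun _ => ⟨hA, hA'⟩⟩
    · exact ⟨∅, fun h => absurd h hρ⟩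
  choose Mi0 hMi0 using H
  obtain ⟨mu, m1, m2, m3⟩ := C.exists_muR Mi0 hMi0
  obtain ⟨Mi, hMi, hd⟩ := C.exists_states mu m1 m2
  refine ⟨C.T Mi, C.T_card Mi, C.T_V Mi, ?_, ?_, hd, ?_⟩
  · intro j hj
    exact C.balance Mi0 Mi hMi0 mu hMi hj (m3 j hj)
  · intro j hj
    exact C.T_pos Mi hj
  · obtain ⟨v, hv, h⟩ := C.T2_big
    refine ⟨v, ?_, h⟩
    unfold Par.Cfg.T
    exact mem_union_left _ (mem_union_right _ hv)

theorem thmB (m : ℕ) (hm : 2 ≤ m) : ∃ d0 : ℕ, ∀ d ≥ d0, ∃ a : Fin d → ℚ,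
    Function.Injective a ∧ (∀ j ∈ Icc 1 m, ∏ i, ((j : ℚ) - a i) = ∏ i, (1 - a i)) ∧
      0 < ∏ i, (1 - a i) ∧ (∀ j ∈ Icc 1 m, ∑ i, 1 / ((j : ℚ) - a i) ≠ 0) ∧
      ∃ i, (m : ℚ) < a i := by
  classical
  obtain ⟨b0, hb0⟩ := exists_par hm
  obtain ⟨d0, hd0⟩ := choose_b m hm b0
  refine ⟨d0, fun d hd => ?_⟩
  obtain ⟨b, hb, h1, h2⟩ := hd0 d hd
  obtain ⟨P, hP⟩ := hb0 b hb
  rw [← hP] at h1 h2
  obtain ⟨T, hTc, hTV, hbal, hpos, hder, v0, hv0, hbig⟩ := P.exists_T h1 h2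
  have hy : ∀ v ∈ T, (0 : ℚ) < v.2 := by
    intro v hv
    exact_mod_cast (P.V_y (hTV hv)).2.1
  let e : {v // v ∈ T} ≃ Fin d := T.equivFinOfCardEq hTc
  let α : ℤ × ℤ → ℚ := fun v => -(v.1 : ℚ) / (v.2 : ℚ)
  have hα : ∀ v ∈ T, ∀ j : ℕ, (j : ℚ) - α v = (L j v : ℚ) / (v.2 : ℚ) := by
    intro v hv j
    have := (hy v hv).ne'
    simp only [α, L]
    push_cast
    field_simp
    ring
  have hprod : ∀ f : ℤ × ℤ → ℚ, ∏ i : Fin d, f (e.symm i).1 = ∏ v ∈ T, f v := by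
    intro f
    rw [← Finset.prod_coe_sort T f]
    exact Equiv.prod_comp e.symm (fun v : {v // v ∈ T} => f v.1)
  have hsum : ∀ f : ℤ × ℤ → ℚ, ∑ i : Fin d, f (e.symm i).1 = ∑ v ∈ T, f v := by
    intro f
    rw [← Finset.sum_coe_sort T f]
    exact Equiv.sum_comp e.symm (fun v : {v // v ∈ T} => f v.1)
  have hval : ∀ j ∈ Icc 1 m, ∏ i : Fin d, ((j : ℚ) - α (e.symm i).1) =
      ((∏ v ∈ T, (L 0 v).natAbs : ℕ) : ℚ) / ∏ v ∈ T, (v.2 : ℚ) := by
    intro j hj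
    rw [hprod (fun v => (j : ℚ) - α v), Finset.prod_congr rfl (fun v hv => hα v hv j),
      Finset.prod_div_distrib]
    congr 1
    rw [← hbal j hj]
    have h3 : ((∏ v ∈ T, (L j v).natAbs : ℕ) : ℤ) = ∏ v ∈ T, L j v := by
      rw [Nat.cast_prod]
      simp only [Int.natCast_natAbs]
      rw [← Finset.abs_prod]
      exact abs_of_pos (hpos j hj)
    have h4 : (((∏ v ∈ T, (L j v).natAbs : ℕ) : ℤ) : ℚ) = ((∏ v ∈ T, L j v : ℤ) : ℚ) := by
      rw [h3]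
    rw [Int.cast_natCast] at h4
    rw [h4]
    push_cast
    rfl
  have h1m : 1 ∈ Icc 1 m := mem_Icc.2 ⟨le_refl 1, by omega⟩
  have hone : ∏ i : Fin d, ((1 : ℚ) - α (e.symm i).1) =
      ((∏ v ∈ T, (L 0 v).natAbs : ℕ) : ℚ) / ∏ v ∈ T, (v.2 : ℚ) := by
    have := hval 1 h1m
    rw [Nat.cast_one] at this
    exact this
  refine ⟨fun i => α (e.symm i).1, ?_, ?_, ?_, ?_, ?_⟩
  · intro i i' h
    have h3 : α (e.symm i).1 = α (e.symm i').1 := h
    simp only [α] at h3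
    rw [div_eq_div_iff (hy _ (e.symm i).2).ne' (hy _ (e.symm i').2).ne'] at h3
    have h4 : (e.symm i).1.1 * (e.symm i').1.2 = (e.symm i').1.1 * (e.symm i).1.2 := by
      have h5 : ((e.symm i).1.1 : ℚ) * ((e.symm i').1.2 : ℚ) =
          ((e.symm i').1.1 : ℚ) * ((e.symm i).1.2 : ℚ) := by linarith
      exact_mod_cast h5
    have h5 := P.V_inj (hTV (e.symm i).2) (hTV (e.symm i').2) h4
    exact e.symm.injective (Subtype.ext h5)
  · intro j hj
    show ∏ i : Fin d, ((j : ℚ) - α (e.symm i).1) = ∏ i : Fin d, ((1 : ℚ) - α (e.symm i).1)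
    rw [hval j hj, hone]
  · show 0 < ∏ i : Fin d, ((1 : ℚ) - α (e.symm i).1)
    rw [hone]
    apply div_pos
    · have h3 := hbal 1 h1m
      rw [← h3]
      have h4 : 0 < ∏ v ∈ T, (L 1 v).natAbs :=
        Finset.prod_pos fun v hv => Int.natAbs_pos.2 (P.V_L_ne (hTV hv) 1)
      exact_mod_cast h4
    · exact Finset.prod_pos hy
  · intro j hj
    show ∑ i : Fin d, 1 / ((j : ℚ) - α (e.symm i).1) ≠ 0
    rw [hsum (fun v => 1 / ((j : ℚ) - α v))]
    have h3 : ∑ v ∈ T, 1 / ((j : ℚ) - α v) = ∑ v ∈ T, (v.2 : ℚ) / L j v := by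
      apply Finset.sum_congr rfl
      intro v hv
      rw [hα v hv j, one_div_div]
    rw [h3]
    exact hder j hj
  · refine ⟨e ⟨v0, hv0⟩, ?_⟩
    show (m : ℚ) < α (e.symm (e ⟨v0, hv0⟩)).1
    rw [Equiv.symm_apply_apply]
    simp only [α]
    rw [lt_div_iff₀ (hy v0 hv0)]
    exact_mod_cast hbig

end Pool.Agent.Lib.MP_176ace_nt.Gr
end
end

section

set_option autoImplicit false

/-!
From `d` distinct rational numbers `a i` with `∏ (j - a i)` equal for `j = 1, ..., g` to number fields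
of degree `d` whose class group has `m`-rank at least `⌊d / 2⌋ + g`.
-/

namespace Pool.Agent.Lib.MP_176ace_nt.Gr

open NumberField

/-- The configuration attached to `a` and the points `1, ..., g`. -/
theorem cfg_of {d g : ℕ} (a : Fin d → ℚ) (ha : Function.Injective a)
    (hval : ∀ j ∈ Finset.Icc 1 g, ∏ i, ((j : ℚ) - a i) = ∏ i, (1 - a i))
    (hpos : 0 < ∏ i, (1 - a i))
    (hder : ∀ j ∈ Finset.Icc 1 g, ∑ i, 1 / ((j : ℚ) - a i) ≠ 0) (hbig : ∃ i, (g : ℚ) < a i) :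
    Cfg ((Finset.Icc 1 g).image fun j : ℕ => (j : ℚ)) (Finset.univ.image a) := by
  classical
  refine ⟨⟨∏ i, (1 - a i), hpos, ?_⟩, ?_, ?_⟩
  · intro b hb
    obtain ⟨j, hj, rfl⟩ := Finset.mem_image.1 hb
    rw [Finset.prod_image fun x _ y _ h => ha h]
    exact hval j hj
  · intro b hb
    obtain ⟨j, hj, rfl⟩ := Finset.mem_image.1 hb
    rw [Finset.sum_image fun x _ y _ h => ha h]
    simpa only [one_div] using hder j hj
  · obtain ⟨i, hi⟩ := hbig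
    refine ⟨a i, Finset.mem_image_of_mem a (Finset.mem_univ i), fun b hb => ?_⟩
    obtain ⟨j, hj, rfl⟩ := Finset.mem_image.1 hb
    refine lt_of_le_of_lt ?_ hi
    exact_mod_cast (Finset.mem_Icc.1 hj).2

theorem rank_of_points {d g : ℕ} (hg : 1 ≤ g) (a : Fin d → ℚ) (ha : Function.Injective a)
    (hval : ∀ j ∈ Finset.Icc 1 g, ∏ i, ((j : ℚ) - a i) = ∏ i, (1 - a i))
    (hpos : 0 < ∏ i, (1 - a i))
    (hder : ∀ j ∈ Finset.Icc 1 g, ∑ i, 1 / ((j : ℚ) - a i) ≠ 0) (hbig : ∃ i, (g : ℚ) < a i)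
    {m : ℕ} (hm : 0 < m) :
    ∃ (K : Type) (_ : Field K) (_ : NumberField K), Module.finrank ℚ K = d ∧
      ∃ f : Multiplicative (Fin (d / 2 + g) → ZMod m) →* ClassGroup (𝓞 K),
        Function.Injective f := by
  classical
  have h1 := cfg_of a ha hval hpos hder hbig
  have hT : ((Finset.Icc 1 g).image fun j : ℕ => (j : ℚ)).card = g := by
    rw [Finset.card_image_of_injective _ Nat.cast_injective, Nat.card_Icc, Nat.add_sub_cancel]
  have hS : (Finset.univ.image a).card = d := by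
    rw [Finset.card_image_of_injective _ ha, Finset.card_univ, Fintype.card_fin]
  have hne : ((Finset.Icc 1 g).image fun j : ℕ => (j : ℚ)).Nonempty :=
    (Finset.nonempty_Icc.2 hg).image _
  have h2 := rank_of_cfg h1 hne hm
  rw [hT, hS] at h2
  exact h2

/-- Restricting to fewer factors. -/
theorem rank_mono {G : Type*} [CommGroup G] {m r r' : ℕ} (h : r ≤ r')
    (f : Multiplicative (Fin r' → ZMod m) →* G) (hf : Function.Injective f) :
    ∃ f' : Multiplicative (Fin r → ZMod m) →* G, Function.Injective f' := by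
  let e : (Fin r → ZMod m) →+ (Fin r' → ZMod m) :=
    { toFun := fun v j => if h : (j : ℕ) < r then v ⟨j, h⟩ else 0
      map_zero' := by
        funext j
        simp
      map_add' := fun v w => by
        funext j
        by_cases hj : (j : ℕ) < r
        · simp [hj]
        · simp [hj] }
  have he : Function.Injective e := by
    intro v w hvw
    funext j
    have h1 := congrFun hvw (Fin.castLE h j)
    have h2 : ((Fin.castLE h j : Fin r') : ℕ) < r := j.2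
    have h3 : ∀ u : Fin r → ZMod m, e u (Fin.castLE h j) = u j := by
      intro u
      show (if h' : ((Fin.castLE h j : Fin r') : ℕ) < r then u ⟨_, h'⟩ else 0) = u j
      rw [dif_pos h2]
      rfl
    rw [h3, h3] at h1
    exact h1
  refine ⟨f.comp (AddMonoidHom.toMultiplicative e), ?_⟩
  intro v w hvw
  exact he (hf hvw)

/-- The growing gain, from the existence of the points. -/
theorem growing_of
    (H : ∀ g : ℕ, 2 ≤ g → ∃ d0 : ℕ, ∀ d ≥ d0, ∃ a : Fin d → ℚ, Function.Injective a ∧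
      (∀ j ∈ Finset.Icc 1 g, ∏ i, ((j : ℚ) - a i) = ∏ i, (1 - a i)) ∧
      0 < ∏ i, (1 - a i) ∧
      (∀ j ∈ Finset.Icc 1 g, ∑ i, 1 / ((j : ℚ) - a i) ≠ 0) ∧
      ∃ i, (g : ℚ) < a i) (R : ℕ) :
    ∃ d0 : ℕ, ∀ d ≥ d0, ∀ m : ℕ, 1 < m →
      ∃ (K : Type) (_ : Field K) (_ : NumberField K), Module.finrank ℚ K = d ∧
        ∃ f : Multiplicative (Fin (d / 2 + R) → ZMod m) →* ClassGroup (𝓞 K),
          Function.Injective f := by
  obtain ⟨d0, h0⟩ := H (R + 2) (by omega)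
  refine ⟨d0, fun d hd m hm => ?_⟩
  obtain ⟨a, h1, h2, h3, h4, h5⟩ := h0 d hd
  obtain ⟨K, i1, i2, hK, f, hf⟩ := rank_of_points (by omega) a h1 h2 h3 h4 h5 (m := m) (by omega)
  obtain ⟨f', hf'⟩ := rank_mono (show d / 2 + R ≤ d / 2 + (R + 2) by omega) f hf
  exact ⟨K, i1, i2, hK, f', hf'⟩

end Pool.Agent.Lib.MP_176ace_nt.Gr
end
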